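import Pool.Agent.H21.MT.Dat
import Pool.Agent.H21.MT.QbD

/-!
MP_8923e7_nt, project SH (sharp Maynard sieve).  The data (definitions only).

All losses are `1 + O(ε)`: the level of the basic weights is `x^ε`, the budget is `ε`, and the small
primes are removed up to `D ≥ 1000 K^2/ε^2`.
-/

namespace Pool.Agent.H21.SH

open Finset Pool.Agent.H21.MT

/-- The data of the sharp sieve. -/
structure Dt (I : Type) [Fintype I] [DecidableEq I] where
  ε : ℝ
  h : I → ℕ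
  tau : I → ℝ
  l : I → ℕ
  W : ℕ
  D : ℕ
  b : ℕ
  eps_pos : 0 < ε
  eps_le : ε ≤ 1 / 100
  tau_pos : ∀ i, 0 < tau i
  l_tau : ∀ i, (2 : ℝ) ^ l i * tau i ≤ 1 / 2
  budget : ∑ i, ((l i : ℝ) + 1) * tau i ≤ ε
  W_pos : 0 < W
  D_large : 1000 * (Fintype.card I : ℝ) ^ 2 / ε ^ 2 ≤ D
  D_dvd : ∀ p : ℕ, p.Prime → p < D → p ∣ W
  diff_dvd : ∀ i j, i ≠ j → ∀ p : ℕ, p.Prime → (p : ℤ) ∣ (h i : ℤ) - h j → p ∣ W
  b_cop : ∀ i, Nat.Coprime (b + h i) W

/-- total mass of the window, weight `gw` -/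
noncomputable def XG (x : ℝ) : ℝ := ∑ N ∈ Win x, gw x N

/-- the primes of the sieve go up to `x^(1/4)` -/
noncomputable def Zx (x : ℝ) : ℝ := x ^ (1 / 4 : ℝ)

/-- the constant of the second moment of the profile -/
noncomputable def bl (l : ℕ) : ℝ := 3 / 2 - (1 / 2 : ℝ) ^ (l + 1)

/-- the probability that `N + h i` is prime, as predicted: `ε τ (l+2)^2 / (4 b_l)` -/
noncomputable def psv (ε τ : ℝ) (l : ℕ) : ℝ := ε * τ * ((l : ℝ) + 2) ^ 2 / (4 * bl l)

namespace Dt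

variable {I : Type} [Fintype I] [DecidableEq I] (δ : Dt I)

/-- basic level `x^ε` -/
noncomputable def R0 (x : ℝ) : ℝ := x ^ δ.ε

/-- scale of the profile -/
noncomputable def z (x : ℝ) (i : I) : ℝ := (δ.R0 x) ^ (δ.tau i)

/-- the profile -/
noncomputable def g (x : ℝ) (i : I) : ℕ → ℝ := prof (δ.z x i) (δ.l i)

/-- the primes of the sieve: primes `≤ x^(1/4)` not dividing `W` -/
noncomputable abbrev P (x : ℝ) : PIdx δ.W (Zx x) → ℕ := Pv δ.W (Zx x)

noncomputable def A (x : ℝ) (i : I) : ℝ := SS (δ.P x) (δ.g x i)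

noncomputable def B (x : ℝ) (i : I) : ℝ := SS (δ.P x) (fun b => δ.g x i b ^ 2)

/-- the function `F` -/
noncomputable def F (x : ℝ) : (PIdx δ.W (Zx x) → Option I) → ℝ := FF (δ.P x) (δ.g x) (δ.R0 x)

/-- the sieve weights -/
noncomputable def lam (x : ℝ) : (PIdx δ.W (Zx x) → Option I) → ℝ := lamF (δ.P x) (δ.F x)

/-- density `φ(W)/W` -/
noncomputable def V : ℝ := (δ.W.totient : ℝ) / δ.W

/-- the integers of the window in the residue class -/
noncomputable def WinB (x : ℝ) : Finset ℕ := (Win x).filter (fun N => N % δ.W = δ.b % δ.W)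

/-- the sieve measure (unnormalised) -/
noncomputable def om (x : ℝ) (N : ℕ) : ℝ := gw x N * (sig (δ.P x) δ.h (δ.lam x) N) ^ 2

/-- total mass -/
noncomputable def S1 (x : ℝ) : ℝ := ∑ N ∈ δ.WinB x, δ.om x N

/-- level of one Selberg step, when `s` steps are made: `x^((1/4 - 2ε)/max(1,s))` -/
noncomputable def yy (x : ℝ) (s : ℕ) : ℝ := x ^ ((1 / 4 - 2 * δ.ε) / (max 1 s : ℕ))

/-- predicted probability -/
noncomputable def ps (i : I) : ℝ := psv δ.ε (δ.tau i) (δ.l i)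

/-- main term of the mass of the `N` with `N + h j` prime for `j ∈ insert m S` -/
noncomputable def M0 (x : ℝ) (m : I) (S : Finset I) : ℝ :=
  δ.A x m ^ 2 * (∏ j ∈ S, δ.A x j ^ 2 / HH (δ.P x) (δ.yy x S.card)) *
    ∏ i ∈ univ \ insert m S, δ.B x i

end Dt

end Pool.Agent.H21.SH
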