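import Pool.Agent.H21.MT.GwA
import Pool.Agent.H21.MT.Triv
import Pool.Agent.H21.SH.Dt

/-!
[H21 SH GX]  Sums of the weight `gw` over the integers of the window.

Proofs.  As `Pool/Agent/H21/MT/GwA.lean` for `wN`; unimodality of `gw`: `triv_gw_up`, `triv_gw_down`
in `Pool/Agent/H21/MT/Triv.lean`.
* `gw_apx`: `ap_sum` with `t = ⌊x⌋₊`, `B = 1`.
* `gw_massx`: lower bound: the `N` in `(x/2, x]` have `gw ≥ exp(-(log 2)^2/2) ≥ 1/2`; upper bound `triv_G`.
-/

namespace Pool.Agent.H21.SH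

open Finset Filter Pool.Agent.H21.MT

private theorem gx_up {x : ℝ} (hx : 1 ≤ x) (k : ℕ) (hk0 : 0 < k) (hk : k < ⌊x⌋₊) :
    gw x k ≤ gw x (k + 1) := by
  have hx0 : 0 < x := by linarith
  have hk' : (k : ℝ) + 1 ≤ x := by
    have h1 : k + 1 ≤ ⌊x⌋₊ := hk
    have h2 := (Nat.le_floor_iff hx0.le).mp h1
    push_cast at h2
    exact h2
  have hkpos : (0 : ℝ) < k := by exact_mod_cast hk0
  unfold gw
  apply Real.exp_le_exp.mpr
  have h1 : Real.log ((k : ℝ) / x) ≤ Real.log (((k + 1 : ℕ) : ℝ) / x) := by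
    apply Real.log_le_log (by positivity)
    apply div_le_div_of_nonneg_right _ hx0.le
    push_cast
    linarith
  have h2 : Real.log (((k + 1 : ℕ) : ℝ) / x) ≤ 0 := by
    apply Real.log_nonpos (by positivity)
    rw [div_le_one hx0]
    push_cast
    exact hk'
  have h3 : (Real.log (((k + 1 : ℕ) : ℝ) / x)) ^ 2 ≤ (Real.log ((k : ℝ) / x)) ^ 2 := by
    nlinarith
  linarith

private theorem gx_down {x : ℝ} (hx : 1 ≤ x) (k : ℕ) (hk : ⌊x⌋₊ < k) :
    gw x (k + 1) ≤ gw x k := by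
  have hx0 : 0 < x := by linarith
  have hk' : x < k := Nat.lt_of_floor_lt hk
  have hkpos : (0 : ℝ) < k := by linarith
  unfold gw
  apply Real.exp_le_exp.mpr
  have h1 : Real.log ((k : ℝ) / x) ≤ Real.log (((k + 1 : ℕ) : ℝ) / x) := by
    apply Real.log_le_log (by positivity)
    apply div_le_div_of_nonneg_right _ hx0.le
    push_cast
    linarith
  have h2 : 0 ≤ Real.log ((k : ℝ) / x) := by
    apply Real.log_nonneg
    rw [one_le_div hx0]
    exact hk'.le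
  have h3 : (Real.log ((k : ℝ) / x)) ^ 2 ≤ (Real.log (((k + 1 : ℕ) : ℝ) / x)) ^ 2 := by
    nlinarith
  linarith

private theorem gx_le_wN (x : ℝ) (n : ℕ) : gw x n ≤ wN x n := by
  unfold gw wN
  apply Real.exp_le_exp.mpr
  have := sq_nonneg (Real.log ((n : ℝ) / x))
  linarith

theorem gw_apx : ∀ᶠ x : ℝ in atTop, ∀ q c : ℕ, 0 < q →
    |∑ N ∈ (Win x).filter (fun N => N % q = c % q), gw x N - XG x / q| ≤ 4 := by
  filter_upwards [eventually_ge_atTop (1 : ℝ)] with x hx q c hq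
  have h := ap_sum (gw x) ⌊Real.sqrt x⌋₊ ⌊x⌋₊ ⌊x ^ 2⌋₊ 1 (fun k => (gw_pos x k).le)
    (fun k => gw_le_one x k) (fun k hk hk' => gx_up hx k (by omega) hk')
    (fun k hk _ => gx_down hx k hk) q c hq
  simpa [Win, XG] using h

theorem gw_massx : ∀ᶠ x : ℝ in atTop, x / 8 ≤ XG x ∧ XG x ≤ 120 * x := by
  filter_upwards [eventually_ge_atTop (4 : ℝ), wN_mass] with x hx hwN
  have hx0 : 0 < x := by linarith
  unfold XG
  constructor
  · have hsub : Ioc ⌊x / 2⌋₊ ⌊x⌋₊ ⊆ Win x := by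
      unfold Win
      apply Ioc_subset_Ioc
      · apply Nat.floor_le_floor
        rw [Real.sqrt_le_left (by positivity)]
        nlinarith
      · apply Nat.floor_le_floor
        nlinarith
    have h1 : ∑ N ∈ Ioc ⌊x / 2⌋₊ ⌊x⌋₊, (1 / 2 : ℝ) ≤ ∑ N ∈ Ioc ⌊x / 2⌋₊ ⌊x⌋₊, gw x N := by
      refine sum_le_sum fun N hN => ?_
      obtain ⟨ha, hb⟩ := mem_Ioc.1 hN
      have ha' : x / 2 < N := (Nat.floor_lt (by positivity)).1 ha
      have hb' : (N : ℝ) ≤ x := (Nat.le_floor_iff hx0.le).1 hb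
      have hN0 : (0 : ℝ) < N := by linarith
      have h2 : Real.log ((N : ℝ) / x) ≤ 0 := Real.log_nonpos (by positivity) ((div_le_one hx0).2 hb')
      have h3 : -Real.log 2 ≤ Real.log ((N : ℝ) / x) := by
        rw [← Real.log_inv]
        apply Real.log_le_log (by norm_num)
        rw [le_div_iff₀ hx0]
        linarith
      have h4 := Real.log_two_lt_d9
      unfold gw
      have h5 : -(Real.log ((N : ℝ) / x)) ^ 2 / 2 ≥ -(1 / 2) := by nlinarith
      have h6 := Real.add_one_le_exp (-(Real.log ((N : ℝ) / x)) ^ 2 / 2)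
      linarith
    rw [sum_const, Nat.card_Ioc, nsmul_eq_mul] at h1
    have h2 : ∑ N ∈ Ioc ⌊x / 2⌋₊ ⌊x⌋₊, gw x N ≤ ∑ N ∈ Win x, gw x N :=
      sum_le_sum_of_subset_of_nonneg hsub fun N _ _ => (gw_pos x N).le
    have h3 : ⌊x / 2⌋₊ ≤ ⌊x⌋₊ := Nat.floor_le_floor (by linarith)
    rw [Nat.cast_sub h3] at h1
    have h4 := Nat.floor_le (show 0 ≤ x / 2 by positivity)
    have h5 := Nat.lt_floor_add_one x
    linarith
  · exact (sum_le_sum fun N _ => gx_le_wN x N).trans hwN.2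

end Pool.Agent.H21.SH
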