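import Mathlib

/-!
[H21 SH WI]  Windows of `m` neighbours.

Proofs.
* `windows`: let `n = F.card`, `e : Fin n ↪o ℕ` the increasing enumeration (`Finset.orderEmbOfFin`).  For
  `j ≤ n - m` the set `{e j, ..., e (j+m-1)}` is an `m`-subset of `F` which contains every element of `F`
  between its minimum and maximum; different `j` give different sets (different minima).  If `n < m`
  the left side is `≤ 0`... (`n - m + 1 ≤ 0`).
* `window_count`: `∑_N μ N #{B ∈ powersetCard m H | win B N} ≥ ∑_N μ N (|pat N| - m + 1) ≥ (1-δ) p |H| - m + 1`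
  where `pat N = {a ∈ H | (N + a).Prime}` and `win B N` means that `B` is a window of `pat N`; and each
  `∑_{N : win B N} μ N ≤ μ(all of B prime) ≤ c p^m`, and it is `0` unless it is positive.
-/

namespace Pool.Agent.H21.SH

open Finset

/-- `B` consists of neighbours in `F` -/
def IsWin (F B : Finset ℕ) : Prop :=
  B ⊆ F ∧ ∀ x ∈ F, ∀ a ∈ B, ∀ b ∈ B, a ≤ x → x ≤ b → x ∈ B

/-- the rank of `x` in `F` -/
def wiR (F : Finset ℕ) (x : ℕ) : ℕ := (F.filter (fun y => y < x)).card

theorem wiR_mono (F : Finset ℕ) {x y : ℕ} (h : x ≤ y) : wiR F x ≤ wiR F y := by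
  unfold wiR
  refine Finset.card_le_card fun a ha => ?_
  rw [Finset.mem_filter] at ha ⊢
  exact ⟨ha.1, by omega⟩

theorem wiR_lt (F : Finset ℕ) {x y : ℕ} (hx : x ∈ F) (h : x < y) : wiR F x < wiR F y := by
  unfold wiR
  refine Finset.card_lt_card ⟨fun a ha => ?_, fun hs => ?_⟩
  · rw [Finset.mem_filter] at ha ⊢
    exact ⟨ha.1, by omega⟩
  · have h1 : x ∈ F.filter (fun a => a < y) := Finset.mem_filter.2 ⟨hx, h⟩
    have h2 := (Finset.mem_filter.1 (hs h1)).2
    omega

theorem wiR_inj (F : Finset ℕ) {x y : ℕ} (hx : x ∈ F) (hy : y ∈ F) (h : wiR F x = wiR F y) :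
    x = y := by
  rcases lt_trichotomy x y with h1 | h1 | h1
  · have := wiR_lt F hx h1
    omega
  · exact h1
  · have := wiR_lt F hy h1
    omega

theorem wiR_image (F : Finset ℕ) : F.image (wiR F) = range F.card := by
  apply Finset.eq_of_subset_of_card_le
  · intro j hj
    rw [Finset.mem_image] at hj
    obtain ⟨x, hx, rfl⟩ := hj
    rw [Finset.mem_range]
    unfold wiR
    refine Finset.card_lt_card ⟨Finset.filter_subset _ _, fun hs => ?_⟩
    have h2 := (Finset.mem_filter.1 (hs hx)).2
    omega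
  · rw [Finset.card_range, Finset.card_image_of_injOn]
    intro x hx y hy h
    exact wiR_inj F hx hy h

/-- the window of ranks `j, ..., j + m - 1` -/
def wiB (F : Finset ℕ) (m j : ℕ) : Finset ℕ := F.filter (fun x => j ≤ wiR F x ∧ wiR F x < j + m)

theorem wiB_image (F : Finset ℕ) (m j : ℕ) (hj : j + m ≤ F.card) :
    (wiB F m j).image (wiR F) = Ico j (j + m) := by
  ext i
  rw [Finset.mem_image, Finset.mem_Ico]
  constructor
  · rintro ⟨x, hx, rfl⟩
    exact (Finset.mem_filter.1 hx).2
  · rintro ⟨h1, h2⟩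
    have h3 : i ∈ F.image (wiR F) := by
      rw [wiR_image, Finset.mem_range]
      omega
    rw [Finset.mem_image] at h3
    obtain ⟨x, hx, hxi⟩ := h3
    refine ⟨x, ?_, hxi⟩
    unfold wiB
    rw [Finset.mem_filter, hxi]
    exact ⟨hx, h1, h2⟩

theorem wiB_card (F : Finset ℕ) (m j : ℕ) (hj : j + m ≤ F.card) : (wiB F m j).card = m := by
  have h1 : ((wiB F m j).image (wiR F)).card = (wiB F m j).card := by
    apply Finset.card_image_of_injOn
    intro x hx y hy h
    exact wiR_inj F (Finset.mem_filter.1 hx).1 (Finset.mem_filter.1 hy).1 h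
  rw [← h1, wiB_image F m j hj, Nat.card_Ico]
  omega

open Classical in
theorem windows (F : Finset ℕ) (m : ℕ) (hm : 1 ≤ m) :
    (F.card : ℝ) - m + 1 ≤ (((powersetCard m F).filter (fun B => IsWin F B)).card : ℝ) := by
  by_cases hF : m ≤ F.card
  · have h1 : (range (F.card - m + 1)).card ≤
        ((powersetCard m F).filter (fun B => IsWin F B)).card := by
      refine Finset.card_le_card_of_injOn (fun j => wiB F m j) ?_ ?_
      · intro j hj
        have hj' : j < F.card - m + 1 := Finset.mem_range.1 hj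
        have hjm : j + m ≤ F.card := by omega
        rw [Finset.mem_coe, Finset.mem_filter, Finset.mem_powersetCard]
        refine ⟨⟨Finset.filter_subset _ _, wiB_card F m j hjm⟩, Finset.filter_subset _ _, ?_⟩
        intro x hx a ha b hb hax hxb
        have ha' := (Finset.mem_filter.1 ha).2
        have hb' := (Finset.mem_filter.1 hb).2
        have h2 := wiR_mono F hax
        have h3 := wiR_mono F hxb
        exact Finset.mem_filter.2 ⟨hx, by omega, by omega⟩
      · intro i hi j hj hij
        have hi' : i < F.card - m + 1 := Finset.mem_range.1 hi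
        have hj' : j < F.card - m + 1 := Finset.mem_range.1 hj
        have h2 := wiB_image F m i (by omega)
        have h3 := wiB_image F m j (by omega)
        dsimp only at hij
        rw [hij, h3] at h2
        have h4 : i ∈ Ico j (j + m) := by
          rw [h2, Finset.mem_Ico]
          omega
        have h5 : j ∈ Ico i (i + m) := by
          rw [← h2, Finset.mem_Ico]
          omega
        rw [Finset.mem_Ico] at h4 h5
        omega
    rw [Finset.card_range] at h1
    have h2 : ((F.card - m + 1 : ℕ) : ℝ) ≤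
        (((powersetCard m F).filter (fun B => IsWin F B)).card : ℝ) := by exact_mod_cast h1
    rw [Nat.cast_add, Nat.cast_sub hF, Nat.cast_one] at h2
    exact h2
  · have h1 : F.card + 1 ≤ m := by omega
    have h2 : (F.card : ℝ) + 1 ≤ m := by exact_mod_cast h1
    have h3 : (0 : ℝ) ≤ (((powersetCard m F).filter (fun B => IsWin F B)).card : ℝ) :=
      Nat.cast_nonneg _
    linarith

open Classical in
theorem window_count (T : Finset ℕ) (μ : ℕ → ℝ) (hμ : ∀ N, 0 ≤ μ N) (h1 : ∑ N ∈ T, μ N = 1)
    (H : Finset ℕ) (m : ℕ) (hm : 1 ≤ m) (p c δ : ℝ) (hp : 0 < p) (hc : 0 < c)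
    (hlow : ∀ a ∈ H, (1 - δ) * p ≤ ∑ N ∈ T.filter (fun N => (N + a).Prime), μ N)
    (hup : ∀ B ⊆ H, B.card = m →
      ∑ N ∈ T.filter (fun N => ∀ a ∈ B, (N + a).Prime), μ N ≤ c * p ^ m) :
    ((1 - δ) * (p * H.card) - m + 1) / (c * p ^ m) ≤
      (((powersetCard m H).filter (fun B => ∃ N ∈ T,
        IsWin (H.filter (fun a => (N + a).Prime)) B)).card : ℝ) := by
  have hcp : 0 < c * p ^ m := by positivity
  obtain ⟨pat, hpat⟩ : ∃ pat : ℕ → Finset ℕ, ∀ N, pat N = H.filter (fun a => (N + a).Prime) :=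
    ⟨_, fun _ => rfl⟩
  simp_rw [← hpat]
  rw [div_le_iff₀ hcp]
  -- upper bound
  have hupper : ∑ B ∈ powersetCard m H, ∑ N ∈ T.filter (fun N => IsWin (pat N) B), μ N ≤
      (((powersetCard m H).filter (fun B => ∃ N ∈ T, IsWin (pat N) B)).card : ℝ) *
        (c * p ^ m) := by
    have h2 : ∀ B ∈ powersetCard m H, ∑ N ∈ T.filter (fun N => IsWin (pat N) B), μ N ≤
        if (∃ N ∈ T, IsWin (pat N) B) then c * p ^ m else 0 := by
      intro B hB
      rw [Finset.mem_powersetCard] at hB
      split_ifs with h3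
      · refine le_trans ?_ (hup B hB.1 hB.2)
        refine Finset.sum_le_sum_of_subset_of_nonneg ?_ (fun N _ _ => hμ N)
        intro N hN
        rw [Finset.mem_filter] at hN ⊢
        refine ⟨hN.1, fun a ha => ?_⟩
        have h4 := hN.2.1 ha
        rw [hpat, Finset.mem_filter] at h4
        exact h4.2
      · rw [Finset.filter_false_of_mem, Finset.sum_empty]
        intro N hN hw
        exact h3 ⟨N, hN, hw⟩
    refine (Finset.sum_le_sum h2).trans ?_
    rw [← Finset.sum_filter, Finset.sum_const, nsmul_eq_mul]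
  refine le_trans ?_ hupper
  -- double counting
  have hdc : ∑ N ∈ T, μ N * ((((powersetCard m (pat N)).filter
      (fun B => IsWin (pat N) B)).card : ℕ) : ℝ) =
      ∑ B ∈ powersetCard m H, ∑ N ∈ T.filter (fun N => IsWin (pat N) B), μ N := by
    have h2 : ∀ N ∈ T, μ N * ((((powersetCard m (pat N)).filter
        (fun B => IsWin (pat N) B)).card : ℕ) : ℝ) =
        ∑ B ∈ powersetCard m H, if IsWin (pat N) B then μ N else 0 := by
      intro N _
      rw [← Finset.sum_filter, Finset.sum_const, nsmul_eq_mul, mul_comm]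
      congr 3
      ext B
      rw [Finset.mem_filter, Finset.mem_filter, Finset.mem_powersetCard, Finset.mem_powersetCard]
      constructor
      · rintro ⟨⟨h3, h4⟩, h5⟩
        refine ⟨⟨fun i hi => ?_, h4⟩, h5⟩
        have h6 := h3 hi
        rw [hpat] at h6
        exact (Finset.mem_filter.1 h6).1
      · rintro ⟨⟨h3, h4⟩, h5⟩
        exact ⟨⟨h5.1, h4⟩, h5⟩
    rw [Finset.sum_congr rfl h2, Finset.sum_comm]
    refine Finset.sum_congr rfl fun B _ => ?_
    rw [← Finset.sum_filter]
  rw [← hdc]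
  have h7 : ∑ N ∈ T, μ N * (((pat N).card : ℝ) - m + 1) ≤
      ∑ N ∈ T, μ N * ((((powersetCard m (pat N)).filter
      (fun B => IsWin (pat N) B)).card : ℕ) : ℝ) :=
    Finset.sum_le_sum fun N _ => mul_le_mul_of_nonneg_left (windows (pat N) m hm) (hμ N)
  refine le_trans ?_ h7
  have h8 : ∑ N ∈ T, μ N * (((pat N).card : ℝ) - m + 1) =
      ∑ N ∈ T, μ N * ((pat N).card : ℝ) - m + 1 := by
    have h9 : ∀ N ∈ T, μ N * (((pat N).card : ℝ) - m + 1) =
        μ N * ((pat N).card : ℝ) - μ N * (m - 1) := fun N _ => by ring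
    rw [Finset.sum_congr rfl h9, Finset.sum_sub_distrib, ← Finset.sum_mul, h1]
    ring
  rw [h8]
  have h10 : ∑ N ∈ T, μ N * ((pat N).card : ℝ) =
      ∑ a ∈ H, ∑ N ∈ T.filter (fun N => (N + a).Prime), μ N := by
    have h11 : ∀ N ∈ T, μ N * ((pat N).card : ℝ) =
        ∑ a ∈ H, if (N + a).Prime then μ N else 0 := by
      intro N _
      rw [← Finset.sum_filter, Finset.sum_const, nsmul_eq_mul, mul_comm, hpat]
    rw [Finset.sum_congr rfl h11, Finset.sum_comm]
    refine Finset.sum_congr rfl fun a _ => ?_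
    rw [← Finset.sum_filter]
  rw [h10]
  have h12 : ∑ a ∈ H, (1 - δ) * p ≤
      ∑ a ∈ H, ∑ N ∈ T.filter (fun N => (N + a).Prime), μ N := Finset.sum_le_sum hlow
  rw [Finset.sum_const, nsmul_eq_mul] at h12
  linarith

end Pool.Agent.H21.SH
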