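import Pool.Agent.H21.SH.Sv
import Pool.Agent.H21.SH.Wi

/-!
[H21 SH CQ]  Every large admissible set has at least `(1-ε) m!/(m^m (4(m-1))^(m-1))` of its `m`-subsets
realised by `m` consecutive primes infinitely often.

Proof.  Let `0 < ε < 1`, `e = e(ε, m) ≤ 1/100` small, `k = |H|` large, `D = max H`; `l = l(e,m)` fixed with
`(l+2)^2/(l+1) ≥ 6m/e^2`, and `τ` with `psv e τ l = m/k`, i.e. `τ = 4 bl(l) m/(e (l+2)^2 k)`: then
`∑ (l+1) τ = k (l+1) τ ≤ 6 m (l+1)/(e (l+2)^2) ≤ e` and `2^l τ ≤ 1/2` for `k` large.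
`kill` (`Pool/Agent/H21/MT/SieveR.lean`) with the set `Finset.range (D+1) \ H`: `Q`, `b₀` such that for
`N > Q`, `N ≡ b₀ (mod Q)` no `N + g`, `g ≤ D`, `g ∉ H`, is prime.  `sieve2 e` with `I = {a // a ∈ H}`,
`Q`, `b₀`, `N0 ≥ Q` arbitrary; `p = m/k`, `p k = m`.  `window_count` with `δ = 50 e`,
`c = (1+50e)^m (4(m-1))^(m-1)`: the number of `B ∈ powersetCard m H` which are a window of the pattern
`{a ∈ H | (N+a).Prime}` for some `N > N0`, `N` in the class, is at least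
`((1-50e) m - m + 1)/(c (m/k)^m) = (1 - 50 e m) k^m/(c m^m) ≥ (1 - 50em)/(1+50e)^m * m!/(m^m (4(m-1))^(m-1)) * C(k,m)`
(`C(k,m) ≤ k^m/m!`).  For such `N`, `B`: if `x` lies between two elements of `B` and `N + x` is prime then `x ≤ D`,
`x ∈ H` (otherwise killed), `x` in the pattern, so `x ∈ B`; hence `B` satisfies the condition in `ConsIO`.
Finally pass from every `N0` to infinitely many `N` as in `many_tuples` (finitely many `B`).
-/

namespace Pool.Agent.H21.SH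

open Finset Filter Pool.Agent.H21.MT

/-- `N + B` is a set of consecutive primes for infinitely many `N` -/
def ConsIO (B : Finset ℕ) : Prop :=
  {N : ℕ | ∀ x : ℕ, (∃ a ∈ B, ∃ b ∈ B, a ≤ x ∧ x ≤ b) → ((N + x).Prime ↔ x ∈ B)}.Infinite

theorem cq_eps (m : ℕ) (ε : ℝ) (hε : 0 < ε) : ∃ e : ℝ, 0 < e ∧ e ≤ 1 / 100 ∧
    1 - ε ≤ (1 - 50 * e * m) / (1 + 50 * e) ^ m := by
  have hc : ContinuousAt (fun e : ℝ => (1 - 50 * e * m) / (1 + 50 * e) ^ m) 0 := by
    apply ContinuousAt.div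
    · fun_prop
    · fun_prop
    · simp
  have h1 : Tendsto (fun e : ℝ => (1 - 50 * e * m) / (1 + 50 * e) ^ m) (nhds 0) (nhds 1) := by
    have h2 := hc.tendsto
    simpa using h2
  have h2 : ∀ᶠ e : ℝ in nhdsWithin 0 (Set.Ioi 0),
      1 - ε < (1 - 50 * e * m) / (1 + 50 * e) ^ m :=
    (h1.mono_left nhdsWithin_le_nhds).eventually_const_lt (by linarith)
  have h3 : ∀ᶠ e : ℝ in nhdsWithin 0 (Set.Ioi 0), e ∈ Set.Ioo (0 : ℝ) (1 / 100) :=
    Ioo_mem_nhdsGT (by norm_num)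
  obtain ⟨e, he1, he2⟩ := (h2.and h3).exists
  exact ⟨e, he2.1, he2.2.le, he1.le⟩

theorem cq_bl (l : ℕ) : 1 ≤ bl l ∧ bl l ≤ 3 / 2 := by
  unfold bl
  have h1 : (1 / 2 : ℝ) ^ (l + 1) ≤ (1 / 2 : ℝ) ^ 1 :=
    pow_le_pow_of_le_one (by norm_num) (by norm_num) (by omega)
  have h2 : (0 : ℝ) < (1 / 2 : ℝ) ^ (l + 1) := by positivity
  constructor <;> linarith

/-- parameters -/
theorem cq_par (m : ℕ) (hm : 2 ≤ m) (e : ℝ) (he : 0 < e) : ∃ (l K0 : ℕ), ∀ k : ℕ, K0 ≤ k →
    ∃ tau : ℝ, 0 < k ∧ 0 < tau ∧ (2 : ℝ) ^ l * tau ≤ 1 / 2 ∧ k * (((l : ℝ) + 1) * tau) ≤ e ∧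
      psv e tau l = (m : ℝ) / k := by
  obtain ⟨l, hl⟩ := exists_nat_ge (6 * (m : ℝ) / e ^ 2)
  obtain ⟨hb1, hb2⟩ := cq_bl l
  have hm0 : (0 : ℝ) < m := by
    have : 0 < m := by omega
    exact_mod_cast this
  have hbl : 0 < bl l := by linarith
  obtain ⟨A, hA⟩ : ∃ A : ℝ, A = 4 * bl l * m / (e * ((l : ℝ) + 2) ^ 2) := ⟨_, rfl⟩
  have hA0 : 0 < A := by rw [hA]; positivity
  obtain ⟨K0, hK0⟩ := exists_nat_ge (2 * ((2 : ℝ) ^ l * A))
  refine ⟨l, K0 + 1, fun k hk => ⟨A / k, by omega, ?_, ?_, ?_, ?_⟩⟩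
  · have hk0 : (0 : ℝ) < k := by
      have : 0 < k := by omega
      exact_mod_cast this
    positivity
  · have hk0 : (0 : ℝ) < k := by
      have : 0 < k := by omega
      exact_mod_cast this
    have hk1 : (K0 : ℝ) ≤ k := by
      have : K0 ≤ k := by omega
      exact_mod_cast this
    rw [← mul_div_assoc, div_le_iff₀ hk0]
    linarith
  · have hk0 : (0 : ℝ) < k := by
      have : 0 < k := by omega
      exact_mod_cast this
    have h1 : (k : ℝ) * (((l : ℝ) + 1) * (A / k)) = ((l : ℝ) + 1) * A := by field_simp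
    rw [h1, hA, ← mul_div_assoc, div_le_iff₀ (by positivity)]
    have h2 : 6 * (m : ℝ) ≤ l * e ^ 2 := (div_le_iff₀ (by positivity)).1 hl
    have hl0 : (0 : ℝ) ≤ l := Nat.cast_nonneg l
    calc ((l : ℝ) + 1) * (4 * bl l * m) ≤ ((l : ℝ) + 1) * (4 * (3 / 2) * m) := by gcongr
      _ = ((l : ℝ) + 1) * (6 * m) := by ring
      _ ≤ ((l : ℝ) + 1) * (l * e ^ 2) := by gcongr
      _ ≤ e * (e * ((l : ℝ) + 2) ^ 2) := by
          have h3 : ((l : ℝ) + 1) * l ≤ ((l : ℝ) + 2) ^ 2 := by nlinarith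
          have h4 : 0 < e ^ 2 := by positivity
          nlinarith
  · have hk0 : (0 : ℝ) < k := by
      have : 0 < k := by omega
      exact_mod_cast this
    unfold psv
    rw [hA]
    field_simp

/-- `N + B` is a set of consecutive primes -/
def CqC (B : Finset ℕ) (N : ℕ) : Prop :=
  ∀ x : ℕ, (∃ a ∈ B, ∃ b ∈ B, a ≤ x ∧ x ≤ b) → ((N + x).Prime ↔ x ∈ B)

open Classical in
theorem cq_count (m : ℕ) (hm : 2 ≤ m) (e : ℝ) (he : 0 < e) (he1 : e ≤ 1 / 100) (H : Finset ℕ)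
    (hadm : ∀ p : ℕ, p.Prime → ∃ a : ℕ, ∀ h ∈ H, ¬ p ∣ a + h) (l : ℕ) (tau : ℝ)
    (hk : 0 < H.card) (h1 : 0 < tau) (h2 : (2 : ℝ) ^ l * tau ≤ 1 / 2)
    (h3 : H.card * (((l : ℝ) + 1) * tau) ≤ e) (h4 : psv e tau l = (m : ℝ) / H.card) (N0 : ℕ) :
    (1 - 50 * e * m) / ((1 + 50 * e) ^ m * (4 * ((m : ℝ) - 1)) ^ (m - 1) *
      ((m : ℝ) / H.card) ^ m) ≤
      (((powersetCard m H).filter (fun B => ∃ N, N0 < N ∧ CqC B N)).card : ℝ) := by
  obtain ⟨D, hD⟩ : ∃ D : ℕ, ∀ a ∈ H, a ≤ D := ⟨H.sup id, fun a ha => le_sup (f := id) ha⟩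
  obtain ⟨Q, b₀, hQ, hcop, hcomp⟩ := kill (Finset.range (D + 1) \ H) H sdiff_disjoint
  haveI : Nonempty {a // a ∈ H} := by
    obtain ⟨a, ha⟩ := Finset.card_pos.1 hk
    exact ⟨⟨a, ha⟩⟩
  have hcard : (Finset.univ : Finset {a // a ∈ H}).card = H.card := by
    rw [Finset.card_univ, Fintype.card_coe]
  obtain ⟨T, μ, hT, hμ, hsum, hlow, hup⟩ := sieve2 e he he1 (I := {a // a ∈ H})
    (fun i => i.1) Subtype.val_injective
    (fun p hp => by
      obtain ⟨a, ha⟩ := hadm p hp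
      exact ⟨a, fun i => ha i.1 i.2⟩)
    (fun _ => tau) (fun _ => l) (fun _ => h1) (fun _ => h2)
    (by rw [Finset.sum_const, hcard, nsmul_eq_mul]; exact h3)
    Q b₀ hQ (fun i => hcop i.1 i.2) (max N0 Q)
  have hm0 : (0 : ℝ) < m := by
    have : 0 < m := by omega
    exact_mod_cast this
  have hm1 : (1 : ℝ) < m := by
    have : 1 < m := by omega
    exact_mod_cast this
  have hk0 : (0 : ℝ) < H.card := by exact_mod_cast hk
  have hm4 : (0 : ℝ) < 4 * ((m : ℝ) - 1) := by linarith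
  have hcast : ((m - 1 : ℕ) : ℝ) = (m : ℝ) - 1 := by
    rw [Nat.cast_sub (by omega)]
    norm_num
  have hw := window_count T μ hμ hsum H m (by omega) ((m : ℝ) / H.card)
    ((1 + 50 * e) ^ m * (4 * ((m : ℝ) - 1)) ^ (m - 1)) (50 * e) (by positivity) (by positivity)
    (fun a ha => by
      have h5 := hlow ⟨a, ha⟩
      rw [h4] at h5
      exact h5)
    (fun B hB hBm => by
      have hBne : B.Nonempty := by
        rw [← Finset.card_pos, hBm]
        omega
      obtain ⟨a0, ha0⟩ := hBne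
      have h5 := hup ⟨a0, hB ha0⟩ ((B.erase a0).subtype (fun a => a ∈ H)) (by
        rw [Finset.mem_subtype]
        exact Finset.notMem_erase a0 B)
      have h6 : ((B.erase a0).subtype (fun a => a ∈ H)).card = m - 1 := by
        rw [Finset.card_subtype, Finset.filter_true_of_mem, Finset.card_erase_of_mem ha0, hBm]
        intro x hx
        exact hB (Finset.mem_of_mem_erase hx)
      have h7 : (insert (⟨a0, hB ha0⟩ : {a // a ∈ H})
          ((B.erase a0).subtype (fun a => a ∈ H))).card = m := by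
        rw [Finset.card_insert_of_notMem, h6]
        · omega
        · rw [Finset.mem_subtype]
          exact Finset.notMem_erase a0 B
      rw [Finset.prod_const, h7, h6, h4, hcast] at h5
      have h8 : m - 1 + 1 = m := by omega
      rw [h8] at h5
      refine le_trans (le_of_eq ?_) h5
      congr 1
      apply Finset.filter_congr
      intro N _
      constructor
      · intro hN j hj
        rw [Finset.mem_insert] at hj
        rcases hj with rfl | hj
        · exact hN a0 ha0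
        · rw [Finset.mem_subtype] at hj
          exact hN j.1 (Finset.mem_of_mem_erase hj)
      · intro hN a ha
        by_cases haa : a = a0
        · subst haa
          exact hN ⟨a, hB ha⟩ (Finset.mem_insert_self _ _)
        · exact hN ⟨a, hB ha⟩ (Finset.mem_insert_of_mem (by
            rw [Finset.mem_subtype]
            exact Finset.mem_erase.2 ⟨haa, ha⟩)))
  have e1 : (1 - 50 * e) * ((m : ℝ) / H.card * H.card) - m + 1 = 1 - 50 * e * m := by
    rw [div_mul_cancel₀ _ hk0.ne']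
    ring
  rw [e1] at hw
  refine hw.trans ?_
  have hsub : (powersetCard m H).filter (fun B => ∃ N ∈ T,
      IsWin (H.filter (fun a => (N + a).Prime)) B) ⊆
      (powersetCard m H).filter (fun B => ∃ N, N0 < N ∧ CqC B N) := by
    intro B hB
    obtain ⟨hB1, N, hN, hwin⟩ := Finset.mem_filter.1 hB
    obtain ⟨hN1, hN2⟩ := hT N hN
    refine Finset.mem_filter.2 ⟨hB1, N, lt_of_le_of_lt (le_max_left _ _) hN1, ?_⟩
    have hNQ : Q < N := lt_of_le_of_lt (le_max_right _ _) hN1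
    have hBH : B ⊆ H := (Finset.mem_powersetCard.1 hB1).1
    rintro x ⟨a, ha, b, hb, hax, hxb⟩
    constructor
    · intro hxp
      have hxH : x ∈ H := by
        by_contra hxH
        refine hcomp N hNQ hN2 x ?_ hxp
        rw [Finset.mem_sdiff, Finset.mem_range]
        have := hD b (hBH hb)
        exact ⟨by omega, hxH⟩
      exact hwin.2 x (Finset.mem_filter.2 ⟨hxH, hxp⟩) a ha b hb hax hxb
    · intro hxB
      exact (Finset.mem_filter.1 (hwin.1 hxB)).2
  exact_mod_cast Finset.card_le_card hsub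

open Classical in
theorem many_consecutive (m : ℕ) (hm : 2 ≤ m) (ε : ℝ) (hε : 0 < ε) : ∃ K0 : ℕ, ∀ H : Finset ℕ,
    (∀ p : ℕ, p.Prime → ∃ a : ℕ, ∀ h ∈ H, ¬ p ∣ a + h) → K0 ≤ H.card →
    (1 - ε) * (m.factorial : ℝ) / ((m : ℝ) ^ m * (4 * ((m : ℝ) - 1)) ^ (m - 1)) *
      (H.card.choose m : ℝ) ≤ (((powersetCard m H).filter ConsIO).card : ℝ) := by
  have hm0 : (0 : ℝ) < m := by
    have : 0 < m := by omega
    exact_mod_cast this
  have hm1 : (1 : ℝ) < m := by
    have : 1 < m := by omega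
    exact_mod_cast this
  have hm4 : (0 : ℝ) < 4 * ((m : ℝ) - 1) := by linarith
  obtain ⟨e, he0, he1, he2⟩ := cq_eps m ε hε
  obtain ⟨l, K0, hK⟩ := cq_par m hm e he0
  refine ⟨K0, fun H hadm hKH => ?_⟩
  obtain ⟨tau, hk, ht, ht2, ht3, ht4⟩ := hK H.card hKH
  have hk0 : (0 : ℝ) < H.card := by exact_mod_cast hk
  -- the last `N`
  have hlast : ∀ B : Finset ℕ, ∃ n : ℕ, ¬ ConsIO B → ∀ N, CqC B N → N ≤ n := by
    intro B
    by_cases hB : ConsIO B
    · exact ⟨0, fun h => absurd hB h⟩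
    · have hfin : {N : ℕ | CqC B N}.Finite := Set.not_infinite.1 hB
      obtain ⟨n, hn⟩ := hfin.bddAbove
      exact ⟨n, fun _ N hN => hn hN⟩
  choose n hn using hlast
  have hc := cq_count m hm e he0 he1 H hadm l tau hk ht ht2 ht3 ht4
    (∑ B ∈ powersetCard m H, n B)
  have hsub : (powersetCard m H).filter (fun B => ∃ N, ∑ B ∈ powersetCard m H, n B < N ∧
      CqC B N) ⊆ (powersetCard m H).filter ConsIO := by
    intro B hB
    obtain ⟨hB1, N, hN1, hN2⟩ := Finset.mem_filter.1 hB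
    refine Finset.mem_filter.2 ⟨hB1, ?_⟩
    by_contra hcon
    have h1 := hn B hcon N hN2
    have h2 : n B ≤ ∑ B ∈ powersetCard m H, n B :=
      Finset.single_le_sum (fun _ _ => Nat.zero_le _) hB1
    omega
  have hcle : (((powersetCard m H).filter (fun B => ∃ N, ∑ B ∈ powersetCard m H, n B < N ∧
      CqC B N)).card : ℝ) ≤ (((powersetCard m H).filter ConsIO).card : ℝ) := by
    exact_mod_cast Finset.card_le_card hsub
  have hch : (H.card.choose m : ℝ) ≤ (H.card : ℝ) ^ m / m.factorial :=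
    Nat.choose_le_pow_div m H.card
  have hfac : (0 : ℝ) < m.factorial := by exact_mod_cast Nat.factorial_pos m
  have hden : (0 : ℝ) < (m : ℝ) ^ m * (4 * ((m : ℝ) - 1)) ^ (m - 1) := by positivity
  have h50 : (0 : ℝ) < (1 + 50 * e) ^ m := by positivity
  have hkm : (0 : ℝ) < (H.card : ℝ) ^ m := by positivity
  by_cases hε1 : 1 ≤ ε
  · have h1 : (1 - ε) * (m.factorial : ℝ) / ((m : ℝ) ^ m * (4 * ((m : ℝ) - 1)) ^ (m - 1)) *
        (H.card.choose m : ℝ) ≤ 0 := by
      apply mul_nonpos_of_nonpos_of_nonneg _ (Nat.cast_nonneg _)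
      apply div_nonpos_of_nonpos_of_nonneg _ hden.le
      exact mul_nonpos_of_nonpos_of_nonneg (by linarith) hfac.le
    exact h1.trans (Nat.cast_nonneg _)
  · have hε2 : 0 ≤ 1 - ε := by linarith [not_le.1 hε1]
    refine le_trans ?_ (hc.trans hcle)
    calc (1 - ε) * (m.factorial : ℝ) / ((m : ℝ) ^ m * (4 * ((m : ℝ) - 1)) ^ (m - 1)) *
          (H.card.choose m : ℝ)
        ≤ (1 - ε) * (m.factorial : ℝ) / ((m : ℝ) ^ m * (4 * ((m : ℝ) - 1)) ^ (m - 1)) *
          ((H.card : ℝ) ^ m / m.factorial) :=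
          mul_le_mul_of_nonneg_left hch (by positivity)
      _ = (1 - ε) * ((H.card : ℝ) ^ m / ((m : ℝ) ^ m * (4 * ((m : ℝ) - 1)) ^ (m - 1))) := by
          field_simp
      _ ≤ (1 - 50 * e * m) / (1 + 50 * e) ^ m *
          ((H.card : ℝ) ^ m / ((m : ℝ) ^ m * (4 * ((m : ℝ) - 1)) ^ (m - 1))) :=
          mul_le_mul_of_nonneg_right he2 (by positivity)
      _ = _ := by
          rw [div_pow]
          field_simp

end Pool.Agent.H21.SH
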