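import Mathlib

/-!
[H21 SH MO]  From moments to numbers of `m`-subsets.

Proof.  `X N = #{i ∈ S | ev i N}`.  `∑_N μ N C(X N, m) = ∑_{B ∈ powersetCard m S} μ(all i ∈ B)`
(`#{B ∈ powersetCard m S | ∀ i ∈ B, ev i N} = C(X N, m)`: these are the `m`-subsets of the filter), which is at
most `c p^m` times the number of `B` with positive measure.  For a natural number `X` and `m ≥ 1`:
`C(X,m) ≥ (max (X - m + 1) 0)^m/m!` (`Nat.pow_sub_le_descFactorial` or `Nat.pow_le_descFactorial`-type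
lemma; for `X < m` the right side is `0`).  `(∑ μ f)^m ≤ ∑ μ f^m` for `f ≥ 0`, `∑ μ = 1`
(`Real.pow_arith_mean_le_arith_mean_pow`), with `f = max (X - m + 1) 0 ≥ X - m`:
`∑ μ f ≥ ∑ μ X - m ≥ (1-δ) p |S| - m ≥ 0`.
`moment_choose`: `C(n,m) ≤ n^m/m!` and `((1-δ) p n - m)^m = (p n)^m ((1-δ) - m/(p n))^m`.
-/

namespace Pool.Agent.H21.SH

open Finset

theorem moment_count {I : Type} [DecidableEq I] (T : Finset ℕ) (μ : ℕ → ℝ) (hμ : ∀ N, 0 ≤ μ N)
    (h1 : ∑ N ∈ T, μ N = 1) (S : Finset I) (ev : I → ℕ → Prop) [∀ i, DecidablePred (ev i)]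
    (m : ℕ) (hm : 1 ≤ m) (p c δ : ℝ) (hp : 0 < p) (hc : 0 < c)
    (hlow : ∀ i ∈ S, (1 - δ) * p ≤ ∑ N ∈ T.filter (fun N => ev i N), μ N)
    (hup : ∀ B ⊆ S, B.card = m → ∑ N ∈ T.filter (fun N => ∀ i ∈ B, ev i N), μ N ≤ c * p ^ m)
    (hY : (m : ℝ) ≤ (1 - δ) * (p * S.card)) :
    ((1 - δ) * (p * S.card) - m) ^ m / ((m.factorial : ℝ) * (c * p ^ m)) ≤
      (((powersetCard m S).filter
        (fun B => 0 < ∑ N ∈ T.filter (fun N => ∀ i ∈ B, ev i N), μ N)).card : ℝ) := by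
  have hcp : 0 < c * p ^ m := by positivity
  have hmf : 0 < (m.factorial : ℝ) := by exact_mod_cast m.factorial_pos
  -- the number of events
  obtain ⟨X, hX⟩ : ∃ X : ℕ → ℕ, ∀ N, X N = (S.filter (fun i => ev i N)).card := ⟨_, fun _ => rfl⟩
  -- double counting
  have hdc : ∑ N ∈ T, μ N * ((X N).choose m : ℝ) =
      ∑ B ∈ powersetCard m S, ∑ N ∈ T.filter (fun N => ∀ i ∈ B, ev i N), μ N := by
    have h2 : ∀ N ∈ T, μ N * ((X N).choose m : ℝ) =
        ∑ B ∈ powersetCard m S, if (∀ i ∈ B, ev i N) then μ N else 0 := by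
      intro N _
      rw [← Finset.sum_filter, Finset.sum_const, nsmul_eq_mul, mul_comm, hX]
      congr 2
      rw [← Finset.card_powersetCard]
      congr 1
      ext B
      rw [Finset.mem_filter, Finset.mem_powersetCard, Finset.mem_powersetCard]
      constructor
      · rintro ⟨h3, h4⟩
        refine ⟨⟨fun i hi => (Finset.mem_filter.1 (h3 hi)).1, h4⟩, fun i hi =>
          (Finset.mem_filter.1 (h3 hi)).2⟩
      · rintro ⟨⟨h3, h4⟩, h5⟩
        exact ⟨fun i hi => Finset.mem_filter.2 ⟨h3 hi, h5 i hi⟩, h4⟩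
    rw [Finset.sum_congr rfl h2, Finset.sum_comm]
    refine Finset.sum_congr rfl fun B _ => ?_
    rw [← Finset.sum_filter]
  -- upper bound
  have hupper : ∑ B ∈ powersetCard m S, ∑ N ∈ T.filter (fun N => ∀ i ∈ B, ev i N), μ N ≤
      (((powersetCard m S).filter
        (fun B => 0 < ∑ N ∈ T.filter (fun N => ∀ i ∈ B, ev i N), μ N)).card : ℝ) * (c * p ^ m) := by
    have h2 : ∀ B ∈ powersetCard m S, ∑ N ∈ T.filter (fun N => ∀ i ∈ B, ev i N), μ N ≤
        if 0 < ∑ N ∈ T.filter (fun N => ∀ i ∈ B, ev i N), μ N then c * p ^ m else 0 := by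
      intro B hB
      rw [Finset.mem_powersetCard] at hB
      split_ifs with h3
      · exact hup B hB.1 hB.2
      · exact not_lt.1 h3
    refine (Finset.sum_le_sum h2).trans ?_
    rw [← Finset.sum_filter, Finset.sum_const, nsmul_eq_mul]
  -- lower bound
  have hf : ∀ N, ((X N + 1 - m : ℕ) : ℝ) ^ m ≤ (m.factorial : ℝ) * ((X N).choose m : ℝ) := by
    intro N
    have h2 := Nat.pow_sub_le_descFactorial (X N) m
    rw [Nat.descFactorial_eq_factorial_mul_choose] at h2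
    exact_mod_cast h2
  have hj := Real.pow_arith_mean_le_arith_mean_pow T μ (fun N => ((X N + 1 - m : ℕ) : ℝ))
    (fun N _ => hμ N) h1 (fun N _ => Nat.cast_nonneg _) m
  have hmean : (1 - δ) * (p * S.card) - m ≤ ∑ N ∈ T, μ N * ((X N + 1 - m : ℕ) : ℝ) := by
    have h2 : ∑ N ∈ T, μ N * ((X N : ℝ) - m) ≤ ∑ N ∈ T, μ N * ((X N + 1 - m : ℕ) : ℝ) := by
      refine Finset.sum_le_sum fun N _ => mul_le_mul_of_nonneg_left ?_ (hμ N)
      have h3 : X N ≤ (X N + 1 - m) + m := by omega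
      have h4 : (X N : ℝ) ≤ ((X N + 1 - m : ℕ) : ℝ) + m := by exact_mod_cast h3
      linarith
    refine le_trans ?_ h2
    have h5 : ∑ N ∈ T, μ N * ((X N : ℝ) - m) = ∑ N ∈ T, μ N * (X N : ℝ) - m := by
      simp_rw [mul_sub]
      rw [Finset.sum_sub_distrib, ← Finset.sum_mul, h1, one_mul]
    rw [h5]
    have h6 : ∑ N ∈ T, μ N * (X N : ℝ) = ∑ i ∈ S, ∑ N ∈ T.filter (fun N => ev i N), μ N := by
      have h7 : ∀ N ∈ T, μ N * (X N : ℝ) = ∑ i ∈ S, if ev i N then μ N else 0 := by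
        intro N _
        rw [← Finset.sum_filter, Finset.sum_const, nsmul_eq_mul, mul_comm, hX]
      rw [Finset.sum_congr rfl h7, Finset.sum_comm]
      refine Finset.sum_congr rfl fun i _ => ?_
      rw [← Finset.sum_filter]
    rw [h6]
    have h8 : ∑ i ∈ S, (1 - δ) * p ≤ ∑ i ∈ S, ∑ N ∈ T.filter (fun N => ev i N), μ N :=
      Finset.sum_le_sum hlow
    rw [Finset.sum_const, nsmul_eq_mul] at h8
    linarith
  have hpow : ((1 - δ) * (p * S.card) - m) ^ m ≤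
      (∑ N ∈ T, μ N * ((X N + 1 - m : ℕ) : ℝ)) ^ m :=
    pow_le_pow_left₀ (by linarith) hmean m
  have hfin : ∑ N ∈ T, μ N * ((X N + 1 - m : ℕ) : ℝ) ^ m ≤
      (m.factorial : ℝ) * ∑ N ∈ T, μ N * ((X N).choose m : ℝ) := by
    rw [Finset.mul_sum]
    refine Finset.sum_le_sum fun N _ => ?_
    calc μ N * ((X N + 1 - m : ℕ) : ℝ) ^ m ≤ μ N * ((m.factorial : ℝ) * ((X N).choose m : ℝ)) :=
          mul_le_mul_of_nonneg_left (hf N) (hμ N)
      _ = (m.factorial : ℝ) * (μ N * ((X N).choose m : ℝ)) := by ring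
  rw [div_le_iff₀ (by positivity)]
  rw [hdc] at hfin
  calc ((1 - δ) * (p * S.card) - m) ^ m ≤ _ := hpow
    _ ≤ _ := hj
    _ ≤ _ := hfin
    _ ≤ (m.factorial : ℝ) * ((((powersetCard m S).filter
        (fun B => 0 < ∑ N ∈ T.filter (fun N => ∀ i ∈ B, ev i N), μ N)).card : ℝ) * (c * p ^ m)) :=
        mul_le_mul_of_nonneg_left hupper hmf.le
    _ = _ := by ring

theorem moment_choose {I : Type} [DecidableEq I] (T : Finset ℕ) (μ : ℕ → ℝ) (hμ : ∀ N, 0 ≤ μ N)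
    (h1 : ∑ N ∈ T, μ N = 1) (S : Finset I) (ev : I → ℕ → Prop) [∀ i, DecidablePred (ev i)]
    (m : ℕ) (hm : 1 ≤ m) (p c δ : ℝ) (hp : 0 < p) (hc : 0 < c) (hS : 1 ≤ S.card)
    (hlow : ∀ i ∈ S, (1 - δ) * p ≤ ∑ N ∈ T.filter (fun N => ev i N), μ N)
    (hup : ∀ B ⊆ S, B.card = m → ∑ N ∈ T.filter (fun N => ∀ i ∈ B, ev i N), μ N ≤ c * p ^ m)
    (hY : (m : ℝ) ≤ (1 - δ) * (p * S.card)) :
    ((1 - δ) - m / (p * S.card)) ^ m / c * (S.card.choose m : ℝ) ≤
      (((powersetCard m S).filter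
        (fun B => 0 < ∑ N ∈ T.filter (fun N => ∀ i ∈ B, ev i N), μ N)).card : ℝ) := by
  refine le_trans ?_ (moment_count T μ hμ h1 S ev m hm p c δ hp hc hlow hup hY)
  have hSR : (0 : ℝ) < S.card := by exact_mod_cast hS
  have hpS : 0 < p * (S.card : ℝ) := by positivity
  have h2 : (m : ℝ) / (p * S.card) ≤ 1 - δ := by
    rw [div_le_iff₀ hpS]
    exact hY
  have h3 : ((S.card.choose m : ℕ) : ℝ) ≤ (S.card : ℝ) ^ m / (m.factorial : ℝ) :=
    Nat.choose_le_pow_div m S.card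
  have h4 : 0 ≤ ((1 - δ) - m / (p * S.card)) ^ m / c := by
    have : 0 ≤ (1 - δ) - m / (p * S.card) := by linarith
    positivity
  have h5 : (1 - δ) * (p * S.card) - m = ((1 - δ) - m / (p * S.card)) * (p * S.card) := by
    field_simp
  have hmf : (m.factorial : ℝ) ≠ 0 := by
    have : 0 < (m.factorial : ℝ) := by exact_mod_cast m.factorial_pos
    exact this.ne'
  calc ((1 - δ) - m / (p * S.card)) ^ m / c * (S.card.choose m : ℝ)
      ≤ ((1 - δ) - m / (p * S.card)) ^ m / c * ((S.card : ℝ) ^ m / (m.factorial : ℝ)) :=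
        mul_le_mul_of_nonneg_left h3 h4
    _ = _ := by
        rw [h5, mul_pow, mul_pow]
        field_simp

end Pool.Agent.H21.SH
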