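import Pool.Agent.H21.SH.Sv
import Pool.Agent.H21.SH.Mo

/-!
[H21 SH PQ]  Every large admissible set has at least `(1-ε)/(4(m-1))^(m-1)` of its `m`-subsets prime
infinitely often.

Proof.  Let `ε > 0`, `ε < 1` (otherwise trivial), `e = e(ε, m) ≤ 1/100` small, `k = |H|`,
`l = Nat.log 2 k` (so `2^l ≤ k`, `l → ∞`), `τ = e/(k (l+1))`: `∑ (l+1) τ = e`, `2^l τ ≤ e/(l+1) ≤ 1/2`.
`sieve2 e` with `I = {a // a ∈ H}`, `Q = 1`, `b₀ = 0`, constant `tau`, `l`, any `N0`:
`p = psv e τ l ≥ e τ (l+2)^2/6`, `p k ≥ e^2 (l+2)^2/(6(l+1)) ≥ e^2 l/6 → ∞` as `k → ∞`.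
`moment_choose` with `δ = 50 e`, `c = (1+50e)^m (4(m-1))^(m-1)` (write `B = insert i (B.erase i)`,
`|B.erase i| = m-1`; all `psv` are equal to `p`): for `k` large `(1 - 50e - m/(pk))^m/(1+50e)^m ≥ 1 - ε`
(choose `e` with `((1-60e)/(1+50e))^m ≥ 1-ε`, then `k` with `m/(pk) ≤ 10 e`).
So for every `N0` at least `M := (1-ε)/(4(m-1))^(m-1) C(k,m)` of the `m`-subsets `B` of `H` have some
`N > N0` with all `N + b` prime.  The sets `G(N0)` of these `B` decrease with `N0` and are subsets of a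
finite set, so for some `N1` they are constant for `N0 ≥ N1` (if every `B ∈ G` which is not prime infinitely
often has a last `N`, take `N1` beyond all of them); the `B` which are prime infinitely often are
exactly those in all `G(N0)`.
-/

namespace Pool.Agent.H21.SH

open Finset Filter

/-- `N + B` consists of primes for infinitely many `N` -/
def PrimeIO (B : Finset ℕ) : Prop := {N : ℕ | ∀ a ∈ B, (N + a).Prime}.Infinite

theorem psv_lower_pq (e τ : ℝ) (he : 0 < e) (hτ : 0 < τ) (l : ℕ) :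
    e * τ * ((l : ℝ) + 2) ^ 2 / 6 ≤ psv e τ l := by
  unfold psv bl
  have h1 : (0 : ℝ) < (1 / 2 : ℝ) ^ (l + 1) := by positivity
  have h2 : (1 / 2 : ℝ) ^ (l + 1) ≤ 1 / 2 := by
    calc (1 / 2 : ℝ) ^ (l + 1) ≤ (1 / 2 : ℝ) ^ 1 :=
          pow_le_pow_of_le_one (by norm_num) (by norm_num) (by omega)
      _ = 1 / 2 := by norm_num
  apply div_le_div_of_nonneg_left (by positivity) (by linarith) (by linarith)

theorem core_pq (m : ℕ) (hm : 2 ≤ m) (e : ℝ) (he : 0 < e) (he1 : e ≤ 1 / 220) (H : Finset ℕ)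
    (hadm : ∀ p : ℕ, p.Prime → ∃ a : ℕ, ∀ h ∈ H, ¬ p ∣ a + h) (hne : H.Nonempty) (l : ℕ)
    (hl : 2 ^ l ≤ H.card) (hlm : 6 * (m : ℝ) / e ^ 3 ≤ l) (N0 : ℕ) :
    ∃ G ⊆ powersetCard m H,
      ((1 - 60 * e) ^ m / ((1 + 50 * e) ^ m * (4 * ((m : ℝ) - 1)) ^ (m - 1)) *
        (H.card.choose m : ℝ) ≤ (G.card : ℝ)) ∧
      ∀ B ∈ G, ∃ N, N0 < N ∧ ∀ a ∈ B, (N + a).Prime := by
  have hk1 : 1 ≤ H.card := hne.card_pos
  have hkR : (1 : ℝ) ≤ (H.card : ℝ) := by exact_mod_cast hk1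
  have hk0 : (0 : ℝ) < (H.card : ℝ) := by linarith
  have hlR : (0 : ℝ) ≤ (l : ℝ) := Nat.cast_nonneg l
  have hmR : (2 : ℝ) ≤ (m : ℝ) := by exact_mod_cast hm
  obtain ⟨τ, hτ⟩ : ∃ τ : ℝ, τ = e / ((H.card : ℝ) * ((l : ℝ) + 1)) := ⟨_, rfl⟩
  have hτ0 : 0 < τ := by rw [hτ]; positivity
  have hτk : τ * (H.card : ℝ) * ((l : ℝ) + 1) = e := by
    rw [hτ]; field_simp
  have hl2 : ((2 : ℝ) ^ l) ≤ (H.card : ℝ) := by exact_mod_cast hl
  haveI : Nonempty {a // a ∈ H} := ⟨⟨hne.choose, hne.choose_spec⟩⟩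
  obtain ⟨T, μ, hT, hμ, h1, hlow, hup⟩ := sieve2 e he (by linarith) (I := {a // a ∈ H})
    (fun i => i.1) Subtype.val_injective
    (fun p hp => by
      obtain ⟨a, ha⟩ := hadm p hp
      exact ⟨a, fun i => ha i.1 i.2⟩) (fun _ => τ) (fun _ => l) (fun _ => hτ0)
    (fun _ => by
      have h5 : (2 : ℝ) ^ l * τ ≤ (H.card : ℝ) * τ := mul_le_mul_of_nonneg_right hl2 hτ0.le
      have h6 : (H.card : ℝ) * τ ≤ τ * (H.card : ℝ) * ((l : ℝ) + 1) := by
        have h7 : 0 ≤ τ * (H.card : ℝ) * (l : ℝ) := by positivity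
        nlinarith
      have h8 : e ≤ 1 / 2 := by linarith
      linarith)
    (by
      rw [Finset.sum_const, Finset.card_univ, Fintype.card_coe, nsmul_eq_mul]
      apply le_of_eq
      rw [← hτk]
      ring) 1 0 one_pos (fun i => Nat.coprime_one_right _) N0
  obtain ⟨p, hp⟩ : ∃ p : ℝ, p = psv e τ l := ⟨_, rfl⟩
  have hpl : e * τ * ((l : ℝ) + 2) ^ 2 / 6 ≤ p := by
    rw [hp]
    exact psv_lower_pq e τ he hτ0 l
  have hp0 : 0 < p := lt_of_lt_of_le (by positivity) hpl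
  have hpk : (m : ℝ) / e ≤ p * (H.card : ℝ) := by
    have h5 : e * τ * ((l : ℝ) + 2) ^ 2 / 6 * (H.card : ℝ) ≤ p * (H.card : ℝ) :=
      mul_le_mul_of_nonneg_right hpl hk0.le
    have h6 : e * τ * (((l : ℝ) + 1) * (l : ℝ)) / 6 * (H.card : ℝ) ≤
        e * τ * ((l : ℝ) + 2) ^ 2 / 6 * (H.card : ℝ) := by
      apply mul_le_mul_of_nonneg_right _ hk0.le
      apply div_le_div_of_nonneg_right _ (by norm_num)
      apply mul_le_mul_of_nonneg_left _ (by positivity)
      nlinarith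
    have h7 : e * τ * (((l : ℝ) + 1) * (l : ℝ)) / 6 * (H.card : ℝ) = e * e * (l : ℝ) / 6 := by
      calc e * τ * (((l : ℝ) + 1) * (l : ℝ)) / 6 * (H.card : ℝ)
          = e * (τ * (H.card : ℝ) * ((l : ℝ) + 1)) * (l : ℝ) / 6 := by ring
        _ = e * e * (l : ℝ) / 6 := by rw [hτk]
    have h8 : e * e * (6 * (m : ℝ) / e ^ 3) / 6 ≤ e * e * (l : ℝ) / 6 := by
      apply div_le_div_of_nonneg_right _ (by norm_num)
      exact mul_le_mul_of_nonneg_left hlm (by positivity)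
    have h9 : e * e * (6 * (m : ℝ) / e ^ 3) / 6 = (m : ℝ) / e := by
      field_simp
    linarith
  have hpk0 : 0 < p * (H.card : ℝ) := by positivity
  have hmpk : (m : ℝ) / (p * (H.card : ℝ)) ≤ e := by
    rw [div_le_iff₀ hpk0]
    rw [div_le_iff₀ he] at hpk
    linarith
  have hc0 : 0 < (1 + 50 * e) ^ m * (4 * ((m : ℝ) - 1)) ^ (m - 1) := by
    have : 0 < 4 * ((m : ℝ) - 1) := by linarith
    positivity
  have key := moment_choose (I := ℕ) T μ hμ h1 H (fun a N => (N + a).Prime) m (by omega) p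
    ((1 + 50 * e) ^ m * (4 * ((m : ℝ) - 1)) ^ (m - 1)) (50 * e) hp0 hc0 hk1
    (by
      intro i hi
      have := hlow ⟨i, hi⟩
      rw [hp]
      exact this)
    (by
      intro B hB hBm
      have hBne : B.Nonempty := by
        rw [← Finset.card_pos]; omega
      obtain ⟨b, hb⟩ := hBne
      have h5 := hup ⟨b, hB hb⟩ ((B.erase b).subtype (fun a => a ∈ H)) (by
        rw [Finset.mem_subtype]
        exact Finset.notMem_erase b B)
      have hcard : ((B.erase b).subtype (fun a => a ∈ H)).card = m - 1 := by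
        rw [Finset.card_subtype, Finset.filter_true_of_mem, Finset.card_erase_of_mem hb, hBm]
        intro x hx
        exact hB (Finset.mem_of_mem_erase hx)
      have hcard2 : (insert (⟨b, hB hb⟩ : {a // a ∈ H})
          ((B.erase b).subtype (fun a => a ∈ H))).card = m := by
        rw [Finset.card_insert_of_notMem, hcard]
        · omega
        · rw [Finset.mem_subtype]
          exact Finset.notMem_erase b B
      rw [Finset.prod_const, hcard2, hcard, ← hp, Nat.cast_sub (by omega : 1 ≤ m)] at h5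
      have h6 : m - 1 + 1 = m := by omega
      rw [h6, Nat.cast_one] at h5
      refine le_trans (le_of_eq ?_) h5
      apply Finset.sum_congr _ (fun _ _ => rfl)
      ext N
      simp only [Finset.mem_filter, Finset.mem_insert, Finset.mem_subtype, Finset.mem_erase]
      constructor
      · rintro ⟨h7, h8⟩
        refine ⟨h7, ?_⟩
        intro j hj
        rcases hj with hj | hj
        · rw [hj]; exact h8 b hb
        · exact h8 _ hj.2
      · rintro ⟨h7, h8⟩
        refine ⟨h7, ?_⟩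
        intro i hi
        by_cases hib : i = b
        · have := h8 ⟨b, hB hb⟩ (Or.inl rfl)
          rw [hib]; exact this
        · exact h8 ⟨i, hB hi⟩ (Or.inr ⟨hib, hi⟩))
    (by
      have h5 : (m : ℝ) ≤ e * (p * (H.card : ℝ)) := by
        rw [div_le_iff₀ he] at hpk
        linarith
      have h6 : e * (p * (H.card : ℝ)) ≤ (1 - 50 * e) * (p * (H.card : ℝ)) := by
        apply mul_le_mul_of_nonneg_right _ hpk0.le
        linarith
      linarith)
  refine ⟨(powersetCard m H).filter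
        (fun B => 0 < ∑ N ∈ T.filter (fun N => ∀ i ∈ B, (N + i).Prime), μ N),
        Finset.filter_subset _ _, ?_, ?_⟩
  · refine le_trans ?_ key
    apply mul_le_mul_of_nonneg_right _ (Nat.cast_nonneg _)
    apply div_le_div_of_nonneg_right _ hc0.le
    apply pow_le_pow_left₀
    · linarith
    · linarith
  · intro B hB
    rw [Finset.mem_filter] at hB
    have h5 : (T.filter (fun N => ∀ i ∈ B, (N + i).Prime)).Nonempty := by
      by_contra hcon
      rw [Finset.not_nonempty_iff_eq_empty] at hcon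
      rw [hcon, Finset.sum_empty] at hB
      exact lt_irrefl _ hB.2
    obtain ⟨N, hN⟩ := h5
    rw [Finset.mem_filter] at hN
    exact ⟨N, (hT N hN.1).1, hN.2⟩

open Classical in
theorem many_tuples (m : ℕ) (hm : 2 ≤ m) (ε : ℝ) (hε : 0 < ε) : ∃ K0 : ℕ, ∀ H : Finset ℕ,
    (∀ p : ℕ, p.Prime → ∃ a : ℕ, ∀ h ∈ H, ¬ p ∣ a + h) → K0 ≤ H.card →
    (1 - ε) / (4 * ((m : ℝ) - 1)) ^ (m - 1) * (H.card.choose m : ℝ) ≤
      (((powersetCard m H).filter PrimeIO).card : ℝ) := by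
  have hmR : (2 : ℝ) ≤ (m : ℝ) := by exact_mod_cast hm
  have hm4 : 0 < (4 * ((m : ℝ) - 1)) ^ (m - 1) := by
    have : 0 < 4 * ((m : ℝ) - 1) := by linarith
    positivity
  by_cases hε1 : 1 ≤ ε
  · refine ⟨0, fun H _ _ => ?_⟩
    have h5 : (1 - ε) / (4 * ((m : ℝ) - 1)) ^ (m - 1) ≤ 0 :=
      div_nonpos_of_nonpos_of_nonneg (by linarith) hm4.le
    have h6 : (1 - ε) / (4 * ((m : ℝ) - 1)) ^ (m - 1) * (H.card.choose m : ℝ) ≤ 0 :=
      mul_nonpos_of_nonpos_of_nonneg h5 (Nat.cast_nonneg _)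
    exact h6.trans (Nat.cast_nonneg _)
  · push Not at hε1
    obtain ⟨e, he⟩ : ∃ e : ℝ, e = ε / (110 * (m : ℝ)) := ⟨_, rfl⟩
    have he0 : 0 < e := by rw [he]; positivity
    have hem : 110 * e * (m : ℝ) = ε := by
      rw [he]; field_simp
    have he1 : e ≤ 1 / 220 := by nlinarith
    have hpow : 1 - ε ≤ (1 - 60 * e) ^ m / (1 + 50 * e) ^ m := by
      rw [← div_pow]
      have h5 : 1 - 110 * e ≤ (1 - 60 * e) / (1 + 50 * e) := by
        rw [le_div_iff₀ (by linarith)]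
        nlinarith
      have h6 : (0 : ℝ) ≤ 1 - 110 * e := by linarith
      have h7 : (1 - 110 * e) ^ m ≤ ((1 - 60 * e) / (1 + 50 * e)) ^ m :=
        pow_le_pow_left₀ h6 h5 m
      have h8 := one_add_mul_le_pow (a := -(110 * e)) (by linarith) m
      have h9 : 1 + (m : ℝ) * (-(110 * e)) = 1 - ε := by rw [← hem]; ring
      rw [h9] at h8
      have h10 : (1 + -(110 * e)) ^ m = (1 - 110 * e) ^ m := by
        rw [← sub_eq_add_neg]
      rw [h10] at h8
      exact h8.trans h7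
    refine ⟨2 ^ ⌈6 * (m : ℝ) / e ^ 3⌉₊, fun H hadm hK => ?_⟩
    have hne : H.Nonempty := by
      rw [← Finset.card_pos]
      exact lt_of_lt_of_le (by positivity) hK
    have hf : ∀ B : Finset ℕ, ∃ n : ℕ, ∀ N, n < N → (∀ a ∈ B, (N + a).Prime) → PrimeIO B := by
      intro B
      by_cases hB : PrimeIO B
      · exact ⟨0, fun _ _ _ => hB⟩
      · have hfin : {N : ℕ | ∀ a ∈ B, (N + a).Prime}.Finite := Set.not_infinite.mp hB
        obtain ⟨n, hn⟩ := hfin.bddAbove
        refine ⟨n, fun N hN hNB => ?_⟩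
        have := hn (show N ∈ {N : ℕ | ∀ a ∈ B, (N + a).Prime} from hNB)
        omega
    choose f hf using hf
    obtain ⟨G, hG, hGc, hGB⟩ := core_pq m hm e he0 he1 H hadm hne ⌈6 * (m : ℝ) / e ^ 3⌉₊ hK
      (Nat.le_ceil _) ((powersetCard m H).sup f)
    have hsub : G ⊆ (powersetCard m H).filter PrimeIO := by
      intro B hB
      rw [Finset.mem_filter]
      refine ⟨hG hB, ?_⟩
      obtain ⟨N, hN, hNB⟩ := hGB B hB
      exact hf B N (lt_of_le_of_lt (Finset.le_sup (hG hB)) hN) hNB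
    have hcard : (G.card : ℝ) ≤ (((powersetCard m H).filter PrimeIO).card : ℝ) := by
      exact_mod_cast Finset.card_le_card hsub
    refine le_trans ?_ (hGc.trans hcard)
    apply mul_le_mul_of_nonneg_right _ (Nat.cast_nonneg _)
    rw [← div_div]
    exact div_le_div_of_nonneg_right hpow hm4.le

end Pool.Agent.H21.SH
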