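import Pool.Agent.H21.SH.P5
import Pool.Agent.H21.SH.Pq
import Pool.Agent.H21.SH.Cq

/-!
Densities of the differences of primes which occur infinitely often.
-/

namespace Pool.Agent.H21.SH

open Finset Filter

/-- `d` is the difference of two primes infinitely often -/
def PolE (d : ℕ) : Prop := {N : ℕ | N.Prime ∧ (N + d).Prime}.Infinite

/-- `d` is the difference of two consecutive primes infinitely often -/
def GapE (d : ℕ) : Prop :=
  {N : ℕ | N.Prime ∧ (N + d).Prime ∧ ∀ x : ℕ, N < x → x < N + d → ¬ x.Prime}.Infinite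

theorem polE_of_primeIO (a b : ℕ) (hab : a < b) (h : PrimeIO {a, b}) : PolE (b - a) := by
  unfold PolE
  have hinj : Set.InjOn (fun N : ℕ => N + a) {N : ℕ | ∀ x ∈ ({a, b} : Finset ℕ), (N + x).Prime} :=
    fun x _ y _ hxy => by simpa using hxy
  refine (h.image hinj).mono ?_
  rintro _ ⟨N, hN, rfl⟩
  have h1 := hN a (by simp)
  have h2 := hN b (by simp)
  refine ⟨h1, ?_⟩
  have e : N + a + (b - a) = N + b := by omega
  show (N + a + (b - a)).Prime
  rw [e]
  exact h2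

theorem gapE_of_consIO (a b : ℕ) (hab : a < b) (h : ConsIO {a, b}) : GapE (b - a) := by
  unfold GapE
  have hinj : Set.InjOn (fun N : ℕ => N + a) {N : ℕ | ∀ x : ℕ, (∃ c ∈ ({a, b} : Finset ℕ),
      ∃ d ∈ ({a, b} : Finset ℕ), c ≤ x ∧ x ≤ d) → ((N + x).Prime ↔ x ∈ ({a, b} : Finset ℕ))} :=
    fun x _ y _ hxy => by simpa using hxy
  refine (h.image hinj).mono ?_
  rintro _ ⟨N, hN, rfl⟩
  have h1 := (hN a ⟨a, by simp, b, by simp, le_rfl, hab.le⟩).2 (by simp)
  have h2 := (hN b ⟨a, by simp, b, by simp, hab.le, le_rfl⟩).2 (by simp)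
  have e : N + a + (b - a) = N + b := by omega
  refine ⟨h1, ?_, ?_⟩
  · show (N + a + (b - a)).Prime
    rw [e]
    exact h2
  · intro x hx1 hx2 hxp
    have hx1' : N + a < x := hx1
    have hx2' : x < N + a + (b - a) := hx2
    obtain ⟨y, rfl⟩ : ∃ y, x = N + y := ⟨x - N, by omega⟩
    have h3 := (hN y ⟨a, by simp, b, by simp, by omega, by omega⟩).1 hxp
    simp only [Finset.mem_insert, Finset.mem_singleton] at h3
    omega

open Classical in
theorem pairProp_of {Q : Finset ℕ → Prop} {E : ℕ → Prop} (c : ℝ) (K0 k : ℕ) (hk : K0 ≤ k)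
    (hQE : ∀ a b : ℕ, a < b → Q {a, b} → E (b - a))
    (h : ∀ H : Finset ℕ, (∀ p : ℕ, p.Prime → ∃ a : ℕ, ∀ h ∈ H, ¬ p ∣ a + h) → K0 ≤ H.card →
      c * (H.card.choose 2 : ℝ) ≤ (((powersetCard 2 H).filter Q).card : ℝ)) :
    PairProp E c k := by
  unfold PairProp
  intro G hG hcard
  have h1 := h G hG (by omega)
  rw [hcard] at h1
  refine h1.trans ?_
  have hsub : (powersetCard 2 G).filter Q ⊆
      (powersetCard 2 G).filter (fun B => ∃ a ∈ B, ∃ b ∈ B, a < b ∧ E (b - a)) := by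
    intro B hB
    rw [mem_filter, mem_powersetCard] at hB ⊢
    refine ⟨hB.1, ?_⟩
    obtain ⟨x, y, hxy, rfl⟩ := Finset.card_eq_two.1 hB.1.2
    rcases lt_or_gt_of_ne hxy with hlt | hlt
    · exact ⟨x, by simp, y, by simp, hlt, hQE x y hlt hB.2⟩
    · refine ⟨y, by simp, x, by simp, hlt, hQE y x hlt ?_⟩
      rw [Finset.pair_comm]
      exact hB.2
  have := Finset.card_le_card hsub
  exact_mod_cast this

theorem pair_pol (c : ℝ) (hc : c < 1 / 4) : ∃ K0 : ℕ, ∀ k, K0 ≤ k → PairProp PolE c k := by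
  classical
  obtain ⟨K0, hK⟩ := many_tuples 2 le_rfl (1 - 4 * c) (by linarith)
  refine ⟨K0, fun k hk => pairProp_of (Q := PrimeIO) c K0 k hk polE_of_primeIO ?_⟩
  intro H hH hcard
  have h1 := hK H hH hcard
  have e : (1 - (1 - 4 * c)) / (4 * (((2 : ℕ) : ℝ) - 1)) ^ (2 - 1) = c := by
    norm_num
  rw [e] at h1
  convert h1

theorem pair_gap (c : ℝ) (hc : c < 1 / 8) : ∃ K0 : ℕ, ∀ k, K0 ≤ k → PairProp GapE c k := by
  classical
  obtain ⟨K0, hK⟩ := many_consecutive 2 le_rfl (1 - 8 * c) (by linarith)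
  refine ⟨K0, fun k hk => pairProp_of (Q := ConsIO) c K0 k hk gapE_of_consIO ?_⟩
  intro H hH hcard
  have h1 := hK H hH hcard
  have e : (1 - (1 - 8 * c)) * (Nat.factorial 2 : ℝ) /
      (((2 : ℕ) : ℝ) ^ 2 * (4 * (((2 : ℕ) : ℝ) - 1)) ^ (2 - 1)) = c := by
    norm_num [Nat.factorial]
    ring
  rw [e] at h1
  convert h1

end Pool.Agent.H21.SH
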