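import Pool.Agent.H21.SH.Lo

/-!
[H21 SH UP]  From integers `N` with `N + h m` prime and the weight `gw` to primes with the weight `vp`.

Proof.  Let `L = log x`, `N ∈ Win x`, `p = N + h m` prime, `u = log(N/x)`, `u' = log(p/x)`,
`0 ≤ u' - u ≤ h m/N ≤ h m/√x`.  `p ∈ Wp x` (`p ≤ x^2 + h m ≤ x^3`), `W ∣ p - (b + h m)`, and
`sig P h lam N = ∑_{dvm} offL m lam d` (`low_sum` in `Pool/Agent/H21/MT/Low.lean`, as
`P k ≤ x^(1/4) < √x < p`).  The map `N ↦ p` is injective, all terms on the right are `≥ 0`.  So it is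
enough that for large `x`
  `gw x N ≤ (1+ε)/L^(J+1) * vp J x p + wN x N / L^A`.
(a) `|u| ≤ log L`: `(log p)^(J+1) ≥ (L - log L)^(J+1) = L^(J+1) (1 - log L/L)^(J+1)`, and
    `gw x p = gw x N exp(-(u'^2 - u^2)/2) ≥ gw x N exp(-(2 log L + 1) h m/√x)`, so the first term on the
    right is `≥ gw x N` for large `x` (all factors tend to `1`).
(b) `|u| > log L`: `gw x N = wN x N exp(-u^2/4) ≤ wN x N exp(-(log L)^2/4) ≤ wN x N / L^A` for large `x`.
-/

namespace Pool.Agent.H21.SH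

open Finset Filter Pool.Agent.H21.MT

theorem up_pt (J A h : ℕ) (ε : ℝ) (hε : 0 < ε) : ∀ᶠ x : ℝ in atTop, ∀ N ∈ Win x,
    gw x N ≤ (1 + ε) / (Real.log x) ^ (J + 1) *
      ((Real.log (N + h : ℕ)) ^ (J + 1) * gw x (N + h)) + wN x N / (Real.log x) ^ A := by
  have hL : ∀ᶠ x : ℝ in atTop, (1 : ℝ) ≤ Real.log x :=
    Real.tendsto_log_atTop.eventually_ge_atTop _
  have hLL : ∀ᶠ x : ℝ in atTop, 4 * (A : ℝ) + 1 ≤ Real.log (Real.log x) :=
    (Real.tendsto_log_atTop.comp Real.tendsto_log_atTop).eventually_ge_atTop _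
  have hlε : 0 < Real.log (1 + ε) := Real.log_pos (by linarith)
  filter_upwards [hL, hLL, lo_small J h _ (half_pos hlε), lo_small 0 0 (1 / 2) (by norm_num),
    eventually_ge_atTop (1 : ℝ), eventually_ge_atTop ((h : ℝ) ^ 2)]
    with x hx hxx hsm hsm2 hx1 hxh N hN
  obtain ⟨e1, d0, d1, d2, hlogN⟩ := lo_uu h hx1 hxh hN
  have hx0 : 0 < x := by linarith
  have hJ0 : (0 : ℝ) ≤ (J : ℝ) := Nat.cast_nonneg _
  have hLpos : 0 < Real.log x := by linarith
  have hsq : 0 < Real.sqrt x := Real.sqrt_pos.2 hx0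
  unfold gw wN
  obtain ⟨L, hLdef⟩ : ∃ L, L = Real.log x := ⟨_, rfl⟩
  obtain ⟨u, hu⟩ : ∃ u, u = Real.log (N / x) := ⟨_, rfl⟩
  obtain ⟨u', hu'⟩ : ∃ u', u' = Real.log (((N + h : ℕ) : ℝ) / x) := ⟨_, rfl⟩
  rw [e1] at hlogN
  rw [e1, ← hu', ← hu, ← hLdef]
  rw [← hu', ← hu] at d0 d1 d2
  rw [← hu', ← hLdef] at hlogN
  rw [← hLdef] at hx hxx hsm hsm2 hLpos
  have hA0 : (0 : ℝ) ≤ A := Nat.cast_nonneg _
  have hlL0 : 0 < Real.log L := by linarith
  have hlLL : Real.log L ≤ L := (Real.log_le_sub_one_of_pos hLpos).trans (by linarith)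
  have hLJ : 0 < L ^ (J + 1) := by positivity
  have ht2 : Real.log L / L ≤ 1 / 2 := by
    simpa using hsm2
  have ht0 : 0 ≤ Real.log L / L := by positivity
  obtain ⟨t, ht⟩ : ∃ t, t = Real.log L / L := ⟨_, rfl⟩
  rw [← ht] at hsm ht2 ht0
  have hLt : L * t = Real.log L := by
    rw [ht]
    field_simp
  have hw0 : 0 ≤ Real.exp (-u ^ 2 / 4) / L ^ A := by positivity
  have hg0 : 0 ≤ (1 + ε) / L ^ (J + 1) * ((L + u') ^ (J + 1) * Real.exp (-u' ^ 2 / 2)) := by
    positivity
  rcases le_or_gt |u| (Real.log L) with hcase | hcase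
  · -- case (a)
    have hp1 : L ≤ (L + u') * Real.exp (2 * t) := by
      have h1 : 1 + 2 * t ≤ Real.exp (2 * t) := by
        have := Real.add_one_le_exp (2 * t)
        linarith
      have h2 : L * (1 - t) ≤ L + u' := by
        have := neg_abs_le u
        have h3 : L * (1 - t) = L - Real.log L := by
          rw [mul_sub, hLt, mul_one]
        linarith
      have h4 : 1 ≤ (1 - t) * (1 + 2 * t) := by nlinarith
      have h5 : 0 ≤ 1 - t := by linarith
      calc L = L * 1 := (mul_one L).symm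
        _ ≤ L * ((1 - t) * (1 + 2 * t)) := mul_le_mul_of_nonneg_left h4 hLpos.le
        _ = (L * (1 - t)) * (1 + 2 * t) := by ring
        _ ≤ (L + u') * Real.exp (2 * t) :=
            mul_le_mul h2 h1 (by linarith) hlogN
    have hp2 : L ^ (J + 1) ≤ (L + u') ^ (J + 1) * Real.exp (((J + 1 : ℕ) : ℝ) * (2 * t)) := by
      calc L ^ (J + 1) ≤ ((L + u') * Real.exp (2 * t)) ^ (J + 1) :=
            pow_le_pow_left₀ hLpos.le hp1 _
        _ = (L + u') ^ (J + 1) * Real.exp (((J + 1 : ℕ) : ℝ) * (2 * t)) := by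
            rw [mul_pow, Real.exp_nat_mul]
    have h1 : L ^ (J + 1) * Real.exp (-u ^ 2 / 2) ≤
        (1 + ε) * ((L + u') ^ (J + 1) * Real.exp (-u' ^ 2 / 2)) := by
      have hLu : 0 ≤ (L + u') ^ (J + 1) := pow_nonneg hlogN _
      calc L ^ (J + 1) * Real.exp (-u ^ 2 / 2)
          ≤ ((L + u') ^ (J + 1) * Real.exp (((J + 1 : ℕ) : ℝ) * (2 * t))) *
            Real.exp (-u ^ 2 / 2) := mul_le_mul_of_nonneg_right hp2 (Real.exp_pos _).le
        _ = (L + u') ^ (J + 1) * Real.exp (((J + 1 : ℕ) : ℝ) * (2 * t) + -u ^ 2 / 2) := by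
            rw [mul_assoc, ← Real.exp_add]
        _ ≤ (L + u') ^ (J + 1) * Real.exp (Real.log (1 + ε) + -u' ^ 2 / 2) := by
            apply mul_le_mul_of_nonneg_left (Real.exp_le_exp.2 ?_) hLu
            have h4 : (u' ^ 2 - u ^ 2) / 2 ≤ (h : ℝ) * ((2 * L + 1) / Real.sqrt x) := by
              have h5 : u' ^ 2 - u ^ 2 ≤ (u' - u) * (2 * L + 1) := by
                have h6 : u' ^ 2 - u ^ 2 = (u' - u) * (u + u') := by ring
                rw [h6]
                apply mul_le_mul_of_nonneg_left _ d0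
                have := le_abs_self u
                linarith
              have h7 : (u' - u) * (2 * L + 1) ≤ ((h : ℝ) / Real.sqrt x) * (2 * L + 1) :=
                mul_le_mul_of_nonneg_right d2 (by linarith)
              have h8 : ((h : ℝ) / Real.sqrt x) * (2 * L + 1) =
                  (h : ℝ) * ((2 * L + 1) / Real.sqrt x) := by ring
              have h9 : 0 ≤ (h : ℝ) * ((2 * L + 1) / Real.sqrt x) := by positivity
              linarith
            have h9 : 0 ≤ (h : ℝ) * ((2 * L + 1) / Real.sqrt x) := by positivity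
            push_cast
            linarith
        _ = (1 + ε) * ((L + u') ^ (J + 1) * Real.exp (-u' ^ 2 / 2)) := by
            rw [Real.exp_add, Real.exp_log (by linarith)]
            ring
    have h2 : Real.exp (-u ^ 2 / 2) ≤
        (1 + ε) / L ^ (J + 1) * ((L + u') ^ (J + 1) * Real.exp (-u' ^ 2 / 2)) := by
      rw [div_mul_eq_mul_div, le_div_iff₀ hLJ, mul_comm]
      exact h1
    linarith
  · -- case (b)
    have h1 : Real.exp (-u ^ 2 / 2) ≤ Real.exp (-u ^ 2 / 4) / L ^ A := by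
      have hLA : L ^ A = Real.exp (A * Real.log L) := by
        rw [Real.exp_nat_mul, Real.exp_log hLpos]
      rw [hLA, ← Real.exp_sub]
      apply Real.exp_le_exp.2
      have hu2 : (Real.log L) ^ 2 ≤ u ^ 2 := by
        rw [← sq_abs u]
        exact pow_le_pow_left₀ hlL0.le hcase.le 2
      nlinarith [mul_le_mul_of_nonneg_right (show 4 * (A : ℝ) ≤ Real.log L by linarith) hlL0.le]
    linarith

theorem up2 (J A : ℕ) (ε : ℝ) (hε : 0 < ε) (I : Type) [Fintype I] [DecidableEq I] (h : I → ℕ)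
    (W b : ℕ) (hW : 0 < W) (m : I) :
    ∀ᶠ x : ℝ in atTop, ∀ (ι : Type) [Fintype ι] [DecidableEq ι] (P : ι → ℕ)
      (lam : (ι → Option I) → ℝ), (∀ k, (P k).Prime) → (∀ k, (P k : ℝ) ≤ x ^ (1 / 4 : ℝ)) →
      ∑ N ∈ ((Win x).filter (fun N => N % W = b % W)).filter (fun N => (N + h m).Prime),
          gw x N * (sig P h lam N) ^ 2 ≤
      (1 + ε) / (Real.log x) ^ (J + 1) *
        (∑ p ∈ (Wp x).filter (fun p : ℕ => (W : ℤ) ∣ (p : ℤ) - (b + h m)),
          vp J x p * (∑ d ∈ univ.filter (fun d => dvm P h m d p), offL m lam d) ^ 2) +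
        (∑ N ∈ (Win x).filter (fun N => N % W = b % W), wN x N * (sig P h lam N) ^ 2) /
          (Real.log x) ^ A := by
  filter_upwards [up_pt J A (h m) ε hε, eventually_ge_atTop 2, eventually_ge_atTop (h m : ℝ)]
    with x h2 hx2 hxh ι _ _ P lam hP hPR
  have hx1 : 1 ≤ x := by linarith
  have hx0 : 0 < x := by linarith
  have hL : 0 ≤ Real.log x := Real.log_nonneg hx1
  have hPs : ∀ k, (P k : ℝ) ≤ Real.sqrt x := by
    intro k
    refine (hPR k).trans ?_
    rw [Real.sqrt_eq_rpow]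
    exact Real.rpow_le_rpow_of_exponent_le hx1 (by norm_num)
  obtain ⟨Sg, hSg⟩ : ∃ Sg : ℕ → ℝ, Sg = fun p =>
    (∑ d ∈ univ.filter (fun d => dvm P h m d p), offL m lam d) ^ 2 := ⟨_, rfl⟩
  have hSg0 : ∀ p, 0 ≤ Sg p := fun p => by rw [hSg]; exact sq_nonneg _
  obtain ⟨T, hT⟩ : ∃ T : Finset ℕ, T =
    ((Win x).filter (fun N => N % W = b % W)).filter (fun N => (N + h m).Prime) := ⟨_, rfl⟩
  rw [← hT]
  have hTm : ∀ N ∈ T, N ∈ Win x ∧ N % W = b % W ∧ (N + h m).Prime := by
    intro N hN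
    rw [hT, Finset.mem_filter, Finset.mem_filter] at hN
    exact ⟨hN.1.1, hN.1.2, hN.2⟩
  have hvp0 : ∀ p, p ∈ Wp x → 0 ≤ vp J x p := by
    intro p hp
    unfold Wp at hp
    rw [Finset.mem_filter, Finset.mem_Icc] at hp
    unfold vp
    have h1 : (1 : ℝ) ≤ p := by exact_mod_cast hp.1.1
    exact mul_nonneg (pow_nonneg (Real.log_nonneg h1) _) (gw_pos x p).le
  have hle : ∀ N ∈ T, gw x N * (sig P h lam N) ^ 2 ≤
      (1 + ε) / (Real.log x) ^ (J + 1) * (vp J x (N + h m) * Sg (N + h m)) +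
        wN x N * (sig P h lam N) ^ 2 / (Real.log x) ^ A := by
    intro N hN
    obtain ⟨a1, a2, a3⟩ := hTm N hN
    have hNs : Real.sqrt x < N := by
      unfold Win at a1
      rw [Finset.mem_Ioc] at a1
      exact (Nat.floor_lt (Real.sqrt_nonneg _)).1 a1.1
    have a5 : Sg (N + h m) = (sig P h lam N) ^ 2 := by
      have := low_sum P h m lam N hP a3 (by
        intro k
        have h6 : (P k : ℝ) < (N : ℝ) := lt_of_le_of_lt (hPs k) hNs
        have h7 : P k < N := by exact_mod_cast h6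
        omega)
      rw [hSg]
      simp only [this]
    have a6 := mul_le_mul_of_nonneg_right (h2 N a1) (sq_nonneg (sig P h lam N))
    rw [a5]
    unfold vp
    refine a6.trans (le_of_eq ?_)
    ring
  have h3 : ∑ N ∈ T, wN x N * (sig P h lam N) ^ 2 / (Real.log x) ^ A ≤
      (∑ N ∈ (Win x).filter (fun N => N % W = b % W), wN x N * (sig P h lam N) ^ 2) /
        (Real.log x) ^ A := by
    rw [← Finset.sum_div]
    apply div_le_div_of_nonneg_right _ (pow_nonneg hL _)
    apply Finset.sum_le_sum_of_subset_of_nonneg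
    · rw [hT]
      exact Finset.filter_subset _ _
    · intro N _ _
      exact mul_nonneg (wN_pos x N).le (sq_nonneg _)
  have h4 : ∑ N ∈ T, vp J x (N + h m) * Sg (N + h m) ≤
      ∑ p ∈ (Wp x).filter (fun p : ℕ => (W : ℤ) ∣ (p : ℤ) - (b + h m)), vp J x p * Sg p := by
    have hinj : Set.InjOn (fun N => N + h m) (T : Set ℕ) := by
      intro p _ q _ hpq
      simpa using hpq
    rw [← Finset.sum_image (f := fun p => vp J x p * Sg p) hinj]
    apply Finset.sum_le_sum_of_subset_of_nonneg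
    · intro p hp
      obtain ⟨N, hN, rfl⟩ := Finset.mem_image.1 hp
      obtain ⟨a1, a2, a3⟩ := hTm N hN
      rw [Finset.mem_filter]
      constructor
      · unfold Wp
        rw [Finset.mem_filter, Finset.mem_Icc]
        refine ⟨⟨a3.one_lt.le, ?_⟩, a3⟩
        rw [Nat.le_floor_iff (by positivity)]
        unfold Win at a1
        rw [Finset.mem_Ioc] at a1
        have h5 : (N : ℝ) ≤ x ^ 2 := (Nat.le_floor_iff (by positivity)).1 a1.2
        push_cast
        have h6 : x ^ 2 + x ≤ x ^ 3 := by nlinarith [mul_nonneg hx0.le hx0.le]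
        linarith
      · have h8 : (W : ℤ) ∣ (N : ℤ) - (b : ℤ) := by
          have h9 : (b : ℤ) ≡ (N : ℤ) [ZMOD W] := Int.natCast_modEq_iff.2 a2.symm
          exact (Int.modEq_iff_dvd).1 h9
        have : (((N + h m : ℕ) : ℤ)) - (b + h m) = (N : ℤ) - b := by push_cast; ring
        rw [this]
        exact h8
    · intro p hp _
      rw [Finset.mem_filter] at hp
      exact mul_nonneg (hvp0 p hp.1) (hSg0 p)
  have h5 : 0 ≤ (1 + ε) / (Real.log x) ^ (J + 1) := by positivity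
  calc ∑ N ∈ T, gw x N * (sig P h lam N) ^ 2
      ≤ ∑ N ∈ T, ((1 + ε) / (Real.log x) ^ (J + 1) * (vp J x (N + h m) * Sg (N + h m)) +
        wN x N * (sig P h lam N) ^ 2 / (Real.log x) ^ A) := Finset.sum_le_sum hle
    _ = (1 + ε) / (Real.log x) ^ (J + 1) * (∑ N ∈ T, vp J x (N + h m) * Sg (N + h m)) +
        ∑ N ∈ T, wN x N * (sig P h lam N) ^ 2 / (Real.log x) ^ A := by
        rw [Finset.sum_add_distrib, Finset.mul_sum]
    _ ≤ _ := by
        refine add_le_add ?_ h3
        apply mul_le_mul_of_nonneg_left _ h5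
        refine h4.trans (le_of_eq ?_)
        rw [hSg]

end Pool.Agent.H21.SH
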