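import Pool.Agent.H21.MT.MmLow
import Pool.Agent.H21.SH.Gx

/-!
[H21 SH MM]  The prime number theorem for the weight `vp`: `MM J x ~ (log x)^J XG x`.

Proof.  Let `L = log x`, `Y = ⌊x^3⌋₊`, `f(n) = (log n)^J gw x n` (`n ≥ 1`), so
`MM J x = ∑_{p ≤ Y} f(p) log p`, and `θ(n) = ∑_{p ≤ n} log p` (`Chebyshev.theta`), `θ(n)/n → 1`
(see the beginning of the proof of `mm_lower` in `Pool/Agent/H21/MT/MmLow.lean`).
(1) Fix `η > 0`, `n0` with `|θ(n) - n| ≤ η n` for `n ≥ n0`.  Abel summation: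
    `∑_{p ≤ Y} f(p) log p - ∑_{n ≤ Y} f(n) = ∑_{n ≤ Y} f(n) (e(n) - e(n-1)) = e(Y) f(Y) + ∑_{n < Y} e(n) (f(n) - f(n+1))`,
    `e(n) = θ(n) - n`.  `f` is unimodal on `n ≥ 2`: `log f = J log log n - (log n - L)^2/2` has in the
    variable `w = log n` the derivative `J/w - (w - L)`, which is decreasing; let `n1` be the place of
    the maximum, `log n1 ≤ L + J` (roughly; `J/w - (w-L) < 0` for `w ≥ L + J`, `w ≥ 1`).  For a unimodal
    `f ≥ 0`: `∑_{n < Y} n |f(n) - f(n+1)| ≤ 2 (n1+1) sup f + ∑_{n ≤ Y} f(n)`.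
    So the difference is at most `η (2 (e^J x + 2) (3L)^J + ∑ f) + (constant of n0) (3L)^J + |e(Y)| f(Y)`.
    To have the power `L^J` with a constant depending on `J` only this is `≤ η C_J x L^J` for large `x`
    (`∑_{n ≤ Y} f(n) ≤ (3L)^J 36 x` by `triv_G`; `|e(Y)| f(Y) ≤ 4 Y (3L)^J exp(-2 L^2 + ..) ≤ 1`).
    Alternative without unimodality: estimate the sums over the intervals `(x e^{jδ}, x e^{(j+1)δ}]`.
(2) `∑_{n ≤ Y} f(n)` against `L^J XG`: for `n` with `|u| ≤ T` (`u = log(n/x)`, `T` fixed),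
    `|(log n)^J/L^J - 1| ≤ C_{J,T}/L → 0`; for `|u| > T` the terms are `≤ 3^J L^J gw x n ≤
    3^J L^J exp(-T^2/4) wN x n`, and `∑_{n ≤ Y} wN x n ≤ 200 x` (as `wN x n ≤ e^4 (x/n)^2` for `n ≥ x`).  The
    `n ≤ √x` and `x^2 < n ≤ Y` outside `Win x` contribute at most `1` (`gw_tiny`, `exp_log_sq`).
(3) `XG x ≥ x/8` (`gw_massx`).  Choose `T` large and `η` small in terms of `ε`, `J`.
-/

namespace Pool.Agent.H21.SH

open Finset Filter Pool.Agent.H21.MT

/-- logarithm at primes -/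
private noncomputable def mmA (n : ℕ) : ℝ := if n.Prime then Real.log n else 0

private theorem mmA_nonneg (n : ℕ) : 0 ≤ mmA n := by
  unfold mmA
  split_ifs
  · exact Real.log_natCast_nonneg n
  · exact le_rfl

private theorem mmA_sum (n : ℕ) : ∑ k ∈ Ioc 0 n, mmA k = Chebyshev.theta n := by
  unfold Chebyshev.theta mmA
  rw [Nat.floor_natCast, Finset.sum_filter]

private theorem mmA_le (n : ℕ) : Chebyshev.theta n ≤ 7 / 5 * n := by
  have h1 := Chebyshev.theta_le_log4_mul_x (Nat.cast_nonneg (α := ℝ) n)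
  have h2 : Real.log 4 ≤ 7 / 5 := by
    have h3 : Real.log 4 = 2 * Real.log 2 := by
      rw [show (4 : ℝ) = 2 ^ 2 by norm_num, Real.log_pow]
      norm_num
    have := Real.log_two_lt_d9
    rw [h3]
    linarith
  exact h1.trans (mul_le_mul_of_nonneg_right h2 (Nat.cast_nonneg n))

/-- the error term of the prime number theorem, for all `n` -/
private theorem mm_err (η : ℝ) (hη : 0 < η) : ∃ C : ℝ, 0 ≤ C ∧ ∀ n : ℕ,
    |Chebyshev.theta n - n| ≤ η * n + C := by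
  have hth := Pool.Agent.H5.PNT.theta_tendsto
  rw [Metric.tendsto_atTop] at hth
  obtain ⟨N, hN⟩ := hth η hη
  refine ⟨2 * max N 1, by positivity, fun n => ?_⟩
  rcases le_or_gt (max N 1) (n : ℝ) with h | h
  · have h1 := hN n ((le_max_left _ _).trans h)
    have hn : (1 : ℝ) ≤ n := (le_max_right _ _).trans h
    have hn0 : (0 : ℝ) < n := by linarith
    rw [Real.dist_eq] at h1
    have h2 : Chebyshev.theta n - n = (Chebyshev.theta n / n - 1) * n := by field_simp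
    rw [h2, abs_mul, abs_of_pos hn0]
    have h3 : 0 ≤ 2 * max N 1 := by positivity
    have h4 := mul_le_mul_of_nonneg_right h1.le hn0.le
    linarith
  · have h1 := mmA_le n
    have h2 : 0 ≤ Chebyshev.theta n := by
      rw [← mmA_sum]
      exact sum_nonneg fun k _ => mmA_nonneg k
    have h3 : (0 : ℝ) ≤ n := Nat.cast_nonneg n
    have h4 : 0 ≤ η * n := by positivity
    rw [abs_le]
    constructor <;> linarith

/-- Abel summation -/
private theorem mm_abel (e f : ℕ → ℝ) (he : e 0 = 0) (Y : ℕ) :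
    ∑ n ∈ Ioc 0 Y, (e n - e (n - 1)) * f n =
      e Y * f (Y + 1) + ∑ n ∈ Ioc 0 Y, e n * (f n - f (n + 1)) := by
  induction Y with
  | zero => simp [he]
  | succ Y ih =>
    rw [sum_Ioc_succ_top (Nat.zero_le Y), sum_Ioc_succ_top (Nat.zero_le Y), ih]
    rw [Nat.add_sub_cancel]
    ring

private theorem mm_phi (g : ℕ → ℝ) (m : ℕ) : ∑ n ∈ Ioc 0 m, (n : ℝ) * (g (n + 1) - g n) =
    ((m : ℝ) + 1) * g (m + 1) - ∑ n ∈ Ioc 0 (m + 1), g n := by
  induction m with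
  | zero => simp
  | succ m ih =>
    rw [sum_Ioc_succ_top (Nat.zero_le m), ih, sum_Ioc_succ_top (Nat.zero_le (m + 1))]
    push_cast
    ring

private theorem mm_tele (g : ℕ → ℝ) (m : ℕ) : ∑ n ∈ Ioc 0 m, (1 : ℝ) * (g (n + 1) - g n) =
    g (m + 1) - g 1 := by
  induction m with
  | zero => simp
  | succ m ih =>
    rw [sum_Ioc_succ_top (Nat.zero_le m), ih]
    ring

/-- variation of a unimodal function, with weights -/
private theorem mm_split (g c : ℕ → ℝ) (t Y : ℕ) (ht : 1 ≤ t) (htY : t ≤ Y)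
    (hup : ∀ k, 0 < k → k < t → g k ≤ g (k + 1)) (hdown : ∀ k, t < k → g (k + 1) ≤ g k) :
    ∑ n ∈ Ioc 0 Y, c n * |g n - g (n + 1)| =
      ∑ n ∈ Ioc 0 (t - 1), c n * (g (n + 1) - g n) + c t * |g t - g (t + 1)| +
        (∑ n ∈ Ioc 0 t, c n * (g (n + 1) - g n) - ∑ n ∈ Ioc 0 Y, c n * (g (n + 1) - g n)) := by
  have h1 : ∑ n ∈ Ioc 0 Y, c n * |g n - g (n + 1)| =
      ∑ n ∈ Ioc 0 t, c n * |g n - g (n + 1)| + ∑ n ∈ Ioc t Y, c n * |g n - g (n + 1)| :=
    (sum_Ioc_consecutive _ (Nat.zero_le t) htY).symm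
  have h2 : ∑ n ∈ Ioc 0 Y, c n * (g (n + 1) - g n) =
      ∑ n ∈ Ioc 0 t, c n * (g (n + 1) - g n) + ∑ n ∈ Ioc t Y, c n * (g (n + 1) - g n) :=
    (sum_Ioc_consecutive _ (Nat.zero_le t) htY).symm
  have h3 : ∑ n ∈ Ioc 0 t, c n * |g n - g (n + 1)| =
      ∑ n ∈ Ioc 0 (t - 1), c n * |g n - g (n + 1)| + c t * |g t - g (t + 1)| := by
    obtain ⟨s, rfl⟩ : ∃ s, t = s + 1 := ⟨t - 1, by omega⟩
    rw [sum_Ioc_succ_top (Nat.zero_le s), Nat.add_sub_cancel]
  have h4 : ∑ n ∈ Ioc 0 (t - 1), c n * |g n - g (n + 1)| =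
      ∑ n ∈ Ioc 0 (t - 1), c n * (g (n + 1) - g n) := by
    apply sum_congr rfl
    intro n hn
    rw [mem_Ioc] at hn
    have := hup n hn.1 (by omega)
    rw [abs_of_nonpos (by linarith)]
    ring
  have h5 : ∑ n ∈ Ioc t Y, c n * |g n - g (n + 1)| =
      - ∑ n ∈ Ioc t Y, c n * (g (n + 1) - g n) := by
    rw [← sum_neg_distrib]
    apply sum_congr rfl
    intro n hn
    rw [mem_Ioc] at hn
    have := hdown n hn.1
    rw [abs_of_nonneg (by linarith)]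
    ring
  rw [h1, h2, h3, h4, h5]
  ring

private theorem mm_var (g : ℕ → ℝ) (t Y : ℕ) (ht : 1 ≤ t) (htY : t ≤ Y) (hg0 : ∀ n, 0 ≤ g n)
    (hg1 : ∀ n, g n ≤ 1) (hup : ∀ k, 0 < k → k < t → g k ≤ g (k + 1))
    (hdown : ∀ k, t < k → g (k + 1) ≤ g k) (S : ℝ) (hS : ∑ n ∈ Ioc 0 (Y + 1), g n ≤ S) :
    ∑ n ∈ Ioc 0 Y, (1 : ℝ) * |g n - g (n + 1)| ≤ 3 ∧
      ∑ n ∈ Ioc 0 Y, (n : ℝ) * |g n - g (n + 1)| ≤ 3 * t + 1 + S := by
  have habs : |g t - g (t + 1)| ≤ 1 := by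
    rw [abs_le]
    have h1 := hg0 t
    have h2 := hg1 t
    have h3 := hg0 (t + 1)
    have h4 := hg1 (t + 1)
    constructor <;> linarith
  have ht' : ((t - 1 : ℕ) : ℝ) + 1 = t := by
    have : (((t - 1) + 1 : ℕ) : ℝ) = t := by
      congr 1
      omega
    push_cast at this
    exact this
  have ht'' : t - 1 + 1 = t := by omega
  constructor
  · rw [mm_split g (fun _ => 1) t Y ht htY hup hdown, mm_tele, mm_tele, mm_tele, ht'']
    have h1 := hg1 t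
    have h2 := hg0 1
    have h3 := hg1 (t + 1)
    have h4 := hg0 (Y + 1)
    linarith
  · rw [mm_split g (fun n => (n : ℝ)) t Y ht htY hup hdown, mm_phi, mm_phi, mm_phi, ht'', ht']
    have ht0 : (0 : ℝ) ≤ t := Nat.cast_nonneg t
    have h1 : (t : ℝ) * g t ≤ t := mul_le_of_le_one_right ht0 (hg1 t)
    have h2 : (t : ℝ) * |g t - g (t + 1)| ≤ t := mul_le_of_le_one_right ht0 habs
    have h3 : ((t : ℝ) + 1) * g (t + 1) ≤ t + 1 := mul_le_of_le_one_right (by linarith) (hg1 _)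
    have h4 : 0 ≤ ((Y : ℝ) + 1) * g (Y + 1) := mul_nonneg (by positivity) (hg0 _)
    have h5 : 0 ≤ ∑ n ∈ Ioc 0 t, g n := sum_nonneg fun n _ => hg0 n
    have h6 : 0 ≤ ∑ n ∈ Ioc 0 (t + 1), g n := sum_nonneg fun n _ => hg0 n
    linarith

/-- tails of sums with weight `n⁻²` -/
private theorem mm_dual (a : ℕ → ℝ) (C : ℝ) (hA : ∀ n : ℕ, ∑ k ∈ Ioc 0 n, a k ≤ C * n)
    (hA0 : ∀ n : ℕ, 0 ≤ ∑ k ∈ Ioc 0 n, a k) (hC : 0 ≤ C) (N M : ℕ) (hNM : N ≤ M) :
    ∑ n ∈ Ioc N M, a n * ((n : ℝ) ^ 2)⁻¹ ≤ 3 * C / ((N : ℝ) + 1) := by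
  have key : ∀ M, N ≤ M → ∑ n ∈ Ioc N M, a n * ((n : ℝ) ^ 2)⁻¹ ≤
      2 * C / ((N : ℝ) + 1) - 2 * C / ((M : ℝ) + 1) +
        (∑ k ∈ Ioc 0 M, a k) / ((M : ℝ) + 1) ^ 2 := by
    intro M hM
    induction M, hM using Nat.le_induction with
    | base =>
      rw [Ioc_self, sum_empty, sub_self, zero_add]
      have := hA0 N
      positivity
    | succ M hM ih =>
      rw [sum_Ioc_succ_top hM]
      have h1 : ∑ k ∈ Ioc 0 (M + 1), a k = ∑ k ∈ Ioc 0 M, a k + a (M + 1) :=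
        sum_Ioc_succ_top (Nat.zero_le M) _
      have h2 := hA (M + 1)
      rw [h1] at h2 ⊢
      obtain ⟨A, hAd⟩ : ∃ A, A = ∑ k ∈ Ioc 0 M, a k := ⟨_, rfl⟩
      rw [← hAd] at ih h2 ⊢
      obtain ⟨m, hm⟩ : ∃ m : ℝ, m = (M : ℝ) + 1 := ⟨_, rfl⟩
      have hm1 : 1 ≤ m := by
        have : (0 : ℝ) ≤ M := Nat.cast_nonneg M
        linarith
      push_cast at h2 ⊢
      rw [← hm] at ih h2 ⊢
      have h3 : (A + a (M + 1)) * ((m ^ 2)⁻¹ - ((m + 1) ^ 2)⁻¹) ≤ 2 * C / m - 2 * C / (m + 1) := by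
        have h4 : 0 ≤ (m ^ 2)⁻¹ - ((m + 1) ^ 2)⁻¹ := by
          rw [sub_nonneg]
          apply inv_anti₀ (by positivity)
          apply pow_le_pow_left₀ (by positivity)
          linarith
        refine (mul_le_mul_of_nonneg_right h2 h4).trans ?_
        have h5 : C * m * ((m ^ 2)⁻¹ - ((m + 1) ^ 2)⁻¹) = C * (2 * m + 1) / (m * (m + 1) ^ 2) := by
          field_simp
          ring
        have h6 : 2 * C / m - 2 * C / (m + 1) = C * (2 * m + 2) / (m * (m + 1) ^ 2) := by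
          field_simp
          ring
        rw [h5, h6]
        apply div_le_div_of_nonneg_right _ (by positivity)
        apply mul_le_mul_of_nonneg_left _ hC
        linarith
      have h7 : A / m ^ 2 + a (M + 1) * (m ^ 2)⁻¹ = (A + a (M + 1)) * (m ^ 2)⁻¹ := by
        rw [div_eq_mul_inv]; ring
      have h8 : (A + a (M + 1)) / (m + 1) ^ 2 = (A + a (M + 1)) * ((m + 1) ^ 2)⁻¹ := by
        rw [div_eq_mul_inv]
      rw [h8]
      rw [mul_sub] at h3
      linarith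
  refine (key M hNM).trans ?_
  have h1 : (∑ k ∈ Ioc 0 M, a k) / ((M : ℝ) + 1) ^ 2 ≤ C / ((M : ℝ) + 1) := by
    rw [div_le_div_iff₀ (by positivity) (by positivity)]
    have h2 := hA M
    have h3 : (0 : ℝ) ≤ M := Nat.cast_nonneg M
    calc (∑ k ∈ Ioc 0 M, a k) * ((M : ℝ) + 1) ≤ C * M * ((M : ℝ) + 1) :=
          mul_le_mul_of_nonneg_right h2 (by positivity)
      _ ≤ C * ((M : ℝ) + 1) ^ 2 := by nlinarith
  have h4 : C / ((M : ℝ) + 1) ≤ C / ((N : ℝ) + 1) := by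
    apply div_le_div_of_nonneg_left hC (by positivity)
    have : (N : ℝ) ≤ M := by exact_mod_cast hNM
    linarith
  have h5 : 0 ≤ C / ((M : ℝ) + 1) := by positivity
  have h6 : 2 * C / ((M : ℝ) + 1) = 2 * (C / ((M : ℝ) + 1)) := by ring
  have h7 : 3 * C / ((N : ℝ) + 1) = 2 * C / ((N : ℝ) + 1) + C / ((N : ℝ) + 1) := by ring
  rw [h6, h7]
  linarith

private theorem mm_gw_up {x : ℝ} (hx : 1 ≤ x) (k : ℕ) (hk0 : 0 < k) (hk : k < ⌊x⌋₊) :
    gw x k ≤ gw x (k + 1) := by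
  have hx0 : 0 < x := by linarith
  have hk' : (k : ℝ) + 1 ≤ x := by
    have h1 : k + 1 ≤ ⌊x⌋₊ := hk
    have h2 := (Nat.le_floor_iff hx0.le).mp h1
    push_cast at h2
    exact h2
  have hkpos : (0 : ℝ) < k := by exact_mod_cast hk0
  unfold gw
  apply Real.exp_le_exp.mpr
  have h1 : Real.log ((k : ℝ) / x) ≤ Real.log (((k + 1 : ℕ) : ℝ) / x) := by
    apply Real.log_le_log (by positivity)
    apply div_le_div_of_nonneg_right _ hx0.le
    push_cast
    linarith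
  have h2 : Real.log (((k + 1 : ℕ) : ℝ) / x) ≤ 0 := by
    apply Real.log_nonpos (by positivity)
    rw [div_le_one hx0]
    push_cast
    exact hk'
  have h3 : (Real.log (((k + 1 : ℕ) : ℝ) / x)) ^ 2 ≤ (Real.log ((k : ℝ) / x)) ^ 2 := by
    nlinarith
  linarith

private theorem mm_gw_down {x : ℝ} (hx : 1 ≤ x) (k : ℕ) (hk : ⌊x⌋₊ < k) :
    gw x (k + 1) ≤ gw x k := by
  have hx0 : 0 < x := by linarith
  have hk' : x < k := Nat.lt_of_floor_lt hk
  have hkpos : (0 : ℝ) < k := by linarith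
  unfold gw
  apply Real.exp_le_exp.mpr
  have h1 : Real.log ((k : ℝ) / x) ≤ Real.log (((k + 1 : ℕ) : ℝ) / x) := by
    apply Real.log_le_log (by positivity)
    apply div_le_div_of_nonneg_right _ hx0.le
    push_cast
    linarith
  have h2 : 0 ≤ Real.log ((k : ℝ) / x) := by
    apply Real.log_nonneg
    rw [one_le_div hx0]
    exact hk'.le
  have h3 : (Real.log ((k : ℝ) / x)) ^ 2 ≤ (Real.log (((k + 1 : ℕ) : ℝ) / x)) ^ 2 := by
    nlinarith
  linarith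

private theorem mm_exp2 : Real.exp 2 ≤ 9 := by
  have h1 : Real.exp 1 < 2.7182818286 := Real.exp_one_lt_d9
  have h2 : Real.exp 2 = Real.exp 1 * Real.exp 1 := by rw [← Real.exp_add]; norm_num
  rw [h2]
  nlinarith [Real.exp_pos 1]

private theorem mm_exp4 : Real.exp 4 ≤ 55 := by
  have h1 : Real.exp 1 < 2.7182818286 := Real.exp_one_lt_d9
  have h2 : Real.exp 2 = Real.exp 1 * Real.exp 1 := by rw [← Real.exp_add]; norm_num
  have h4 : Real.exp 4 = Real.exp 2 * Real.exp 2 := by rw [← Real.exp_add]; norm_num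
  have h3 : Real.exp 2 ≤ 7.39 := by
    rw [h2]
    nlinarith [Real.exp_pos 1]
  rw [h4]
  nlinarith [Real.exp_pos 2]

private theorem mm_tail {x : ℝ} (hx : 1 ≤ x) (n : ℕ) (hn : 0 < n) :
    gw x n ≤ 9 * x ^ 2 * ((n : ℝ) ^ 2)⁻¹ ∧ wN x n ≤ 55 * x ^ 2 * ((n : ℝ) ^ 2)⁻¹ := by
  have hx0 : 0 < x := by linarith
  have hnpos : (0 : ℝ) < n := by exact_mod_cast hn
  have h3 : 2 * Real.log ((n : ℝ) / x) = Real.log (((n : ℝ) / x) ^ 2) := by
    rw [Real.log_pow]; norm_num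
  have h2 : ∀ c : ℝ, Real.exp (c - 2 * Real.log ((n : ℝ) / x)) =
      Real.exp c * x ^ 2 * ((n : ℝ) ^ 2)⁻¹ := by
    intro c
    rw [h3, Real.exp_sub, Real.exp_log (by positivity)]
    field_simp
  constructor
  · have h1 : -(Real.log ((n : ℝ) / x)) ^ 2 / 2 ≤ 2 - 2 * Real.log ((n : ℝ) / x) := by
      nlinarith [sq_nonneg (Real.log ((n : ℝ) / x) - 2)]
    unfold gw
    refine (Real.exp_le_exp.mpr h1).trans ?_
    rw [h2]
    have := mm_exp2
    gcongr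
  · have h1 : -(Real.log ((n : ℝ) / x)) ^ 2 / 4 ≤ 4 - 2 * Real.log ((n : ℝ) / x) := by
      nlinarith [sq_nonneg (Real.log ((n : ℝ) / x) - 4)]
    unfold wN
    refine (Real.exp_le_exp.mpr h1).trans ?_
    rw [h2]
    have := mm_exp4
    gcongr

/-- sums of `9 x² n⁻²` -/
private theorem mm_inv {x : ℝ} (hx : 1 ≤ x) (N M : ℕ) (hN : N ≠ 0) (hNM : N ≤ M) :
    ∑ n ∈ Ioc N M, gw x n ≤ 9 * x ^ 2 * (N : ℝ)⁻¹ := by
  calc ∑ n ∈ Ioc N M, gw x n ≤ ∑ n ∈ Ioc N M, 9 * x ^ 2 * ((n : ℝ) ^ 2)⁻¹ := by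
        apply sum_le_sum
        intro n hn
        rw [mem_Ioc] at hn
        exact (mm_tail hx n (by omega)).1
    _ = 9 * x ^ 2 * ∑ n ∈ Ioc N M, ((n : ℝ) ^ 2)⁻¹ := by rw [mul_sum]
    _ ≤ 9 * x ^ 2 * (N : ℝ)⁻¹ := by
        apply mul_le_mul_of_nonneg_left _ (by positivity)
        have h := sum_Ioc_inv_sq_le_sub (α := ℝ) hN hNM
        have h2 : (0 : ℝ) ≤ (M : ℝ)⁻¹ := by positivity
        linarith

private theorem mm_floor_inv {y : ℝ} (hy : 1 ≤ y) : ((⌊y⌋₊ : ℕ) : ℝ)⁻¹ ≤ 2 / y := by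
  have hfl : 1 ≤ ⌊y⌋₊ := by
    rw [Nat.le_floor_iff (by linarith)]
    simpa using hy
  have hflr : (1 : ℝ) ≤ (⌊y⌋₊ : ℝ) := by exact_mod_cast hfl
  have h3 : y < ⌊y⌋₊ + 1 := Nat.lt_floor_add_one y
  rw [inv_le_comm₀ (by linarith) (by positivity), inv_div]
  linarith

private theorem mm_G {x : ℝ} (hx : 1 ≤ x) (N : ℕ) : ∑ n ∈ Ioc 0 N, gw x n ≤ 19 * x := by
  have hx0 : 0 < x := by linarith
  have hfl : 1 ≤ ⌊x⌋₊ := by
    rw [Nat.le_floor_iff hx0.le]
    simpa using hx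
  have hhead : ∑ n ∈ Ioc 0 ⌊x⌋₊, gw x n ≤ x := by
    calc ∑ n ∈ Ioc 0 ⌊x⌋₊, gw x n ≤ ∑ n ∈ Ioc 0 ⌊x⌋₊, (1 : ℝ) :=
          Finset.sum_le_sum (fun n _ => gw_le_one x n)
      _ = (⌊x⌋₊ : ℝ) := by simp
      _ ≤ x := Nat.floor_le hx0.le
  rcases le_total N ⌊x⌋₊ with hN | hN
  · calc ∑ n ∈ Ioc 0 N, gw x n ≤ ∑ n ∈ Ioc 0 ⌊x⌋₊, gw x n := by
          apply Finset.sum_le_sum_of_subset_of_nonneg
          · exact Finset.Ioc_subset_Ioc_right hN
          · intro n _ _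
            exact (gw_pos x n).le
      _ ≤ x := hhead
      _ ≤ 19 * x := by linarith
  · rw [← sum_Ioc_consecutive (gw x) (Nat.zero_le _) hN]
    have h1 := mm_inv hx ⌊x⌋₊ N (by omega) hN
    have h2 := mm_floor_inv hx
    have h3 : 9 * x ^ 2 * ((⌊x⌋₊ : ℕ) : ℝ)⁻¹ ≤ 9 * x ^ 2 * (2 / x) :=
      mul_le_mul_of_nonneg_left h2 (by positivity)
    have h4 : 9 * x ^ 2 * (2 / x) = 18 * x := by
      field_simp
      ring
    linarith

/-- the sum of the wide weight over the primes -/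
private theorem mm_wN {x : ℝ} (hx : 1 ≤ x) (Y : ℕ) : ∑ n ∈ Ioc 0 Y, mmA n * wN x n ≤ 240 * x := by
  have hx0 : 0 < x := by linarith
  have hhead : ∑ n ∈ Ioc 0 ⌊x⌋₊, mmA n * wN x n ≤ 7 / 5 * x := by
    calc ∑ n ∈ Ioc 0 ⌊x⌋₊, mmA n * wN x n ≤ ∑ n ∈ Ioc 0 ⌊x⌋₊, mmA n :=
          Finset.sum_le_sum (fun n _ => mul_le_of_le_one_right (mmA_nonneg n) (wN_le_one x n))
      _ = Chebyshev.theta ((⌊x⌋₊ : ℕ) : ℝ) := mmA_sum _
      _ ≤ 7 / 5 * ((⌊x⌋₊ : ℕ) : ℝ) := mmA_le _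
      _ ≤ 7 / 5 * x := by
          have := Nat.floor_le hx0.le
          linarith
  rcases le_total Y ⌊x⌋₊ with hN | hN
  · calc ∑ n ∈ Ioc 0 Y, mmA n * wN x n ≤ ∑ n ∈ Ioc 0 ⌊x⌋₊, mmA n * wN x n := by
          apply Finset.sum_le_sum_of_subset_of_nonneg
          · exact Finset.Ioc_subset_Ioc_right hN
          · intro n _ _
            exact mul_nonneg (mmA_nonneg n) (wN_pos x n).le
      _ ≤ 240 * x := by linarith
  · rw [← sum_Ioc_consecutive (fun n => mmA n * wN x n) (Nat.zero_le _) hN]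
    have h1 : ∑ n ∈ Ioc ⌊x⌋₊ Y, mmA n * wN x n ≤
        55 * x ^ 2 * ∑ n ∈ Ioc ⌊x⌋₊ Y, mmA n * ((n : ℝ) ^ 2)⁻¹ := by
      rw [mul_sum]
      apply sum_le_sum
      intro n hn
      rw [mem_Ioc] at hn
      have h2 := mul_le_mul_of_nonneg_left (mm_tail hx n (by omega)).2 (mmA_nonneg n)
      refine h2.trans (le_of_eq ?_)
      ring
    have h2 := mm_dual mmA (7 / 5) (fun n => by rw [mmA_sum]; exact mmA_le n)
      (fun n => sum_nonneg fun k _ => mmA_nonneg k) (by norm_num) ⌊x⌋₊ Y hN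
    have h3 : 3 * (7 / 5 : ℝ) / (((⌊x⌋₊ : ℕ) : ℝ) + 1) ≤ 3 * (7 / 5) / x := by
      apply div_le_div_of_nonneg_left (by norm_num) hx0
      exact (Nat.lt_floor_add_one x).le
    have h4 : 55 * x ^ 2 * ∑ n ∈ Ioc ⌊x⌋₊ Y, mmA n * ((n : ℝ) ^ 2)⁻¹ ≤
        55 * x ^ 2 * (3 * (7 / 5) / x) := mul_le_mul_of_nonneg_left (h2.trans h3) (by positivity)
    have h5 : 55 * x ^ 2 * (3 * (7 / 5) / x) = 231 * x := by
      field_simp
      ring
    linarith

/-- primes and integers, weight `gw` -/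
private theorem mm_P1 (η : ℝ) (hη : 0 < η) : ∃ C : ℝ, 0 ≤ C ∧ ∀ x : ℝ, 2 ≤ x →
    |∑ n ∈ Ioc 0 ⌊x ^ 3⌋₊, mmA n * gw x n - ∑ n ∈ Ioc 0 ⌊x ^ 3⌋₊, gw x n| ≤
      η * (40 * x) + C := by
  obtain ⟨C, hC, herr⟩ := mm_err η hη
  refine ⟨3 * C + 20, by positivity, fun x hx => ?_⟩
  have hx0 : 0 < x := by linarith
  have hx1 : 1 ≤ x := by linarith
  obtain ⟨Y, hY⟩ : ∃ Y, Y = ⌊x ^ 3⌋₊ := ⟨_, rfl⟩
  obtain ⟨t, ht⟩ : ∃ t, t = ⌊x⌋₊ := ⟨_, rfl⟩
  have ht1 : 1 ≤ t := by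
    rw [ht, Nat.le_floor_iff hx0.le]
    simpa using hx1
  have htY : t ≤ Y := by
    rw [ht, hY]
    apply Nat.floor_mono
    nlinarith [mul_pos hx0 hx0]
  have htx : (t : ℝ) ≤ x := by rw [ht]; exact Nat.floor_le hx0.le
  rw [← hY, ← sum_sub_distrib]
  have h1 : ∑ n ∈ Ioc 0 Y, (mmA n * gw x n - gw x n) =
      ∑ n ∈ Ioc 0 Y, ((fun n : ℕ => Chebyshev.theta (n : ℝ) - n) n -
        (fun n : ℕ => Chebyshev.theta (n : ℝ) - n) (n - 1)) * gw x n := by
    apply sum_congr rfl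
    intro n hn
    rw [mem_Ioc] at hn
    obtain ⟨m, rfl⟩ : ∃ m, n = m + 1 := ⟨n - 1, by omega⟩
    simp only [Nat.add_sub_cancel]
    rw [← mmA_sum, ← mmA_sum, sum_Ioc_succ_top (Nat.zero_le m)]
    push_cast
    ring
  rw [h1, mm_abel _ _ (by simp) Y]
  have hS : ∑ n ∈ Ioc 0 (Y + 1), gw x n ≤ 19 * x := mm_G hx1 (Y + 1)
  obtain ⟨v1, v2⟩ := mm_var (gw x) t Y ht1 htY (fun n => (gw_pos x n).le) (gw_le_one x)
    (fun k hk0 hk => mm_gw_up hx1 k hk0 (by rw [← ht]; exact hk))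
    (fun k hk => mm_gw_down hx1 k (by rw [← ht]; exact hk)) (19 * x) hS
  have h2 : |∑ n ∈ Ioc 0 Y, (Chebyshev.theta (n : ℝ) - n) * (gw x n - gw x (n + 1))| ≤
      η * (3 * t + 1 + 19 * x) + C * 3 := by
    refine (abs_sum_le_sum_abs _ _).trans ?_
    calc ∑ n ∈ Ioc 0 Y, |(Chebyshev.theta (n : ℝ) - n) * (gw x n - gw x (n + 1))|
        ≤ ∑ n ∈ Ioc 0 Y, (η * ((n : ℝ) * |gw x n - gw x (n + 1)|) +
            C * ((1 : ℝ) * |gw x n - gw x (n + 1)|)) := by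
          apply sum_le_sum
          intro n _
          rw [abs_mul]
          refine (mul_le_mul_of_nonneg_right (herr n) (abs_nonneg _)).trans (le_of_eq ?_)
          ring
      _ = η * ∑ n ∈ Ioc 0 Y, (n : ℝ) * |gw x n - gw x (n + 1)| +
            C * ∑ n ∈ Ioc 0 Y, (1 : ℝ) * |gw x n - gw x (n + 1)| := by
          rw [sum_add_distrib, mul_sum, mul_sum]
      _ ≤ _ := add_le_add (mul_le_mul_of_nonneg_left v2 hη.le)
          (mul_le_mul_of_nonneg_left v1 hC)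
  have h3 : |(Chebyshev.theta (Y : ℝ) - Y) * gw x (Y + 1)| ≤ 20 := by
    have hY0 : (0 : ℝ) ≤ Y := Nat.cast_nonneg Y
    have e1 := mmA_le Y
    have e2 : 0 ≤ Chebyshev.theta (Y : ℝ) := by
      rw [← mmA_sum]
      exact sum_nonneg fun k _ => mmA_nonneg k
    have e3 : |Chebyshev.theta (Y : ℝ) - Y| ≤ Y := by
      rw [abs_le]
      constructor <;> linarith
    have e4 := (mm_tail hx1 (Y + 1) (by omega)).1
    have e5 : x ^ 2 ≤ (Y : ℝ) + 1 := by
      have : x ^ 3 < (Y : ℝ) + 1 := by rw [hY]; exact Nat.lt_floor_add_one _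
      nlinarith [mul_pos hx0 hx0]
    rw [abs_mul, abs_of_pos (gw_pos x (Y + 1))]
    calc |Chebyshev.theta (Y : ℝ) - Y| * gw x (Y + 1)
        ≤ ((Y : ℝ) + 1) * (9 * x ^ 2 * (((Y + 1 : ℕ) : ℝ) ^ 2)⁻¹) :=
          mul_le_mul (by linarith) e4 (gw_pos x _).le (by linarith)
      _ = 9 * (x ^ 2 / ((Y : ℝ) + 1)) := by
          push_cast
          field_simp
      _ ≤ 9 * 1 := by
          apply mul_le_mul_of_nonneg_left _ (by norm_num)
          rw [div_le_one (by positivity)]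
          exact e5
      _ ≤ 20 := by norm_num
  have h4 : η * (3 * t + 1 + 19 * x) ≤ η * (40 * x) := by
    apply mul_le_mul_of_nonneg_left _ hη.le
    linarith
  refine (abs_add_le _ _).trans ?_
  have h5 : |(fun n : ℕ => Chebyshev.theta (n : ℝ) - n) Y * gw x (Y + 1)| ≤ 20 := h3
  linarith

/-- the window -/
private theorem mm_XG {x : ℝ} (hx : 2 ≤ x) :
    |∑ n ∈ Ioc 0 ⌊x ^ 3⌋₊, gw x n - XG x| ≤ Real.sqrt x + 20 := by
  have hx0 : 0 < x := by linarith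
  have hx1 : 1 ≤ x := by linarith
  have hs1 : Real.sqrt x ≤ x ^ 2 := by
    rw [Real.sqrt_le_left (by positivity)]
    nlinarith [mul_pos hx0 hx0, pow_pos hx0 3]
  have hf1 : ⌊Real.sqrt x⌋₊ ≤ ⌊x ^ 2⌋₊ := Nat.floor_mono hs1
  have hf2 : ⌊x ^ 2⌋₊ ≤ ⌊x ^ 3⌋₊ := by
    apply Nat.floor_mono
    nlinarith [mul_pos hx0 hx0]
  unfold XG Win
  rw [← sum_Ioc_consecutive (gw x) (Nat.zero_le _) (hf1.trans hf2),
    ← sum_Ioc_consecutive (gw x) hf1 hf2]
  have h1 : ∑ n ∈ Ioc 0 ⌊Real.sqrt x⌋₊, gw x n ≤ Real.sqrt x := by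
    calc ∑ n ∈ Ioc 0 ⌊Real.sqrt x⌋₊, gw x n ≤ ∑ n ∈ Ioc 0 ⌊Real.sqrt x⌋₊, (1 : ℝ) :=
          Finset.sum_le_sum (fun n _ => gw_le_one x n)
      _ = (⌊Real.sqrt x⌋₊ : ℝ) := by simp
      _ ≤ Real.sqrt x := Nat.floor_le (Real.sqrt_nonneg x)
  have h10 : 1 ≤ x ^ 2 := by nlinarith
  have h2 : ∑ n ∈ Ioc ⌊x ^ 2⌋₊ ⌊x ^ 3⌋₊, gw x n ≤ 20 := by
    have e1 : ⌊x ^ 2⌋₊ ≠ 0 := by
      have : 1 ≤ ⌊x ^ 2⌋₊ := by
        rw [Nat.le_floor_iff (by positivity)]
        simpa using h10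
      omega
    refine (mm_inv hx1 _ _ e1 hf2).trans ?_
    have e2 := mm_floor_inv h10
    calc 9 * x ^ 2 * ((⌊x ^ 2⌋₊ : ℕ) : ℝ)⁻¹ ≤ 9 * x ^ 2 * (2 / x ^ 2) :=
          mul_le_mul_of_nonneg_left e2 (by positivity)
      _ = 18 := by
          field_simp
          norm_num
      _ ≤ 20 := by norm_num
  have h3 : 0 ≤ ∑ n ∈ Ioc 0 ⌊Real.sqrt x⌋₊, gw x n := sum_nonneg fun n _ => (gw_pos x n).le
  have h4 : 0 ≤ ∑ n ∈ Ioc ⌊x ^ 2⌋₊ ⌊x ^ 3⌋₊, gw x n := sum_nonneg fun n _ => (gw_pos x n).le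
  rw [abs_le]
  have h5 := Real.sqrt_nonneg x
  constructor <;> linarith

/-- powers of the logarithm near `x` -/
private theorem mm_pow (J : ℕ) (T η : ℝ) (hT : 0 < T) (hη : 0 < η) : ∀ᶠ x : ℝ in atTop,
    ∀ u : ℝ, |u| ≤ T → |(Real.log x + u) ^ J - (Real.log x) ^ J| ≤ η * (Real.log x) ^ J := by
  have h1 : Tendsto (fun x : ℝ => (1 + T / Real.log x) ^ J) atTop (nhds ((1 + 0 : ℝ) ^ J)) :=
    (tendsto_const_nhds.add (tendsto_const_nhds.div_atTop Real.tendsto_log_atTop)).pow J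
  have h2 : Tendsto (fun x : ℝ => (1 - T / Real.log x) ^ J) atTop (nhds ((1 - 0 : ℝ) ^ J)) :=
    (tendsto_const_nhds.sub (tendsto_const_nhds.div_atTop Real.tendsto_log_atTop)).pow J
  rw [add_zero, one_pow] at h1
  rw [sub_zero, one_pow] at h2
  filter_upwards [h1.eventually (eventually_lt_nhds (by linarith : (1 : ℝ) < 1 + η)),
    h2.eventually (eventually_gt_nhds (by linarith : 1 - η < (1 : ℝ))),
    Real.tendsto_log_atTop.eventually_gt_atTop T] with x hx1 hx2 hL u hu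
  have hL0 : 0 < Real.log x := by linarith
  obtain ⟨L, hLd⟩ : ∃ L, L = Real.log x := ⟨_, rfl⟩
  rw [← hLd] at hx1 hx2 hL hL0 ⊢
  have hu' := abs_le.1 hu
  have e1 : (L + u) ^ J ≤ (1 + η) * L ^ J := by
    calc (L + u) ^ J ≤ ((1 + T / L) * L) ^ J := by
          apply pow_le_pow_left₀ (by linarith)
          rw [add_mul, one_mul, div_mul_cancel₀ _ hL0.ne']
          linarith
      _ = (1 + T / L) ^ J * L ^ J := mul_pow _ _ _
      _ ≤ (1 + η) * L ^ J := mul_le_mul_of_nonneg_right hx1.le (by positivity)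
  have e2 : (1 - η) * L ^ J ≤ (L + u) ^ J := by
    have h3 : 0 ≤ 1 - T / L := by
      rw [sub_nonneg, div_le_one hL0]
      exact hL.le
    calc (1 - η) * L ^ J ≤ (1 - T / L) ^ J * L ^ J :=
          mul_le_mul_of_nonneg_right hx2.le (by positivity)
      _ = ((1 - T / L) * L) ^ J := (mul_pow _ _ _).symm
      _ ≤ (L + u) ^ J := by
          apply pow_le_pow_left₀ (mul_nonneg h3 hL0.le)
          rw [sub_mul, one_mul, div_mul_cancel₀ _ hL0.ne']
          linarith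
  rw [abs_le]
  constructor <;> linarith

/-- removing the powers of the logarithm -/
private theorem mm_P2 (J : ℕ) (T η : ℝ) (hT : 0 < T) (hη : 0 < η) : ∀ᶠ x : ℝ in atTop,
    |MM J x - (Real.log x) ^ J * ∑ n ∈ Ioc 0 ⌊x ^ 3⌋₊, mmA n * gw x n| ≤
      (Real.log x) ^ J * ((η + 3 ^ J * Real.exp (-T ^ 2 / 4)) * (240 * x)) := by
  filter_upwards [mm_pow J T η hT hη, eventually_ge_atTop (2 : ℝ)] with x hpow hx2
  have hx0 : 0 < x := by linarith
  have hx1 : 1 ≤ x := by linarith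
  obtain ⟨L, hL⟩ : ∃ L, L = Real.log x := ⟨_, rfl⟩
  have hL0 : 0 ≤ L := by rw [hL]; exact Real.log_nonneg hx1
  have hMM : MM J x = ∑ n ∈ Ioc 0 ⌊x ^ 3⌋₊, mmA n * (Real.log n) ^ J * gw x n := by
    unfold MM Wp vp
    have e : Icc 1 ⌊x ^ 3⌋₊ = Ioc 0 ⌊x ^ 3⌋₊ := by
      ext n
      simp only [mem_Icc, mem_Ioc]
      omega
    rw [e, sum_filter]
    apply sum_congr rfl
    intro n _
    unfold mmA
    split_ifs
    · rw [pow_succ]; ring
    · ring
  rw [hMM, mul_sum, ← sum_sub_distrib]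
  refine (abs_sum_le_sum_abs _ _).trans ?_
  have hterm : ∀ n ∈ Ioc 0 ⌊x ^ 3⌋₊, |mmA n * (Real.log n) ^ J * gw x n -
      (Real.log x) ^ J * (mmA n * gw x n)| ≤
      L ^ J * (η + 3 ^ J * Real.exp (-T ^ 2 / 4)) * (mmA n * wN x n) := by
    intro n hn
    rw [mem_Ioc] at hn
    have hn0 : (0 : ℝ) < n := by exact_mod_cast hn.1
    have hn3 : (n : ℝ) ≤ x ^ 3 := (Nat.le_floor_iff (by positivity)).1 hn.2
    have hlogn : Real.log n = L + Real.log ((n : ℝ) / x) := by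
      rw [Real.log_div hn0.ne' hx0.ne', hL]
      ring
    have e1 : mmA n * (Real.log n) ^ J * gw x n - (Real.log x) ^ J * (mmA n * gw x n) =
        mmA n * (((Real.log n) ^ J - L ^ J) * gw x n) := by rw [hL]; ring
    rw [e1, abs_mul, abs_of_nonneg (mmA_nonneg n), abs_mul, abs_of_pos (gw_pos x n)]
    have e2 : |(Real.log n) ^ J - L ^ J| * gw x n ≤
        L ^ J * (η + 3 ^ J * Real.exp (-T ^ 2 / 4)) * wN x n := by
      have hgw : gw x n = wN x n * wN x n := by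
        unfold gw wN
        rw [← Real.exp_add]
        congr 1
        ring
      rcases le_or_gt |Real.log ((n : ℝ) / x)| T with hu | hu
      · have h1 := hpow _ hu
        rw [← hL, ← hlogn] at h1
        have h2 : gw x n ≤ wN x n := by
          rw [hgw]
          exact mul_le_of_le_one_left (wN_pos x n).le (wN_le_one x n)
        calc |(Real.log n) ^ J - L ^ J| * gw x n ≤ η * L ^ J * wN x n :=
              mul_le_mul h1 h2 (gw_pos x n).le (by positivity)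
          _ ≤ L ^ J * (η + 3 ^ J * Real.exp (-T ^ 2 / 4)) * wN x n := by
              apply mul_le_mul_of_nonneg_right _ (wN_pos x n).le
              rw [mul_add]
              have : 0 ≤ L ^ J * (3 ^ J * Real.exp (-T ^ 2 / 4)) := by positivity
              linarith
      · have h1 : |(Real.log n) ^ J - L ^ J| ≤ (3 * L) ^ J := by
          have hlog3 : Real.log n ≤ 3 * L := by
            have := Real.log_le_log hn0 hn3
            rw [Real.log_pow, ← hL] at this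
            push_cast at this
            exact this
          have hlog0 : 0 ≤ Real.log (n : ℝ) := Real.log_natCast_nonneg n
          have h2 : (Real.log n) ^ J ≤ (3 * L) ^ J := pow_le_pow_left₀ hlog0 hlog3 J
          have h3 : L ^ J ≤ (3 * L) ^ J := pow_le_pow_left₀ hL0 (by linarith) J
          have h4 : 0 ≤ (Real.log n) ^ J := by positivity
          have h5 : 0 ≤ L ^ J := by positivity
          rw [abs_le]
          constructor <;> linarith
        have h2 : wN x n ≤ Real.exp (-T ^ 2 / 4) := by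
          unfold wN
          apply Real.exp_le_exp.2
          have h3 : T ^ 2 ≤ (Real.log ((n : ℝ) / x)) ^ 2 := by
            rw [← sq_abs (Real.log ((n : ℝ) / x))]
            exact pow_le_pow_left₀ hT.le hu.le 2
          linarith
        calc |(Real.log n) ^ J - L ^ J| * gw x n
            ≤ (3 * L) ^ J * (Real.exp (-T ^ 2 / 4) * wN x n) := by
              rw [hgw]
              exact mul_le_mul h1 (mul_le_mul_of_nonneg_right h2 (wN_pos x n).le)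
                (mul_pos (wN_pos x n) (wN_pos x n)).le (by positivity)
          _ = L ^ J * (3 ^ J * Real.exp (-T ^ 2 / 4)) * wN x n := by
              rw [mul_pow]; ring
          _ ≤ L ^ J * (η + 3 ^ J * Real.exp (-T ^ 2 / 4)) * wN x n := by
              apply mul_le_mul_of_nonneg_right _ (wN_pos x n).le
              apply mul_le_mul_of_nonneg_left _ (by positivity)
              linarith
    calc mmA n * (|(Real.log n) ^ J - L ^ J| * gw x n)
        ≤ mmA n * (L ^ J * (η + 3 ^ J * Real.exp (-T ^ 2 / 4)) * wN x n) :=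
          mul_le_mul_of_nonneg_left e2 (mmA_nonneg n)
      _ = _ := by ring
  refine (sum_le_sum hterm).trans ?_
  rw [← mul_sum]
  have h1 := mm_wN hx1 ⌊x ^ 3⌋₊
  calc L ^ J * (η + 3 ^ J * Real.exp (-T ^ 2 / 4)) * ∑ n ∈ Ioc 0 ⌊x ^ 3⌋₊, mmA n * wN x n
      ≤ L ^ J * (η + 3 ^ J * Real.exp (-T ^ 2 / 4)) * (240 * x) :=
        mul_le_mul_of_nonneg_left h1 (by positivity)
    _ = _ := by rw [hL]; ring

theorem mm_sharp (J : ℕ) (ε : ℝ) (hε : 0 < ε) : ∀ᶠ x : ℝ in atTop,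
    (1 - ε) * ((Real.log x) ^ J * XG x) ≤ MM J x ∧
    MM J x ≤ (1 + ε) * ((Real.log x) ^ J * XG x) := by
  obtain ⟨η, hη⟩ : ∃ η : ℝ, η = ε / 10000 := ⟨_, rfl⟩
  have hη0 : 0 < η := by rw [hη]; positivity
  obtain ⟨T, hT0, hT⟩ : ∃ T : ℝ, 0 < T ∧ 3 ^ J * Real.exp (-T ^ 2 / 4) ≤ η := by
    have h1 : Tendsto (fun T : ℝ => (3 : ℝ) ^ J * Real.exp (-T ^ 2 / 4)) atTop (nhds (3 ^ J * 0)) := by
      apply Tendsto.const_mul
      apply Real.tendsto_exp_atBot.comp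
      have h2 : Tendsto (fun T : ℝ => T ^ 2) atTop atTop := tendsto_pow_atTop (by norm_num)
      have h3 : Tendsto (fun T : ℝ => -(T ^ 2 / 4)) atTop atBot :=
        tendsto_neg_atTop_atBot.comp (h2.atTop_div_const (by norm_num))
      refine h3.congr fun T => ?_
      ring
    rw [mul_zero] at h1
    obtain ⟨T, h2, h3⟩ := ((h1.eventually (eventually_lt_nhds hη0)).and
      (eventually_gt_atTop 0)).exists
    exact ⟨T, h3, h2.le⟩
  obtain ⟨C, hC, hP1⟩ := mm_P1 η hη0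
  have hsq : ∀ᶠ x : ℝ in atTop, C + Real.sqrt x + 20 ≤ η * x := by
    have h1 : Tendsto (fun x : ℝ => Real.sqrt x) atTop atTop := Real.tendsto_sqrt_atTop
    filter_upwards [h1.eventually_ge_atTop (2 / η), eventually_ge_atTop (2 * (C + 20) / η),
      eventually_ge_atTop (0 : ℝ)] with x h2 h3 h4
    rw [div_le_iff₀ hη0] at h2 h3
    have h5 : Real.sqrt x * Real.sqrt x = x := Real.mul_self_sqrt h4
    have h6 := Real.sqrt_nonneg x
    have h7 : 2 * Real.sqrt x ≤ η * x := by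
      calc 2 * Real.sqrt x ≤ (Real.sqrt x * η) * Real.sqrt x :=
            mul_le_mul_of_nonneg_right h2 h6
        _ = η * (Real.sqrt x * Real.sqrt x) := by ring
        _ = η * x := by rw [h5]
    linarith
  filter_upwards [mm_P2 J T η hT0 hη0, gw_massx, hsq, eventually_ge_atTop (2 : ℝ)]
    with x h1 h2 h3 h4
  have h5 := hP1 x h4
  have h6 := mm_XG h4
  have hx0 : 0 < x := by linarith
  obtain ⟨LJ, hLJ⟩ : ∃ LJ, LJ = (Real.log x) ^ J := ⟨_, rfl⟩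
  have hLJ0 : 0 ≤ LJ := by
    rw [hLJ]
    exact pow_nonneg (Real.log_nonneg (by linarith)) J
  rw [← hLJ] at h1 ⊢
  obtain ⟨P, hP⟩ : ∃ P, P = ∑ n ∈ Ioc 0 ⌊x ^ 3⌋₊, mmA n * gw x n := ⟨_, rfl⟩
  obtain ⟨G, hG⟩ : ∃ G, G = ∑ n ∈ Ioc 0 ⌊x ^ 3⌋₊, gw x n := ⟨_, rfl⟩
  rw [← hP] at h1 h5
  rw [← hG] at h5 h6
  have h7 : (η + 3 ^ J * Real.exp (-T ^ 2 / 4)) * (240 * x) ≤ 480 * η * x := by
    calc (η + 3 ^ J * Real.exp (-T ^ 2 / 4)) * (240 * x) ≤ (η + η) * (240 * x) := by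
          apply mul_le_mul_of_nonneg_right _ (by positivity)
          linarith
      _ = _ := by ring
  have h8 : |P - XG x| ≤ 41 * η * x := by
    have e1 : P - XG x = (P - G) + (G - XG x) := by ring
    rw [e1]
    refine (abs_add_le _ _).trans ?_
    linarith
  have h9 : |MM J x - LJ * XG x| ≤ LJ * (ε * XG x) := by
    have e1 : MM J x - LJ * XG x = (MM J x - LJ * P) + LJ * (P - XG x) := by ring
    rw [e1]
    refine (abs_add_le _ _).trans ?_
    rw [abs_mul, abs_of_nonneg hLJ0]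
    calc |MM J x - LJ * P| + LJ * |P - XG x|
        ≤ LJ * (480 * η * x) + LJ * (41 * η * x) :=
          add_le_add (h1.trans (mul_le_mul_of_nonneg_left h7 hLJ0))
            (mul_le_mul_of_nonneg_left h8 hLJ0)
      _ = LJ * (521 * η * x) := by ring
      _ ≤ LJ * (ε * XG x) := by
          apply mul_le_mul_of_nonneg_left _ hLJ0
          rw [hη]
          have h10 := mul_le_mul_of_nonneg_left h2.1 hε.le
          have h11 : 0 < ε * x := by positivity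
          linarith
  rw [abs_le] at h9
  constructor <;> linarith

end Pool.Agent.H21.SH
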