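import Pool.Agent.H21.MT.Low
import Pool.Agent.H21.SH.Dt

/-!
[H21 SH LO]  From primes with the weight `vp` to integers `N` with the weight `gw`, sharp constant.

Proof.  Let `L = log x`, `u = log(N/x)`, `p = N + h m`, `u' = log(p/x)`, `0 ≤ u' - u ≤ h m/N`.
As in `low` (`Pool/Agent/H21/MT/Low.lean`; `low_dvm`, `low_sum`, `low_abs` can be used, note that now
`P k ≤ x^(1/4) < √x < N + h m`): the `p ≤ 2√x` and the `p > x^2` contribute at most `1`; for
`2√x < p ≤ x^2`, `N = p - h m ∈ Win x`, `N % W = b % W` iff `W ∣ p - (b + h m)`, and the inner sum is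
`sig P h lam N`.  It remains to prove for large `x` and all `N ∈ Win x`
  `vp J x p ≤ L^(J+1) ((1+ε) gw x N + wN x N / L^A)`.
(a) `|u'| ≤ log L`: `(log p)^(J+1) = L^(J+1) (1 + u'/L)^(J+1) ≤ L^(J+1) exp((J+1) log L / L)`, and
    `gw x p = gw x N exp((u^2 - u'^2)/2) ≤ gw x N exp(|u + u'| |u' - u|/2) ≤ gw x N exp(2 log L * h m/√x)`;
    both exponential factors tend to `1`.
(b) `|u'| > log L`: `(log p)^(J+1) ≤ L^(J+1) exp|u'|` (`(1+t/L)^{J+1} ≤ exp((J+1)t/L) ≤ exp t` for `t ≥ 0`,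
    `L ≥ J+1`), `|u' - u| ≤ 1`, so `wN x N = exp(-u^2/4) ≥ exp(-u'^2/4 - |u'|/2 - 1/4)` and
    `vp ≤ L^(J+1) exp(|u'| - u'^2/2) ≤ L^(J+1) exp(-u'^2/8) wN x N exp(3|u'|/2 + 1/4 - u'^2/8)
    ≤ L^(J+1) e^5 exp(-(log L)^2/8) wN x N`, and `e^5 exp(-(log L)^2/8) ≤ L^(-A)` for large `x`.
-/

namespace Pool.Agent.H21.SH

open Finset Filter Pool.Agent.H21.MT

/-- the eventual smallness used in the pointwise bound -/
theorem lo_small (J h : ℕ) (c : ℝ) (hc : 0 < c) : ∀ᶠ x : ℝ in atTop,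
    ((J : ℝ) + 1) * (Real.log (Real.log x) / Real.log x) +
      (h : ℝ) * ((2 * Real.log x + 1) / Real.sqrt x) ≤ c := by
  have h1 : Tendsto (fun x : ℝ => Real.log (Real.log x) / Real.log x) atTop (nhds 0) := by
    have h2 : Tendsto (fun y : ℝ => Real.log y / y) atTop (nhds 0) :=
      Real.isLittleO_log_id_atTop.tendsto_div_nhds_zero
    exact h2.comp Real.tendsto_log_atTop
  have h3 : Tendsto (fun x : ℝ => (2 * Real.log x + 1) / Real.sqrt x) atTop (nhds 0) := by
    have h4 : Tendsto (fun x : ℝ => Real.log x / x ^ (1 / 2 : ℝ)) atTop (nhds 0) :=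
      (isLittleO_log_rpow_atTop (by norm_num : (0 : ℝ) < 1 / 2)).tendsto_div_nhds_zero
    have h5 : Tendsto (fun x : ℝ => (Real.sqrt x)⁻¹) atTop (nhds 0) :=
      tendsto_inv_atTop_zero.comp Real.tendsto_sqrt_atTop
    have h6 := (h4.const_mul 2).add h5
    rw [mul_zero, add_zero] at h6
    refine h6.congr ?_
    intro x
    rw [← Real.sqrt_eq_rpow]
    ring
  have h7 := (h1.const_mul ((J : ℝ) + 1)).add (h3.const_mul (h : ℝ))
  rw [mul_zero, mul_zero, add_zero] at h7
  exact h7.eventually_le_const hc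

/-- common facts about `u = log (N / x)`, `u' = log ((N + h) / x)` -/
theorem lo_uu (h : ℕ) {x : ℝ} (hx1 : 1 ≤ x) (hxh : (h : ℝ) ^ 2 ≤ x) {N : ℕ} (hN : N ∈ Win x) :
    Real.log ((N + h : ℕ) : ℝ) = Real.log x + Real.log (((N + h : ℕ) : ℝ) / x) ∧
    0 ≤ Real.log (((N + h : ℕ) : ℝ) / x) - Real.log (N / x) ∧
    Real.log (((N + h : ℕ) : ℝ) / x) - Real.log (N / x) ≤ 1 ∧
    Real.log (((N + h : ℕ) : ℝ) / x) - Real.log (N / x) ≤ h / Real.sqrt x ∧
    0 ≤ Real.log ((N + h : ℕ) : ℝ) := by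
  have hx0 : 0 < x := by linarith
  unfold Win at hN
  rw [Finset.mem_Ioc] at hN
  have hN1 : Real.sqrt x < N := (Nat.floor_lt (Real.sqrt_nonneg _)).1 hN.1
  have hs1 : 1 ≤ Real.sqrt x := by
    rw [Real.one_le_sqrt]
    exact hx1
  have hsh : (h : ℝ) ≤ Real.sqrt x := Real.le_sqrt_of_sq_le hxh
  have hNpos : (0 : ℝ) < N := by linarith
  have hh0 : (0 : ℝ) ≤ (h : ℝ) := Nat.cast_nonneg _
  have hNh : (0 : ℝ) < ((N + h : ℕ) : ℝ) := by
    push_cast
    linarith
  have e1 : Real.log ((N + h : ℕ) : ℝ) = Real.log x + Real.log (((N + h : ℕ) : ℝ) / x) := by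
    rw [Real.log_div hNh.ne' hx0.ne']
    ring
  have e2 : Real.log (((N + h : ℕ) : ℝ) / x) - Real.log (N / x) =
      Real.log (((N + h : ℕ) : ℝ) / N) := by
    rw [Real.log_div hNh.ne' hx0.ne', Real.log_div hNpos.ne' hx0.ne',
      Real.log_div hNh.ne' hNpos.ne']
    ring
  have e3 : ((N + h : ℕ) : ℝ) / N = 1 + h / N := by
    push_cast
    field_simp
  have hhN0 : 0 ≤ (h : ℝ) / N := div_nonneg hh0 hNpos.le
  have hle : Real.log (1 + (h : ℝ) / N) ≤ h / N := by
    have := Real.log_le_sub_one_of_pos (show (0 : ℝ) < 1 + h / N by linarith)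
    linarith
  have hle2 : (h : ℝ) / N ≤ h / Real.sqrt x :=
    div_le_div_of_nonneg_left hh0 (by linarith) hN1.le
  have hle3 : (h : ℝ) / Real.sqrt x ≤ 1 := by
    rw [div_le_one (by linarith)]
    exact hsh
  refine ⟨e1, ?_, ?_, ?_, ?_⟩
  · rw [e2, e3]
    exact Real.log_nonneg (by linarith)
  · rw [e2, e3]
    linarith
  · rw [e2, e3]
    linarith
  · apply Real.log_nonneg
    push_cast
    linarith

theorem lo_pt (J A h : ℕ) (ε : ℝ) (hε : 0 < ε) : ∀ᶠ x : ℝ in atTop, ∀ N ∈ Win x,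
    (Real.log (N + h : ℕ)) ^ (J + 1) * gw x (N + h) ≤
      (Real.log x) ^ (J + 1) * ((1 + ε) * gw x N + wN x N / (Real.log x) ^ A) := by
  have hL : ∀ᶠ x : ℝ in atTop, ((J : ℝ) + 1) ≤ Real.log x :=
    Real.tendsto_log_atTop.eventually_ge_atTop _
  have hLL : ∀ᶠ x : ℝ in atTop, 4 * (A : ℝ) + 7 ≤ Real.log (Real.log x) :=
    (Real.tendsto_log_atTop.comp Real.tendsto_log_atTop).eventually_ge_atTop _
  have hlε : 0 < Real.log (1 + ε) := Real.log_pos (by linarith)
  filter_upwards [hL, hLL, lo_small J h _ hlε, eventually_ge_atTop (1 : ℝ),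
    eventually_ge_atTop ((h : ℝ) ^ 2)] with x hx hxx hsm hx1 hxh N hN
  obtain ⟨e1, d0, d1, d2, hlogN⟩ := lo_uu h hx1 hxh hN
  have hx0 : 0 < x := by linarith
  have hJ0 : (0 : ℝ) ≤ (J : ℝ) := Nat.cast_nonneg _
  have hLpos : 0 < Real.log x := by linarith
  have hsq : 0 < Real.sqrt x := Real.sqrt_pos.2 hx0
  unfold gw wN
  obtain ⟨L, hLdef⟩ : ∃ L, L = Real.log x := ⟨_, rfl⟩
  obtain ⟨u, hu⟩ : ∃ u, u = Real.log (N / x) := ⟨_, rfl⟩
  obtain ⟨u', hu'⟩ : ∃ u', u' = Real.log (((N + h : ℕ) : ℝ) / x) := ⟨_, rfl⟩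
  rw [e1] at hlogN
  rw [e1, ← hu', ← hu, ← hLdef]
  rw [← hu', ← hu] at d0 d1 d2
  rw [← hu', ← hLdef] at hlogN
  rw [← hLdef] at hx hxx hsm hLpos
  have hlL0 : 0 < Real.log L := by
    have : (0 : ℝ) ≤ A := Nat.cast_nonneg _
    linarith
  have hlLL : Real.log L ≤ L := (Real.log_le_sub_one_of_pos hLpos).trans (by linarith)
  -- the power
  have hp1 : L + u' ≤ L * Real.exp (|u'| / L) := by
    have h1 : 1 + |u'| / L ≤ Real.exp (|u'| / L) := by
      have := Real.add_one_le_exp (|u'| / L)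
      linarith
    have h2 : L * (1 + |u'| / L) = L + |u'| := by
      field_simp
    have h3 : L * (1 + |u'| / L) ≤ L * Real.exp (|u'| / L) :=
      mul_le_mul_of_nonneg_left h1 hLpos.le
    have := le_abs_self u'
    linarith
  have hp2 : (L + u') ^ (J + 1) ≤ L ^ (J + 1) * Real.exp (((J + 1 : ℕ) : ℝ) * (|u'| / L)) := by
    calc (L + u') ^ (J + 1) ≤ (L * Real.exp (|u'| / L)) ^ (J + 1) :=
          pow_le_pow_left₀ hlogN hp1 _
      _ = L ^ (J + 1) * Real.exp (((J + 1 : ℕ) : ℝ) * (|u'| / L)) := by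
          rw [mul_pow, Real.exp_nat_mul]
  have hLJ : 0 < L ^ (J + 1) := by positivity
  have hw0 : 0 ≤ Real.exp (-u ^ 2 / 4) / L ^ A := by positivity
  have hg0 : 0 ≤ (1 + ε) * Real.exp (-u ^ 2 / 2) := by positivity
  have habs : |u| ≤ |u'| + 1 := by
    rw [abs_le]
    constructor
    · have := neg_abs_le u'
      linarith
    · have := le_abs_self u'
      linarith
  rcases le_or_gt |u'| (Real.log L) with hcase | hcase
  · -- case (a)
    have h1 : (L + u') ^ (J + 1) * Real.exp (-u' ^ 2 / 2) ≤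
        L ^ (J + 1) * ((1 + ε) * Real.exp (-u ^ 2 / 2)) := by
      calc (L + u') ^ (J + 1) * Real.exp (-u' ^ 2 / 2)
          ≤ (L ^ (J + 1) * Real.exp (((J + 1 : ℕ) : ℝ) * (|u'| / L))) * Real.exp (-u' ^ 2 / 2) :=
            mul_le_mul_of_nonneg_right hp2 (Real.exp_pos _).le
        _ = L ^ (J + 1) * Real.exp (((J + 1 : ℕ) : ℝ) * (|u'| / L) + -u' ^ 2 / 2) := by
            rw [mul_assoc, ← Real.exp_add]
        _ ≤ L ^ (J + 1) * Real.exp (Real.log (1 + ε) + -u ^ 2 / 2) := by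
            apply mul_le_mul_of_nonneg_left (Real.exp_le_exp.2 ?_) hLJ.le
            have h3 : ((J + 1 : ℕ) : ℝ) * (|u'| / L) ≤ ((J : ℝ) + 1) * (Real.log L / L) := by
              push_cast
              gcongr
            have h4 : (u ^ 2 - u' ^ 2) / 2 ≤ (h : ℝ) * ((2 * L + 1) / Real.sqrt x) := by
              have h5 : u ^ 2 - u' ^ 2 ≤ (u' - u) * (2 * L + 1) := by
                have h6 : u ^ 2 - u' ^ 2 = (u' - u) * (-(u + u')) := by ring
                rw [h6]
                apply mul_le_mul_of_nonneg_left _ d0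
                have := neg_abs_le u
                have := neg_abs_le u'
                linarith
              have h7 : (u' - u) * (2 * L + 1) ≤ ((h : ℝ) / Real.sqrt x) * (2 * L + 1) :=
                mul_le_mul_of_nonneg_right d2 (by linarith)
              have h8 : ((h : ℝ) / Real.sqrt x) * (2 * L + 1) =
                  (h : ℝ) * ((2 * L + 1) / Real.sqrt x) := by ring
              have h9 : 0 ≤ (h : ℝ) * ((2 * L + 1) / Real.sqrt x) := by positivity
              linarith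
            linarith
        _ = L ^ (J + 1) * ((1 + ε) * Real.exp (-u ^ 2 / 2)) := by
            rw [Real.exp_add, Real.exp_log (by linarith)]
    refine h1.trans ?_
    apply mul_le_mul_of_nonneg_left _ hLJ.le
    linarith
  · -- case (b)
    have h1 : (L + u') ^ (J + 1) * Real.exp (-u' ^ 2 / 2) ≤
        L ^ (J + 1) * (Real.exp (-u ^ 2 / 4) / L ^ A) := by
      have hLA : L ^ A = Real.exp (A * Real.log L) := by
        rw [Real.exp_nat_mul, Real.exp_log hLpos]
      calc (L + u') ^ (J + 1) * Real.exp (-u' ^ 2 / 2)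
          ≤ (L ^ (J + 1) * Real.exp (((J + 1 : ℕ) : ℝ) * (|u'| / L))) * Real.exp (-u' ^ 2 / 2) :=
            mul_le_mul_of_nonneg_right hp2 (Real.exp_pos _).le
        _ = L ^ (J + 1) * Real.exp (((J + 1 : ℕ) : ℝ) * (|u'| / L) + -u' ^ 2 / 2) := by
            rw [mul_assoc, ← Real.exp_add]
        _ ≤ L ^ (J + 1) * Real.exp (-u ^ 2 / 4 - A * Real.log L) := by
            apply mul_le_mul_of_nonneg_left (Real.exp_le_exp.2 ?_) hLJ.le
            have h3 : ((J + 1 : ℕ) : ℝ) * (|u'| / L) ≤ |u'| := by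
              have h5 : ((J + 1 : ℕ) : ℝ) * (|u'| / L) = (((J + 1 : ℕ) : ℝ) / L) * |u'| := by
                field_simp
              rw [h5]
              have h4 : ((J + 1 : ℕ) : ℝ) / L ≤ 1 := by
                rw [div_le_one hLpos]
                push_cast
                exact hx
              calc ((J + 1 : ℕ) : ℝ) / L * |u'| ≤ 1 * |u'| :=
                    mul_le_mul_of_nonneg_right h4 (abs_nonneg _)
                _ = |u'| := one_mul _
            have hA0 : (0 : ℝ) ≤ A := Nat.cast_nonneg _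
            have hb : u ^ 2 ≤ (|u'| + 1) ^ 2 := by
              rw [← sq_abs u]
              exact pow_le_pow_left₀ (abs_nonneg _) habs 2
            have hc : u' ^ 2 = |u'| ^ 2 := (sq_abs u').symm
            have ht : 4 * (A : ℝ) + 7 ≤ |u'| := by linarith
            have hAt : A * Real.log L ≤ A * |u'| := mul_le_mul_of_nonneg_left hcase.le hA0
            rw [hc]
            nlinarith [mul_le_mul_of_nonneg_right ht (abs_nonneg u')]
        _ = L ^ (J + 1) * (Real.exp (-u ^ 2 / 4) / L ^ A) := by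
            rw [Real.exp_sub, hLA]
    refine h1.trans ?_
    apply mul_le_mul_of_nonneg_left _ hLJ.le
    linarith

theorem low2 (J A : ℕ) (ε : ℝ) (hε : 0 < ε) (I : Type) [Fintype I] [DecidableEq I] (h : I → ℕ)
    (W b : ℕ) (hW : 0 < W) (m : I) :
    ∀ᶠ x : ℝ in atTop, ∀ (ι : Type) [Fintype ι] [DecidableEq ι] (P : ι → ℕ)
      (lam : (ι → Option I) → ℝ), (∀ k, (P k).Prime) → (∀ k, (P k : ℝ) ≤ x ^ (1 / 4 : ℝ)) →
      (∑ d, |lam d| ≤ x) →
      ∑ p ∈ (Wp x).filter (fun p : ℕ => (W : ℤ) ∣ (p : ℤ) - (b + h m)),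
        vp J x p * (∑ d ∈ univ.filter (fun d => dvm P h m d p), offL m lam d) ^ 2 - 1 ≤
      (Real.log x) ^ (J + 1) * ((1 + ε) *
        ∑ N ∈ ((Win x).filter (fun N => N % W = b % W)).filter (fun N => (N + h m).Prime),
          gw x N * (sig P h lam N) ^ 2 +
        (∑ N ∈ (Win x).filter (fun N => N % W = b % W), wN x N * (sig P h lam N) ^ 2) /
          (Real.log x) ^ A) := by
  have e4 : ∀ᶠ x : ℝ in atTop, 3 * Real.log x ≤ x := by
    have h1 := Real.isLittleO_log_id_atTop.def (c := 1 / 3) (by norm_num)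
    filter_upwards [h1, eventually_ge_atTop 1] with x hx hx1
    rw [Real.norm_of_nonneg (Real.log_nonneg hx1), id, Real.norm_of_nonneg (by linarith)] at hx
    linarith
  have e5 : ∀ᶠ x : ℝ in atTop, (h m : ℝ) ≤ Real.sqrt x :=
    Real.tendsto_sqrt_atTop.eventually_ge_atTop _
  filter_upwards [exp_log_sq (J + 6), lo_pt J A (h m) ε hε, gw_tiny, e4, e5, eventually_ge_atTop 1]
    with x h1 h2 h3 h4 h5 hx1 ι _ _ P lam hP hPR hS
  have hx0 : 0 < x := by linarith
  have hL : 0 ≤ Real.log x := Real.log_nonneg hx1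
  have hsq : 1 ≤ Real.sqrt x := by
    rw [show (1 : ℝ) = Real.sqrt 1 by simp]; exact Real.sqrt_le_sqrt hx1
  have hPs : ∀ k, (P k : ℝ) ≤ Real.sqrt x := by
    intro k
    refine (hPR k).trans ?_
    rw [Real.sqrt_eq_rpow]
    exact Real.rpow_le_rpow_of_exponent_le hx1 (by norm_num)
  set Sg : ℕ → ℝ := fun p => (∑ d ∈ univ.filter (fun d => dvm P h m d p), offL m lam d) ^ 2
    with hSg
  have hSg0 : ∀ p, 0 ≤ Sg p := fun p => sq_nonneg _
  set Q := (Wp x).filter (fun p : ℕ => (W : ℤ) ∣ (p : ℤ) - (b + h m)) with hQ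
  have hsplit := Finset.sum_filter_add_sum_filter_not Q
    (fun p : ℕ => (p : ℝ) ≤ 2 * Real.sqrt x ∨ x ^ 2 < p) (fun p => vp J x p * Sg p)
  have hT : ∑ p ∈ Q.filter (fun p : ℕ => (p : ℝ) ≤ 2 * Real.sqrt x ∨ x ^ 2 < p),
      vp J x p * Sg p ≤ 1 := by
    have hb : ∀ p ∈ Q.filter (fun p : ℕ => (p : ℝ) ≤ 2 * Real.sqrt x ∨ x ^ 2 < p),
        vp J x p * Sg p ≤ x ^ (J + 3) * Real.exp (-(Real.log x) ^ 2 / 10) := by
      intro p hp
      rw [Finset.mem_filter, hQ, Finset.mem_filter, Wp, Finset.mem_filter, Finset.mem_Icc] at hp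
      obtain ⟨⟨⟨⟨hp1, hp2⟩, hpp⟩, hpd⟩, hpt⟩ := hp
      have hpx : (p : ℝ) ≤ x ^ 3 := (Nat.le_floor_iff (by positivity)).1 hp2
      have hp1' : (1 : ℝ) ≤ p := by exact_mod_cast hp1
      have hlog : Real.log p ≤ x := by
        refine (Real.log_le_log (by linarith) hpx).trans ?_
        rw [Real.log_pow]
        push_cast
        exact h4
      have hlog0 : 0 ≤ Real.log p := Real.log_nonneg hp1'
      have hv : vp J x p ≤ x ^ (J + 1) * Real.exp (-(Real.log x) ^ 2 / 10) := by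
        unfold vp
        exact mul_le_mul (pow_le_pow_left₀ hlog0 hlog _) (h3 p hp1 hpt) (gw_pos x p).le
          (by positivity)
      calc vp J x p * Sg p ≤ (x ^ (J + 1) * Real.exp (-(Real.log x) ^ 2 / 10)) * x ^ 2 :=
            mul_le_mul hv (low_abs P h m lam p x hS) (hSg0 p) (by positivity)
        _ = x ^ (J + 3) * Real.exp (-(Real.log x) ^ 2 / 10) := by ring
    refine (Finset.sum_le_card_nsmul _ _ _ hb).trans ?_
    rw [nsmul_eq_mul]
    have hcard : ((Q.filter (fun p : ℕ => (p : ℝ) ≤ 2 * Real.sqrt x ∨ x ^ 2 < p)).card : ℝ) ≤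
        x ^ 3 := by
      have hc : (Q.filter (fun p : ℕ => (p : ℝ) ≤ 2 * Real.sqrt x ∨ x ^ 2 < p)).card ≤
          (Icc 1 ⌊x ^ 3⌋₊).card :=
        Finset.card_le_card ((Finset.filter_subset _ _).trans
          ((Finset.filter_subset _ _).trans (Finset.filter_subset _ _)))
      rw [Nat.card_Icc, Nat.add_sub_cancel] at hc
      calc ((Q.filter (fun p : ℕ => (p : ℝ) ≤ 2 * Real.sqrt x ∨ x ^ 2 < p)).card : ℝ)
          ≤ (⌊x ^ 3⌋₊ : ℝ) := by exact_mod_cast hc
        _ ≤ x ^ 3 := Nat.floor_le (by positivity)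
    calc ((Q.filter (fun p : ℕ => (p : ℝ) ≤ 2 * Real.sqrt x ∨ x ^ 2 < p)).card : ℝ) *
          (x ^ (J + 3) * Real.exp (-(Real.log x) ^ 2 / 10))
        ≤ x ^ 3 * (x ^ (J + 3) * Real.exp (-(Real.log x) ^ 2 / 10)) :=
          mul_le_mul_of_nonneg_right hcard (by positivity)
      _ = x ^ (J + 6) * Real.exp (-(Real.log x) ^ 2 / 10) := by ring
      _ ≤ 1 := h1
  have hA : ∑ p ∈ Q.filter (fun p : ℕ => ¬ ((p : ℝ) ≤ 2 * Real.sqrt x ∨ x ^ 2 < p)),
      vp J x p * Sg p ≤ (Real.log x) ^ (J + 1) * ((1 + ε) *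
        ∑ N ∈ ((Win x).filter (fun N => N % W = b % W)).filter (fun N => (N + h m).Prime),
          gw x N * (sig P h lam N) ^ 2 +
        (∑ N ∈ (Win x).filter (fun N => N % W = b % W), wN x N * (sig P h lam N) ^ 2) /
          (Real.log x) ^ A) := by
    have hmem : ∀ p ∈ Q.filter (fun p : ℕ => ¬ ((p : ℝ) ≤ 2 * Real.sqrt x ∨ x ^ 2 < p)),
        h m ≤ p ∧ p - h m ∈ ((Win x).filter (fun N => N % W = b % W)).filter
          (fun N => (N + h m).Prime) ∧ Real.sqrt x < ((p - h m : ℕ) : ℝ) := by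
      intro p hp
      rw [Finset.mem_filter, hQ, Finset.mem_filter, Wp, Finset.mem_filter, Finset.mem_Icc] at hp
      obtain ⟨⟨⟨⟨hp1, hp2⟩, hpp⟩, hpd⟩, hpt⟩ := hp
      push Not at hpt
      have hle : (h m : ℝ) ≤ p := by linarith
      have hle' : h m ≤ p := by exact_mod_cast hle
      have hc : ((p - h m : ℕ) : ℝ) = p - h m := by push_cast [Nat.cast_sub hle']; ring
      have hgt : Real.sqrt x < ((p - h m : ℕ) : ℝ) := by rw [hc]; linarith
      refine ⟨hle', ?_, hgt⟩
      rw [Finset.mem_filter, Finset.mem_filter, Win, Finset.mem_Ioc, Nat.sub_add_cancel hle']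
      refine ⟨⟨⟨?_, ?_⟩, ?_⟩, hpp⟩
      · rwa [Nat.floor_lt (Real.sqrt_nonneg x)]
      · rw [Nat.le_floor_iff (by positivity), hc]
        have : (0 : ℝ) ≤ h m := Nat.cast_nonneg _
        linarith [hpt.2]
      · have h7 : ((p - h m : ℕ) : ℤ) = (p : ℤ) - h m := by push_cast [Nat.cast_sub hle']; ring
        have h8 : (W : ℤ) ∣ ((p - h m : ℕ) : ℤ) - (b : ℤ) := by
          rw [h7]
          have : (p : ℤ) - h m - b = p - (b + h m) := by ring
          rw [this]
          exact hpd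
        have h9 : (b : ℤ) ≡ ((p - h m : ℕ) : ℤ) [ZMOD W] := (Int.modEq_iff_dvd).2 h8
        exact ((Int.natCast_modEq_iff.1 h9).symm)
    have hinj : Set.InjOn (fun p => p - h m)
        (Q.filter (fun p : ℕ => ¬ ((p : ℝ) ≤ 2 * Real.sqrt x ∨ x ^ 2 < p)) : Set ℕ) := by
      intro p hp q hq hpq
      have a1 := (hmem p hp).1
      have a2 := (hmem q hq).1
      simp only at hpq
      omega
    have hle : ∀ p ∈ Q.filter (fun p : ℕ => ¬ ((p : ℝ) ≤ 2 * Real.sqrt x ∨ x ^ 2 < p)),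
        vp J x p * Sg p ≤ (Real.log x) ^ (J + 1) *
          ((1 + ε) * (gw x (p - h m) * (sig P h lam (p - h m)) ^ 2) +
            wN x (p - h m) * (sig P h lam (p - h m)) ^ 2 / (Real.log x) ^ A) := by
      intro p hp
      obtain ⟨a1, a2, a3⟩ := hmem p hp
      rw [Finset.mem_filter, Finset.mem_filter] at a2
      have a4 : p - h m + h m = p := Nat.sub_add_cancel a1
      have a5 : Sg p = (sig P h lam (p - h m)) ^ 2 := by
        have := low_sum P h m lam (p - h m) hP a2.2 (by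
          intro k
          have h6 : (P k : ℝ) < ((p - h m : ℕ) : ℝ) := lt_of_le_of_lt (hPs k) a3
          have h7 : P k < p - h m := by exact_mod_cast h6
          omega)
        rw [a4] at this
        rw [hSg]
        simp only [this]
      have a6 := h2 (p - h m) a2.1.1
      rw [a4] at a6
      rw [a5]
      refine (mul_le_mul_of_nonneg_right a6 (sq_nonneg _)).trans (le_of_eq ?_)
      ring
    calc ∑ p ∈ Q.filter (fun p : ℕ => ¬ ((p : ℝ) ≤ 2 * Real.sqrt x ∨ x ^ 2 < p)),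
          vp J x p * Sg p
        ≤ ∑ p ∈ Q.filter (fun p : ℕ => ¬ ((p : ℝ) ≤ 2 * Real.sqrt x ∨ x ^ 2 < p)),
          (Real.log x) ^ (J + 1) *
          ((1 + ε) * (gw x (p - h m) * (sig P h lam (p - h m)) ^ 2) +
            wN x (p - h m) * (sig P h lam (p - h m)) ^ 2 / (Real.log x) ^ A) :=
          Finset.sum_le_sum hle
      _ = ∑ N ∈ (Q.filter (fun p : ℕ => ¬ ((p : ℝ) ≤ 2 * Real.sqrt x ∨ x ^ 2 < p))).image
            (fun p => p - h m),
          (Real.log x) ^ (J + 1) * ((1 + ε) * (gw x N * (sig P h lam N) ^ 2) +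
            wN x N * (sig P h lam N) ^ 2 / (Real.log x) ^ A) :=
          (Finset.sum_image (f := fun N => (Real.log x) ^ (J + 1) *
            ((1 + ε) * (gw x N * (sig P h lam N) ^ 2) +
            wN x N * (sig P h lam N) ^ 2 / (Real.log x) ^ A)) hinj).symm
      _ ≤ ∑ N ∈ ((Win x).filter (fun N => N % W = b % W)).filter (fun N => (N + h m).Prime),
          (Real.log x) ^ (J + 1) * ((1 + ε) * (gw x N * (sig P h lam N) ^ 2) +
            wN x N * (sig P h lam N) ^ 2 / (Real.log x) ^ A) := by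
          refine Finset.sum_le_sum_of_subset_of_nonneg ?_ ?_
          · intro N hN
            obtain ⟨p, hp, rfl⟩ := Finset.mem_image.1 hN
            exact (hmem p hp).2.1
          · intro N _ _
            have := wN_pos x N
            have := gw_pos x N
            positivity
      _ = (Real.log x) ^ (J + 1) * ((1 + ε) *
        ∑ N ∈ ((Win x).filter (fun N => N % W = b % W)).filter (fun N => (N + h m).Prime),
          gw x N * (sig P h lam N) ^ 2 +
        (∑ N ∈ ((Win x).filter (fun N => N % W = b % W)).filter (fun N => (N + h m).Prime),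
          wN x N * (sig P h lam N) ^ 2) / (Real.log x) ^ A) := by
          rw [← Finset.mul_sum, Finset.sum_add_distrib, ← Finset.mul_sum, Finset.sum_div]
      _ ≤ _ := by
          apply mul_le_mul_of_nonneg_left _ (by positivity)
          apply add_le_add le_rfl
          apply div_le_div_of_nonneg_right _ (by positivity)
          refine Finset.sum_le_sum_of_subset_of_nonneg (Finset.filter_subset _ _) ?_
          intro N _ _
          have := wN_pos x N
          positivity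
  linarith

end Pool.Agent.H21.SH
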