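import Pool.Agent.H21.SH.St
import Pool.Agent.H21.SH.Up
import Pool.Agent.H21.SH.Mm
import Pool.Agent.H21.BV.BV2
import Pool.Agent.H21.MT.AsmB

/-!
[H21 SH A3]  Sharp upper bound for the mass of the `N` with all `N + h j`, `j ∈ insert m S`, prime.

Proof.  Compare `Pool/Agent/H21/MT/AsmB.lean` (error term).  `K = |I|`, `L = log x`, `A = 40 K^4 + 40`,
`J` from `bv2 ε A`, `φ = φ(W)`, `lam'` from `step_data m S`.
(1) By the first property of `lam'` the mass is `≤ ∑_{N ∈ WinB, N + h m prime} gw x N (sig lam' N)^2`.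
(2) `up2 J (K + 5) ε` (`par_P4`): this is `≤ ((1+ε)/L^{J+1}) Σ + T'/L^{K+5}`, `Σ = ∑_p vp (∑ offL m lam')^2`,
`T' ≤ 480 (x/W) M0`.
(3) `prime_sig`: `Σ ≤ (MM/φ) mform (1/(P-1)) (offL m lam') + Err`; the moduli are
`W totJ ≤ W tot d tot e ≤ W x^{1/2-2ε} ≤ x^{1/2-ε}`; the form is `≤ (1+ε) M0`, `MM ≤ (1+ε) L^J XG` (`mm_sharp`).
(4) `err_sum` (`Λ = (2(1+L))^{3K}`, `R = x^{1/4-ε}`, `T0 = x L^{J+2}`, `S0 = x L^{J-A}`, `Q = x^{1/2-ε}`; use
`|offL m lam' d| ≤ |lam' d|`): `Err ≤ Λ^2 √(T0 S0) (1 + 2 log R)^{9K^4} ≤ C x L^{6K + J + 1 - A/2 + 9K^4}` and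
`6K + 1 - 20K^4 - 20 + 9K^4 ≤ -K - 2`, so with (7) of `step_data` `Err ≤ ε (XG L^J/φ) M0` for large `x`
(`XG ≥ x/8`).
(5) `T'/L^{K+5} ≤ ε (XG/(φ L)) M0` for large `x`.
Total factor `(1+ε)^3 + (1+ε) ε + ε ≤ 1 + 10ε`.
-/

namespace Pool.Agent.H21.SH

open Finset Filter Pool.Agent.H21.MT

variable {I : Type} [Fintype I] [DecidableEq I] [Nonempty I] (δ : Dt I)

theorem a3_err (K J : ℕ) (L x ph e Lr : ℝ) (hL : 2 ≤ L) (hx : 0 < x) (hph : 1 ≤ ph) (he : 0 < e)
    (hlr0 : 0 ≤ Lr) (hlr : Lr ≤ L / 4) (hLbig : 4 ^ (6 * K) * 8 * 2 ^ K * ph / e ≤ L) :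
    ((2 * (1 + L)) ^ (3 * K)) ^ 2 *
      Real.sqrt ((x * L ^ (J + 2)) * (x * L ^ J / L ^ (40 * K ^ 4 + 40))) *
      (1 + 2 * Lr) ^ (9 * K ^ 4) ≤ e * (x / 8 * L ^ J / ph) * (1 / (1 + L) ^ K) := by
  have hL0 : 0 < L := by linarith
  have hL1 : 1 ≤ L := by linarith
  have hph0 : 0 < ph := by linarith
  have h1 : (x * L ^ (J + 2)) * (x * L ^ J / L ^ (40 * K ^ 4 + 40)) =
      (x * L ^ (J + 1) / L ^ (20 * K ^ 4 + 20)) ^ 2 := by
    rw [div_pow, ← pow_mul, mul_pow, ← pow_mul]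
    have e1 : (20 * K ^ 4 + 20) * 2 = 40 * K ^ 4 + 40 := by ring
    rw [e1]
    field_simp
    ring
  rw [h1, Real.sqrt_sq (by positivity)]
  have h2 : ((2 * (1 + L)) ^ (3 * K)) ^ 2 ≤ 4 ^ (6 * K) * L ^ (6 * K) := by
    have e1 : 2 * (1 + L) ≤ 4 * L := by linarith
    calc ((2 * (1 + L)) ^ (3 * K)) ^ 2 ≤ ((4 * L) ^ (3 * K)) ^ 2 := by gcongr
      _ = 4 ^ (6 * K) * L ^ (6 * K) := by
        rw [← pow_mul, mul_pow, show 3 * K * 2 = 6 * K by ring]
  have h3 : (1 + 2 * Lr) ^ (9 * K ^ 4) ≤ L ^ (9 * K ^ 4) := by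
    gcongr
    linarith
  have h4 : 1 / (2 ^ K * L ^ K) ≤ 1 / (1 + L) ^ K := by
    rw [← mul_pow]
    apply one_div_le_one_div_of_le (by positivity)
    gcongr
    linarith
  have h5 : 4 ^ (6 * K) * L ^ (6 * K + 1 + 9 * K ^ 4) / L ^ (20 * K ^ 4 + 20) ≤
      e / (8 * ph * (2 ^ K * L ^ K)) := by
    rw [div_le_div_iff₀ (by positivity) (by positivity)]
    have e1 : 4 ^ (6 * K) * 8 * 2 ^ K * ph ≤ e * L := by
      rw [div_le_iff₀ he] at hLbig
      linarith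
    calc 4 ^ (6 * K) * L ^ (6 * K + 1 + 9 * K ^ 4) * (8 * ph * (2 ^ K * L ^ K))
        = (4 ^ (6 * K) * 8 * 2 ^ K * ph) * L ^ (7 * K + 1 + 9 * K ^ 4) := by
          rw [show 7 * K + 1 + 9 * K ^ 4 = (6 * K + 1 + 9 * K ^ 4) + K by ring,
            pow_add L (6 * K + 1 + 9 * K ^ 4) K]
          ring
      _ ≤ (e * L) * L ^ (7 * K + 1 + 9 * K ^ 4) :=
          mul_le_mul_of_nonneg_right e1 (by positivity)
      _ = e * L ^ (7 * K + 1 + 9 * K ^ 4 + 1) := by rw [pow_succ]; ring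
      _ ≤ e * L ^ (20 * K ^ 4 + 20) := by
          refine mul_le_mul_of_nonneg_left (pow_le_pow_right₀ hL1 ?_) he.le
          have hK4 : K ≤ K ^ 4 := by
            rcases Nat.eq_zero_or_pos K with h | h
            · simp [h]
            · exact Nat.le_self_pow (by norm_num) K
          omega
  calc ((2 * (1 + L)) ^ (3 * K)) ^ 2 * (x * L ^ (J + 1) / L ^ (20 * K ^ 4 + 20)) *
      (1 + 2 * Lr) ^ (9 * K ^ 4)
      ≤ (4 ^ (6 * K) * L ^ (6 * K)) * (x * L ^ (J + 1) / L ^ (20 * K ^ 4 + 20)) *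
        L ^ (9 * K ^ 4) := by gcongr
    _ = x * L ^ J * (4 ^ (6 * K) * L ^ (6 * K + 1 + 9 * K ^ 4) / L ^ (20 * K ^ 4 + 20)) := by
        rw [pow_add L (6 * K + 1) (9 * K ^ 4), pow_add L (6 * K) 1, pow_one, pow_succ L J]
        ring
    _ ≤ x * L ^ J * (e / (8 * ph * (2 ^ K * L ^ K))) :=
        mul_le_mul_of_nonneg_left h5 (by positivity)
    _ = e * (x / 8 * L ^ J / ph) * (1 / (2 ^ K * L ^ K)) := by
        field_simp
    _ ≤ e * (x / 8 * L ^ J / ph) * (1 / (1 + L) ^ K) :=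
        mul_le_mul_of_nonneg_left h4 (by positivity)

theorem a3_fin (J K : ℕ) (x L ph W e M G MMx Sig Qf Err T mass : ℝ) (hL : 2 ≤ L)
    (hph : 1 ≤ ph) (hW : 1 ≤ W) (he : 0 < e) (he1 : e ≤ 1 / 100) (hM : 0 ≤ M)
    (hG0 : 0 ≤ G) (hG : x / 8 ≤ G) (hMM0 : 0 ≤ MMx) (hMM : MMx ≤ (1 + e) * (L ^ J * G))
    (hQ : Qf ≤ (1 + e) * M) (hSig : Sig ≤ MMx / ph * Qf + Err)
    (hErr : Err ≤ e * (G * L ^ J / ph) * M) (hT : T ≤ 480 * (x / W * M))
    (hLbig : 3840 * ph / e ≤ L)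
    (hmass : mass ≤ (1 + e) / L ^ (J + 1) * Sig + T / L ^ (K + 5)) :
    mass ≤ (1 + 10 * e) * (G / ph / L * M) := by
  have hL0 : 0 < L := by linarith
  have hph0 : 0 < ph := by linarith
  have hW0 : 0 < W := by linarith
  set U := G / ph / L * M with hU
  have hU0 : 0 ≤ U := by positivity
  have h1 : MMx / ph * Qf ≤ (1 + e) ^ 2 * (L ^ J * G / ph * M) := by
    have e1 : MMx / ph * Qf ≤ MMx / ph * ((1 + e) * M) :=
      mul_le_mul_of_nonneg_left hQ (by positivity)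
    have e2 : MMx / ph * ((1 + e) * M) ≤ (1 + e) * (L ^ J * G) / ph * ((1 + e) * M) := by
      apply mul_le_mul_of_nonneg_right _ (by positivity)
      exact div_le_div_of_nonneg_right hMM hph0.le
    refine e1.trans (e2.trans (le_of_eq ?_))
    ring
  have h2 : Sig ≤ ((1 + e) ^ 2 + e) * (L ^ J * G / ph * M) := by
    have : e * (G * L ^ J / ph) * M = e * (L ^ J * G / ph * M) := by ring
    linarith
  have h3 : (1 + e) / L ^ (J + 1) * Sig ≤ (1 + e) * ((1 + e) ^ 2 + e) * U := by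
    calc (1 + e) / L ^ (J + 1) * Sig
        ≤ (1 + e) / L ^ (J + 1) * (((1 + e) ^ 2 + e) * (L ^ J * G / ph * M)) :=
          mul_le_mul_of_nonneg_left h2 (by positivity)
      _ = (1 + e) * ((1 + e) ^ 2 + e) * U := by
          rw [hU, pow_succ]
          field_simp
  have h4 : T / L ^ (K + 5) ≤ e * U := by
    have e1 : 3840 * ph ≤ e * L := by
      rw [div_le_iff₀ he] at hLbig
      linarith
    have e2 : L ^ 2 ≤ L ^ (K + 5) := pow_le_pow_right₀ (by linarith) (by omega)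
    calc T / L ^ (K + 5) ≤ 480 * (x / W * M) / L ^ (K + 5) :=
          div_le_div_of_nonneg_right hT (by positivity)
      _ ≤ 480 * (8 * G / W * M) / L ^ (K + 5) := by
          apply div_le_div_of_nonneg_right _ (by positivity)
          have e3 : x / W ≤ 8 * G / W := div_le_div_of_nonneg_right (by linarith) hW0.le
          have := mul_le_mul_of_nonneg_right e3 hM
          linarith
      _ = (G * M) * (3840 / (W * L ^ (K + 5))) := by
          field_simp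
          ring
      _ ≤ (G * M) * (e / (ph * L)) := by
          apply mul_le_mul_of_nonneg_left _ (by positivity)
          rw [div_le_div_iff₀ (by positivity) (by positivity)]
          calc 3840 * (ph * L) = (3840 * ph) * L := by ring
            _ ≤ (e * L) * L := mul_le_mul_of_nonneg_right e1 hL0.le
            _ = e * (1 * L ^ 2) := by ring
            _ ≤ e * (W * L ^ (K + 5)) := by
                apply mul_le_mul_of_nonneg_left _ he.le
                exact mul_le_mul hW e2 (by positivity) hW0.le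
      _ = e * U := by
          rw [hU]
          field_simp
  have h5 : (1 + e) * ((1 + e) ^ 2 + e) + e ≤ 1 + 10 * e := by
    have e2 : e ^ 2 ≤ e / 100 := by
      have := mul_le_mul_of_nonneg_left he1 he.le
      calc e ^ 2 = e * e := sq e
        _ ≤ e * (1 / 100) := this
        _ = e / 100 := by ring
    have e3 : e ^ 3 ≤ e / 100 := by
      calc e ^ 3 = e * e ^ 2 := by ring
        _ ≤ e * (e / 100) := mul_le_mul_of_nonneg_left e2 he.le
        _ = e ^ 2 / 100 := by ring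
        _ ≤ (e / 100) / 100 := by linarith
        _ ≤ e / 100 := by linarith
    have e4 : (1 + e) * ((1 + e) ^ 2 + e) + e = 1 + 5 * e + 4 * e ^ 2 + e ^ 3 := by ring
    rw [e4]
    linarith
  calc mass ≤ (1 + e) / L ^ (J + 1) * Sig + T / L ^ (K + 5) := hmass
    _ ≤ (1 + e) * ((1 + e) ^ 2 + e) * U + e * U := add_le_add h3 h4
    _ = ((1 + e) * ((1 + e) ^ 2 + e) + e) * U := by ring
    _ ≤ (1 + 10 * e) * U := mul_le_mul_of_nonneg_right h5 hU0

theorem a3_W (W : ℕ) (e : ℝ) (he : 0 < e) : ∀ᶠ x : ℝ in atTop,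
    (W : ℝ) * (x ^ (1 / 4 - e)) ^ 2 ≤ x ^ (1 / 2 - e) := by
  have h1 : ∀ᶠ x : ℝ in atTop, (W : ℝ) ≤ x ^ e :=
    (tendsto_rpow_atTop he).eventually_ge_atTop _
  filter_upwards [h1, eventually_gt_atTop 0] with x hx hx0
  have e1 : (x ^ (1 / 4 - e)) ^ 2 = x ^ (1 / 2 - 2 * e) := by
    rw [← Real.rpow_natCast, ← Real.rpow_mul hx0.le]
    congr 1
    push_cast
    ring
  have e2 : x ^ (1 / 2 - e) = x ^ e * x ^ (1 / 2 - 2 * e) := by
    rw [← Real.rpow_add hx0]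
    congr 1
    ring
  rw [e1, e2]
  exact mul_le_mul_of_nonneg_right hx (Real.rpow_nonneg hx0.le _)

theorem SS_up (m : I) (S : Finset I) (hm : m ∉ S) : ∀ᶠ x : ℝ in atTop,
    ∑ N ∈ (δ.WinB x).filter (fun N => ∀ j ∈ insert m S, (N + δ.h j).Prime), δ.om x N ≤
      (1 + 10 * δ.ε) * (XG x / δ.W.totient / Real.log x * δ.M0 x m S) := by
  have hε := δ.eps_pos
  have hε1 := δ.eps_le
  obtain ⟨J, hJ⟩ := H21.BV.bv2 δ.ε hε (by linarith) (40 * (Fintype.card I) ^ 4 + 40)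
  have hW0 : 0 < δ.W := δ.W_pos
  have hphi : 0 < δ.W.totient := Nat.totient_pos.mpr hW0
  have hphiR : (1 : ℝ) ≤ (δ.W.totient : ℝ) := by exact_mod_cast hphi
  have hWR : (1 : ℝ) ≤ (δ.W : ℝ) := by exact_mod_cast hW0
  have eL : ∀ᶠ x : ℝ in atTop,
      4 ^ (6 * Fintype.card I) * 8 * 2 ^ (Fintype.card I) * (δ.W.totient : ℝ) / δ.ε ≤
        Real.log x := Real.tendsto_log_atTop.eventually_ge_atTop _
  have eL2 : ∀ᶠ x : ℝ in atTop, 2 ≤ Real.log x :=
    Real.tendsto_log_atTop.eventually_ge_atTop _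
  have eL3 : ∀ᶠ x : ℝ in atTop, 3840 * (δ.W.totient : ℝ) / δ.ε ≤ Real.log x :=
    Real.tendsto_log_atTop.eventually_ge_atTop _
  filter_upwards [hJ, up2 J (Fintype.card I + 5) δ.ε hε I δ.h δ.W δ.b hW0 m,
    step_data δ m S hm, mm_sharp J δ.ε hε, gw_massx, eL, eL2, eL3, a3_W δ.W δ.ε hε,
    eventually_ge_atTop 1] with x hJx hup hstep hmm hmass hL hL2 hL3 hWx hx1
  obtain ⟨E, hE0, hE1, hE2, hE3⟩ := hJx
  obtain ⟨lam', hl1, hl2, hl3, hl4, hl5, hl6, hl7⟩ := hstep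
  have hx0 : 0 < x := by linarith
  set L := Real.log x with hLdef
  have hL0 : 0 < L := by linarith
  have hP : ∀ k, (δ.P x k).Prime := Pv_prime _ _
  have hPpos : ∀ k, 0 < δ.P x k := fun k => (hP k).pos
  have hinj : Function.Injective (δ.P x) := Pv_inj _ _
  have hPW : ∀ k, ¬ δ.P x k ∣ δ.W := Pv_not_dvd _ _
  have hR1 : (1 : ℝ) ≤ x ^ (1 / 4 - δ.ε) := Real.one_le_rpow hx1 (by linarith)
  have hlogR : Real.log (x ^ (1 / 4 - δ.ε)) = (1 / 4 - δ.ε) * L := by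
    rw [Real.log_rpow hx0]
  -- support and size of `offL m lam'`
  have hoff : ∀ d, offL m lam' d ≠ 0 → (tot (δ.P x) d : ℝ) ≤ x ^ (1 / 4 - δ.ε) := by
    intro d hd
    apply hl3
    intro h0
    apply hd
    unfold offL
    split_ifs
    · exact h0
    · rfl
  have hmod : ∀ d e, offL m lam' d ≠ 0 → offL m lam' e ≠ 0 →
      ((δ.W * totJ (δ.P x) d e : ℕ) : ℝ) ≤ x ^ (1 / 2 - δ.ε) := by
    intro d e hd he
    have h1 : (totJ (δ.P x) d e : ℝ) ≤ (tot (δ.P x) d : ℝ) * (tot (δ.P x) e : ℝ) := by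
      exact_mod_cast totJ_le_mul hPpos d e
    have h2 : (tot (δ.P x) d : ℝ) * (tot (δ.P x) e : ℝ) ≤ (x ^ (1 / 4 - δ.ε)) ^ 2 := by
      rw [sq]
      exact mul_le_mul (hoff d hd) (hoff e he) (Nat.cast_nonneg _) (by linarith)
    calc ((δ.W * totJ (δ.P x) d e : ℕ) : ℝ) = (δ.W : ℝ) * (totJ (δ.P x) d e : ℝ) := by
          push_cast; ring
      _ ≤ (δ.W : ℝ) * (x ^ (1 / 4 - δ.ε)) ^ 2 :=
          mul_le_mul_of_nonneg_left (h1.trans h2) (by linarith)
      _ ≤ _ := hWx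
  -- the prime sum
  have hps := prime_sig (δ.P x) hP hinj δ.h (par_diff2 δ x) δ.W δ.b hW0 hPW m (δ.b_cop m) (Wp x)
    (vp J x) (MM J x) E lam' hE0 (by
      intro d e hd he a ha
      exact hE1 _ (Nat.mul_pos hW0 (totJ_pos' hPpos d e)) (hmod d e hd he) a ha)
  have herr := err_sum (δ.P x) hP hinj δ.W hW0 hPW (offL m lam')
    ((2 * (1 + L)) ^ (3 * Fintype.card I)) (x ^ (1 / 4 - δ.ε)) (x ^ (1 / 2 - δ.ε))
    (x * L ^ (J + 2)) (x * L ^ J / L ^ (40 * (Fintype.card I) ^ 4 + 40)) hR1 (by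
      intro d
      unfold offL
      split_ifs
      · exact hl2 d
      · rw [abs_zero]; positivity) hoff E hE0 (by positivity) hWx hE2 hE3
  rw [hlogR] at herr
  have herr2 := a3_err (Fintype.card I) J L x (δ.W.totient : ℝ) δ.ε ((1 / 4 - δ.ε) * L) hL2 hx0
    hphiR hε (mul_nonneg (by linarith) hL0.le) (by nlinarith) hL
  -- positivity of the main term
  have hM0 : 1 / (1 + L) ^ Fintype.card I ≤ δ.M0 x m S := by
    rw [div_le_iff₀ (by positivity)]
    linarith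
  have hMpos : 0 ≤ δ.M0 x m S := le_trans (by positivity) hM0
  have hG := hmass.1
  have hG0 : 0 ≤ XG x := le_trans (by positivity) hG
  have hMM0 : 0 ≤ MM J x := by
    refine le_trans ?_ hmm.1
    have : (0 : ℝ) ≤ 1 - δ.ε := by linarith
    positivity
  have hErr3 : ∑ d, ∑ e, |offL m lam' d| * |offL m lam' e| * E (δ.W * totJ (δ.P x) d e) ≤
      δ.ε * (XG x * L ^ J / δ.W.totient) * δ.M0 x m S := by
    refine herr.trans (herr2.trans ?_)
    have e1 : x / 8 * L ^ J / (δ.W.totient : ℝ) ≤ XG x * L ^ J / (δ.W.totient : ℝ) := by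
      apply div_le_div_of_nonneg_right _ (by positivity)
      exact mul_le_mul_of_nonneg_right hG (by positivity)
    calc δ.ε * (x / 8 * L ^ J / (δ.W.totient : ℝ)) * (1 / (1 + L) ^ Fintype.card I)
        ≤ δ.ε * (XG x * L ^ J / (δ.W.totient : ℝ)) * (1 / (1 + L) ^ Fintype.card I) := by
          apply mul_le_mul_of_nonneg_right _ (by positivity)
          exact mul_le_mul_of_nonneg_left e1 hε.le
      _ ≤ _ := mul_le_mul_of_nonneg_left hM0 (by positivity)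
  -- the mass
  have hupx := hup (PIdx δ.W (Zx x)) (δ.P x) lam' hP (par_P4 δ x hx1)
  have hmassle : ∑ N ∈ (δ.WinB x).filter (fun N => ∀ j ∈ insert m S, (N + δ.h j).Prime),
      δ.om x N ≤ ∑ N ∈ (δ.WinB x).filter (fun N => (N + δ.h m).Prime),
        gw x N * (sig (δ.P x) δ.h lam' N) ^ 2 := by
    calc ∑ N ∈ (δ.WinB x).filter (fun N => ∀ j ∈ insert m S, (N + δ.h j).Prime), δ.om x N
        = ∑ N ∈ (δ.WinB x).filter (fun N => ∀ j ∈ insert m S, (N + δ.h j).Prime),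
          gw x N * (sig (δ.P x) δ.h lam' N) ^ 2 := by
          apply Finset.sum_congr rfl
          intro N hN
          rw [Finset.mem_filter] at hN
          have hNW : N ∈ Win x := by
            have := hN.1
            unfold Dt.WinB at this
            exact (Finset.mem_filter.mp this).1
          unfold Dt.om
          rw [hl1 N hNW (fun j hj => hN.2 j (Finset.mem_insert_of_mem hj))]
      _ ≤ _ := by
          apply Finset.sum_le_sum_of_subset_of_nonneg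
          · intro N hN
            rw [Finset.mem_filter] at hN ⊢
            exact ⟨hN.1, hN.2 m (Finset.mem_insert_self m S)⟩
          · intro N _ _
            exact mul_nonneg (gw_pos x N).le (sq_nonneg _)
  have hSig := (abs_le.mp hps).2
  refine a3_fin J (Fintype.card I) x L (δ.W.totient : ℝ) δ.W δ.ε (δ.M0 x m S) (XG x) (MM J x)
    (∑ p ∈ (Wp x).filter (fun p : ℕ => (δ.W : ℤ) ∣ (p : ℤ) - (δ.b + δ.h m)),
      vp J x p * (∑ d ∈ univ.filter (fun d => dvm (δ.P x) δ.h m d p), offL m lam' d) ^ 2)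
    (mform (fun k => (1 : ℝ) / (δ.P x k - 1)) (offL m lam'))
    (∑ d, ∑ e, |offL m lam' d| * |offL m lam' e| * E (δ.W * totJ (δ.P x) d e))
    (∑ N ∈ δ.WinB x, wN x N * (sig (δ.P x) δ.h lam' N) ^ 2) _ hL2 hphiR hWR hε hε1 hMpos hG0 hG
    hMM0 hmm.2 hl5 (by linarith) hErr3 hl6 hL3 (hmassle.trans ?_)
  exact hupx

end Pool.Agent.H21.SH
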