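import Pool.Agent.H21.SH.Dt
import Pool.Agent.H21.MT.SieveR

/-!
[H21 SH DX]  Existence of the data, with a prescribed residue class.

Proof.  Copy the proof of `dat_existsR` in `Pool/Agent/H21/MT/SieveR.lean` with
`D = ⌈1000 K^2/ε^2⌉₊ + 1000` (any natural number with the required inequality).
-/

namespace Pool.Agent.H21.SH

open Finset Filter Pool.Agent.H21.MT

theorem dx_base {I : Type} [Fintype I] [DecidableEq I] (D : ℕ) (h : I → ℕ)
    (hinj : Function.Injective h)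
    (hadm : ∀ p : ℕ, p.Prime → ∃ a : ℕ, ∀ i, ¬ p ∣ a + h i) :
    ∃ W b : ℕ, 0 < W ∧ (∀ p : ℕ, p.Prime → p < D → p ∣ W) ∧
      (∀ i j, i ≠ j → ∀ p : ℕ, p.Prime → (p : ℤ) ∣ (h i : ℤ) - h j → p ∣ W) ∧
      ∀ i, Nat.Coprime (b + h i) W := by
  classical
  obtain ⟨A, hA⟩ : ∃ A : ℕ, A = ∏ p ∈ (range D).filter Nat.Prime, p := ⟨_, rfl⟩
  obtain ⟨B, hB⟩ : ∃ B : ℕ, B = ∏ x ∈ (univ : Finset (I × I)).filter (fun x => x.1 ≠ x.2),
      ((h x.1 : ℤ) - h x.2).natAbs := ⟨_, rfl⟩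
  have hA0 : 0 < A := by
    rw [hA]
    apply Finset.prod_pos
    intro p hp
    exact (Finset.mem_filter.1 hp).2.pos
  have hB0 : 0 < B := by
    rw [hB]
    apply Finset.prod_pos
    intro x hx
    rw [Int.natAbs_pos, sub_ne_zero]
    intro hx2
    exact (Finset.mem_filter.1 hx).2 (hinj (by exact_mod_cast hx2))
  have hW0 : 0 < A * B := Nat.mul_pos hA0 hB0
  have ha : ∀ p : ℕ, ∃ a : ℕ, p.Prime → ∀ i, ¬ p ∣ a + h i := by
    intro p
    by_cases hp : p.Prime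
    · obtain ⟨a, ha⟩ := hadm p hp
      exact ⟨a, fun _ => ha⟩
    · exact ⟨0, fun hp' => absurd hp' hp⟩
  choose a ha using ha
  obtain ⟨b, hb⟩ := datex_crt (A * B) a
  refine ⟨A * B, b, hW0, ?_, ?_, ?_⟩
  · intro p hp hpD
    apply Dvd.dvd.mul_right
    rw [hA]
    exact Finset.dvd_prod_of_mem _ (Finset.mem_filter.2 ⟨Finset.mem_range.2 hpD, hp⟩)
  · intro i j hij p _ hpd
    apply Dvd.dvd.mul_left
    have h4 : p ∣ ((h i : ℤ) - h j).natAbs := Int.natCast_dvd.1 hpd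
    refine h4.trans ?_
    rw [hB]
    exact Finset.dvd_prod_of_mem (fun x : I × I => ((h x.1 : ℤ) - h x.2).natAbs)
      (Finset.mem_filter.2 ⟨Finset.mem_univ (i, j), hij⟩)
  · intro i
    apply Nat.coprime_of_dvd
    intro p hp hpb hpW
    have h5 := hb p hp hpW hW0.ne'
    exact ha p hp i (((h5.add_right (h i)).dvd_iff dvd_rfl).1 hpb)

theorem dt_exists {I : Type} [Fintype I] [DecidableEq I] [Nonempty I] (ε : ℝ) (hε : 0 < ε)
    (hε1 : ε ≤ 1 / 100) (h : I → ℕ) (hinj : Function.Injective h)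
    (hadm : ∀ p : ℕ, p.Prime → ∃ a : ℕ, ∀ i, ¬ p ∣ a + h i) (tau : I → ℝ) (l : I → ℕ)
    (h1 : ∀ i, 0 < tau i) (h2 : ∀ i, (2 : ℝ) ^ l i * tau i ≤ 1 / 2)
    (h3 : ∑ i, ((l i : ℝ) + 1) * tau i ≤ ε) (Q b₀ : ℕ) (hQ : 0 < Q)
    (hb₀ : ∀ i, Nat.Coprime (b₀ + h i) Q) :
    ∃ δ : Dt I, δ.ε = ε ∧ δ.h = h ∧ δ.tau = tau ∧ δ.l = l ∧ Q ∣ δ.W ∧ δ.b ≡ b₀ [MOD Q] := by
  classical
  obtain ⟨D, hD⟩ := exists_nat_ge (1000 * (Fintype.card I : ℝ) ^ 2 / ε ^ 2)
  obtain ⟨W, b', hW, hDW, hdiff, hbW⟩ := dx_base D h hinj hadm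
  -- the part of `W` prime to `Q`
  obtain ⟨W1, hW1⟩ : ∃ W1 : ℕ, W1 = ∏ p ∈ W.primeFactors.filter (fun p => ¬ p ∣ Q), p :=
    ⟨_, rfl⟩
  have hW1pos : 0 < W1 := by
    rw [hW1]
    apply Finset.prod_pos
    intro p hp
    exact (Nat.prime_of_mem_primeFactors (Finset.mem_filter.1 hp).1).pos
  have hcop : Nat.Coprime Q W1 := by
    rw [hW1]
    apply Nat.Coprime.prod_right
    intro p hp
    have hp1 := Nat.prime_of_mem_primeFactors (Finset.mem_filter.1 hp).1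
    exact ((Nat.Prime.coprime_iff_not_dvd hp1).2 (Finset.mem_filter.1 hp).2).symm
  obtain ⟨b, hb1, hb2⟩ := Nat.chineseRemainder hcop b₀ b'
  have hdvd : ∀ p : ℕ, p.Prime → p ∣ W → p ∣ Q * W1 := by
    intro p hp hpW
    by_cases hpQ : p ∣ Q
    · exact hpQ.mul_right _
    · refine Dvd.dvd.mul_left ?_ _
      rw [hW1]
      exact Finset.dvd_prod_of_mem _ (Finset.mem_filter.2
        ⟨Nat.mem_primeFactors.2 ⟨hp, hpW, hW.ne'⟩, hpQ⟩)
  have hW1dvd : W1 ∣ W := by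
    rw [hW1]
    refine dvd_trans (Finset.prod_dvd_prod_of_subset _ _ _ (Finset.filter_subset _ _)) ?_
    exact Nat.prod_primeFactors_dvd _
  refine ⟨{ ε := ε, h := h, tau := tau, l := l, W := Q * W1, D := D, b := b, eps_pos := hε,
            eps_le := hε1, tau_pos := h1, l_tau := h2,
            budget := h3, W_pos := Nat.mul_pos hQ hW1pos, D_large := hD,
            D_dvd := fun p hp hpD => hdvd p hp (hDW p hp hpD),
            diff_dvd := fun i j hij p hp hpd => hdvd p hp (hdiff i j hij p hp hpd),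
            b_cop := ?_ }, rfl, rfl, rfl, rfl, Dvd.intro _ rfl, hb1⟩
  intro i
  apply Nat.Coprime.mul_right
  · have h5 : b + h i ≡ b₀ + h i [MOD Q] := hb1.add_right (h i)
    have h6 := h5.gcd_eq
    rw [Nat.Coprime, h6]
    exact hb₀ i
  · have h5 : b + h i ≡ b' + h i [MOD W1] := hb2.add_right (h i)
    have h6 := h5.gcd_eq
    rw [Nat.Coprime, h6]
    exact Nat.Coprime.coprime_dvd_right hW1dvd (hbW i)

end Pool.Agent.H21.SH
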