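import Pool.Agent.H21.SH.A2
import Pool.Agent.H21.SH.A3
import Pool.Agent.H21.SH.Dx

/-!
[H21 SH SV]  The sharp Maynard sieve as a probability measure on large integers.

Proof.  As `Pool/Agent/H21/MT/Sieve.lean` and `sieveR` in `SieveR.lean`: `dt_exists`; for `x` large all of
`S1_bounds2`, `Sm_lower` (all `m`), `SS_up` (all `m`, `S`), `par_AB2`, `par_H2` hold and `√x ≥ N0`, `log x > 0`;
`T = WinB x`, `μ N = om x N / S1 x` (`S1 > 0` by `S1_bounds2`).  Write `p_i = ps i`, `V = φ(W)/W`, `L = log x`.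
* `μ(N + h m prime) ≥ (1-30ε)/(1+ε) * A_m^2/(V L B_m) ≥ (1-30ε)(1-ε)(1-4ε) p_m ≥ (1-50ε) p_m`.
* (`M0 x m S` is unfolded, `∏ i, B i = B m * ∏_{j∈S} B j * ∏_{i ∉ insert m S} B i`.)
  `μ(all of insert m S) ≤ (1+10ε)/(1-12ε) * A_m^2/(V L B_m) ∏_{j∈S} A_j^2/(B_j H)`, `H = HH (yy x |S|)`; with
  `A_j^2 ≤ (1+4ε) p_j V L B_j` and `V L/H ≤ 4|S|/(1-10ε)` (if `S ≠ ∅`) each factor `j ∈ S` is
  `≤ (1+4ε)/(1-10ε) * 4|S| p_j ≤ (1+50ε) 4|S| p_j` and the first factors are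
  `≤ (1+10ε)(1+4ε)/(1-12ε) p_m ≤ (1+50ε) p_m` (`ε ≤ 1/100`).  For `S = ∅`: `(4*0)^0 = 1`.
(All elements of `WinB x` are `> ⌊√x⌋₊ ≥ N0`, `N ≡ δ.b (mod W)`, `Q ∣ W`, `δ.b ≡ b₀ (mod Q)`.)
-/

namespace Pool.Agent.H21.SH

open Finset Filter Pool.Agent.H21.MT

private theorem psv_nonneg {ε τ : ℝ} (hε : 0 < ε) (hτ : 0 < τ) (l : ℕ) : 0 ≤ psv ε τ l := by
  unfold psv
  have h1 := (one_le_bl l).1
  have h2 : 0 ≤ ε * τ * ((l : ℝ) + 2) ^ 2 := by positivity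
  exact div_nonneg h2 (by linarith)

theorem sieve2 (ε : ℝ) (hε : 0 < ε) (hε1 : ε ≤ 1 / 100) {I : Type} [Fintype I] [DecidableEq I]
    [Nonempty I] (h : I → ℕ) (hinj : Function.Injective h)
    (hadm : ∀ p : ℕ, p.Prime → ∃ a : ℕ, ∀ i, ¬ p ∣ a + h i) (tau : I → ℝ) (l : I → ℕ)
    (h1 : ∀ i, 0 < tau i) (h2 : ∀ i, (2 : ℝ) ^ l i * tau i ≤ 1 / 2)
    (h3 : ∑ i, ((l i : ℝ) + 1) * tau i ≤ ε) (Q b₀ : ℕ) (hQ : 0 < Q)
    (hb₀ : ∀ i, Nat.Coprime (b₀ + h i) Q) (N0 : ℕ) :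
    ∃ (T : Finset ℕ) (μ : ℕ → ℝ), (∀ N ∈ T, N0 < N ∧ N ≡ b₀ [MOD Q]) ∧ (∀ N, 0 ≤ μ N) ∧
      ∑ N ∈ T, μ N = 1 ∧
      (∀ m, (1 - 50 * ε) * psv ε (tau m) (l m) ≤
        ∑ N ∈ T.filter (fun N => (N + h m).Prime), μ N) ∧
      (∀ (m : I) (S : Finset I), m ∉ S →
        ∑ N ∈ T.filter (fun N => ∀ j ∈ insert m S, (N + h j).Prime), μ N ≤
          (1 + 50 * ε) ^ (S.card + 1) * (4 * (S.card : ℝ)) ^ S.card *
            ∏ j ∈ insert m S, psv ε (tau j) (l j)) := by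
  obtain ⟨δ, rfl, rfl, rfl, rfl, hQW, hbQ⟩ :=
    dt_exists ε hε hε1 h hinj hadm tau l h1 h2 h3 Q b₀ hQ hb₀
  have e1 := S1_bounds2 δ
  have e2 := par_AB2 δ
  have e3 := par_H2 δ
  have e4 : ∀ᶠ x : ℝ in atTop, ∀ m : I,
      (1 - 30 * δ.ε) * (XG x / δ.W.totient / Real.log x *
        (δ.A x m ^ 2 * ∏ i ∈ univ.erase m, δ.B x i)) ≤
      ∑ N ∈ (δ.WinB x).filter (fun N => (N + δ.h m).Prime), δ.om x N :=
    eventually_all.2 fun m => Sm_lower δ m
  have e5 : ∀ᶠ x : ℝ in atTop, ∀ m : I, ∀ S : Finset I, m ∉ S →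
      ∑ N ∈ (δ.WinB x).filter (fun N => ∀ j ∈ insert m S, (N + δ.h j).Prime), δ.om x N ≤
        (1 + 10 * δ.ε) * (XG x / δ.W.totient / Real.log x * δ.M0 x m S) := by
    refine eventually_all.2 fun m => eventually_all.2 fun S => ?_
    by_cases hS : m ∉ S
    · exact (SS_up δ m S hS).mono fun x hx _ => hx
    · exact Eventually.of_forall fun x hx => absurd hx hS
  have e6 : ∀ᶠ x : ℝ in atTop, (N0 : ℝ) ^ 2 ≤ x ∧ 1 < x :=
    (eventually_ge_atTop _).and (eventually_gt_atTop 1)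
  have e7 := gw_massx
  obtain ⟨x, hx1, hx2, hx3, hx4, hx5, hx6, hx7⟩ :=
    (e1.and (e2.and (e3.and (e4.and (e5.and (e6.and e7)))))).exists
  have hx0 : 0 < x := by linarith [hx6.2]
  have hXG : 0 < XG x := by
    have : x / 8 ≤ XG x := hx7.1
    linarith
  have hL : 0 < Real.log x := Real.log_pos hx6.2
  have hW : (0 : ℝ) < δ.W := by exact_mod_cast δ.W_pos
  have hφ : (0 : ℝ) < δ.W.totient := by exact_mod_cast Nat.totient_pos.2 δ.W_pos
  have hBpos : ∀ i, 0 < δ.B x i := fun i => lt_of_lt_of_le one_pos (hx2 i).2.1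
  have hB : (0 : ℝ) < ∏ i, δ.B x i := Finset.prod_pos fun i _ => hBpos i
  set Y : ℝ := XG x / δ.W * ∏ i, δ.B x i with hY
  have hY0 : 0 < Y := by positivity
  have hS1 : 0 < δ.S1 x := by
    refine lt_of_lt_of_le ?_ hx1.1
    have : 0 < 1 - 12 * δ.ε := by linarith
    positivity
  have hom : ∀ N, 0 ≤ δ.om x N := fun N =>
    mul_nonneg (gw_pos x N).le (sq_nonneg _)
  have hps : ∀ i, 0 ≤ psv δ.ε (δ.tau i) (δ.l i) := fun i => psv_nonneg hε (h1 i) _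
  have hVφ : XG x / δ.W.totient / Real.log x * (δ.V * Real.log x) = XG x / δ.W := by
    unfold Dt.V
    field_simp
  have hc0 : 0 ≤ XG x / δ.W.totient / Real.log x := by positivity
  have hVL : 0 < δ.V * Real.log x := by
    unfold Dt.V
    positivity
  refine ⟨δ.WinB x, fun N => δ.om x N / δ.S1 x, ?_, ?_, ?_, ?_, ?_⟩
  · intro N hN
    have h1 : N ∈ Win x := (Finset.mem_filter.1 hN).1
    have h2 : ⌊Real.sqrt x⌋₊ < N := (Finset.mem_Ioc.1 h1).1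
    refine ⟨lt_of_le_of_lt ?_ h2, ?_⟩
    · apply Nat.le_floor
      exact Real.le_sqrt_of_sq_le hx6.1
    · have h3 : N ≡ δ.b [MOD δ.W] := (Finset.mem_filter.1 hN).2
      exact (h3.of_dvd hQW).trans hbQ
  · intro N
    exact div_nonneg (hom N) hS1.le
  · rw [← Finset.sum_div]
    exact div_self hS1.ne'
  · intro m
    rw [← Finset.sum_div, le_div_iff₀ hS1]
    refine le_trans ?_ (hx4 m)
    have hA := (hx2 m).2.2.2.1
    have hE : 0 ≤ ∏ i ∈ univ.erase m, δ.B x i := Finset.prod_nonneg fun i _ => (hBpos i).le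
    have hprod : δ.B x m * ∏ i ∈ univ.erase m, δ.B x i = ∏ i, δ.B x i :=
      Finset.mul_prod_erase univ (δ.B x) (Finset.mem_univ m)
    have hpm := hps m
    have hpsm : δ.ps m = psv δ.ε (δ.tau m) (δ.l m) := rfl
    rw [hpsm] at hA
    set pm := psv δ.ε (δ.tau m) (δ.l m) with hpmdef
    have h5 : (1 - 4 * δ.ε) * pm * Y ≤ XG x / δ.W.totient / Real.log x *
        (δ.A x m ^ 2 * ∏ i ∈ univ.erase m, δ.B x i) := by
      calc (1 - 4 * δ.ε) * pm * Y = XG x / δ.W.totient / Real.log x *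
            ((1 - 4 * δ.ε) * pm * (δ.V * Real.log x) * δ.B x m *
              ∏ i ∈ univ.erase m, δ.B x i) := by
            rw [hY, ← hprod, ← hVφ]
            ring
        _ ≤ _ := mul_le_mul_of_nonneg_left (mul_le_mul_of_nonneg_right hA hE) hc0
    have h30 : 0 ≤ 1 - 30 * δ.ε := by linarith
    calc (1 - 50 * δ.ε) * pm * δ.S1 x ≤ (1 - 50 * δ.ε) * pm * ((1 + δ.ε) * Y) := by
          refine mul_le_mul_of_nonneg_left hx1.2 (mul_nonneg (by linarith) hpm)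
      _ = ((1 - 50 * δ.ε) * (1 + δ.ε)) * (pm * Y) := by ring
      _ ≤ ((1 - 30 * δ.ε) * (1 - 4 * δ.ε)) * (pm * Y) := by
          refine mul_le_mul_of_nonneg_right ?_ (mul_nonneg hpm hY0.le)
          nlinarith
      _ = (1 - 30 * δ.ε) * ((1 - 4 * δ.ε) * pm * Y) := by ring
      _ ≤ _ := mul_le_mul_of_nonneg_left h5 h30
  · intro m S hS
    rw [← Finset.sum_div, div_le_iff₀ hS1]
    refine (hx5 m S hS).trans ?_
    have hcard : S.card ≤ Fintype.card I := Finset.card_le_univ S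
    obtain ⟨-, hH1, -, hH2⟩ := hx3 S.card hcard
    set H : ℝ := HH (δ.P x) (δ.yy x S.card) with hH
    have hH0 : 0 < H := lt_of_lt_of_le one_pos hH1
    have hpsj : ∀ j, δ.ps j = psv δ.ε (δ.tau j) (δ.l j) := fun j => rfl
    set p : I → ℝ := fun j => psv δ.ε (δ.tau j) (δ.l j) with hp
    have hp0 : ∀ j, 0 ≤ p j := hps
    have hAj : ∀ j, δ.A x j ^ 2 ≤ (1 + 4 * δ.ε) * p j * (δ.V * Real.log x) * δ.B x j :=
      fun j => (hx2 j).2.2.2.2
    have hfac : ∀ j ∈ S, δ.A x j ^ 2 / H ≤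
        (1 + 50 * δ.ε) * (4 * (S.card : ℝ)) * (p j * δ.B x j) := by
      intro j hj
      have hs : 1 ≤ S.card := Finset.card_pos.2 ⟨j, hj⟩
      have hs0 : (0 : ℝ) < S.card := by exact_mod_cast hs
      have h6 := hH2 hs
      rw [div_le_iff₀ (by positivity)] at h6
      rw [div_le_iff₀ hH0]
      have hpB : 0 ≤ p j * δ.B x j := mul_nonneg (hp0 j) (hBpos j).le
      calc δ.A x j ^ 2 ≤ (1 + 4 * δ.ε) * p j * (δ.V * Real.log x) * δ.B x j := hAj j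
        _ = (p j * δ.B x j) * ((1 + 4 * δ.ε) * (δ.V * Real.log x)) := by ring
        _ ≤ (p j * δ.B x j) * ((1 + 50 * δ.ε) * ((1 - 10 * δ.ε) * (δ.V * Real.log x))) := by
            refine mul_le_mul_of_nonneg_left ?_ hpB
            have h9 : 1 + 4 * δ.ε ≤ (1 + 50 * δ.ε) * (1 - 10 * δ.ε) := by nlinarith
            calc (1 + 4 * δ.ε) * (δ.V * Real.log x) ≤
                ((1 + 50 * δ.ε) * (1 - 10 * δ.ε)) * (δ.V * Real.log x) :=
                  mul_le_mul_of_nonneg_right h9 hVL.le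
              _ = _ := by ring
        _ ≤ (p j * δ.B x j) * ((1 + 50 * δ.ε) * (H * (4 * (S.card : ℝ)))) := by
            refine mul_le_mul_of_nonneg_left ?_ hpB
            exact mul_le_mul_of_nonneg_left h6 (by linarith)
        _ = _ := by ring
    have hprodS : ∏ j ∈ S, δ.A x j ^ 2 / H ≤
        ((1 + 50 * δ.ε) * (4 * (S.card : ℝ))) ^ S.card * ((∏ j ∈ S, p j) * ∏ j ∈ S, δ.B x j) := by
      calc ∏ j ∈ S, δ.A x j ^ 2 / H ≤
          ∏ j ∈ S, ((1 + 50 * δ.ε) * (4 * (S.card : ℝ)) * (p j * δ.B x j)) :=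
            Finset.prod_le_prod (fun j _ => div_nonneg (sq_nonneg _) hH0.le) hfac
        _ = _ := by
            rw [Finset.prod_mul_distrib, Finset.prod_const, Finset.prod_mul_distrib]
    have hR0 : 0 ≤ ∏ i ∈ univ \ insert m S, δ.B x i := Finset.prod_nonneg fun i _ => (hBpos i).le
    have hall : δ.B x m * (∏ j ∈ S, δ.B x j) * ∏ i ∈ univ \ insert m S, δ.B x i =
        ∏ i, δ.B x i := by
      rw [← Finset.prod_insert hS, mul_comm]
      exact Finset.prod_sdiff (Finset.subset_univ _)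
    have hM0 : δ.M0 x m S ≤ (1 + 4 * δ.ε) * (δ.V * Real.log x) *
        (((1 + 50 * δ.ε) * (4 * (S.card : ℝ))) ^ S.card * (∏ j ∈ insert m S, p j)) *
          ∏ i, δ.B x i := by
      have h7 : 0 ≤ ∏ j ∈ S, δ.A x j ^ 2 / H :=
        Finset.prod_nonneg fun j _ => div_nonneg (sq_nonneg _) hH0.le
      have h8 : 0 ≤ (1 + 4 * δ.ε) * p m * (δ.V * Real.log x) * δ.B x m :=
        mul_nonneg (mul_nonneg (mul_nonneg (by linarith) (hp0 m)) hVL.le) (hBpos m).le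
      have hdef : δ.M0 x m S = δ.A x m ^ 2 * (∏ j ∈ S, δ.A x j ^ 2 / H) *
            ∏ i ∈ univ \ insert m S, δ.B x i := by
        unfold Dt.M0
        rw [hH]
      rw [hdef]
      calc δ.A x m ^ 2 * (∏ j ∈ S, δ.A x j ^ 2 / H) * ∏ i ∈ univ \ insert m S, δ.B x i
          ≤ ((1 + 4 * δ.ε) * p m * (δ.V * Real.log x) * δ.B x m) *
            (((1 + 50 * δ.ε) * (4 * (S.card : ℝ))) ^ S.card *
              ((∏ j ∈ S, p j) * ∏ j ∈ S, δ.B x j)) *
            ∏ i ∈ univ \ insert m S, δ.B x i :=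
            mul_le_mul_of_nonneg_right (mul_le_mul (hAj m) hprodS h7 h8) hR0
        _ = _ := by
            rw [Finset.prod_insert hS, ← hall]
            ring
    have hP0 : 0 ≤ ∏ j ∈ insert m S, p j := Finset.prod_nonneg fun j _ => hp0 j
    have hQ0 : 0 ≤ ((1 + 50 * δ.ε) * (4 * (S.card : ℝ))) ^ S.card * ∏ j ∈ insert m S, p j :=
      mul_nonneg (pow_nonneg (mul_nonneg (by linarith) (by positivity)) _) hP0
    set Qx : ℝ := ((1 + 50 * δ.ε) * (4 * (S.card : ℝ))) ^ S.card * ∏ j ∈ insert m S, p j with hQx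
    calc (1 + 10 * δ.ε) * (XG x / δ.W.totient / Real.log x * δ.M0 x m S)
        ≤ (1 + 10 * δ.ε) * (XG x / δ.W.totient / Real.log x *
          ((1 + 4 * δ.ε) * (δ.V * Real.log x) * Qx * ∏ i, δ.B x i)) :=
          mul_le_mul_of_nonneg_left (mul_le_mul_of_nonneg_left hM0 hc0) (by linarith)
      _ = ((1 + 10 * δ.ε) * (1 + 4 * δ.ε)) * (Qx * Y) := by
          rw [hY, ← hVφ]
          ring
      _ ≤ ((1 + 50 * δ.ε) * (1 - 12 * δ.ε)) * (Qx * Y) := by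
          refine mul_le_mul_of_nonneg_right ?_ (mul_nonneg hQ0 hY0.le)
          nlinarith
      _ = (1 + 50 * δ.ε) * Qx * ((1 - 12 * δ.ε) * Y) := by ring
      _ ≤ (1 + 50 * δ.ε) * Qx * δ.S1 x :=
          mul_le_mul_of_nonneg_left hx1.1 (mul_nonneg (by linarith) hQ0)
      _ = _ := by
          rw [hQx, mul_pow, pow_succ]
          ring

end Pool.Agent.H21.SH
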