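import Pool.Agent.H21.SH.Dt
import Pool.Agent.H21.MT.ParA

/-!
[H21 SH PA]  The hypotheses on the primes and on the profile for the data.

Proofs.  As `Pool/Agent/H21/MT/ParA.lean`.  `K = |I| ≥ 1`, `D ≥ 1000 K^2/ε^2 ≥ 10^7 K^2`, all `P k ≥ D`
(`psum`), `σ = ∑ 1/P k^2 ≤ 2/D ≤ ε^2/(500 K^2)`.
* (3) `∏ (1 + K/(P(P-1))) ≤ exp(2 K σ) ≤ exp(ε^2/250) ≤ 1 + ε`;
* (4) `K (1+1/P)^K/(P(P-1)) ≤ 4K/P^2` (`(1+1/P)^K ≤ exp(K/P) ≤ 2`), so the first factor is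
  `≤ exp(8 K σ)`; `(1+1/P)^{2K} - 1 ≤ 4K/P`, so `kap P (2K) ≤ exp(4 K σ)` and the power `4K` is
  `≤ exp(16 K^2 σ)`; together `≤ exp(24 K^2 σ) ≤ exp(24 ε^2/500) ≤ 1 + ε`.
* `par_diff2`: `diff_dvd` and `Pv_not_dvd`.
* `par_g2`: PROF; `z ≥ 1`; `(z i)^{2^l} = R0^{tau i 2^l} ≤ R0^{1/2}`; `R0 x = x^ε > 1` for `x > 1`.
* `par_P4`: members of `PSet W (Zx x)` are `≤ ⌊x^(1/4)⌋₊`.
-/

namespace Pool.Agent.H21.SH

open Finset Filter Pool.Agent.H21.MT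

variable {I : Type} [Fintype I] [DecidableEq I] [Nonempty I] (δ : Dt I)

theorem pa_prod_exp {ι : Type*} [Fintype ι] (P : ι → ℝ) (hP : ∀ k, 0 < P k) (f : ι → ℝ) (c : ℝ)
    (hf0 : ∀ k, 0 ≤ f k) (hf : ∀ k, f k ≤ c * (1 / P k ^ 2)) :
    ∏ k, (1 + f k) ≤ Real.exp (c * ∑ k, 1 / P k ^ 2) := by
  rw [Finset.mul_sum, Real.exp_sum]
  refine Finset.prod_le_prod (fun k _ => by have := hf0 k; linarith) (fun k _ => ?_)
  have h1 := Real.add_one_le_exp (c * (1 / P k ^ 2))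
  have h2 := hf k
  linarith

theorem pa_exp_le (t : ℝ) (h0 : 0 ≤ t) (h1 : t ≤ 1 / 2) : Real.exp t ≤ 1 + 2 * t := by
  have := Real.exp_bound_div_one_sub_of_interval (x := t) h0 (by linarith)
  refine this.trans ?_
  rw [div_le_iff₀ (by linarith)]
  nlinarith

theorem par_P2 (x : ℝ) : (∀ k, 2 * Fintype.card I + 1 ≤ δ.P x k) ∧
    ∑ k, 1 / (δ.P x k : ℝ) ^ 2 ≤ δ.ε ^ 2 / (10 * (Fintype.card I : ℝ) ^ 2) ∧
    ∏ k, (1 + (Fintype.card I : ℝ) / (δ.P x k * (δ.P x k - 1))) ≤ 1 + δ.ε ∧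
    (∏ k, (1 + (Fintype.card I : ℝ) * (1 + 1 / (δ.P x k : ℝ)) ^ Fintype.card I /
          (δ.P x k * (δ.P x k - 1)))) ^ 2 *
      kap (δ.P x) (2 * Fintype.card I) ^ (4 * Fintype.card I) ≤ 1 + δ.ε := by
  have hKpos : 0 < Fintype.card I := Fintype.card_pos
  have hDl := δ.D_large
  have hε := δ.eps_pos
  have hε1 := δ.eps_le
  obtain ⟨K, hK⟩ : ∃ K : ℕ, K = Fintype.card I := ⟨_, rfl⟩
  rw [← hK] at hKpos hDl ⊢
  have hK1 : (1 : ℝ) ≤ (K : ℝ) := by exact_mod_cast hKpos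
  have hK0 : (0 : ℝ) < (K : ℝ) := by linarith
  have hD7 : 10 ^ 7 * (K : ℝ) ^ 2 ≤ (δ.D : ℝ) := by
    refine le_trans ?_ hDl
    rw [le_div_iff₀ (by positivity)]
    have h1 : δ.ε ^ 2 ≤ 1 / 10 ^ 4 := by
      calc δ.ε ^ 2 ≤ (1 / 100) ^ 2 := pow_le_pow_left₀ hε.le hε1 2
        _ = 1 / 10 ^ 4 := by norm_num
    have h2 : 0 ≤ (K : ℝ) ^ 2 := by positivity
    nlinarith
  have hDR : 1000 * (K : ℝ) ^ 2 ≤ (δ.D : ℝ) := by nlinarith [sq_nonneg (K : ℝ)]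
  have hD0 : (0 : ℝ) < (δ.D : ℝ) := by nlinarith
  have hD2 : 2 ≤ δ.D := by
    have h1 : (2 : ℝ) ≤ δ.D := by nlinarith
    exact_mod_cast h1
  obtain ⟨hPD, hsum⟩ := psum δ.W δ.D hD2 δ.D_dvd (Zx x)
  change ∀ k, δ.D ≤ δ.P x k at hPD
  change ∑ k, 1 / (δ.P x k : ℝ) ^ 2 ≤ 2 / (δ.D : ℝ) at hsum
  have hPR : ∀ k, 1000 * (K : ℝ) ^ 2 ≤ (δ.P x k : ℝ) := by
    intro k
    have h1 : (δ.D : ℝ) ≤ (δ.P x k : ℝ) := by exact_mod_cast hPD k
    linarith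
  have hP1000 : ∀ k, (1000 : ℝ) ≤ (δ.P x k : ℝ) := by
    intro k
    have := hPR k
    nlinarith
  have hP0 : ∀ k, (0 : ℝ) < (δ.P x k : ℝ) := by
    intro k
    have := hP1000 k
    linarith
  obtain ⟨σ, hσ⟩ : ∃ σ : ℝ, σ = ∑ k, 1 / (δ.P x k : ℝ) ^ 2 := ⟨_, rfl⟩
  have hσb : σ ≤ δ.ε ^ 2 / (500 * (K : ℝ) ^ 2) := by
    rw [hσ]
    refine hsum.trans ?_
    rw [div_le_div_iff₀ hD0 (by positivity)]
    rw [div_le_iff₀ (by positivity)] at hDl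
    linarith
  have hKσ : (K : ℝ) ^ 2 * σ ≤ δ.ε ^ 2 / 500 := by
    calc (K : ℝ) ^ 2 * σ ≤ (K : ℝ) ^ 2 * (δ.ε ^ 2 / (500 * (K : ℝ) ^ 2)) :=
          mul_le_mul_of_nonneg_left hσb (by positivity)
      _ = δ.ε ^ 2 / 500 := by field_simp
  have hσ0 : 0 ≤ σ := by rw [hσ]; exact Finset.sum_nonneg fun k _ => by positivity
  have hKσ1 : (K : ℝ) * σ ≤ δ.ε ^ 2 / 500 := by
    refine le_trans ?_ hKσ
    exact mul_le_mul_of_nonneg_right (by nlinarith) hσ0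
  have hε2 : δ.ε ^ 2 ≤ δ.ε / 100 := by nlinarith
  rw [← hσ]
  refine ⟨?_, ?_, ?_, ?_⟩
  · intro k
    have h1 := hPR k
    have h2 : (2 * (K : ℝ) + 1) ≤ (δ.P x k : ℝ) := by nlinarith
    exact_mod_cast h2
  · refine hσb.trans ?_
    apply div_le_div_of_nonneg_left (by positivity) (by positivity)
    nlinarith [sq_nonneg (K : ℝ)]
  · have h1 := pa_prod_exp (fun k => (δ.P x k : ℝ)) hP0
      (fun k => (K : ℝ) / (δ.P x k * (δ.P x k - 1))) (2 * K) (fun k => by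
        have := hP1000 k
        have h2 : (0 : ℝ) < (δ.P x k : ℝ) - 1 := by linarith
        have h3 := hP0 k
        positivity) (fun k => by
        have hk := hP1000 k
        have h2 : (0 : ℝ) < (δ.P x k : ℝ) - 1 := by linarith
        have h3 := hP0 k
        rw [mul_one_div, div_le_div_iff₀ (by positivity) (by positivity)]
        nlinarith [mul_pos hK0 h3, mul_pos (mul_pos hK0 h3) h2])
    refine h1.trans ?_
    rw [← hσ]
    have h3 : 2 * (K : ℝ) * σ ≤ δ.ε ^ 2 / 250 := by linarith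
    refine (Real.exp_le_exp.2 h3).trans ((pa_exp_le _ (by positivity) (by nlinarith)).trans ?_)
    linarith
  · -- the first factor
    have hpw : ∀ k (n : ℕ), (n : ℝ) * (1 / (δ.P x k : ℝ)) ≤ 1 / 2 →
        (1 + 1 / (δ.P x k : ℝ)) ^ n ≤ 1 + 2 * (n * (1 / (δ.P x k : ℝ))) := by
      intro k n hn
      have h3 := hP0 k
      have h5 : 1 + 1 / (δ.P x k : ℝ) ≤ Real.exp (1 / (δ.P x k : ℝ)) := by
        have := Real.add_one_le_exp (1 / (δ.P x k : ℝ))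
        linarith
      calc (1 + 1 / (δ.P x k : ℝ)) ^ n ≤ (Real.exp (1 / (δ.P x k : ℝ))) ^ n :=
            pow_le_pow_left₀ (by positivity) h5 _
        _ = Real.exp (n * (1 / (δ.P x k : ℝ))) := by
            rw [← Real.exp_nat_mul]
        _ ≤ _ := pa_exp_le _ (by positivity) hn
    have hA := pa_prod_exp (fun k => (δ.P x k : ℝ)) hP0
      (fun k => (K : ℝ) * (1 + 1 / (δ.P x k : ℝ)) ^ K / (δ.P x k * (δ.P x k - 1))) (4 * K) (fun k => by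
        have := hP1000 k
        have h2 : (0 : ℝ) < (δ.P x k : ℝ) - 1 := by linarith
        have h3 := hP0 k
        positivity) (fun k => by
        have hk := hP1000 k
        have h2 : (0 : ℝ) < (δ.P x k : ℝ) - 1 := by linarith
        have h3 := hP0 k
        have h4 : (K : ℝ) * (1 / (δ.P x k : ℝ)) ≤ 1 / 8 := by
          rw [mul_one_div, div_le_div_iff₀ h3 (by norm_num)]
          have := hPR k
          nlinarith
        have h5 := hpw k K (by linarith)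
        have h6 : (1 + 1 / (δ.P x k : ℝ)) ^ K ≤ 5 / 4 := by linarith
        calc (K : ℝ) * (1 + 1 / (δ.P x k : ℝ)) ^ K / (δ.P x k * (δ.P x k - 1))
            ≤ (K : ℝ) * (5 / 4) / (δ.P x k * (δ.P x k - 1)) := by gcongr
          _ ≤ 4 * K * (1 / (δ.P x k : ℝ) ^ 2) := by
            rw [mul_one_div, div_le_div_iff₀ (by positivity) (by positivity)]
            nlinarith [mul_pos hK0 h3, mul_pos (mul_pos hK0 h3) h2])
    rw [← hσ] at hA
    have hA0 : 0 ≤ ∏ k, (1 + (K : ℝ) * (1 + 1 / (δ.P x k : ℝ)) ^ K / (δ.P x k * (δ.P x k - 1))) := by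
      refine Finset.prod_nonneg fun k _ => ?_
      have := hP1000 k
      have h2 : (0 : ℝ) < (δ.P x k : ℝ) - 1 := by linarith
      have h3 := hP0 k
      positivity
    have hx0 : ∀ k, 0 ≤ ((1 + 1 / (δ.P x k : ℝ)) ^ (2 * K) - 1) := by
      intro k
      have h3 := hP0 k
      have : (1 : ℝ) ≤ (1 + 1 / (δ.P x k : ℝ)) ^ (2 * K) := by
        apply one_le_pow₀
        have : 0 ≤ 1 / (δ.P x k : ℝ) := by positivity
        linarith
      linarith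
    have hB := pa_prod_exp (fun k => (δ.P x k : ℝ)) hP0
      (fun k => ((1 + 1 / (δ.P x k : ℝ)) ^ (2 * K) - 1) / (δ.P x k : ℝ)) (4 * K) (fun k =>
        div_nonneg (hx0 k) (hP0 k).le) (fun k => by
        have h3 := hP0 k
        have h4 : ((2 * K : ℕ) : ℝ) * (1 / (δ.P x k : ℝ)) ≤ 1 / 2 := by
          rw [mul_one_div, div_le_div_iff₀ h3 (by norm_num)]
          have := hPR k
          push_cast
          nlinarith
        have h5 := hpw k (2 * K) h4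
        push_cast at h5
        calc ((1 + 1 / (δ.P x k : ℝ)) ^ (2 * K) - 1) / (δ.P x k : ℝ)
            ≤ (2 * (2 * K * (1 / (δ.P x k : ℝ)))) / (δ.P x k : ℝ) :=
              div_le_div_of_nonneg_right (by linarith) h3.le
          _ = 4 * K * (1 / (δ.P x k : ℝ) ^ 2) := by
              field_simp
              ring)
    rw [← hσ] at hB
    have hkap : kap (δ.P x) (2 * K) ≤ Real.exp (4 * K * σ) := hB
    have hk0 : 0 ≤ kap (δ.P x) (2 * K) := by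
      unfold kap
      apply Finset.prod_nonneg
      intro k _
      have h1 := hx0 k
      have h2 := hP0 k
      positivity
    calc (∏ k, (1 + (K : ℝ) * (1 + 1 / (δ.P x k : ℝ)) ^ K /
          (δ.P x k * (δ.P x k - 1)))) ^ 2 * kap (δ.P x) (2 * K) ^ (4 * K)
        ≤ Real.exp (4 * K * σ) ^ 2 * Real.exp (4 * K * σ) ^ (4 * K) :=
          mul_le_mul (pow_le_pow_left₀ hA0 hA 2) (pow_le_pow_left₀ hk0 hkap _)
            (pow_nonneg hk0 _) (by positivity)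
      _ = Real.exp (8 * K * σ + 16 * K ^ 2 * σ) := by
          rw [← Real.exp_nat_mul, ← Real.exp_nat_mul, ← Real.exp_add]
          congr 1
          push_cast
          ring
      _ ≤ Real.exp (δ.ε ^ 2 / 20) := by
          apply Real.exp_le_exp.2
          nlinarith
      _ ≤ 1 + 2 * (δ.ε ^ 2 / 20) := pa_exp_le _ (by positivity) (by nlinarith)
      _ ≤ 1 + δ.ε := by linarith

theorem par_P4 (x : ℝ) (hx : 1 ≤ x) (k : PIdx δ.W (Zx x)) : (δ.P x k : ℝ) ≤ x ^ (1 / 4 : ℝ) := by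
  have h1 := (Finset.mem_Icc.mp (Finset.mem_filter.mp k.2).1).2
  have h2 : ((k.1 : ℕ) : ℝ) ≤ (⌊Zx x⌋₊ : ℝ) := by exact_mod_cast h1
  exact h2.trans (Nat.floor_le (Real.rpow_nonneg (by linarith) _))

theorem par_diff2 (x : ℝ) : ∀ k i j, i ≠ j → ¬ (δ.P x k : ℤ) ∣ (δ.h i : ℤ) - δ.h j := by
  intro k i j hij hd
  exact Pv_not_dvd δ.W (Zx x) k
    (δ.diff_dvd i j hij (δ.P x k) (Pv_prime δ.W (Zx x) k) hd)

theorem par_g2 : ∀ᶠ x : ℝ in atTop, 1 < δ.R0 x ∧ (∀ i b, 0 ≤ δ.g x i b) ∧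
    (∀ i b, δ.g x i b ≤ 1) ∧ (∀ i, Antitone (δ.g x i)) ∧ (∀ i, δ.g x i 1 = 1) ∧
    (∀ i b, δ.g x i b ≠ 0 → (b : ℝ) ^ 2 ≤ δ.R0 x) := by
  filter_upwards [eventually_gt_atTop (1 : ℝ)] with x hx
  have hR : 1 < δ.R0 x := by
    unfold Dt.R0
    exact Real.one_lt_rpow hx δ.eps_pos
  have hz : ∀ i, 1 ≤ δ.z x i := by
    intro i
    unfold Dt.z
    exact Real.one_le_rpow hR.le (δ.tau_pos i).le
  refine ⟨hR, fun i b => prof_nonneg _ _ _, fun i b => prof_le_one _ _ _,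
    fun i => prof_antitone _ _, fun i => prof_one _ (hz i) _, ?_⟩
  intro i b hb
  have h1 : (b : ℝ) ≤ (δ.z x i) ^ (2 ^ δ.l i) := prof_ne _ (hz i) _ _ hb
  have h2 : (δ.z x i) ^ (2 ^ δ.l i) = (δ.R0 x) ^ (δ.tau i * (2 : ℝ) ^ δ.l i) := by
    unfold Dt.z
    rw [← Real.rpow_natCast, ← Real.rpow_mul (by linarith)]
    congr 1
    push_cast
    ring
  have h3 : (δ.z x i) ^ (2 ^ δ.l i) ≤ (δ.R0 x) ^ (1 / 2 : ℝ) := by
    rw [h2]
    apply Real.rpow_le_rpow_of_exponent_le hR.le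
    have := δ.l_tau i
    linarith
  have h4 : (b : ℝ) ≤ (δ.R0 x) ^ (1 / 2 : ℝ) := h1.trans h3
  calc (b : ℝ) ^ 2 ≤ ((δ.R0 x) ^ (1 / 2 : ℝ)) ^ 2 := pow_le_pow_left₀ (Nat.cast_nonneg _) h4 2
    _ = δ.R0 x := by
      rw [← Real.rpow_natCast, ← Real.rpow_mul (by linarith)]
      norm_num

end Pool.Agent.H21.SH
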