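import Pool.Agent.H21.MT.Hsum

/-!
[H21 SH HS]  The harmonic sum over squarefree numbers coprime to `W`, sharp constant.

Proof.  As `hsum` in `Pool/Agent/H21/MT/Hsum.lean` (all lemmas there can be used): `hs_HH`, `hs_sum`,
`hs_lower` give `V log y - (W+1) ≤ HH (1 + 2/D)`, and `1/(1+2/D) ≥ 1 - 2/D`; if
`V log y - C < 0` the lower bound is trivial (`HH ≥ 0`, `1 - 2/D ≥ 0`).  Upper bound: drop squarefree.
-/

namespace Pool.Agent.H21.SH

open Finset Pool.Agent.H21.MT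

theorem hsum2 (W D : ℕ) (hW : 0 < W) (hD : 2 ≤ D) (hDW : ∀ p : ℕ, p.Prime → p < D → p ∣ W) :
    ∃ C : ℝ, 0 < C ∧ ∀ R y : ℝ, 1 ≤ y → y ≤ R →
      (1 - 2 / (D : ℝ)) * ((W.totient : ℝ) / W * Real.log y - C) ≤ HH (Pv W R) y ∧
      HH (Pv W R) y ≤ (W.totient : ℝ) / W * Real.log y + C := by
  refine ⟨W + 1, by positivity, fun R y hy hyR => ?_⟩
  have h1 := hs_sum W hW y hy
  have h2 := hs_HH W R y hy hyR
  have h3 := hs_lower W D ⌊y⌋₊ hD hDW
  rw [← h2] at h3
  have hsub : HH (Pv W R) y ≤ ∑ n ∈ hsA W ⌊y⌋₊, (1 : ℝ) / n := by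
    rw [h2]
    exact Finset.sum_le_sum_of_subset_of_nonneg (Finset.filter_subset _ _)
      (fun _ _ _ => by positivity)
  have hH0 : 0 ≤ HH (Pv W R) y := by
    unfold HH
    exact Finset.sum_nonneg fun _ _ => by positivity
  have hD' : (2 : ℝ) ≤ D := by exact_mod_cast hD
  have hD0 : (0 : ℝ) < D := by linarith
  have ht0 : 0 ≤ 2 / (D : ℝ) := by positivity
  have ht1 : 2 / (D : ℝ) ≤ 1 := by rw [div_le_one hD0]; exact hD'
  set t : ℝ := 2 / (D : ℝ) with ht
  rw [abs_le] at h1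
  constructor
  · have h5 := h1.1
    have h6 : (W.totient : ℝ) / W * Real.log y - (W + 1) ≤ HH (Pv W R) y * (1 + t) := by
      linarith
    calc (1 - t) * ((W.totient : ℝ) / W * Real.log y - (W + 1))
        ≤ (1 - t) * (HH (Pv W R) y * (1 + t)) :=
          mul_le_mul_of_nonneg_left h6 (by linarith)
      _ = HH (Pv W R) y - t ^ 2 * HH (Pv W R) y := by ring
      _ ≤ HH (Pv W R) y := by
          have : 0 ≤ t ^ 2 * HH (Pv W R) y := by positivity
          linarith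
  · have h5 := h1.2
    linarith

end Pool.Agent.H21.SH
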