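import Pool.Agent.H21.MT.Prof
import Pool.Agent.H21.SH.Dt

/-!
[H21 SH PF]  The step profile and its three sums, sharp constants.

Proof.  As `prof_est` in `Pool/Agent/H21/MT/Prof.lean` (all lemmas there can be used).  With
`w_j = 2^{-j-1}` (`j < l`), `w_l = 2^{-l}`: `SS P (prof z l) = ∑ w_j HH(z^{2^j})`, `∑ w_j = 1` (`geo_sum`),
`∑ w_j 2^j = l/2 + 1` (`sum_A`); with `w'_j = (3/4) 4^{-j}`, `w'_l = 4^{-l}`:
`SS P (prof^2) = ∑ w'_j HH(z^{2^j})` (`prof_sq`), `∑ w'_j = 1`, `∑ w'_j 2^j = bl l` (`sum_B`),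
`∑ w'_j 4^j = 3l/4 + 1` (`sum_C`), and
`SS P (prof^2 log) ≤ ∑ w'_j 2^j log z HH(z^{2^j})` (each `b` in the sum is `≤ z^{2^j}`).
Insert the bounds of `HH`, all arguments are in `[1, R]`, `log z^{2^j} = 2^j log z`.
Lower bounds: `(1-e) (V log z (l/2+1) - C) ≥ (1-e) V log z (l/2 + 1 - e) ≥ (1-e)^2 (l/2+1) V log z` as
`e ≤ e (l/2+1)`; the same with `bl l ≥ 1`.  Upper bounds: `V log z (l/2+1) + C ≤ (1+e)(l/2+1) V log z`, etc.,
`(3l/4 + 1) V log z + C ≤ (1+e)(l+1) V log z` (`∑ w'_j 2^j C ≤ C * (3/2) `: use `∑ w'_j 2^j ≤ 3/2` for the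
term with `C log z`, so the third upper bound is
`log z ((3l/4+1) V log z + (3/2) C) ≤ (1 + 2e)(l+1) V (log z)^2`).
-/

namespace Pool.Agent.H21.SH

open Finset Pool.Agent.H21.MT

variable {ι : Type} [Fintype ι] [DecidableEq ι]

theorem one_le_bl (l : ℕ) : 1 ≤ bl l ∧ bl l ≤ 3 / 2 := by
  unfold bl
  have h1 : (1 / 2 : ℝ) ^ (l + 1) ≤ (1 / 2 : ℝ) ^ 1 :=
    pow_le_pow_of_le_one (by norm_num) (by norm_num) (by omega)
  have h2 : (0 : ℝ) ≤ (1 / 2 : ℝ) ^ (l + 1) := by positivity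
  constructor <;> linarith

theorem prof_est2 (P : ι → ℕ) (hP : ∀ k, 0 < P k) (V C R z e : ℝ) (l : ℕ) (hV : 0 < V) (hC : 0 ≤ C)
    (he : 0 < e) (he1 : e ≤ 1) (hz : 1 ≤ z) (hzR : z ^ (2 ^ l) ≤ R)
    (hH : ∀ y, 1 ≤ y → y ≤ R → (1 - e) * (V * Real.log y - C) ≤ HH P y ∧
      HH P y ≤ V * Real.log y + C)
    (hbig : C ≤ e * (V * Real.log z)) :
    (1 - e) ^ 2 * ((l + 2) / 2) * (V * Real.log z) ≤ SS P (prof z l) ∧
    SS P (prof z l) ≤ (1 + e) * ((l + 2) / 2) * (V * Real.log z) ∧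
    (1 - e) ^ 2 * bl l * (V * Real.log z) ≤ SS P (fun b => prof z l b ^ 2) ∧
    SS P (fun b => prof z l b ^ 2) ≤ (1 + e) * bl l * (V * Real.log z) ∧
    SS P (fun b => prof z l b ^ 2 * Real.log b) ≤
      (1 + 2 * e) * (l + 1) * (V * Real.log z) * Real.log z := by
  set L := V * Real.log z with hL
  have hlogz : 0 ≤ Real.log z := Real.log_nonneg hz
  have hL0 : 0 ≤ L := mul_nonneg hV.le hlogz
  have hCL : C ≤ e * L := hbig
  have hbl := one_le_bl l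
  have he0 : 0 ≤ 1 - e := by linarith
  have hpow1 : ∀ j : ℕ, 1 ≤ z ^ (2 ^ j) := fun j => one_le_pow₀ hz
  have hpowR : ∀ j : ℕ, j ≤ l → z ^ (2 ^ j) ≤ R := fun j hj =>
    (pow_le_pow_right₀ hz (Nat.pow_le_pow_right (by norm_num) hj)).trans hzR
  have hlogp : ∀ j : ℕ, Real.log (z ^ (2 ^ j)) = 2 ^ j * Real.log z := by
    intro j
    rw [Real.log_pow]
    push_cast
    ring
  have hHj : ∀ j : ℕ, j ≤ l → (1 - e) * (2 ^ j * L - C) ≤ HH P (z ^ (2 ^ j)) ∧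
      HH P (z ^ (2 ^ j)) ≤ 2 ^ j * L + C := by
    intro j hj
    have h := hH _ (hpow1 j) (hpowR j hj)
    rw [hlogp j] at h
    have e0 : V * (2 ^ j * Real.log z) = 2 ^ j * L := by rw [hL]; ring
    rw [e0] at h
    exact h
  have hA : SS P (prof z l) = (∑ j ∈ range l, (1 / 2 : ℝ) ^ (j + 1) * HH P (z ^ (2 ^ j))) +
      (1 / 2 : ℝ) ^ l * HH P (z ^ (2 ^ l)) := by
    have : prof z l = fun b => (∑ j ∈ range l,
        (fun (j : ℕ) (b : ℕ) => if (b : ℝ) ≤ z ^ (2 ^ j) then (1 / 2 : ℝ) ^ (j + 1) else 0) j b) +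
        (fun (b : ℕ) => if (b : ℝ) ≤ z ^ (2 ^ l) then (1 / 2 : ℝ) ^ l else 0) b := by
      funext b
      rfl
    rw [this, SS_add, SS_sum, SS_ind]
    congr 1
    apply Finset.sum_congr rfl
    intro j _
    exact SS_ind P _ _
  have hB : SS P (fun b => prof z l b ^ 2) =
      (∑ j ∈ range l, ((3 / 4 : ℝ) * (1 / 4 : ℝ) ^ j) * HH P (z ^ (2 ^ j))) +
      (1 / 4 : ℝ) ^ l * HH P (z ^ (2 ^ l)) := by
    have : (fun b => prof z l b ^ 2) = fun b => (∑ j ∈ range l,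
        (fun (j : ℕ) (b : ℕ) => if (b : ℝ) ≤ z ^ (2 ^ j) then (3 / 4 : ℝ) * (1 / 4 : ℝ) ^ j else 0) j b)
        + (fun (b : ℕ) => if (b : ℝ) ≤ z ^ (2 ^ l) then (1 / 4 : ℝ) ^ l else 0) b := by
      funext b
      rw [prof_sq z hz]
      rfl
    rw [this, SS_add, SS_sum, SS_ind]
    congr 1
    apply Finset.sum_congr rfl
    intro j _
    exact SS_ind P _ _
  refine ⟨?_, ?_, ?_, ?_, ?_⟩
  · rw [hA]
    have h1 : (∑ j ∈ range l, (1 / 2 : ℝ) ^ (j + 1) * ((1 - e) * (2 ^ j * L - C))) +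
        (1 / 2 : ℝ) ^ l * ((1 - e) * (2 ^ l * L - C)) ≤
        (∑ j ∈ range l, (1 / 2 : ℝ) ^ (j + 1) * HH P (z ^ (2 ^ j))) +
        (1 / 2 : ℝ) ^ l * HH P (z ^ (2 ^ l)) := by
      apply add_le_add
      · apply Finset.sum_le_sum
        intro j hj
        exact mul_le_mul_of_nonneg_left (hHj j (Finset.mem_range.mp hj).le).1 (by positivity)
      · exact mul_le_mul_of_nonneg_left (hHj l le_rfl).1 (by positivity)
    refine le_trans ?_ h1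
    have h2 : (∑ j ∈ range l, (1 / 2 : ℝ) ^ (j + 1) * ((1 - e) * (2 ^ j * L - C))) +
        (1 / 2 : ℝ) ^ l * ((1 - e) * (2 ^ l * L - C)) =
        (1 - e) * L * ((∑ j ∈ range l, (1 / 2 : ℝ) ^ (j + 1) * 2 ^ j) + (1 / 2 : ℝ) ^ l * 2 ^ l) -
        (1 - e) * C * ((∑ j ∈ range l, (1 / 2 : ℝ) ^ (j + 1)) + (1 / 2 : ℝ) ^ l) := by
      rw [lin2 (range l) (fun j => (1 / 2 : ℝ) ^ (j + 1) * 2 ^ j) (fun j => (1 / 2 : ℝ) ^ (j + 1))
        _ ((1 / 2 : ℝ) ^ l * 2 ^ l) ((1 / 2 : ℝ) ^ l) _ ((1 - e) * L) (-((1 - e) * C))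
        (fun j => by ring) (by ring)]
      ring
    rw [h2, sum_A, geo_sum]
    have hl0 : (0 : ℝ) ≤ l := Nat.cast_nonneg l
    have h3 : e * L ≤ e * (((l : ℝ) + 2) / 2 * L) := by
      apply mul_le_mul_of_nonneg_left _ he.le
      nlinarith [mul_nonneg hl0 hL0]
    have h4 : (1 - e) * C ≤ (1 - e) * (e * (((l : ℝ) + 2) / 2 * L)) :=
      mul_le_mul_of_nonneg_left (hCL.trans h3) he0
    nlinarith [h4]
  · rw [hA]
    have h1 : (∑ j ∈ range l, (1 / 2 : ℝ) ^ (j + 1) * HH P (z ^ (2 ^ j))) +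
        (1 / 2 : ℝ) ^ l * HH P (z ^ (2 ^ l)) ≤
        (∑ j ∈ range l, (1 / 2 : ℝ) ^ (j + 1) * (2 ^ j * L + C)) +
        (1 / 2 : ℝ) ^ l * (2 ^ l * L + C) := by
      apply add_le_add
      · apply Finset.sum_le_sum
        intro j hj
        exact mul_le_mul_of_nonneg_left (hHj j (Finset.mem_range.mp hj).le).2 (by positivity)
      · exact mul_le_mul_of_nonneg_left (hHj l le_rfl).2 (by positivity)
    refine le_trans h1 ?_
    have h2 : (∑ j ∈ range l, (1 / 2 : ℝ) ^ (j + 1) * (2 ^ j * L + C)) +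
        (1 / 2 : ℝ) ^ l * (2 ^ l * L + C) =
        L * ((∑ j ∈ range l, (1 / 2 : ℝ) ^ (j + 1) * 2 ^ j) + (1 / 2 : ℝ) ^ l * 2 ^ l) +
        C * ((∑ j ∈ range l, (1 / 2 : ℝ) ^ (j + 1)) + (1 / 2 : ℝ) ^ l) := by
      exact lin2 (range l) (fun j => (1 / 2 : ℝ) ^ (j + 1) * 2 ^ j) (fun j => (1 / 2 : ℝ) ^ (j + 1))
        _ ((1 / 2 : ℝ) ^ l * 2 ^ l) ((1 / 2 : ℝ) ^ l) _ L C
        (fun j => by ring) (by ring)
    rw [h2, sum_A, geo_sum]
    have hl0 : (0 : ℝ) ≤ l := Nat.cast_nonneg l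
    have h3 : e * L ≤ e * (((l : ℝ) + 2) / 2 * L) := by
      apply mul_le_mul_of_nonneg_left _ he.le
      nlinarith [mul_nonneg hl0 hL0]
    nlinarith [hCL.trans h3]
  · rw [hB]
    have h1 : (∑ j ∈ range l, ((3 / 4 : ℝ) * (1 / 4 : ℝ) ^ j) * ((1 - e) * (2 ^ j * L - C))) +
        (1 / 4 : ℝ) ^ l * ((1 - e) * (2 ^ l * L - C)) ≤
        (∑ j ∈ range l, ((3 / 4 : ℝ) * (1 / 4 : ℝ) ^ j) * HH P (z ^ (2 ^ j))) +
        (1 / 4 : ℝ) ^ l * HH P (z ^ (2 ^ l)) := by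
      apply add_le_add
      · apply Finset.sum_le_sum
        intro j hj
        exact mul_le_mul_of_nonneg_left (hHj j (Finset.mem_range.mp hj).le).1 (by positivity)
      · exact mul_le_mul_of_nonneg_left (hHj l le_rfl).1 (by positivity)
    refine le_trans ?_ h1
    have h2 : (∑ j ∈ range l, ((3 / 4 : ℝ) * (1 / 4 : ℝ) ^ j) * ((1 - e) * (2 ^ j * L - C))) +
        (1 / 4 : ℝ) ^ l * ((1 - e) * (2 ^ l * L - C)) =
        ((1 - e) * L) * ((∑ j ∈ range l, (3 / 4 : ℝ) * (1 / 4 : ℝ) ^ j * 2 ^ j) +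
          (1 / 4 : ℝ) ^ l * 2 ^ l) +
        (-((1 - e) * C)) * ((∑ j ∈ range l, (3 / 4 : ℝ) * (1 / 4 : ℝ) ^ j) + (1 / 4 : ℝ) ^ l) := by
      exact lin2 (range l) (fun j => (3 / 4 : ℝ) * (1 / 4 : ℝ) ^ j * 2 ^ j)
        (fun j => (3 / 4 : ℝ) * (1 / 4 : ℝ) ^ j)
        _ ((1 / 4 : ℝ) ^ l * 2 ^ l) ((1 / 4 : ℝ) ^ l) _ _ _
        (fun j => by ring) (by ring)
    rw [h2, sum_B, sum_w']
    have e5 : bl l = 3 / 2 - (1 / 2) * (1 / 2 : ℝ) ^ l := by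
      unfold bl
      rw [pow_succ]
      ring
    rw [← e5]
    have h3 : e * L ≤ e * (bl l * L) := by
      apply mul_le_mul_of_nonneg_left _ he.le
      nlinarith [hbl.1]
    have h4 : (1 - e) * C ≤ (1 - e) * (e * (bl l * L)) :=
      mul_le_mul_of_nonneg_left (hCL.trans h3) he0
    nlinarith [h4]
  · rw [hB]
    have h1 : (∑ j ∈ range l, ((3 / 4 : ℝ) * (1 / 4 : ℝ) ^ j) * HH P (z ^ (2 ^ j))) +
        (1 / 4 : ℝ) ^ l * HH P (z ^ (2 ^ l)) ≤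
        (∑ j ∈ range l, ((3 / 4 : ℝ) * (1 / 4 : ℝ) ^ j) * (2 ^ j * L + C)) +
        (1 / 4 : ℝ) ^ l * (2 ^ l * L + C) := by
      apply add_le_add
      · apply Finset.sum_le_sum
        intro j hj
        exact mul_le_mul_of_nonneg_left (hHj j (Finset.mem_range.mp hj).le).2 (by positivity)
      · exact mul_le_mul_of_nonneg_left (hHj l le_rfl).2 (by positivity)
    refine le_trans h1 ?_
    have h2 : (∑ j ∈ range l, ((3 / 4 : ℝ) * (1 / 4 : ℝ) ^ j) * (2 ^ j * L + C)) +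
        (1 / 4 : ℝ) ^ l * (2 ^ l * L + C) =
        L * ((∑ j ∈ range l, (3 / 4 : ℝ) * (1 / 4 : ℝ) ^ j * 2 ^ j) + (1 / 4 : ℝ) ^ l * 2 ^ l) +
        C * ((∑ j ∈ range l, (3 / 4 : ℝ) * (1 / 4 : ℝ) ^ j) + (1 / 4 : ℝ) ^ l) := by
      exact lin2 (range l) (fun j => (3 / 4 : ℝ) * (1 / 4 : ℝ) ^ j * 2 ^ j)
        (fun j => (3 / 4 : ℝ) * (1 / 4 : ℝ) ^ j)
        _ ((1 / 4 : ℝ) ^ l * 2 ^ l) ((1 / 4 : ℝ) ^ l) _ L C
        (fun j => by ring) (by ring)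
    rw [h2, sum_B, sum_w']
    have e5 : bl l = 3 / 2 - (1 / 2) * (1 / 2 : ℝ) ^ l := by
      unfold bl
      rw [pow_succ]
      ring
    rw [← e5]
    have h3 : e * L ≤ e * (bl l * L) := by
      apply mul_le_mul_of_nonneg_left _ he.le
      nlinarith [hbl.1]
    nlinarith [hCL.trans h3]
  · have h0 : SS P (fun b => prof z l b ^ 2 * Real.log b) ≤
        (∑ j ∈ range l, ((3 / 4 : ℝ) * (1 / 4 : ℝ) ^ j * (2 ^ j * Real.log z)) * HH P (z ^ (2 ^ j))) +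
        ((1 / 4 : ℝ) ^ l * (2 ^ l * Real.log z)) * HH P (z ^ (2 ^ l)) := by
      have e7 : (∑ j ∈ range l, ((3 / 4 : ℝ) * (1 / 4 : ℝ) ^ j * (2 ^ j * Real.log z)) *
          HH P (z ^ (2 ^ j))) + ((1 / 4 : ℝ) ^ l * (2 ^ l * Real.log z)) * HH P (z ^ (2 ^ l)) =
          SS P (fun b => (∑ j ∈ range l, (fun (j : ℕ) (b : ℕ) => if (b : ℝ) ≤ z ^ (2 ^ j) then
            ((3 / 4 : ℝ) * (1 / 4 : ℝ) ^ j * (2 ^ j * Real.log z)) else 0) j b) +
            (fun (b : ℕ) => if (b : ℝ) ≤ z ^ (2 ^ l) then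
              ((1 / 4 : ℝ) ^ l * (2 ^ l * Real.log z)) else 0) b) := by
        rw [SS_add, SS_sum, SS_ind]
        congr 1
        apply Finset.sum_congr rfl
        intro j _
        exact (SS_ind P _ _).symm
      rw [e7]
      apply SS_mono
      intro T
      dsimp only
      rw [prof_sq z hz]
      unfold prof2
      have hn : (1 : ℝ) ≤ (nrm P T : ℝ) := by exact_mod_cast nrm_pos hP T
      rw [add_mul, Finset.sum_mul]
      have key : ∀ (j : ℕ) (w : ℝ), 0 ≤ w →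
          (if (nrm P T : ℝ) ≤ z ^ (2 ^ j) then w else 0) * Real.log (nrm P T) ≤
          (if (nrm P T : ℝ) ≤ z ^ (2 ^ j) then w * (2 ^ j * Real.log z) else 0) := by
        intro j w hw
        split_ifs with hj
        · apply mul_le_mul_of_nonneg_left _ hw
          rw [← hlogp j]
          exact Real.log_le_log (by linarith) hj
        · simp
      apply add_le_add
      · apply Finset.sum_le_sum
        intro j _
        exact key j _ (by positivity)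
      · exact key l _ (by positivity)
    refine h0.trans ?_
    have h1 : (∑ j ∈ range l, ((3 / 4 : ℝ) * (1 / 4 : ℝ) ^ j * (2 ^ j * Real.log z)) *
          HH P (z ^ (2 ^ j))) + ((1 / 4 : ℝ) ^ l * (2 ^ l * Real.log z)) * HH P (z ^ (2 ^ l)) ≤
        (∑ j ∈ range l, ((3 / 4 : ℝ) * (1 / 4 : ℝ) ^ j * (2 ^ j * Real.log z)) * (2 ^ j * L + C)) +
        ((1 / 4 : ℝ) ^ l * (2 ^ l * Real.log z)) * (2 ^ l * L + C) := by
      apply add_le_add
      · apply Finset.sum_le_sum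
        intro j hj
        exact mul_le_mul_of_nonneg_left (hHj j (Finset.mem_range.mp hj).le).2 (by positivity)
      · exact mul_le_mul_of_nonneg_left (hHj l le_rfl).2 (by positivity)
    refine le_trans h1 ?_
    have h2 : (∑ j ∈ range l, ((3 / 4 : ℝ) * (1 / 4 : ℝ) ^ j * (2 ^ j * Real.log z)) *
        (2 ^ j * L + C)) + ((1 / 4 : ℝ) ^ l * (2 ^ l * Real.log z)) * (2 ^ l * L + C) =
        L * Real.log z * ((∑ j ∈ range l, (3 / 4 : ℝ) * (1 / 4 : ℝ) ^ j * 4 ^ j) +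
          (1 / 4 : ℝ) ^ l * 4 ^ l) +
        C * Real.log z * ((∑ j ∈ range l, (3 / 4 : ℝ) * (1 / 4 : ℝ) ^ j * 2 ^ j) +
          (1 / 4 : ℝ) ^ l * 2 ^ l) := by
      have e4 : ∀ j : ℕ, (4 : ℝ) ^ j = 2 ^ j * 2 ^ j := by
        intro j
        rw [← mul_pow]; norm_num
      exact lin2 (range l) (fun j => (3 / 4 : ℝ) * (1 / 4 : ℝ) ^ j * 4 ^ j)
        (fun j => (3 / 4 : ℝ) * (1 / 4 : ℝ) ^ j * 2 ^ j)
        _ ((1 / 4 : ℝ) ^ l * 4 ^ l) ((1 / 4 : ℝ) ^ l * 2 ^ l) _ (L * Real.log z) (C * Real.log z)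
        (fun j => by rw [e4 j]; ring) (by rw [e4 l]; ring)
    rw [h2, sum_C, sum_B]
    have e5 : bl l = 3 / 2 - (1 / 2) * (1 / 2 : ℝ) ^ l := by
      unfold bl
      rw [pow_succ]
      ring
    rw [← e5]
    have hl0 : (0 : ℝ) ≤ l := Nat.cast_nonneg l
    have hLz : 0 ≤ L * Real.log z := mul_nonneg hL0 hlogz
    have hCz : C * Real.log z ≤ e * (L * Real.log z) := by
      have := mul_le_mul_of_nonneg_right hCL hlogz
      linarith
    have hCz0 : 0 ≤ C * Real.log z := mul_nonneg hC hlogz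
    have h8 : C * Real.log z * bl l ≤ e * (L * Real.log z) * (3 / 2) :=
      mul_le_mul hCz hbl.2 (by linarith [hbl.1]) (mul_nonneg he.le hLz)
    have h9 : 0 ≤ e * (L * Real.log z) := mul_nonneg he.le hLz
    nlinarith [mul_nonneg hl0 hLz, mul_nonneg hl0 h9]

end Pool.Agent.H21.SH
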