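import Pool.Agent.H21.SH.Dt
import Pool.Agent.H21.SH.Hs
import Pool.Agent.H21.SH.Pf
import Pool.Agent.H21.MT.ParB

/-!
[H21 SH PB]  The sums of the profile for the data, for large `x`, sharp constants.

Proofs.  As `Pool/Agent/H21/MT/ParB.lean`.  `e = ε/2`, `2/D ≤ e` (`D ≥ 10^7/ε^2 ...`), constants `C` from
`hsum2 δ.W δ.D`, `R = Zx x = x^(1/4)`; `z i = R0^{tau i}`, `log (z i) = tau i log R0`,
`log R0 = ε log x`, `(z i)^{2^l} ≤ R0^{1/2} ≤ x^(1/4)`; for large `x` `C ≤ e V log z i`.  Put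
`Y i = V tau i ε log x`.
* `par_est2`: `prof_est2`, `(1-e)^2 ≥ 1-ε`, `1 + 2e = 1+ε`.
* `par_C2`: `C_i/B_i ≤ (1+ε)(l_i+1) tau_i log R0/((1-ε) bl) ≤ 1.1 (l_i+1) tau_i log R0`; sum `≤ 2 ε log R0`.
* `par_AB2`: `A, B ≥ 1` (the term `T = ∅`, `g 1 = 1`), `A ≤ HH(Zx x) ≤ 1 + log x`;
  `A^2/B ∈ [(1-ε)^2/(1+ε), (1+ε)^2/(1-ε)] * ((l+2)^2/(4 bl)) Y`, `((l+2)^2/(4 bl)) Y = ps * V log x`, and
  `(1-ε)^2/(1+ε) ≥ 1 - 4ε`, `(1+ε)^2/(1-ε) ≤ 1 + 4ε`.
* `par_H2`: `y = yy x s`, `1 ≤ y ≤ x^(1/4)`, `log y = (1/4 - 2ε) log x/max(1,s)`;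
  `HH ≥ (1-2/D)(V log y - C) ≥ (1-ε)(1-8ε) V log x/(4s) - C ≥ (1-10ε) V log x/(4s)` for large `x`, `s ≥ 1`;
  `HH y ≥ 1` (`T = ∅`), `HH y ≤ ∑_{n ≤ y} 1/n ≤ 1 + log x`.
-/

set_option linter.unusedSectionVars false

namespace Pool.Agent.H21.SH

open Finset Filter Pool.Agent.H21.MT

variable {I : Type} [Fintype I] [DecidableEq I] [Nonempty I] (δ : Dt I)

theorem V_pos2 : 0 < δ.V ∧ δ.V ≤ 1 := by
  unfold Dt.V
  have h1 : 0 < δ.W.totient := Nat.totient_pos.mpr δ.W_pos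
  have h2 : (0 : ℝ) < δ.W := by exact_mod_cast δ.W_pos
  refine ⟨by positivity, ?_⟩
  rw [div_le_one h2]
  exact_mod_cast Nat.totient_le δ.W

theorem pb_card : (1 : ℝ) ≤ Fintype.card I := by
  exact_mod_cast (Fintype.card_pos (α := I))

theorem pb_D : (2 : ℝ) ≤ δ.D ∧ 2 / (δ.D : ℝ) ≤ δ.ε / 2 := by
  have h1 := δ.D_large
  have h2 := δ.eps_pos
  have h3 := δ.eps_le
  have h4 := pb_card (I := I)
  have h5 : 1000 / δ.ε ^ 2 ≤ 1000 * (Fintype.card I : ℝ) ^ 2 / δ.ε ^ 2 := by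
    have : (1 : ℝ) ≤ (Fintype.card I : ℝ) ^ 2 := one_le_pow₀ h4
    gcongr
    linarith
  have h6 : 1000 / δ.ε ^ 2 ≤ δ.D := h5.trans h1
  have h7 : 4 / δ.ε ≤ 1000 / δ.ε ^ 2 := by
    rw [div_le_div_iff₀ h2 (by positivity)]
    nlinarith
  have h8 : 4 / δ.ε ≤ δ.D := h7.trans h6
  have h9 : 2 ≤ 4 / δ.ε := by
    rw [le_div_iff₀ h2]
    linarith
  refine ⟨h9.trans h8, ?_⟩
  have h10 : (0 : ℝ) < δ.D := by linarith
  rw [div_le_iff₀ h2] at h8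
  rw [div_le_div_iff₀ h10 (by norm_num)]
  linarith

theorem pb_HH_nonneg (x y : ℝ) : 0 ≤ HH (δ.P x) y := by
  unfold HH
  exact Finset.sum_nonneg fun _ _ => by positivity

theorem pb_hs : ∃ C : ℝ, 0 < C ∧ ∀ x y : ℝ, 1 ≤ y → y ≤ Zx x →
    (1 - δ.ε / 2) * (δ.V * Real.log y - C) ≤ HH (δ.P x) y ∧
      HH (δ.P x) y ≤ δ.V * Real.log y + C := by
  obtain ⟨hD1, hD2⟩ := pb_D δ
  obtain ⟨C, hC0, hC⟩ := hsum2 δ.W δ.D δ.W_pos (by exact_mod_cast hD1) δ.D_dvd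
  refine ⟨C, hC0, fun x y hy hyx => ?_⟩
  obtain ⟨h1, h2⟩ := hC (Zx x) y hy hyx
  have h1' : (1 - 2 / (δ.D : ℝ)) * (δ.V * Real.log y - C) ≤ HH (δ.P x) y := h1
  have h2' : HH (δ.P x) y ≤ δ.V * Real.log y + C := h2
  refine ⟨?_, h2'⟩
  have h3 := δ.eps_le
  rcases le_or_gt 0 (δ.V * Real.log y - C) with h | h
  · refine le_trans ?_ h1'
    exact mul_le_mul_of_nonneg_right (by linarith) h
  · refine le_trans ?_ (pb_HH_nonneg δ x y)
    exact mul_nonpos_of_nonneg_of_nonpos (by linarith) h.le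

theorem pb_tendsto (c : ℝ) (hc : 0 < c) (M : ℝ) : ∀ᶠ x : ℝ in atTop, M ≤ c * Real.log x :=
  (Real.tendsto_log_atTop.const_mul_atTop hc).eventually_ge_atTop M

theorem par_est2 : ∀ᶠ x : ℝ in atTop, 1 < x ∧ ∀ i, 2 ≤ δ.V * (δ.tau i * (δ.ε * Real.log x)) ∧
    (1 - δ.ε) * ((δ.l i + 2) / 2) * (δ.V * (δ.tau i * (δ.ε * Real.log x))) ≤ δ.A x i ∧
    δ.A x i ≤ (1 + δ.ε) * ((δ.l i + 2) / 2) * (δ.V * (δ.tau i * (δ.ε * Real.log x))) ∧
    (1 - δ.ε) * bl (δ.l i) * (δ.V * (δ.tau i * (δ.ε * Real.log x))) ≤ δ.B x i ∧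
    δ.B x i ≤ (1 + δ.ε) * bl (δ.l i) * (δ.V * (δ.tau i * (δ.ε * Real.log x))) ∧
    SS (δ.P x) (fun b => δ.g x i b ^ 2 * Real.log b) ≤
      (1 + δ.ε) * (δ.l i + 1) * (δ.V * (δ.tau i * (δ.ε * Real.log x))) *
        (δ.tau i * (δ.ε * Real.log x)) := by
  obtain ⟨C, hC0, hC⟩ := pb_hs δ
  obtain ⟨hV, -⟩ := V_pos2 δ
  have he0 := δ.eps_pos
  have he1 := δ.eps_le
  have hbig : ∀ᶠ x : ℝ in atTop, ∀ i, max (C / (δ.ε / 2)) 2 ≤
      (δ.V * δ.tau i * δ.ε) * Real.log x := by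
    rw [eventually_all]
    intro i
    exact pb_tendsto _ (by have := δ.tau_pos i; positivity) _
  filter_upwards [eventually_gt_atTop (1 : ℝ), hbig] with x hx hb
  refine ⟨hx, fun i => ?_⟩
  have hx0 : 0 < x := by linarith
  have hR1 : 1 ≤ δ.R0 x := Real.one_le_rpow hx.le he0.le
  have hR0 : 0 < δ.R0 x := by linarith
  have hτ := δ.tau_pos i
  have hz1 : 1 ≤ δ.z x i := Real.one_le_rpow hR1 hτ.le
  have hlogR : Real.log (δ.R0 x) = δ.ε * Real.log x := by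
    unfold Dt.R0
    rw [Real.log_rpow hx0]
  have hlogz : Real.log (δ.z x i) = δ.tau i * (δ.ε * Real.log x) := by
    unfold Dt.z
    rw [Real.log_rpow hR0, hlogR]
  have hzR : (δ.z x i) ^ (2 ^ (δ.l i)) ≤ Zx x := by
    unfold Dt.z
    rw [← Real.rpow_natCast, ← Real.rpow_mul hR0.le]
    calc (δ.R0 x) ^ (δ.tau i * ((2 ^ (δ.l i) : ℕ) : ℝ)) ≤ (δ.R0 x) ^ (1 / 2 : ℝ) := by
          apply Real.rpow_le_rpow_of_exponent_le hR1
          have := δ.l_tau i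
          push_cast
          linarith
      _ = x ^ (δ.ε * (1 / 2)) := by
          unfold Dt.R0
          rw [← Real.rpow_mul hx0.le]
      _ ≤ x ^ (1 / 4 : ℝ) := by
          apply Real.rpow_le_rpow_of_exponent_le hx.le
          linarith
  have hbi := hb i
  have hY : δ.V * δ.tau i * δ.ε * Real.log x = δ.V * (δ.tau i * (δ.ε * Real.log x)) := by ring
  rw [hY] at hbi
  have h100 : C ≤ δ.ε / 2 * (δ.V * Real.log (δ.z x i)) := by
    rw [hlogz]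
    have h1 := (le_max_left _ _).trans hbi
    rw [div_le_iff₀ (by positivity)] at h1
    linarith
  have key := prof_est2 (δ.P x) (fun k => (Pv_prime _ _ k).pos) δ.V C (Zx x) (δ.z x i) (δ.ε / 2)
    (δ.l i) hV hC0.le (by positivity) (by linarith) hz1 hzR (fun y hy1 hyR => hC x y hy1 hyR) h100
  rw [hlogz] at key
  obtain ⟨k1, k2, k3, k4, k5⟩ := key
  have hY0 : 0 ≤ δ.V * (δ.tau i * (δ.ε * Real.log x)) :=
    le_trans (by norm_num) ((le_max_right _ _).trans hbi)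
  have hl0 : (0 : ℝ) ≤ (δ.l i : ℝ) := Nat.cast_nonneg _
  have hbl := (one_le_bl (δ.l i)).1
  have e1 : 1 - δ.ε ≤ (1 - δ.ε / 2) ^ 2 := by nlinarith
  refine ⟨(le_max_right _ _).trans hbi, ?_, ?_, ?_, ?_, ?_⟩
  · refine le_trans ?_ k1
    gcongr
  · refine le_trans k2 ?_
    gcongr
    linarith
  · refine le_trans ?_ k3
    gcongr
  · refine le_trans k4 ?_
    gcongr
    linarith
  · refine le_trans k5 (le_of_eq ?_)
    ring

theorem pb_budget (i : I) : ((δ.l i : ℝ) + 1) * δ.tau i ≤ δ.ε := by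
  refine le_trans ?_ δ.budget
  exact Finset.single_le_sum (f := fun i => ((δ.l i : ℝ) + 1) * δ.tau i)
    (fun j _ => by have := δ.tau_pos j; positivity) (Finset.mem_univ i)

theorem par_C2 : ∀ᶠ x : ℝ in atTop,
    ∑ i, SS (δ.P x) (fun b => δ.g x i b ^ 2 * Real.log b) / SS (δ.P x) (fun b => δ.g x i b ^ 2) ≤
      (2 * δ.ε) * Real.log (δ.R0 x) := by
  filter_upwards [par_est2 δ] with x hx
  obtain ⟨hx1, h⟩ := hx
  have he0 := δ.eps_pos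
  have he1 := δ.eps_le
  have hlogR : Real.log (δ.R0 x) = δ.ε * Real.log x := by
    unfold Dt.R0
    rw [Real.log_rpow (by linarith)]
  have hlx : 0 ≤ Real.log x := Real.log_nonneg hx1.le
  have hi : ∀ i, SS (δ.P x) (fun b => δ.g x i b ^ 2 * Real.log b) /
      SS (δ.P x) (fun b => δ.g x i b ^ 2) ≤
      2 * (δ.ε * Real.log x) * (((δ.l i : ℝ) + 1) * δ.tau i) := by
    intro i
    obtain ⟨h2, -, -, hB, -, hCi⟩ := h i
    have hbl := (one_le_bl (δ.l i)).1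
    set Y := δ.V * (δ.tau i * (δ.ε * Real.log x)) with hY
    have hB' : 99 / 100 * Y ≤ SS (δ.P x) (fun b => δ.g x i b ^ 2) := by
      have hB2 : (1 - δ.ε) * bl (δ.l i) * Y ≤ SS (δ.P x) (fun b => δ.g x i b ^ 2) := hB
      refine le_trans ?_ hB2
      have h3 : 99 / 100 ≤ (1 - δ.ε) * bl (δ.l i) := by nlinarith
      exact mul_le_mul_of_nonneg_right h3 (by linarith)
    have hBpos : 0 < SS (δ.P x) (fun b => δ.g x i b ^ 2) := by linarith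
    rw [div_le_iff₀ hBpos]
    have hτ := δ.tau_pos i
    have hc : 0 ≤ 2 * (δ.ε * Real.log x) * (((δ.l i : ℝ) + 1) * δ.tau i) := by positivity
    have hc2 : 0 ≤ (δ.ε * Real.log x) * (((δ.l i : ℝ) + 1) * δ.tau i) * Y := by
      have : 0 ≤ Y := by linarith
      positivity
    calc SS (δ.P x) (fun b => δ.g x i b ^ 2 * Real.log b)
        ≤ (1 + δ.ε) * (δ.l i + 1) * Y * (δ.tau i * (δ.ε * Real.log x)) := hCi
      _ = (1 + δ.ε) * ((δ.ε * Real.log x) * (((δ.l i : ℝ) + 1) * δ.tau i) * Y) := by ring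
      _ ≤ (198 / 100) * ((δ.ε * Real.log x) * (((δ.l i : ℝ) + 1) * δ.tau i) * Y) :=
          mul_le_mul_of_nonneg_right (by linarith) hc2
      _ = 2 * (δ.ε * Real.log x) * (((δ.l i : ℝ) + 1) * δ.tau i) * (99 / 100 * Y) := by ring
      _ ≤ _ := mul_le_mul_of_nonneg_left hB' hc
  rw [hlogR]
  calc _ ≤ ∑ i, 2 * (δ.ε * Real.log x) * (((δ.l i : ℝ) + 1) * δ.tau i) :=
        Finset.sum_le_sum (fun i _ => hi i)
    _ = 2 * (δ.ε * Real.log x) * ∑ i, (((δ.l i : ℝ) + 1) * δ.tau i) := by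
        rw [Finset.mul_sum]
    _ ≤ 2 * (δ.ε * Real.log x) * δ.ε := mul_le_mul_of_nonneg_left δ.budget (by positivity)
    _ = _ := by ring

theorem par_AB2 : ∀ᶠ x : ℝ in atTop, ∀ i, 1 ≤ δ.A x i ∧ 1 ≤ δ.B x i ∧
    δ.A x i ≤ 1 + Real.log x ∧
    (1 - 4 * δ.ε) * δ.ps i * (δ.V * Real.log x) * δ.B x i ≤ δ.A x i ^ 2 ∧
    δ.A x i ^ 2 ≤ (1 + 4 * δ.ε) * δ.ps i * (δ.V * Real.log x) * δ.B x i := by
  filter_upwards [par_est2 δ] with x hx
  obtain ⟨hx1, h⟩ := hx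
  intro i
  obtain ⟨h2, hA1, hA2, hB1, hB2, -⟩ := h i
  have he0 := δ.eps_pos
  have he1 := δ.eps_le
  have hlx : 0 ≤ Real.log x := Real.log_nonneg hx1.le
  have hl0 : (0 : ℝ) ≤ (δ.l i : ℝ) := Nat.cast_nonneg _
  have hτ := δ.tau_pos i
  obtain ⟨hV, hV1⟩ := V_pos2 δ
  obtain ⟨hbl, -⟩ := one_le_bl (δ.l i)
  have hbud := pb_budget δ i
  have hps : δ.ps i * (δ.V * Real.log x) * bl (δ.l i) =
      (((δ.l i : ℝ) + 2) / 2) ^ 2 * (δ.V * (δ.tau i * (δ.ε * Real.log x))) := by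
    unfold Dt.ps psv
    have : bl (δ.l i) ≠ 0 := by linarith
    field_simp
    ring
  have hps0 : 0 ≤ δ.ps i * (δ.V * Real.log x) := by
    unfold Dt.ps psv
    have : 0 < bl (δ.l i) := by linarith
    positivity
  have hAle : δ.A x i ≤ 1 + Real.log x := by
    refine hA2.trans ?_
    have h3 : (1 + δ.ε) * (((δ.l i : ℝ) + 2) / 2) * (δ.V * (δ.tau i * (δ.ε * Real.log x))) =
        ((1 + δ.ε) * δ.ε) * δ.V * (((((δ.l i : ℝ) + 2) / 2) * δ.tau i) * Real.log x) := by ring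
    rw [h3]
    have h4 : (((δ.l i : ℝ) + 2) / 2) * δ.tau i ≤ δ.ε := by
      refine le_trans ?_ hbud
      apply mul_le_mul_of_nonneg_right _ hτ.le
      linarith
    have h5 : (((δ.l i : ℝ) + 2) / 2) * δ.tau i * Real.log x ≤ δ.ε * Real.log x :=
      mul_le_mul_of_nonneg_right h4 hlx
    have h5' : 0 ≤ (((δ.l i : ℝ) + 2) / 2) * δ.tau i * Real.log x := by positivity
    have h6 : (1 + δ.ε) * δ.ε ≤ 1 := by nlinarith
    have h7 : ((1 + δ.ε) * δ.ε) * δ.V ≤ 1 := by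
      have : 0 ≤ (1 + δ.ε) * δ.ε := by positivity
      nlinarith
    calc ((1 + δ.ε) * δ.ε) * δ.V * (((((δ.l i : ℝ) + 2) / 2) * δ.tau i) * Real.log x)
        ≤ 1 * (((((δ.l i : ℝ) + 2) / 2) * δ.tau i) * Real.log x) :=
          mul_le_mul_of_nonneg_right h7 h5'
      _ ≤ δ.ε * Real.log x := by rw [one_mul]; exact h5
      _ ≤ 1 + Real.log x := by nlinarith
  set Y := δ.V * (δ.tau i * (δ.ε * Real.log x)) with hY
  set a := δ.A x i
  set b := δ.B x i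
  set m : ℝ := ((δ.l i : ℝ) + 2) / 2 with hm
  have hm1 : 1 ≤ m := by rw [hm]; linarith
  have hY0 : 0 ≤ Y := by linarith
  have hmY : 2 ≤ m * Y := by nlinarith
  have ha1 : 1 ≤ a := by
    refine le_trans ?_ hA1
    have : (1 - δ.ε) * m * Y = (1 - δ.ε) * (m * Y) := by ring
    rw [this]
    nlinarith
  have hb1 : 1 ≤ b := by
    refine le_trans ?_ hB1
    have h3 : 99 / 100 ≤ (1 - δ.ε) * bl (δ.l i) := by nlinarith
    nlinarith
  refine ⟨ha1, hb1, hAle, ?_, ?_⟩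
  · have h3 : ((1 - δ.ε) * m * Y) ^ 2 ≤ a ^ 2 :=
      pow_le_pow_left₀ (by have : 0 ≤ 1 - δ.ε := by linarith
                           positivity) hA1 2
    have h4 : (1 - 4 * δ.ε) * (δ.ps i * (δ.V * Real.log x)) * b ≤
        (1 - 4 * δ.ε) * (δ.ps i * (δ.V * Real.log x)) * ((1 + δ.ε) * bl (δ.l i) * Y) :=
      mul_le_mul_of_nonneg_left hB2 (mul_nonneg (by linarith) hps0)
    have h5 : (1 - 4 * δ.ε) * (δ.ps i * (δ.V * Real.log x)) * ((1 + δ.ε) * bl (δ.l i) * Y) =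
        (1 - 4 * δ.ε) * (1 + δ.ε) * (m ^ 2 * Y ^ 2) := by
      calc _ = (1 - 4 * δ.ε) * (1 + δ.ε) * (δ.ps i * (δ.V * Real.log x) * bl (δ.l i)) * Y := by
            ring
        _ = _ := by rw [hps]; ring
    have h6 : 0 ≤ m ^ 2 * Y ^ 2 := by positivity
    have h7 : (1 - 4 * δ.ε) * (1 + δ.ε) ≤ (1 - δ.ε) ^ 2 := by nlinarith
    calc (1 - 4 * δ.ε) * δ.ps i * (δ.V * Real.log x) * b =
          (1 - 4 * δ.ε) * (δ.ps i * (δ.V * Real.log x)) * b := by ring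
      _ ≤ (1 - 4 * δ.ε) * (1 + δ.ε) * (m ^ 2 * Y ^ 2) := by rw [← h5]; exact h4
      _ ≤ (1 - δ.ε) ^ 2 * (m ^ 2 * Y ^ 2) := mul_le_mul_of_nonneg_right h7 h6
      _ = ((1 - δ.ε) * m * Y) ^ 2 := by ring
      _ ≤ a ^ 2 := h3
  · have h3 : a ^ 2 ≤ ((1 + δ.ε) * m * Y) ^ 2 := pow_le_pow_left₀ (by linarith) hA2 2
    have h4 : (1 + 4 * δ.ε) * (δ.ps i * (δ.V * Real.log x)) * ((1 - δ.ε) * bl (δ.l i) * Y) ≤
        (1 + 4 * δ.ε) * (δ.ps i * (δ.V * Real.log x)) * b :=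
      mul_le_mul_of_nonneg_left hB1 (mul_nonneg (by linarith) hps0)
    have h5 : (1 + 4 * δ.ε) * (δ.ps i * (δ.V * Real.log x)) * ((1 - δ.ε) * bl (δ.l i) * Y) =
        (1 + 4 * δ.ε) * (1 - δ.ε) * (m ^ 2 * Y ^ 2) := by
      calc _ = (1 + 4 * δ.ε) * (1 - δ.ε) * (δ.ps i * (δ.V * Real.log x) * bl (δ.l i)) * Y := by
            ring
        _ = _ := by rw [hps]; ring
    have h6 : 0 ≤ m ^ 2 * Y ^ 2 := by positivity
    have h7 : (1 + δ.ε) ^ 2 ≤ (1 + 4 * δ.ε) * (1 - δ.ε) := by nlinarith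
    calc a ^ 2 ≤ ((1 + δ.ε) * m * Y) ^ 2 := h3
      _ = (1 + δ.ε) ^ 2 * (m ^ 2 * Y ^ 2) := by ring
      _ ≤ (1 + 4 * δ.ε) * (1 - δ.ε) * (m ^ 2 * Y ^ 2) := mul_le_mul_of_nonneg_right h7 h6
      _ ≤ (1 + 4 * δ.ε) * (δ.ps i * (δ.V * Real.log x)) * b := by rw [← h5]; exact h4
      _ = (1 + 4 * δ.ε) * δ.ps i * (δ.V * Real.log x) * b := by ring

theorem par_H2 : ∀ᶠ x : ℝ in atTop, ∀ s : ℕ, s ≤ Fintype.card I →
    1 ≤ δ.yy x s ∧ 1 ≤ HH (δ.P x) (δ.yy x s) ∧ HH (δ.P x) (δ.yy x s) ≤ 1 + Real.log x ∧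
    (1 ≤ s → (1 - 10 * δ.ε) * (δ.V * Real.log x) / (4 * s) ≤ HH (δ.P x) (δ.yy x s)) := by
  obtain ⟨C, hC0, hC⟩ := pb_hs δ
  obtain ⟨hV, hV1⟩ := V_pos2 δ
  have he0 := δ.eps_pos
  have he1 := δ.eps_le
  have hK := pb_card (I := I)
  have hK0 : (0 : ℝ) < Fintype.card I := by linarith
  filter_upwards [eventually_gt_atTop (1 : ℝ),
    pb_tendsto (δ.V / (8 * Fintype.card I)) (by positivity) (C + 2),
    pb_tendsto (δ.ε * (δ.V / (4 * Fintype.card I))) (by positivity) C,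
    pb_tendsto (3 / 4) (by norm_num) C] with x hx hb1 hb2 hb3
  intro s hs
  have hx0 : 0 < x := by linarith
  have hlx : 0 ≤ Real.log x := Real.log_nonneg hx.le
  set k : ℕ := max 1 s with hk
  have hk1 : (1 : ℝ) ≤ k := by exact_mod_cast (le_max_left 1 s)
  have hkK : (k : ℝ) ≤ Fintype.card I := by
    have : k ≤ Fintype.card I := max_le (Fintype.card_pos) hs
    exact_mod_cast this
  have hk0 : (0 : ℝ) < k := by linarith
  have hexp0 : 0 ≤ (1 / 4 - 2 * δ.ε) / (k : ℝ) := div_nonneg (by linarith) hk0.le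
  have hexp1 : (1 / 4 - 2 * δ.ε) / (k : ℝ) ≤ 1 / 4 := by
    rw [div_le_iff₀ hk0]
    nlinarith
  have hy1 : 1 ≤ δ.yy x s := Real.one_le_rpow hx.le hexp0
  have hyZ : δ.yy x s ≤ Zx x := Real.rpow_le_rpow_of_exponent_le hx.le hexp1
  have hlogy : Real.log (δ.yy x s) = (1 / 4 - 2 * δ.ε) / (k : ℝ) * Real.log x := by
    unfold Dt.yy
    rw [Real.log_rpow hx0]
  obtain ⟨k1, k2⟩ := hC x (δ.yy x s) hy1 hyZ
  rw [hlogy] at k1 k2
  have hq : (1 / 4 - 2 * δ.ε) / (k : ℝ) * Real.log x = (1 - 8 * δ.ε) * (Real.log x / (4 * k)) := by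
    field_simp
    ring
  rw [hq] at k1 k2
  set u := Real.log x / (4 * k) with hu
  have hu0 : 0 ≤ u := by positivity
  have huK : Real.log x / (4 * Fintype.card I) ≤ u := by
    rw [hu]
    apply div_le_div_of_nonneg_left hlx (by positivity)
    linarith
  have hVu : δ.V * (Real.log x / (4 * Fintype.card I)) ≤ δ.V * u :=
    mul_le_mul_of_nonneg_left huK hV.le
  have hb1' : C + 2 ≤ δ.V * u / 2 := by
    refine hb1.trans ?_
    calc δ.V / (8 * Fintype.card I) * Real.log x =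
          δ.V * (Real.log x / (4 * Fintype.card I)) / 2 := by ring
      _ ≤ _ := by linarith
  have hb2' : C ≤ δ.ε * (δ.V * u) := by
    refine hb2.trans ?_
    calc δ.ε * (δ.V / (4 * Fintype.card I)) * Real.log x =
          δ.ε * (δ.V * (Real.log x / (4 * Fintype.card I))) := by ring
      _ ≤ _ := mul_le_mul_of_nonneg_left hVu he0.le
  have hVu0 : 0 ≤ δ.V * u := by positivity
  refine ⟨hy1, ?_, ?_, ?_⟩
  · refine le_trans ?_ k1
    have h3 : 2 ≤ δ.V * ((1 - 8 * δ.ε) * u) - C := by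
      have : δ.V * ((1 - 8 * δ.ε) * u) = (1 - 8 * δ.ε) * (δ.V * u) := by ring
      rw [this]
      nlinarith
    nlinarith
  · refine k2.trans ?_
    have h3 : δ.V * ((1 - 8 * δ.ε) * u) ≤ Real.log x / 4 := by
      have h4 : u ≤ Real.log x / 4 := by
        rw [hu]
        apply div_le_div_of_nonneg_left hlx (by norm_num)
        linarith
      have h5 : (1 - 8 * δ.ε) * u ≤ u := by nlinarith
      have h6 : 0 ≤ (1 - 8 * δ.ε) * u := mul_nonneg (by linarith) hu0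
      calc δ.V * ((1 - 8 * δ.ε) * u) ≤ 1 * ((1 - 8 * δ.ε) * u) :=
            mul_le_mul_of_nonneg_right hV1 h6
        _ ≤ _ := by linarith
    linarith
  · intro hs1
    have hks : k = s := max_eq_right hs1
    have hfin : (1 - 10 * δ.ε) * (δ.V * Real.log x) / (4 * s) = (1 - 10 * δ.ε) * (δ.V * u) := by
      rw [hu, hks]
      ring
    rw [hfin]
    refine le_trans ?_ k1
    · have h3 : (1 - δ.ε / 2) * (δ.V * ((1 - 8 * δ.ε) * u) - C) =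
          (1 - δ.ε / 2) * (1 - 8 * δ.ε) * (δ.V * u) - (1 - δ.ε / 2) * C := by ring
      rw [h3]
      have h4 : (1 - δ.ε / 2) * C ≤ δ.ε * (δ.V * u) := by nlinarith
      have h5 : (1 - 9 * δ.ε) ≤ (1 - δ.ε / 2) * (1 - 8 * δ.ε) := by nlinarith
      have h6 := mul_le_mul_of_nonneg_right h5 hVu0
      linarith

end Pool.Agent.H21.SH
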