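import Pool.Agent.H21.SH.Ql
import Pool.Agent.H21.SH.Gx
import Pool.Agent.H21.SH.Pa
import Pool.Agent.H21.SH.Pb
import Pool.Agent.H21.MT.AsmA

/-!
[H21 SH A1]  The total mass of the sharp sieve measure.

Proofs.  As `Pool/Agent/H21/MT/AsmA.lean`.  `K = |I|`.
* `lam_sum2`: `0 ≤ F ≤ 1`, `F s ≠ 0 → tot s ≤ R0 x = x^ε`; `lam_bound` with `Λ = 1`, `log R0 ≤ log x`,
  `∑ |lam| ≤ x^ε (1 + log x)^{2K} ≤ x^{1/50}` (`ε ≤ 1/100`, `asmA_ev_pow_log`).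
* `S1_bounds2`: `count_sig` with `w = gw x`, `X = XG x`, `B = 4` (`gw_apx`, `par_diff2`):
  `|S1 - (XG/W) Q| ≤ 4 x^{1/25}`, `Q = mform (1/P) lam`, `(1 - 10 ε) ∏ B ≤ Q ≤ ∏ B` (`q1_lower2` with `2ε` in
  the place of `ε`: `par_P2`, `par_C2`, `par_g2`; `q1_upper`), and `4 x^{1/25} ≤ ε (x/8)/W ≤ ε (XG/W) ∏ B` for
  large `x` (`gw_massx`, `B i ≥ 1`).
* `T1_up`: the same with `w = wN x` (`wN_ap`, `wN_mass`: `XX x ≤ 120 x`), only the upper bound.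
-/

namespace Pool.Agent.H21.SH

open Finset Filter Pool.Agent.H21.MT

variable {I : Type} [Fintype I] [DecidableEq I] [Nonempty I] (δ : Dt I)

theorem F_bounds2 (x : ℝ) (hg0 : ∀ i b, 0 ≤ δ.g x i b) (hg1 : ∀ i b, δ.g x i b ≤ 1) :
    (∀ s, 0 ≤ δ.F x s) ∧ (∀ s, δ.F x s ≤ 1) ∧
      (∀ s, δ.F x s ≠ 0 → (tot (δ.P x) s : ℝ) ≤ δ.R0 x) := by
  have h0 : ∀ s : PIdx δ.W (Zx x) → Option I, 0 ≤ ∏ i, δ.g x i (lab (δ.P x) s i) :=
    fun s => prod_nonneg fun i _ => hg0 i _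
  refine ⟨fun s => ?_, fun s => ?_, fun s hs => ?_⟩
  · unfold Dt.F FF
    refine mul_nonneg (h0 s) ?_
    split_ifs <;> norm_num
  · unfold Dt.F FF
    have h1 : ∏ i, δ.g x i (lab (δ.P x) s i) ≤ 1 :=
      prod_le_one (fun i _ => hg0 i _) (fun i _ => hg1 i _)
    split_ifs
    · rw [mul_one]; exact h1
    · rw [mul_zero]; norm_num
  · by_contra hcon
    apply hs
    unfold Dt.F FF
    rw [if_neg hcon, mul_zero]

theorem lam_sum2 : ∀ᶠ x : ℝ in atTop, (∀ d, |δ.lam x d| ≤ (1 + Real.log x) ^ Fintype.card I) ∧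
    (∀ d, δ.lam x d ≠ 0 → (tot (δ.P x) d : ℝ) ≤ δ.R0 x) ∧
    ∑ d, |δ.lam x d| ≤ x ^ (1 / 50 : ℝ) := by
  have hRt : Tendsto δ.R0 atTop atTop := tendsto_rpow_atTop δ.eps_pos
  have h1 := hRt.eventually (asmA_ev_pow_log (2 * Fintype.card I))
  filter_upwards [h1, par_g2 δ, eventually_ge_atTop (1 : ℝ)] with x hx hg hx1
  obtain ⟨hR, hg0, hgle, -, -, -⟩ := hg
  obtain ⟨hF0, hF1, hFR⟩ := F_bounds2 δ x hg0 hgle
  have hx0 : 0 < x := by linarith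
  obtain ⟨ha, hb, hc⟩ := lam_bound (δ.P x) (Pv_prime δ.W (Zx x)) (Pv_inj δ.W (Zx x))
    (δ.R0 x) 1 hR.le (δ.F x) hF0 hF1 hFR
  have hlogR : Real.log (δ.R0 x) = δ.ε * Real.log x := by
    unfold Dt.R0
    rw [Real.log_rpow hx0]
  have hlogx : 0 ≤ Real.log x := Real.log_nonneg hx1
  have he := δ.eps_pos
  have he1 := δ.eps_le
  refine ⟨fun d => ?_, hb, ?_⟩
  · refine (ha d).trans ?_
    rw [one_mul]
    apply pow_le_pow_left₀ (by rw [hlogR]; positivity)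
    rw [hlogR]
    nlinarith
  · refine hc.trans ?_
    rw [one_mul]
    have h2 : δ.R0 x * δ.R0 x ≤ x ^ (1 / 50 : ℝ) := by
      unfold Dt.R0
      rw [← Real.rpow_add hx0]
      exact Real.rpow_le_rpow_of_exponent_le hx1 (by linarith)
    refine le_trans ?_ h2
    exact mul_le_mul_of_nonneg_left hx (by linarith)

theorem err_small : ∀ᶠ x : ℝ in atTop,
    4 * (∑ d, |δ.lam x d|) ^ 2 ≤ δ.ε * ((x / 8) / δ.W) := by
  have hW : (0 : ℝ) < δ.W := by exact_mod_cast δ.W_pos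
  have he := δ.eps_pos
  have hbig : ∀ᶠ x : ℝ in atTop, 32 * (δ.W : ℝ) / δ.ε ≤ x ^ (24 / 25 : ℝ) :=
    (tendsto_rpow_atTop (by norm_num)).eventually_ge_atTop _
  filter_upwards [lam_sum2 δ, hbig, eventually_ge_atTop (1 : ℝ)] with x hlam hx hx1
  have hx0 : 0 < x := by linarith
  have hsum0 : 0 ≤ ∑ d, |δ.lam x d| := sum_nonneg fun d _ => abs_nonneg _
  have hE : 4 * (∑ d, |δ.lam x d|) ^ 2 ≤ 4 * x ^ (1 / 25 : ℝ) := by
    have h1 : (∑ d, |δ.lam x d|) ^ 2 ≤ (x ^ (1 / 50 : ℝ)) ^ 2 :=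
      pow_le_pow_left₀ hsum0 hlam.2.2 2
    have h2 : (x ^ (1 / 50 : ℝ)) ^ 2 = x ^ (1 / 25 : ℝ) := by
      rw [← Real.rpow_natCast, ← Real.rpow_mul hx0.le]
      norm_num
    rw [h2] at h1
    linarith
  have hxx : x ^ (1 / 25 : ℝ) * x ^ (24 / 25 : ℝ) = x := by
    rw [← Real.rpow_add hx0]
    norm_num
  refine hE.trans ?_
  have h3 : 0 < x ^ (1 / 25 : ℝ) := Real.rpow_pos_of_pos hx0 _
  have h4 : x ^ (1 / 25 : ℝ) * (32 * (δ.W : ℝ) / δ.ε) ≤ x := by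
    calc x ^ (1 / 25 : ℝ) * (32 * (δ.W : ℝ) / δ.ε) ≤ x ^ (1 / 25 : ℝ) * x ^ (24 / 25 : ℝ) := by
          gcongr
      _ = x := hxx
  have h5 : δ.ε * ((x / 8) / δ.W) = x * δ.ε / (8 * δ.W) := by field_simp
  rw [h5, le_div_iff₀ (by positivity)]
  have h6 : x ^ (1 / 25 : ℝ) * (32 * (δ.W : ℝ)) ≤ x * δ.ε := by
    rw [← mul_div_assoc, div_le_iff₀ he] at h4
    exact h4
  linarith

theorem Q_bounds2 : ∀ᶠ x : ℝ in atTop,
    mform (fun k => (1 : ℝ) / δ.P x k) (δ.lam x) ≤ ∏ i, δ.B x i ∧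
    (1 - 10 * δ.ε) * ∏ i, δ.B x i ≤ mform (fun k => (1 : ℝ) / δ.P x k) (δ.lam x) ∧
    1 ≤ ∏ i, δ.B x i := by
  have he := δ.eps_pos
  have he1 := δ.eps_le
  filter_upwards [par_g2 δ, par_C2 δ, par_AB2 δ] with x hg hC hAB
  obtain ⟨hR, hg0, hgle, hganti, hg1, -⟩ := hg
  obtain ⟨hP1, hP2, -, -⟩ := par_P2 δ x
  have hup : mform (fun k => (1 : ℝ) / δ.P x k) (δ.lam x) ≤ ∏ i, δ.B x i :=
    q1_upper (δ.P x) (Pv_prime δ.W (Zx x)) (fun k => by have := hP1 k; omega) (δ.g x) hg0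
      (δ.R0 x)
  have hP2' : ∑ k, 1 / (δ.P x k : ℝ) ^ 2 ≤ (2 * δ.ε) ^ 2 / (10 * (Fintype.card I : ℝ) ^ 2) := by
    refine hP2.trans ?_
    gcongr
    linarith
  have hlo : (1 - 5 * (2 * δ.ε)) * ∏ i, δ.B x i ≤
      mform (fun k => (1 : ℝ) / δ.P x k) (δ.lam x) :=
    q1_lower2 (δ.P x) (Pv_prime δ.W (Zx x)) (Pv_inj δ.W (Zx x)) hP1 (δ.R0 x) (2 * δ.ε) hR
      (by linarith) (by linarith) (δ.g x) hg0 hganti hg1 hP2' hC
  have hB1 : 1 ≤ ∏ i, δ.B x i := by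
    rw [← Finset.prod_const_one (s := (univ : Finset I))]
    exact prod_le_prod (fun _ _ => zero_le_one) (fun i _ => (hAB i).2.1)
  refine ⟨hup, ?_, hB1⟩
  have e : (1 : ℝ) - 5 * (2 * δ.ε) = 1 - 10 * δ.ε := by ring
  rw [← e]
  exact hlo

theorem S1_bounds2 : ∀ᶠ x : ℝ in atTop,
    (1 - 12 * δ.ε) * (XG x / δ.W * ∏ i, δ.B x i) ≤ δ.S1 x ∧
    δ.S1 x ≤ (1 + δ.ε) * (XG x / δ.W * ∏ i, δ.B x i) := by
  have hW : (0 : ℝ) < δ.W := by exact_mod_cast δ.W_pos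
  have he := δ.eps_pos
  have he1 := δ.eps_le
  filter_upwards [gw_apx, gw_massx, err_small δ, Q_bounds2 δ, eventually_ge_atTop (1 : ℝ)]
    with x hap hmass hE hQ hx1
  have hx0 : 0 < x := by linarith
  obtain ⟨hup, hlo, hB1⟩ := hQ
  have hcount := count_sig (δ.P x) (Pv_prime δ.W (Zx x)) (Pv_inj δ.W (Zx x)) δ.h
    (par_diff2 δ x) δ.W δ.b δ.W_pos (Pv_not_dvd δ.W (Zx x)) (Win x) (gw x) (XG x) 4 hap
    (δ.lam x)
  have hS : ∑ N ∈ (Win x).filter (fun N => N % δ.W = δ.b % δ.W),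
      gw x N * (sig (δ.P x) δ.h (δ.lam x) N) ^ 2 = δ.S1 x := rfl
  rw [hS] at hcount
  have hXX : x / 8 ≤ XG x := hmass.1
  have hT : (x / 8) / δ.W ≤ XG x / δ.W * ∏ i, δ.B x i := by
    have h6 : (x / 8) / δ.W ≤ XG x / δ.W := by gcongr
    have h7 : 0 ≤ (x / 8) / δ.W := by positivity
    nlinarith
  have hXW : 0 ≤ XG x / δ.W := by
    have : 0 ≤ XG x := by linarith
    positivity
  have h8 := mul_le_mul_of_nonneg_left hup hXW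
  have h9 := mul_le_mul_of_nonneg_left hlo hXW
  obtain ⟨h10, h11⟩ := abs_le.1 hcount
  have hET : 4 * (∑ d, |δ.lam x d|) ^ 2 ≤ δ.ε * (XG x / δ.W * ∏ i, δ.B x i) :=
    hE.trans (mul_le_mul_of_nonneg_left hT he.le)
  have hTp : 0 ≤ XG x / δ.W * ∏ i, δ.B x i := le_trans (by positivity) hT
  constructor
  · have e1 : XG x / δ.W * ((1 - 10 * δ.ε) * ∏ i, δ.B x i) =
      (1 - 10 * δ.ε) * (XG x / δ.W * ∏ i, δ.B x i) := by ring
    rw [e1] at h9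
    nlinarith
  · nlinarith

theorem T1_up : ∀ᶠ x : ℝ in atTop,
    ∑ N ∈ δ.WinB x, wN x N * (sig (δ.P x) δ.h (δ.lam x) N) ^ 2 ≤
      240 * (x / δ.W * ∏ i, δ.B x i) := by
  have hW : (0 : ℝ) < δ.W := by exact_mod_cast δ.W_pos
  have he := δ.eps_pos
  have he1 := δ.eps_le
  filter_upwards [wN_ap, wN_mass, err_small δ, Q_bounds2 δ, eventually_ge_atTop (1 : ℝ)]
    with x hap hmass hE hQ hx1
  have hx0 : 0 < x := by linarith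
  obtain ⟨hup, -, hB1⟩ := hQ
  have hcount := count_sig (δ.P x) (Pv_prime δ.W (Zx x)) (Pv_inj δ.W (Zx x)) δ.h
    (par_diff2 δ x) δ.W δ.b δ.W_pos (Pv_not_dvd δ.W (Zx x)) (Win x) (wN x)
    (∑ N ∈ Win x, wN x N) 4 hap (δ.lam x)
  have hS : ∑ N ∈ (Win x).filter (fun N => N % δ.W = δ.b % δ.W),
      wN x N * (sig (δ.P x) δ.h (δ.lam x) N) ^ 2 =
      ∑ N ∈ δ.WinB x, wN x N * (sig (δ.P x) δ.h (δ.lam x) N) ^ 2 := rfl
  rw [hS] at hcount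
  obtain ⟨h10, h11⟩ := abs_le.1 hcount
  have hXX0 : 0 ≤ ∑ N ∈ Win x, wN x N := le_trans (by positivity) hmass.1
  have hXW : 0 ≤ (∑ N ∈ Win x, wN x N) / δ.W := by positivity
  have h8 := mul_le_mul_of_nonneg_left hup hXW
  have hB0 : 0 ≤ ∏ i, δ.B x i := by linarith
  have h9 : (∑ N ∈ Win x, wN x N) / δ.W * ∏ i, δ.B x i ≤ 120 * x / δ.W * ∏ i, δ.B x i := by
    have := hmass.2
    gcongr
  have hxW : 0 ≤ x / δ.W := by positivity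
  have h12 : x / δ.W ≤ x / δ.W * ∏ i, δ.B x i := by nlinarith
  have h13 : δ.ε * ((x / 8) / δ.W) ≤ 120 * (x / δ.W * ∏ i, δ.B x i) := by
    have e1 : (x / 8) / δ.W = (x / δ.W) / 8 := by ring
    rw [e1]
    nlinarith
  have e2 : 120 * x / δ.W * ∏ i, δ.B x i = 120 * (x / δ.W * ∏ i, δ.B x i) := by ring
  linarith

end Pool.Agent.H21.SH
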