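import Pool.Agent.H21.SH.A1
import Pool.Agent.H21.SH.Lo
import Pool.Agent.H21.SH.Mm
import Pool.Agent.H21.BV.BV2
import Pool.Agent.H21.MT.AsmB

/-!
[H21 SH A2]  Sharp lower bound for the mass of the `N` with `N + h m` prime.

Proof.  As `Pool/Agent/H21/MT/AsmB.lean`.  `K = |I|`, `L = log x`, `A = 18 K^4 + 4 K + 4`, `J` from
`bv2 ε A` (`ε ≤ 1/100 ≤ 1/4`), `φ = φ(W)`.
`low2 J 4 ε` (with `∑|lam| ≤ x^{1/50} ≤ x`, `par_P4`) and `prime_sig` (`Wp x`, `v = vp J x`, `M = MM J x`, `E` from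
`bv2`, moduli `q = W totJ ≤ W R0^2 = W x^{2ε} ≤ x^{1/2-ε}` for large `x`) give
`L^{J+1} ((1+ε) Sm + T/L^4) ≥ (MM/φ) Q_m - Err - 1`,
`Q_m ≥ (1 - 20ε) A_m^2 ∏_{i≠m} B_i` (`qm_lower2` with `2ε`), `MM ≥ (1-ε) L^J XG` (`mm_sharp`),
`T ≤ 240 (x/W) ∏ B_i ≤ 240 (x/W) A_m^2 ∏_{i≠m} B_i` (`T1_up`; `B_m ≤ A_m ≤ A_m^2` because `0 ≤ g ≤ 1` and
`A_m ≥ 1`).  `Err ≤ Λ^2 √(T0 S0) (1 + 2 log R0)^{9K^4}` (`err_sum`, `Λ = (1+L)^K`, `T0 = x L^{J+2}`,
`S0 = x L^{J-A}`, `Q = x^{1/2-ε}`) `≤ 4^{2K} x L^{J-1}`, so that `Err + 1 ≤ ε (XG L^J/φ) A_m^2 ∏ B` for large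
`x` (`XG ≥ x/8`, all `A, B ≥ 1`), and `T/L^4 ≤ ε (XG/(φ L)) A_m^2 ∏ B` for large `x`.
Hence `(1+ε) Sm ≥ ((1-ε)(1-20ε) - 2ε) (XG/φ) (A_m^2/L) ∏_{i≠m} B_i`, and
`((1-ε)(1-20ε) - 2ε)/(1+ε) ≥ 1 - 30 ε`.
-/

namespace Pool.Agent.H21.SH

open Finset Filter Pool.Agent.H21.MT

variable {I : Type} [Fintype I] [DecidableEq I] [Nonempty I] (δ : Dt I)

theorem a2_fin (ε L LJ U Sm T4 Err MMQ : ℝ) (hε : 0 < ε) (hε1 : ε ≤ 1 / 100) (hL : 1 ≤ L)
    (hLJ : 0 < LJ) (hU : 0 ≤ U) (h1 : MMQ - Err ≤ L * LJ * ((1 + ε) * Sm + T4) + 1)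
    (h2 : (1 - ε) * (1 - 20 * ε) * (LJ * U) ≤ MMQ) (h3 : Err + 1 ≤ ε * (LJ * U))
    (h4 : L * T4 ≤ ε * U) : (1 - 30 * ε) * (U / L) ≤ Sm := by
  have hL0 : 0 < L := by linarith
  have hLU : 0 ≤ LJ * U := by positivity
  have h5 : L * LJ * T4 ≤ ε * (LJ * U) := by
    calc L * LJ * T4 = LJ * (L * T4) := by ring
      _ ≤ LJ * (ε * U) := mul_le_mul_of_nonneg_left h4 hLJ.le
      _ = _ := by ring
  have h6 : (1 - 30 * ε) * (1 + ε) ≤ (1 - ε) * (1 - 20 * ε) - 2 * ε := by nlinarith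
  have h7 : (1 - 30 * ε) * (1 + ε) * (LJ * U) ≤ L * LJ * ((1 + ε) * Sm) := by
    have h8 := mul_le_mul_of_nonneg_right h6 hLU
    have h9 : L * LJ * ((1 + ε) * Sm + T4) = L * LJ * ((1 + ε) * Sm) + L * LJ * T4 := by ring
    rw [h9] at h1
    linarith
  rw [← mul_div_assoc, div_le_iff₀ hL0]
  have hc : 0 < LJ * (1 + ε) := by positivity
  refine le_of_mul_le_mul_left ?_ hc
  calc LJ * (1 + ε) * ((1 - 30 * ε) * U) = (1 - 30 * ε) * (1 + ε) * (LJ * U) := by ring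
    _ ≤ L * LJ * ((1 + ε) * Sm) := h7
    _ = _ := by ring

theorem a2_W (W : ℕ) (ε : ℝ) (hε1 : ε ≤ 1 / 100) : ∀ᶠ x : ℝ in atTop,
    (W : ℝ) * (x ^ ε) ^ 2 ≤ x ^ (1 / 2 - ε) := by
  have h1 : ∀ᶠ x : ℝ in atTop, (W : ℝ) ≤ x ^ (1 / 2 - 3 * ε) :=
    (tendsto_rpow_atTop (by linarith)).eventually_ge_atTop _
  filter_upwards [h1, eventually_gt_atTop 0] with x hx hx0
  have e1 : (x ^ ε) ^ 2 = x ^ (2 * ε) := by
    rw [← Real.rpow_natCast, ← Real.rpow_mul hx0.le]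
    congr 1
    push_cast
    ring
  have e2 : x ^ (1 / 2 - ε) = x ^ (1 / 2 - 3 * ε) * x ^ (2 * ε) := by
    rw [← Real.rpow_add hx0]
    congr 1
    ring
  rw [e1, e2]
  exact mul_le_mul_of_nonneg_right hx (Real.rpow_nonneg hx0.le _)

theorem a2_Bm (x : ℝ) (m : I) (hg0 : ∀ i b, 0 ≤ δ.g x i b) (hg1 : ∀ i b, δ.g x i b ≤ 1) :
    δ.B x m ≤ δ.A x m := by
  unfold Dt.B Dt.A SS
  refine Finset.sum_le_sum fun T _ => ?_
  refine div_le_div_of_nonneg_right ?_ (Nat.cast_nonneg _)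
  have h0 := hg0 m (nrm (δ.P x) T)
  have h1 := hg1 m (nrm (δ.P x) T)
  nlinarith

theorem Sm_lower (m : I) : ∀ᶠ x : ℝ in atTop,
    (1 - 30 * δ.ε) * (XG x / δ.W.totient / Real.log x *
      (δ.A x m ^ 2 * ∏ i ∈ univ.erase m, δ.B x i)) ≤
      ∑ N ∈ (δ.WinB x).filter (fun N => (N + δ.h m).Prime), δ.om x N := by
  have hε := δ.eps_pos
  have hε1 := δ.eps_le
  obtain ⟨J, hJ⟩ := Pool.Agent.H21.BV.bv2 δ.ε hε (by linarith)
    (18 * (Fintype.card I) ^ 4 + 4 * Fintype.card I + 4)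
  have hW0 : 0 < δ.W := δ.W_pos
  have hphi : 0 < δ.W.totient := Nat.totient_pos.mpr hW0
  have hphiR : (1 : ℝ) ≤ (δ.W.totient : ℝ) := by exact_mod_cast hphi
  have hphi0 : (0 : ℝ) < (δ.W.totient : ℝ) := by linarith
  have hphiW : (δ.W.totient : ℝ) ≤ δ.W := by exact_mod_cast Nat.totient_le δ.W
  have hWR : (0 : ℝ) < (δ.W : ℝ) := by exact_mod_cast hW0
  have eL : ∀ᶠ x : ℝ in atTop,
      320 * 4 ^ (Fintype.card I) * ((δ.W.totient : ℝ) / δ.ε) ≤ Real.log x :=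
    Real.tendsto_log_atTop.eventually_ge_atTop _
  have eL2 : ∀ᶠ x : ℝ in atTop, 1920 / δ.ε ≤ Real.log x :=
    Real.tendsto_log_atTop.eventually_ge_atTop _
  filter_upwards [hJ, low2 J 4 δ.ε hε I δ.h δ.W δ.b hW0 m, lam_sum2 δ, par_g2 δ, par_C2 δ,
    par_AB2 δ, T1_up δ, gw_massx, mm_sharp J δ.ε hε, eL, eL2, a2_W δ.W δ.ε hε1,
    eventually_ge_atTop 1, eventually_ge_atTop (320 * ((δ.W.totient : ℝ) / δ.ε))]
    with x hJx hlow hlam hg hC hAB hT1 hmass hmm hL hL2 hWx hx1 hxphi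
  obtain ⟨E, hE0, hE1, hE2, hE3⟩ := hJx
  obtain ⟨hlam1, hlam2, hlam3⟩ := hlam
  obtain ⟨hR1, hg0, hg1, hganti, hgone, hgR⟩ := hg
  obtain ⟨hP1, hP2, hP3, -⟩ := par_P2 δ x
  have hx0 : 0 < x := by linarith
  obtain ⟨L, hLdef⟩ : ∃ L : ℝ, L = Real.log x := ⟨_, rfl⟩
  rw [← hLdef] at hL hL2 hlam1 hE2 hE3 hmm hAB ⊢
  have hL1920 : 1920 ≤ L := by
    refine le_trans ?_ hL2
    rw [le_div_iff₀ hε]
    linarith
  have hL0 : 0 < L := by linarith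
  have hP : ∀ k, (δ.P x k).Prime := Pv_prime _ _
  have hPpos : ∀ k, 0 < δ.P x k := fun k => (hP k).pos
  have hinj : Function.Injective (δ.P x) := Pv_inj _ _
  have hPW : ∀ k, ¬ δ.P x k ∣ δ.W := Pv_not_dvd _ _
  have hlogR : Real.log (δ.R0 x) = δ.ε * L := by
    unfold Dt.R0
    rw [Real.log_rpow hx0, hLdef]
  -- size of the moduli
  have hoff : ∀ d, offL m (δ.lam x) d ≠ 0 → (tot (δ.P x) d : ℝ) ≤ δ.R0 x := by
    intro d hd
    apply hlam2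
    intro h0
    apply hd
    unfold offL
    split_ifs
    · exact h0
    · rfl
  have hmod : ∀ d e, offL m (δ.lam x) d ≠ 0 → offL m (δ.lam x) e ≠ 0 →
      ((δ.W * totJ (δ.P x) d e : ℕ) : ℝ) ≤ x ^ (1 / 2 - δ.ε) := by
    intro d e hd he
    have h1 : (totJ (δ.P x) d e : ℝ) ≤ (tot (δ.P x) d : ℝ) * (tot (δ.P x) e : ℝ) := by
      exact_mod_cast totJ_le_mul hPpos d e
    have h2 : (tot (δ.P x) d : ℝ) * (tot (δ.P x) e : ℝ) ≤ (δ.R0 x) ^ 2 := by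
      rw [sq]
      exact mul_le_mul (hoff d hd) (hoff e he) (Nat.cast_nonneg _) (by linarith)
    calc ((δ.W * totJ (δ.P x) d e : ℕ) : ℝ) = (δ.W : ℝ) * (totJ (δ.P x) d e : ℝ) := by
          push_cast; ring
      _ ≤ (δ.W : ℝ) * (δ.R0 x) ^ 2 :=
          mul_le_mul_of_nonneg_left (h1.trans h2) hWR.le
      _ ≤ _ := hWx
  -- the prime sum
  have hps := prime_sig (δ.P x) hP hinj δ.h (par_diff2 δ x) δ.W δ.b hW0 hPW m (δ.b_cop m) (Wp x)
    (vp J x) (MM J x) E (δ.lam x) hE0 (by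
      intro d e hd he a ha
      exact hE1 _ (Nat.mul_pos hW0 (totJ_pos' hPpos d e)) (hmod d e hd he) a ha)
  have herr := err_sum (δ.P x) hP hinj δ.W hW0 hPW (offL m (δ.lam x))
    ((1 + L) ^ Fintype.card I) (δ.R0 x) (x ^ (1 / 2 - δ.ε)) (x * L ^ (J + 2))
    (x * L ^ J / L ^ (18 * (Fintype.card I) ^ 4 + 4 * Fintype.card I + 4)) hR1.le (by
      intro d
      unfold offL
      split_ifs
      · exact hlam1 d
      · rw [abs_zero]; positivity) hoff E hE0 (by positivity) hWx hE2 hE3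
  rw [hlogR] at herr
  have herr1 : ((1 + L) ^ Fintype.card I) ^ 2 * Real.sqrt (x * L ^ (J + 2) *
      (x * L ^ J / L ^ (18 * (Fintype.card I) ^ 4 + 4 * Fintype.card I + 4))) *
      (1 + 2 * (δ.ε * L)) ^ (9 * Fintype.card I ^ 4) ≤
      ((1 + L) ^ Fintype.card I) ^ 2 * Real.sqrt (x * L ^ (J + 2) *
      (x * L ^ J / L ^ (18 * (Fintype.card I) ^ 4 + 4 * Fintype.card I + 4))) *
      (1 + 2 * (L / 100)) ^ (9 * Fintype.card I ^ 4) := by
    refine mul_le_mul_of_nonneg_left (pow_le_pow_left₀ (by positivity) ?_ _) (by positivity)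
    have h1 : δ.ε * L ≤ 1 / 100 * L := mul_le_mul_of_nonneg_right hε1 hL0.le
    linarith
  have hphe : 1 ≤ (δ.W.totient : ℝ) / δ.ε := by
    rw [le_div_iff₀ hε]
    linarith
  have herr2 := asmB_err (Fintype.card I) J L x ((δ.W.totient : ℝ) / δ.ε) (by linarith) hx0 hphe hL
  have hlow' := hlow (PIdx δ.W (Zx x)) (δ.P x) (δ.lam x) hP (par_P4 δ x hx1) (by
    refine hlam3.trans ?_
    calc x ^ (1 / 50 : ℝ) ≤ x ^ (1 : ℝ) :=
          Real.rpow_le_rpow_of_exponent_le hx1 (by norm_num)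
      _ = x := Real.rpow_one x)
  rw [← hLdef] at hlow'
  have hqm := qm_lower2 (δ.P x) hP hinj hP1 (δ.R0 x) (2 * δ.ε) hR1 (by positivity) (by linarith)
    (δ.g x) hg0 hganti hgone hgR (hP2.trans (by
      apply div_le_div_of_nonneg_right _ (by positivity)
      have e1 : (2 * δ.ε) ^ 2 = 4 * δ.ε ^ 2 := by ring
      have e2 := sq_nonneg δ.ε
      rw [e1]
      linarith)) (hP3.trans (by linarith)) hC m
  change (1 - 10 * (2 * δ.ε)) * (δ.A x m) ^ 2 * ∏ i ∈ univ.erase m, δ.B x i ≤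
    mform (fun k => (1 : ℝ) / (δ.P x k - 1)) (offL m (δ.lam x)) at hqm
  have hlow2 : ∑ p ∈ (Wp x).filter (fun p : ℕ => (δ.W : ℤ) ∣ (p : ℤ) - (δ.b + δ.h m)),
      vp J x p * (∑ d ∈ univ.filter (fun d => dvm (δ.P x) δ.h m d p), offL m (δ.lam x) d) ^ 2 - 1 ≤
      L ^ (J + 1) * ((1 + δ.ε) *
        (∑ N ∈ (δ.WinB x).filter (fun N => (N + δ.h m).Prime), δ.om x N) +
        (∑ N ∈ δ.WinB x, wN x N * (sig (δ.P x) δ.h (δ.lam x) N) ^ 2) / L ^ 4) := hlow'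
  obtain ⟨hA1, hB1, -, -, -⟩ := hAB m
  have hB1' : ∀ i, 1 ≤ δ.B x i := fun i => (hAB i).2.1
  have hPi : 1 ≤ ∏ i ∈ univ.erase m, δ.B x i := by
    calc (1 : ℝ) = ∏ i ∈ univ.erase m, (1 : ℝ) := by simp
      _ ≤ ∏ i ∈ univ.erase m, δ.B x i :=
        Finset.prod_le_prod (fun _ _ => zero_le_one) (fun i _ => hB1' i)
  have hprod : ∏ i, δ.B x i = δ.B x m * ∏ i ∈ univ.erase m, δ.B x i :=
    (Finset.mul_prod_erase univ (δ.B x) (Finset.mem_univ m)).symm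
  rw [hprod] at hT1
  obtain ⟨G, hG⟩ : ∃ G : ℝ, G = δ.A x m ^ 2 * ∏ i ∈ univ.erase m, δ.B x i := ⟨_, rfl⟩
  have hA2 : 1 ≤ δ.A x m ^ 2 := one_le_pow₀ hA1
  have hG1 : 1 ≤ G := by
    rw [hG]
    exact one_le_mul_of_one_le_of_one_le hA2 hPi
  have hBA : δ.B x m * ∏ i ∈ univ.erase m, δ.B x i ≤ G := by
    rw [hG]
    refine mul_le_mul_of_nonneg_right ?_ (by linarith)
    have h1 := a2_Bm δ x m hg0 hg1
    exact h1.trans (le_self_pow₀ hA1 two_ne_zero)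
  have hXG0 : 0 < XG x := by linarith [hmass.1]
  have hLJ : 0 < L ^ J := by positivity
  have hLJ1 : 1 ≤ L ^ J := one_le_pow₀ (by linarith)
  obtain ⟨U, hU⟩ : ∃ U : ℝ, U = XG x / δ.W.totient * G := ⟨_, rfl⟩
  have hXp : 0 ≤ XG x / δ.W.totient := by positivity
  have hU0 : 0 ≤ U := by rw [hU]; positivity
  have hUx : XG x / δ.W.totient ≤ U := by
    rw [hU]
    exact le_mul_of_one_le_right hXp hG1
  have hfin := a2_fin δ.ε L (L ^ J) U
    (∑ N ∈ (δ.WinB x).filter (fun N => (N + δ.h m).Prime), δ.om x N)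
    ((∑ N ∈ δ.WinB x, wN x N * (sig (δ.P x) δ.h (δ.lam x) N) ^ 2) / L ^ 4)
    (x * L ^ J / (320 * ((δ.W.totient : ℝ) / δ.ε)))
    (MM J x / (δ.W.totient : ℝ) * mform (fun k => (1 : ℝ) / (δ.P x k - 1)) (offL m (δ.lam x)))
    hε hε1 (by linarith) hLJ hU0 (by
      have herr3 := ((hps.trans herr).trans herr1).trans herr2
      have h1 := (abs_le.mp herr3).1
      have e1 : L * L ^ J = L ^ (J + 1) := by ring
      rw [e1]
      linarith [hlow2]) (by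
      have h1 : (1 - δ.ε) * (L ^ J * XG x) / δ.W.totient ≤ MM J x / δ.W.totient :=
        div_le_div_of_nonneg_right hmm.1 hphi0.le
      have h2 : (1 - 20 * δ.ε) * G ≤ mform (fun k => (1 : ℝ) / (δ.P x k - 1)) (offL m (δ.lam x)) := by
        rw [hG]
        linarith [hqm]
      have h3 : 0 ≤ (1 - 20 * δ.ε) * G := mul_nonneg (by linarith) (by linarith)
      have h4 : 0 ≤ (1 - δ.ε) * (L ^ J * XG x) / δ.W.totient :=
        div_nonneg (mul_nonneg (by linarith) (by positivity)) hphi0.le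
      calc (1 - δ.ε) * (1 - 20 * δ.ε) * (L ^ J * U)
          = (1 - δ.ε) * (L ^ J * XG x) / δ.W.totient * ((1 - 20 * δ.ε) * G) := by
            rw [hU]
            field_simp
        _ ≤ _ := mul_le_mul h1 h2 h3 (h4.trans h1)) (by
      have h1 : x * L ^ J / (320 * ((δ.W.totient : ℝ) / δ.ε)) ≤
          δ.ε / 40 * (L ^ J * (XG x / δ.W.totient)) := by
        have e1 : x * L ^ J / (320 * ((δ.W.totient : ℝ) / δ.ε)) =
            δ.ε / 40 * (L ^ J * (x / 8 / δ.W.totient)) := by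
          field_simp
          ring
        rw [e1]
        have h2 : x / 8 / (δ.W.totient : ℝ) ≤ XG x / δ.W.totient :=
          div_le_div_of_nonneg_right hmass.1 hphi0.le
        gcongr
      have h2 : (1 : ℝ) ≤ x * L ^ J / (320 * ((δ.W.totient : ℝ) / δ.ε)) := by
        rw [le_div_iff₀ (by positivity), one_mul]
        calc 320 * ((δ.W.totient : ℝ) / δ.ε) ≤ x := hxphi
          _ = x * 1 := (mul_one x).symm
          _ ≤ x * L ^ J := by gcongr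
      have h3 : δ.ε / 40 * (L ^ J * (XG x / δ.W.totient)) ≤ δ.ε / 40 * (L ^ J * U) := by
        gcongr
      have h4 : 0 ≤ δ.ε * (L ^ J * U) := by positivity
      linarith) (by
      have h1 : (∑ N ∈ δ.WinB x, wN x N * (sig (δ.P x) δ.h (δ.lam x) N) ^ 2) ≤ 1920 * U := by
        refine hT1.trans ?_
        have h2 : x / (δ.W : ℝ) ≤ x / δ.W.totient :=
          div_le_div_of_nonneg_left hx0.le hphi0 hphiW
        have h3 : x / (δ.W.totient : ℝ) ≤ 8 * (XG x / δ.W.totient) := by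
          rw [← mul_div_assoc]
          exact div_le_div_of_nonneg_right (by linarith [hmass.1]) hphi0.le
        have h4 : 0 ≤ δ.B x m * ∏ i ∈ univ.erase m, δ.B x i :=
          mul_nonneg (by linarith) (by linarith)
        calc 240 * (x / (δ.W : ℝ) * (δ.B x m * ∏ i ∈ univ.erase m, δ.B x i))
            ≤ 240 * (8 * (XG x / δ.W.totient) * G) := by
              refine mul_le_mul_of_nonneg_left ?_ (by norm_num)
              exact mul_le_mul (h2.trans h3) hBA h4 (by positivity)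
          _ = 1920 * U := by rw [hU]; ring
      have h5 : L * ((∑ N ∈ δ.WinB x, wN x N * (sig (δ.P x) δ.h (δ.lam x) N) ^ 2) / L ^ 4) =
          (∑ N ∈ δ.WinB x, wN x N * (sig (δ.P x) δ.h (δ.lam x) N) ^ 2) / L ^ 3 := by
        field_simp
      rw [h5, div_le_iff₀ (by positivity)]
      refine h1.trans ?_
      have h6 : 1920 ≤ δ.ε * L := by
        rw [div_le_iff₀ hε] at hL2
        linarith
      have h7 : 1 ≤ L ^ 2 := one_le_pow₀ (by linarith)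
      have h8 : 1920 ≤ δ.ε * L ^ 3 := by
        calc (1920 : ℝ) ≤ δ.ε * L := h6
          _ = δ.ε * L * 1 := (mul_one _).symm
          _ ≤ δ.ε * L * L ^ 2 := mul_le_mul_of_nonneg_left h7 (by positivity)
          _ = δ.ε * L ^ 3 := by ring
      calc 1920 * U ≤ δ.ε * L ^ 3 * U := mul_le_mul_of_nonneg_right h8 hU0
        _ = δ.ε * U * L ^ 3 := by ring)
  refine le_trans (le_of_eq ?_) hfin
  rw [hU, ← hG]
  ring

end Pool.Agent.H21.SH
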