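import Pool.Agent.H21.MT.Ev

/-!
[H21 SH EV]  The typical event has almost the total mass.

Proof.  As `mass_good` in `Pool/Agent/H21/MT/Ev.lean` (all general lemmas there: `sum_famJ`, `moment_le`,
`moment_log`, `toT`, `lab_eq`, `tot_eq_J`, `small_eq_J`, `exists_toT` can be used; `goodS`, `okT`,
`one_le_bad` have to be copied with the new constants).  `K = |I|`, `σ = ∑ k, 1/P k^2 ≤ ε^2/(10 K^2)`.
Bad weights: (a) not pairwise disjoint: `≤ K^2 σ ∏ Z ≤ (ε^2/10) ∏ Z`; (b) `∑_{k ∈ s} 1/P k > ε/K`: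
Markov with factor `K/ε`, mean `≤ K σ`: `≤ (K^2 σ/ε) ∏ Z ≤ (ε/10) ∏ Z`; (c) `(tot s)^2 > R`:
`≤ (2/log R) ∑_i SS P (u_i log)/Z_i ∏ Z ≤ 2 ε ∏ Z`.  Total `≤ 4 ε ∏ Z` (`ε ≤ 1`).
-/

namespace Pool.Agent.H21.SH

open Finset Pool.Agent.H21.MT

variable {ι I : Type} [Fintype ι] [DecidableEq ι] [Fintype I] [DecidableEq I]

/-- the typical labelled numbers with labels in `J` -/
noncomputable def goodE (P : ι → ℕ) (J : Finset I) (R ε : ℝ) : Finset (ι → Option I) :=
  by
    classical
    exact univ.filter (fun s => (∀ k i, s k = some i → i ∈ J) ∧ (tot P s : ℝ) ^ 2 ≤ R ∧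
      ∑ k, (if s k = none then 0 else 1 / (P k : ℝ)) ≤ ε / (Fintype.card I : ℝ))

/-- the indicator of a typical family -/
noncomputable def okE (P : ι → ℕ) (J : Finset I) (R ε : ℝ) (T : I → Finset ι) : Prop :=
  (∀ i ∈ J, ∀ j ∈ J, i ≠ j → ∀ k, ¬ (k ∈ T i ∧ k ∈ T j)) ∧
  ((∏ i ∈ J, nrm P (T i) : ℕ) : ℝ) ^ 2 ≤ R ∧
  ∑ i ∈ J, ∑ k, (if k ∈ T i then 1 / (P k : ℝ) else 0) ≤ ε / (Fintype.card I : ℝ)

open Classical in
theorem one_le_bad2 (P : ι → ℕ) (hP : ∀ k, 0 < P k) (J : Finset I) (hJ : J.Nonempty) (R ε : ℝ)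
    (hR : 1 < R) (hε : 0 < ε) (T : I → Finset ι) :
    (1 : ℝ) ≤ (if okE P J R ε T then 1 else 0) +
      ∑ p ∈ J.offDiag, ∑ k, (∏ i ∈ ({p.1, p.2} : Finset I), (if k ∈ T i then (1 : ℝ) else 0)) +
      (Fintype.card I : ℝ) / ε *
        ∑ j ∈ J, ∑ k, (1 / (P k : ℝ)) * (∏ i ∈ ({j} : Finset I), (if k ∈ T i then (1 : ℝ) else 0)) +
      (2 / Real.log R) * ∑ j ∈ J, Real.log (nrm P (T j)) := by
  have hlR : 0 < Real.log R := Real.log_pos hR
  have hK : 0 < (Fintype.card I : ℝ) := by
    obtain ⟨i, _⟩ := hJ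
    have : 0 < Fintype.card I := Fintype.card_pos_iff.mpr ⟨i⟩
    exact_mod_cast this
  have h1 : 0 ≤ ∑ p ∈ J.offDiag, ∑ k, (∏ i ∈ ({p.1, p.2} : Finset I),
      (if k ∈ T i then (1 : ℝ) else 0)) := by
    apply Finset.sum_nonneg
    intro p _
    apply Finset.sum_nonneg
    intro k _
    apply Finset.prod_nonneg
    intro i _
    split_ifs <;> norm_num
  have h2 : 0 ≤ ∑ j ∈ J, ∑ k, (1 / (P k : ℝ)) * (∏ i ∈ ({j} : Finset I),
      (if k ∈ T i then (1 : ℝ) else 0)) := by
    apply Finset.sum_nonneg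
    intro p _
    apply Finset.sum_nonneg
    intro k _
    apply mul_nonneg (by positivity)
    apply Finset.prod_nonneg
    intro i _
    split_ifs <;> norm_num
  have hlog0 : ∀ t : Finset ι, 0 ≤ Real.log (nrm P t) := by
    intro t
    apply Real.log_nonneg
    exact_mod_cast nrm_pos hP t
  have h3 : 0 ≤ ∑ j ∈ J, Real.log (nrm P (T j)) :=
    Finset.sum_nonneg fun j _ => hlog0 (T j)
  have h2' : 0 ≤ (Fintype.card I : ℝ) / ε *
        ∑ j ∈ J, ∑ k, (1 / (P k : ℝ)) * (∏ i ∈ ({j} : Finset I),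
          (if k ∈ T i then (1 : ℝ) else 0)) := by positivity
  have h3' : 0 ≤ (2 / Real.log R) * ∑ j ∈ J, Real.log (nrm P (T j)) := by positivity
  by_cases hok : okE P J R ε T
  · rw [if_pos hok]
    linarith
  · rw [if_neg hok]
    by_cases ha : ∀ i ∈ J, ∀ j ∈ J, i ≠ j → ∀ k, ¬ (k ∈ T i ∧ k ∈ T j)
    · by_cases hb : ∑ i ∈ J, ∑ k, (if k ∈ T i then 1 / (P k : ℝ) else 0) ≤
        ε / (Fintype.card I : ℝ)
      · have hc : ¬ (((∏ i ∈ J, nrm P (T i) : ℕ) : ℝ) ^ 2 ≤ R) := by
          intro hc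
          exact hok ⟨ha, hc, hb⟩
        push Not at hc
        have hlog : Real.log R < 2 * ∑ j ∈ J, Real.log (nrm P (T j)) := by
          have h4 := Real.log_lt_log (by linarith) hc
          rw [Real.log_pow, Nat.cast_prod, Real.log_prod] at h4
          · simpa using h4
          · intro i _
            have := nrm_pos hP (T i)
            positivity
        have : 1 ≤ (2 / Real.log R) * ∑ j ∈ J, Real.log (nrm P (T j)) := by
          rw [div_mul_eq_mul_div, le_div_iff₀ hlR]
          linarith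
        linarith
      · push Not at hb
        have e : ∑ j ∈ J, ∑ k, (1 / (P k : ℝ)) * (∏ i ∈ ({j} : Finset I),
            (if k ∈ T i then (1 : ℝ) else 0)) =
            ∑ i ∈ J, ∑ k, (if k ∈ T i then 1 / (P k : ℝ) else 0) := by
          apply Finset.sum_congr rfl
          intro j _
          apply Finset.sum_congr rfl
          intro k _
          rw [Finset.prod_singleton]
          split_ifs <;> simp
        rw [e]
        have : 1 ≤ (Fintype.card I : ℝ) / ε *
            ∑ i ∈ J, ∑ k, (if k ∈ T i then 1 / (P k : ℝ) else 0) := by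
          rw [div_lt_iff₀ hK] at hb
          rw [div_mul_eq_mul_div, one_le_div hε]
          linarith
        rw [e] at h2'
        linarith
    · push Not at ha
      obtain ⟨i, hi, j, hj, hij, k, hki, hkj⟩ := ha
      have hp : (i, j) ∈ J.offDiag := Finset.mem_offDiag.mpr ⟨hi, hj, hij⟩
      have : (1 : ℝ) ≤ ∑ p ∈ J.offDiag, ∑ k, (∏ i ∈ ({p.1, p.2} : Finset I),
          (if k ∈ T i then (1 : ℝ) else 0)) := by
        have h5 : (1 : ℝ) ≤ ∑ k, (∏ l ∈ ({i, j} : Finset I), (if k ∈ T l then (1 : ℝ) else 0)) := by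
          refine le_trans ?_ (Finset.single_le_sum (f := fun k =>
            (∏ l ∈ ({i, j} : Finset I), (if k ∈ T l then (1 : ℝ) else 0))) ?_ (Finset.mem_univ k))
          · rw [Finset.prod_pair hij]
            simp [hki, hkj]
          · intro k' _
            apply Finset.prod_nonneg
            intro i _
            split_ifs <;> norm_num
        refine le_trans h5 (Finset.single_le_sum (f := fun p : I × I => ∑ k,
            (∏ i ∈ ({p.1, p.2} : Finset I), (if k ∈ T i then (1 : ℝ) else 0))) ?_ hp)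
        intro p _
        apply Finset.sum_nonneg
        intro k' _
        apply Finset.prod_nonneg
        intro i _
        split_ifs <;> norm_num
      linarith

theorem mass_good2 (P : ι → ℕ) (hP : ∀ k, (P k).Prime) (hinj : Function.Injective P)
    (J : Finset I) (R ε : ℝ) (hR : 1 < R) (hε : 0 < ε) (hε1 : ε ≤ 1) (u : I → ℕ → ℝ)
    (hu0 : ∀ i b, 0 ≤ u i b) (hu : ∀ i, Antitone (u i)) (hu1 : ∀ i, 0 < u i 1)
    (hσ : ∑ k, 1 / (P k : ℝ) ^ 2 ≤ ε ^ 2 / (10 * (Fintype.card I : ℝ) ^ 2))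
    (hC : ∑ i ∈ J, SS P (fun b => u i b * Real.log b) / SS P (u i) ≤ ε * Real.log R) :
    (1 - 4 * ε) * ∏ i ∈ J, SS P (u i) ≤
      ∑ s ∈ goodE P J R ε, (∏ i ∈ J, u i (lab P s i)) / tot P s := by
  classical
  rcases J.eq_empty_or_nonempty with hJ | hJ
  · subst hJ
    have h1 : (fun _ => none : ι → Option I) ∈ goodE P (∅ : Finset I) R ε := by
      unfold goodE
      rw [Finset.mem_filter]
      refine ⟨Finset.mem_univ _, fun k i h => by simp at h, ?_, ?_⟩
      · simp [tot]
        exact hR.le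
      · simp
        positivity
    have h2 := Finset.single_le_sum (f := fun s : ι → Option I =>
      (∏ i ∈ (∅ : Finset I), u i (lab P s i)) / (tot P s : ℝ)) (s := goodE P (∅ : Finset I) R ε)
      (fun s _ => by
        rw [Finset.prod_empty]
        positivity) h1
    rw [Finset.prod_empty] at h2 ⊢
    refine le_trans ?_ h2
    simp [tot]
    linarith
  · have hP0 : ∀ k, 0 < P k := fun k => (hP k).pos
    have hlR : 0 < Real.log R := Real.log_pos hR
    have hKn : 0 < Fintype.card I := by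
      obtain ⟨i, _⟩ := hJ
      exact Fintype.card_pos_iff.mpr ⟨i⟩
    have hK : 0 < (Fintype.card I : ℝ) := by exact_mod_cast hKn
    set K : ℝ := (Fintype.card I : ℝ) with hKdef
    set σ : ℝ := ∑ k, 1 / (P k : ℝ) ^ 2 with hσdef
    have hσ0 : 0 ≤ σ := Finset.sum_nonneg fun k _ => by positivity
    have hZpos : ∀ i, 0 < SS P (u i) := by
      intro i
      unfold SS
      apply Finset.sum_pos'
      · intro t _
        exact div_nonneg (hu0 i _) (Nat.cast_nonneg _)
      · refine ⟨∅, Finset.mem_univ _, ?_⟩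
        simp only [nrm, Finset.prod_empty, Nat.cast_one, div_one]
        exact hu1 i
    set Z : ℝ := ∏ i ∈ J, SS P (u i) with hZdef
    have hZ0 : 0 < Z := Finset.prod_pos fun i _ => hZpos i
    set ω : (I → Finset ι) → ℝ := fun T => ∏ i ∈ J, u i (nrm P (T i)) / nrm P (T i) with hω
    have hω0 : ∀ T, 0 ≤ ω T := fun T =>
      Finset.prod_nonneg fun i _ => div_nonneg (hu0 i _) (Nat.cast_nonneg _)
    have htot : ∑ T ∈ famJ (ι := ι) J, ω T = Z := sum_famJ J (fun i t => u i (nrm P t) / nrm P t)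
    -- the three bad parts
    have hA : ∑ T ∈ famJ (ι := ι) J, ω T * (∑ p ∈ J.offDiag, ∑ k,
        (∏ i ∈ ({p.1, p.2} : Finset I), (if k ∈ T i then (1 : ℝ) else 0))) ≤ K ^ 2 * σ * Z := by
      have e : ∑ T ∈ famJ (ι := ι) J, ω T * (∑ p ∈ J.offDiag, ∑ k,
        (∏ i ∈ ({p.1, p.2} : Finset I), (if k ∈ T i then (1 : ℝ) else 0))) =
        ∑ p ∈ J.offDiag, ∑ k, ∑ T ∈ famJ (ι := ι) J, ω T *
          (∏ i ∈ ({p.1, p.2} : Finset I), (if k ∈ T i then (1 : ℝ) else 0)) := by
        rw [Finset.sum_congr rfl (fun T _ => Finset.mul_sum _ _ _), Finset.sum_comm]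
        apply Finset.sum_congr rfl
        intro p _
        rw [Finset.sum_congr rfl (fun T _ => Finset.mul_sum _ _ _), Finset.sum_comm]
      rw [e]
      have h1 : ∀ p ∈ J.offDiag, ∑ k, ∑ T ∈ famJ (ι := ι) J, ω T *
          (∏ i ∈ ({p.1, p.2} : Finset I), (if k ∈ T i then (1 : ℝ) else 0)) ≤ σ * Z := by
        intro p hp
        obtain ⟨hp1, hp2, hne⟩ := Finset.mem_offDiag.mp hp
        rw [hσdef, Finset.sum_mul]
        apply Finset.sum_le_sum
        intro k _
        have hsub : ({p.1, p.2} : Finset I) ⊆ J := by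
          intro x hx
          simp only [mem_insert, mem_singleton] at hx
          rcases hx with rfl | rfl
          · exact hp1
          · exact hp2
        have h2 := moment_le P hP J u hu0 hu _ hsub k
        rw [Finset.card_pair hne] at h2
        refine le_trans h2 (le_of_eq ?_)
        rw [one_div_pow]
      refine le_trans (Finset.sum_le_sum h1) ?_
      rw [Finset.sum_const, nsmul_eq_mul]
      have hcard : ((J.offDiag.card : ℕ) : ℝ) ≤ K ^ 2 := by
        have h2 : J.offDiag.card ≤ Fintype.card I ^ 2 := by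
          calc J.offDiag.card ≤ (J ×ˢ J).card := by
                apply Finset.card_le_card
                intro p hp
                obtain ⟨hp1, hp2, _⟩ := Finset.mem_offDiag.mp hp
                exact Finset.mem_product.mpr ⟨hp1, hp2⟩
            _ = J.card * J.card := Finset.card_product _ _
            _ ≤ Fintype.card I * Fintype.card I :=
                Nat.mul_le_mul (Finset.card_le_univ J) (Finset.card_le_univ J)
            _ = Fintype.card I ^ 2 := by ring
        rw [hKdef]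
        exact_mod_cast h2
      calc ((J.offDiag.card : ℕ) : ℝ) * (σ * Z) ≤ K ^ 2 * (σ * Z) :=
            mul_le_mul_of_nonneg_right hcard (by positivity)
        _ = K ^ 2 * σ * Z := by ring
    have hB : ∑ T ∈ famJ (ι := ι) J, ω T * (∑ j ∈ J, ∑ k, (1 / (P k : ℝ)) *
        (∏ i ∈ ({j} : Finset I), (if k ∈ T i then (1 : ℝ) else 0))) ≤ K * σ * Z := by
      have e : ∑ T ∈ famJ (ι := ι) J, ω T * (∑ j ∈ J, ∑ k, (1 / (P k : ℝ)) *
        (∏ i ∈ ({j} : Finset I), (if k ∈ T i then (1 : ℝ) else 0))) =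
        ∑ j ∈ J, ∑ k, (1 / (P k : ℝ)) * ∑ T ∈ famJ (ι := ι) J, ω T *
          (∏ i ∈ ({j} : Finset I), (if k ∈ T i then (1 : ℝ) else 0)) := by
        rw [Finset.sum_congr rfl (fun T _ => Finset.mul_sum _ _ _), Finset.sum_comm]
        apply Finset.sum_congr rfl
        intro p _
        rw [Finset.sum_congr rfl (fun T _ => Finset.mul_sum _ _ _), Finset.sum_comm]
        apply Finset.sum_congr rfl
        intro k _
        rw [Finset.mul_sum]
        apply Finset.sum_congr rfl
        intro T _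
        ring
      rw [e]
      have h1 : ∀ j ∈ J, ∑ k, (1 / (P k : ℝ)) * ∑ T ∈ famJ (ι := ι) J, ω T *
          (∏ i ∈ ({j} : Finset I), (if k ∈ T i then (1 : ℝ) else 0)) ≤ σ * Z := by
        intro j hj
        rw [hσdef, Finset.sum_mul]
        apply Finset.sum_le_sum
        intro k _
        have hsub : ({j} : Finset I) ⊆ J := by
          intro x hx
          rw [Finset.mem_singleton] at hx
          rw [hx]
          exact hj
        have h2 := moment_le P hP J u hu0 hu _ hsub k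
        rw [Finset.card_singleton, pow_one] at h2
        calc (1 / (P k : ℝ)) * ∑ T ∈ famJ (ι := ι) J, ω T *
          (∏ i ∈ ({j} : Finset I), (if k ∈ T i then (1 : ℝ) else 0)) ≤
            (1 / (P k : ℝ)) * (1 / (P k : ℝ) * ∏ i ∈ J, SS P (u i)) :=
              mul_le_mul_of_nonneg_left h2 (by positivity)
          _ = 1 / (P k : ℝ) ^ 2 * Z := by
              rw [hZdef]
              ring
      refine le_trans (Finset.sum_le_sum h1) ?_
      rw [Finset.sum_const, nsmul_eq_mul]
      have hcard : ((J.card : ℕ) : ℝ) ≤ K := by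
        rw [hKdef]
        exact_mod_cast Finset.card_le_univ J
      calc ((J.card : ℕ) : ℝ) * (σ * Z) ≤ K * (σ * Z) :=
            mul_le_mul_of_nonneg_right hcard (by positivity)
        _ = K * σ * Z := by ring
    have hC' : ∑ T ∈ famJ (ι := ι) J, ω T * (∑ j ∈ J, Real.log (nrm P (T j))) ≤
        ε * Real.log R * Z := by
      have e : ∑ T ∈ famJ (ι := ι) J, ω T * (∑ j ∈ J, Real.log (nrm P (T j))) =
        ∑ j ∈ J, SS P (fun b => u j b * Real.log b) / SS P (u j) * Z := by
        rw [Finset.sum_congr rfl (fun T _ => Finset.mul_sum _ _ _), Finset.sum_comm]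
        apply Finset.sum_congr rfl
        intro j hj
        exact moment_log P J u (fun i _ => (hZpos i).ne') j hj
      rw [e, ← Finset.sum_mul]
      exact mul_le_mul_of_nonneg_right hC hZ0.le
    have hmain : Z ≤ ∑ T ∈ (famJ (ι := ι) J).filter (fun T => okE P J R ε T), ω T +
        (K ^ 2 * σ * Z + K / ε * (K * σ * Z) + (2 / Real.log R) * (ε * Real.log R * Z)) := by
      have h1 : Z ≤ ∑ T ∈ famJ (ι := ι) J, ω T * ((if okE P J R ε T then 1 else 0) +
        ∑ p ∈ J.offDiag, ∑ k, (∏ i ∈ ({p.1, p.2} : Finset I), (if k ∈ T i then (1 : ℝ) else 0)) +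
        K / ε *
          ∑ j ∈ J, ∑ k, (1 / (P k : ℝ)) * (∏ i ∈ ({j} : Finset I), (if k ∈ T i then (1 : ℝ) else 0)) +
        (2 / Real.log R) * ∑ j ∈ J, Real.log (nrm P (T j))) := by
        rw [← htot]
        apply Finset.sum_le_sum
        intro T _
        have h2 := one_le_bad2 P hP0 J hJ R ε hR hε T
        calc ω T = ω T * 1 := (mul_one _).symm
          _ ≤ _ := mul_le_mul_of_nonneg_left h2 (hω0 T)
      have h2 : ∑ T ∈ famJ (ι := ι) J, ω T * ((if okE P J R ε T then 1 else 0) +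
        ∑ p ∈ J.offDiag, ∑ k, (∏ i ∈ ({p.1, p.2} : Finset I), (if k ∈ T i then (1 : ℝ) else 0)) +
        K / ε *
          ∑ j ∈ J, ∑ k, (1 / (P k : ℝ)) * (∏ i ∈ ({j} : Finset I), (if k ∈ T i then (1 : ℝ) else 0)) +
        (2 / Real.log R) * ∑ j ∈ J, Real.log (nrm P (T j))) =
        ∑ T ∈ (famJ (ι := ι) J).filter (fun T => okE P J R ε T), ω T +
        (∑ T ∈ famJ (ι := ι) J, ω T * (∑ p ∈ J.offDiag, ∑ k,
        (∏ i ∈ ({p.1, p.2} : Finset I), (if k ∈ T i then (1 : ℝ) else 0))) +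
        K / ε * ∑ T ∈ famJ (ι := ι) J, ω T * (∑ j ∈ J, ∑ k, (1 / (P k : ℝ)) *
        (∏ i ∈ ({j} : Finset I), (if k ∈ T i then (1 : ℝ) else 0))) +
        (2 / Real.log R) * ∑ T ∈ famJ (ι := ι) J, ω T * (∑ j ∈ J, Real.log (nrm P (T j)))) := by
        rw [Finset.sum_filter, Finset.mul_sum, Finset.mul_sum, ← Finset.sum_add_distrib,
          ← Finset.sum_add_distrib, ← Finset.sum_add_distrib]
        apply Finset.sum_congr rfl
        intro T _
        split_ifs <;> ring
      rw [h2] at h1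
      have h3 : K / ε * ∑ T ∈ famJ (ι := ι) J, ω T * (∑ j ∈ J, ∑ k, (1 / (P k : ℝ)) *
        (∏ i ∈ ({j} : Finset I), (if k ∈ T i then (1 : ℝ) else 0))) ≤ K / ε * (K * σ * Z) :=
        mul_le_mul_of_nonneg_left hB (by positivity)
      have h4 : (2 / Real.log R) * ∑ T ∈ famJ (ι := ι) J, ω T * (∑ j ∈ J, Real.log (nrm P (T j))) ≤
        (2 / Real.log R) * (ε * Real.log R * Z) :=
        mul_le_mul_of_nonneg_left hC' (by positivity)
      linarith
    have hKσ : K ^ 2 * σ ≤ ε ^ 2 / 10 := by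
      have h1 : K ^ 2 * σ ≤ K ^ 2 * (ε ^ 2 / (10 * K ^ 2)) :=
        mul_le_mul_of_nonneg_left hσ (by positivity)
      have h2 : K ^ 2 * (ε ^ 2 / (10 * K ^ 2)) = ε ^ 2 / 10 := by field_simp
      linarith
    have hgood : (1 - 4 * ε) * Z ≤ ∑ T ∈ (famJ (ι := ι) J).filter (fun T => okE P J R ε T), ω T := by
      have e1 : K ^ 2 * σ * Z + K / ε * (K * σ * Z) + (2 / Real.log R) * (ε * Real.log R * Z) =
          (K ^ 2 * σ) * Z + (K ^ 2 * σ) * Z / ε + 2 * ε * Z := by
        have e2 : (2 / Real.log R) * (ε * Real.log R * Z) = 2 * ε * Z := by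
          field_simp
        rw [e2]
        ring
      rw [e1] at hmain
      have h1 : K ^ 2 * σ * Z ≤ ε ^ 2 / 10 * Z := mul_le_mul_of_nonneg_right hKσ hZ0.le
      have h2 : K ^ 2 * σ * Z / ε ≤ ε / 10 * Z := by
        rw [div_le_iff₀ hε]
        calc K ^ 2 * σ * Z ≤ ε ^ 2 / 10 * Z := h1
          _ = ε / 10 * Z * ε := by ring
      have h3 : ε ^ 2 ≤ ε := by nlinarith
      have h4 : ε ^ 2 / 10 * Z ≤ ε / 10 * Z := by
        apply mul_le_mul_of_nonneg_right _ hZ0.le
        linarith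
      have h5 : 0 ≤ ε * Z := by positivity
      linarith
    refine le_trans hgood ?_
    have hterm : ∀ s ∈ goodE P J R ε, (∏ i ∈ J, u i (lab P s i)) / tot P s = ω (toT s) := by
      intro s hs
      have hs' : (∀ k i, s k = some i → i ∈ J) := by
        unfold goodE at hs
        exact (Finset.mem_filter.mp hs).2.1
      rw [tot_eq_J P J s hs', hω]
      simp only
      rw [Finset.prod_div_distrib, Nat.cast_prod]
      congr 1
      apply Finset.prod_congr rfl
      intro i _
      rw [lab_eq]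
    rw [Finset.sum_congr rfl hterm, ← Finset.sum_image (f := ω) (g := toT)
      (fun a _ b _ h => toT_inj h)]
    apply Finset.sum_le_sum_of_subset_of_nonneg
    · intro T hT
      obtain ⟨hT1, hT2, hT3, hT4⟩ := Finset.mem_filter.mp hT
      obtain ⟨s, hs1, hs2⟩ := exists_toT J T hT1 hT2
      refine Finset.mem_image.mpr ⟨s, ?_, hs2⟩
      unfold goodE
      refine Finset.mem_filter.mpr ⟨Finset.mem_univ _, hs1, ?_, ?_⟩
      · rw [tot_eq_J P J s hs1, hs2]
        exact hT3
      · rw [small_eq_J P J s hs1, hs2]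
        exact hT4
    · intro T _ _
      exact hω0 T

end Pool.Agent.H21.SH
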