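import Pool.Agent.H21.MT.Mob2
import Pool.Agent.H21.MT.Rho

/-!
[H21 SH MB]  Upper bound of the coefficients for `π = 1/(p-1)`, without label `m`.

Proof.  Let `r` have no label `m`, `K = |I|`.  By `cc_eq_loc` and `abs_locf` (in
`Pool/Agent/H21/MT/Mob2.lean`; they are stated with private definitions `locf`, `loca`, which can be
copied), `|cc r| ≤ ∑_{s ⊇ r} |F s|/tot s * ∏ k, loca k`, where `loca k = P k` if `r k ≠ none`, `1` if
`r k = none` and `s k ∈ {none, some m}`, and `1/(P k - 1)` if `r k = none`, `s k = some i`, `i ≠ m`.
For `s ⊇ r` let `T = {k | s k = some m}` and `E = {k | r k = none, s k = some i with i ≠ m}`, so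
`tot s = tot r * nrm T * nrm E`.  Since `u i` is antitone and `lab r i ∣ lab s i` (`i ≠ m`),
`rho (lab s i) = rho (lab r i) * ∏_{k ∈ E, s k = some i} (1 + 1/P k)`, `lab s m = nrm T`:
`|F s| ≤ a * u m (nrm T) rho(nrm T)^t * (∏_{i ≠ m} u i (lab r i) rho (lab r i)^t) * ∏_{k ∈ E} (1+1/P k)^t`.
So `|cc r| ≤ a (∏_{i≠m} ..) ∑_T u m (nrm T) rho(nrm T)^t / nrm T * ∑_E-part ∏_{k ∈ E} (1+1/P k)^t /(P k (P k - 1))`,
the sum over `T` (all finsets) is `SS P (u m rho^t)`, the sum over the labellings of `E` (labels `≠ m`,
at most `K` choices for each `k`) is at most `∏ k (1 + K (1+1/P k)^t/(P k (P k - 1)))`.  (The map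
`s ↦ (T, E-part)` is injective.)
-/

namespace Pool.Agent.H21.SH

open Finset Pool.Agent.H21.MT

variable {ι I : Type} [Fintype ι] [DecidableEq ι] [Fintype I] [DecidableEq I]

/-- the local factors of the inner sums -/
private noncomputable def locf (P : ι → ℕ) (m : I) (r s : ι → Option I) (k : ι) : ℝ :=
  if r k ≠ none then -(P k : ℝ) else if s k = none ∨ s k = some m then 1 else -(1 / ((P k : ℝ) - 1))

private theorem cast_tot (P : ι → ℕ) (d : ι → Option I) :
    (tot P d : ℝ) = ∏ k, if d k = none then (1 : ℝ) else P k := by
  unfold tot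
  push_cast
  rfl

private theorem inner (P : ι → ℕ) (hP : ∀ k, 2 ≤ P k) (m : I) (r s : ι → Option I)
    (hr : noL m r) (hrs : sub r s) :
    ∑ d ∈ univ.filter (fun d => sub r d ∧ sub d s ∧ noL m d), mu d * tot P d *
      ∏ k, (if r k = none ∧ d k ≠ none then (1 : ℝ) / (P k - 1) else 1) =
    ∏ k, locf P m r s k := by
  have hset : (univ.filter (fun d => sub r d ∧ sub d s ∧ noL m d) : Finset (ι → Option I)) =
      Fintype.piFinset (fun k => if r k ≠ none then {r k} else
        if s k = none ∨ s k = some m then {none} else {none, s k}) := by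
    ext d
    rw [Finset.mem_filter, Fintype.mem_piFinset]
    constructor
    · rintro ⟨-, h1, h2, h3⟩ k
      have a1 := h1 k
      have a2 := h2 k
      have a3 := h3 k
      by_cases hk : r k = none
      · rw [if_neg (not_not.mpr hk)]
        split_ifs with h4
        · rw [Finset.mem_singleton]
          rcases a2 with a2 | a2
          · exact a2
          · rcases h4 with h4 | h4
            · rw [a2, h4]
            · exact absurd (a2.trans h4) a3
        · rw [Finset.mem_insert, Finset.mem_singleton]
          exact a2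
      · rw [if_pos hk, Finset.mem_singleton]
        rcases a1 with a1 | a1
        · exact absurd a1 hk
        · exact a1.symm
    · intro h
      refine ⟨Finset.mem_univ _, fun k => ?_, fun k => ?_, fun k => ?_⟩
      · have hk := h k
        by_cases h1 : r k = none
        · exact Or.inl h1
        · rw [if_pos h1, Finset.mem_singleton] at hk
          exact Or.inr hk.symm
      · have hk := h k
        by_cases h1 : r k = none
        · rw [if_neg (not_not.mpr h1)] at hk
          split_ifs at hk with h4
          · rw [Finset.mem_singleton] at hk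
            exact Or.inl hk
          · rw [Finset.mem_insert, Finset.mem_singleton] at hk
            exact hk
        · rw [if_pos h1, Finset.mem_singleton] at hk
          rcases hrs k with h2 | h2
          · exact absurd h2 h1
          · exact Or.inr (hk.trans h2)
      · have hk := h k
        by_cases h1 : r k = none
        · rw [if_neg (not_not.mpr h1)] at hk
          split_ifs at hk with h4
          · rw [Finset.mem_singleton] at hk
            rw [hk]; exact fun h => by cases h
          · rw [Finset.mem_insert, Finset.mem_singleton] at hk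
            rcases hk with hk | hk
            · rw [hk]; exact fun h => by cases h
            · rw [hk]
              exact fun h => h4 (Or.inr h)
        · rw [if_pos h1, Finset.mem_singleton] at hk
          rw [hk]; exact hr k
  rw [hset]
  have hterm : ∀ d : ι → Option I, mu d * tot P d *
      ∏ k, (if r k = none ∧ d k ≠ none then (1 : ℝ) / (P k - 1) else 1) =
      ∏ k, ((if d k = none then (1 : ℝ) else -1) * (if d k = none then (1 : ℝ) else P k) *
        (if r k = none ∧ d k ≠ none then (1 : ℝ) / (P k - 1) else 1)) := by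
    intro d
    rw [cast_tot, mu, Finset.prod_mul_distrib, Finset.prod_mul_distrib]
  rw [Finset.sum_congr rfl (fun d _ => hterm d),
    ← Finset.prod_univ_sum (fun k => if r k ≠ none then {r k} else
        if s k = none ∨ s k = some m then {none} else {none, s k})
      (fun k a => ((if a = none then (1 : ℝ) else -1) * (if a = none then (1 : ℝ) else P k) *
        (if r k = none ∧ a ≠ none then (1 : ℝ) / (P k - 1) else 1)))]
  refine Finset.prod_congr rfl fun k _ => ?_
  unfold locf
  by_cases h1 : r k = none
  · rw [if_neg (not_not.mpr h1), if_neg (not_not.mpr h1)]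
    split_ifs with h2
    · rw [Finset.sum_singleton]
      simp
    · push Not at h2
      rw [Finset.sum_pair (Ne.symm h2.1)]
      have hP2 : (2 : ℝ) ≤ P k := by exact_mod_cast hP k
      have hne : (P k : ℝ) - 1 ≠ 0 := by linarith
      simp only [h1, h2.1, if_true, if_false, ne_eq, not_true_eq_false, not_false_eq_true,
        and_true, and_false, mul_one, one_mul]
      field_simp
      ring
  · rw [if_pos h1, if_pos h1, Finset.sum_singleton]
    simp [h1]

private theorem cc_eq_loc (P : ι → ℕ) (hP : ∀ k, 2 ≤ P k) (F : (ι → Option I) → ℝ) (m : I)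
    (r : ι → Option I) (hr : noL m r) :
    cc (fun k => (1 : ℝ) / (P k - 1)) (offL m (lamF P F)) r =
      ∑ s ∈ univ.filter (fun s => sub r s), F s / tot P s * ∏ k, locf P m r s k := by
  have h1 : ∀ d : ι → Option I, (if sub r d then offL m (lamF P F) d *
      ∏ k, (if r k = none ∧ d k ≠ none then (1 : ℝ) / (P k - 1) else 1) else 0) =
      ∑ s : ι → Option I, if sub r d ∧ sub d s ∧ noL m d then F s / tot P s *
        (mu d * tot P d * ∏ k, (if r k = none ∧ d k ≠ none then (1 : ℝ) / (P k - 1) else 1))
        else 0 := by
    intro d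
    unfold offL lamF
    by_cases hd1 : sub r d
    · by_cases hd2 : noL m d
      · rw [if_pos hd1, if_pos hd2, Finset.sum_filter, Finset.mul_sum, Finset.sum_mul]
        refine Finset.sum_congr rfl fun s _ => ?_
        by_cases hd3 : sub d s
        · rw [if_pos hd3, if_pos ⟨hd1, hd3, hd2⟩]
          ring
        · rw [if_neg hd3, if_neg (fun h => hd3 h.2.1)]
          ring
      · rw [if_pos hd1, if_neg hd2, zero_mul]
        refine (Finset.sum_eq_zero fun s _ => ?_).symm
        rw [if_neg (fun h => hd2 h.2.2)]
    · rw [if_neg hd1]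
      refine (Finset.sum_eq_zero fun s _ => ?_).symm
      rw [if_neg (fun h => hd1 h.1)]
  unfold cc
  rw [Finset.sum_filter, Finset.sum_congr rfl (fun d _ => h1 d), Finset.sum_comm,
    Finset.sum_filter]
  refine Finset.sum_congr rfl fun s _ => ?_
  rw [← Finset.sum_filter, ← Finset.mul_sum]
  split_ifs with hrs
  · rw [inner P hP m r s hr hrs]
  · have hemp : (univ.filter (fun d => sub r d ∧ sub d s ∧ noL m d) : Finset (ι → Option I)) = ∅ := by
      apply Finset.filter_eq_empty_iff.mpr
      rintro d - ⟨h2, h3, -⟩
      exact hrs (sub_trans' h2 h3)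
    rw [hemp, Finset.sum_empty, mul_zero]

/-- the absolute values of the local factors -/
private noncomputable def loca (P : ι → ℕ) (m : I) (r s : ι → Option I) (k : ι) : ℝ :=
  if r k ≠ none then (P k : ℝ) else if s k = none ∨ s k = some m then 1 else 1 / ((P k : ℝ) - 1)

private theorem abs_locf (P : ι → ℕ) (hP : ∀ k, 2 ≤ P k) (m : I) (r s : ι → Option I) (k : ι) :
    |locf P m r s k| = loca P m r s k := by
  have hP2 : (2 : ℝ) ≤ P k := by exact_mod_cast hP k
  unfold locf loca
  split_ifs
  · rw [abs_neg, abs_of_nonneg (by linarith)]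
  · rw [abs_one]
  · rw [abs_neg, abs_of_nonneg (by apply one_div_nonneg.mpr; linarith)]

theorem cc_upper (P : ι → ℕ) (hP : ∀ k, (P k).Prime) (hinj : Function.Injective P)
    (F : (ι → Option I) → ℝ) (a : ℝ) (ha : 0 ≤ a) (u : I → ℕ → ℝ) (hu0 : ∀ i b, 0 ≤ u i b)
    (hu : ∀ i, Antitone (u i)) (t : ℕ)
    (hF : ∀ s, |F s| ≤ a * ∏ i, (u i (lab P s i) * rho (lab P s i) ^ t))
    (m : I) (r : ι → Option I) (hr : noL m r) :
    |cc (fun k => (1 : ℝ) / (P k - 1)) (offL m (lamF P F)) r| ≤
      (∏ k, (1 + (Fintype.card I : ℝ) * (1 + 1 / (P k : ℝ)) ^ t / (P k * (P k - 1)))) *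
        (a * SS P (fun b => u m b * rho b ^ t) *
          ∏ i ∈ univ.erase m, (u i (lab P r i) * rho (lab P r i) ^ t)) := by
  classical
  have hP2 : ∀ k, (2 : ℝ) ≤ P k := fun k => by exact_mod_cast (hP k).two_le
  have hP0 : ∀ k, 0 < P k := fun k => (hP k).pos
  obtain ⟨c, hc⟩ : ∃ c : ι → ℝ, c = fun k => (1 + 1 / (P k : ℝ)) ^ t / (P k * (P k - 1)) := ⟨_, rfl⟩
  have hc0 : ∀ k, 0 ≤ c k := by
    intro k
    have := hP2 k
    rw [hc]
    apply div_nonneg (by positivity)
    apply mul_nonneg <;> linarith
  obtain ⟨G, hG⟩ : ∃ G : ℝ, G = ∏ i ∈ univ.erase m, (u i (lab P r i) * rho (lab P r i) ^ t) :=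
    ⟨_, rfl⟩
  have hrho0 : ∀ b, 0 ≤ rho b := fun b => zero_le_one.trans (one_le_rho b)
  have hG0 : 0 ≤ G := by
    rw [hG]
    exact Finset.prod_nonneg fun i _ => mul_nonneg (hu0 i _) (pow_nonneg (hrho0 _) _)
  obtain ⟨w, hw⟩ : ∃ w : Finset ι → ℝ, w = fun T => u m (nrm P T) * rho (nrm P T) ^ t / nrm P T :=
    ⟨_, rfl⟩
  obtain ⟨v, hv⟩ : ∃ v : (ι → Option I) → ℝ, v = fun e => ∏ k, (if e k = none then 1 else c k) :=
    ⟨_, rfl⟩
  have hw0 : ∀ T, 0 ≤ w T := by
    intro T
    rw [hw]
    exact div_nonneg (mul_nonneg (hu0 m _) (pow_nonneg (hrho0 _) _)) (Nat.cast_nonneg _)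
  have hv0 : ∀ e, 0 ≤ v e := by
    intro e
    rw [hv]
    refine Finset.prod_nonneg fun k _ => ?_
    split_ifs
    · exact zero_le_one
    · exact hc0 k
  obtain ⟨ΦT, hΦT⟩ : ∃ ΦT : (ι → Option I) → Finset ι,
    ΦT = fun s => univ.filter (fun k => s k = some m) := ⟨_, rfl⟩
  obtain ⟨Φe, hΦe⟩ : ∃ Φe : (ι → Option I) → (ι → Option I),
    Φe = fun s k => if r k = none ∧ s k ≠ some m then s k else none := ⟨_, rfl⟩
  have hΦm : ∀ s k, Φe s k ≠ some m := by
    intro s k
    rw [hΦe]
    simp only
    split_ifs with h
    · exact h.2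
    · exact fun h => by cases h
  have hterm : ∀ s, sub r s → |F s / tot P s * ∏ k, locf P m r s k| ≤
      a * G * (w (ΦT s) * v (Φe s)) := by
    intro s hrs
    have htot : (0 : ℝ) < tot P s := by exact_mod_cast tot_pos hP0 s
    have hloc0 : ∀ k, 0 ≤ loca P m r s k := fun k => by
      rw [← abs_locf P (fun k => (hP k).two_le)]
      exact abs_nonneg _
    have h1 : |F s / tot P s * ∏ k, locf P m r s k| = |F s| * ((∏ k, loca P m r s k) / tot P s) := by
      rw [abs_mul, abs_div, abs_of_pos htot, Finset.abs_prod,
        Finset.prod_congr rfl (fun k _ => abs_locf P (fun k => (hP k).two_le) m r s k)]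
      ring
    have h2 : (∏ k, loca P m r s k) / tot P s = (1 / (nrm P (ΦT s) : ℝ)) *
        ∏ k, (if Φe s k = none then 1 else 1 / ((P k : ℝ) * (P k - 1))) := by
      have e1 : (nrm P (ΦT s) : ℝ) = ∏ k, (if s k = some m then (P k : ℝ) else 1) := by
        unfold nrm
        rw [hΦT, Finset.prod_filter]
        push_cast
        rfl
      rw [cast_tot, e1, one_div, ← Finset.prod_inv_distrib, ← Finset.prod_div_distrib,
        ← Finset.prod_mul_distrib]
      refine Finset.prod_congr rfl fun k _ => ?_
      have hk := hP2 k
      have hk1 : (P k : ℝ) - 1 ≠ 0 := by linarith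
      have hk0 : (P k : ℝ) ≠ 0 := by linarith
      unfold loca
      rw [hΦe]
      simp only
      by_cases h2 : r k = none
      · by_cases h3 : s k = none
        · simp [h2, h3]
        · by_cases h4 : s k = some m
          · simp [h2, h4]
          · simp [h2, h3, h4]
            field_simp
      · have h3 : s k = r k := by
          rcases hrs k with h | h
          · exact absurd h h2
          · exact h.symm
        have h4 : r k ≠ some m := hr k
        simp [h3, h2, h4, hk0]
    have h3 : |F s| ≤ a * (u m (nrm P (ΦT s)) * rho (nrm P (ΦT s)) ^ t) * (G *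
        ∏ k, (if Φe s k = none then 1 else (1 + 1 / (P k : ℝ)) ^ t)) := by
      refine (hF s).trans ?_
      rw [mul_assoc]
      apply mul_le_mul_of_nonneg_left _ ha
      rw [← Finset.mul_prod_erase _ _ (Finset.mem_univ m)]
      have e1 : lab P s m = nrm P (ΦT s) := by
        unfold lab nrm
        rw [hΦT, Finset.prod_filter]
      rw [e1]
      apply mul_le_mul_of_nonneg_left _ (mul_nonneg (hu0 m _) (pow_nonneg (hrho0 _) _))
      have e2 : ∀ i ∈ univ.erase m, u i (lab P s i) * rho (lab P s i) ^ t ≤
          (u i (lab P r i) * rho (lab P r i) ^ t) *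
            (∏ k, (if Φe s k = some i then 1 + 1 / (P k : ℝ) else 1)) ^ t := by
        intro i hi
        have him : i ≠ m := Finset.ne_of_mem_erase hi
        have e3 : u i (lab P s i) ≤ u i (lab P r i) := by
          apply hu i
          unfold lab
          refine Finset.prod_le_prod' fun k _ => ?_
          rcases hrs k with h | h
          · rw [h, if_neg (by simp)]
            split_ifs
            · exact hP0 k
            · exact le_rfl
          · rw [h]
        have e4 : rho (lab P s i) = rho (lab P r i) *
            ∏ k, (if Φe s k = some i then 1 + 1 / (P k : ℝ) else 1) := by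
          rw [rho_lab P hP hinj, rho_lab P hP hinj, ← Finset.prod_mul_distrib]
          refine Finset.prod_congr rfl fun k _ => ?_
          rw [hΦe]
          simp only
          by_cases h2 : r k = none
          · by_cases h4 : s k = some m
            · simp [h2, h4, him, him.symm]
            · simp [h2, h4]
          · have h3 : s k = r k := by
              rcases hrs k with h | h
              · exact absurd h h2
              · exact h.symm
            simp [h3, h2]
        rw [e4, mul_pow, ← mul_assoc]
        apply mul_le_mul_of_nonneg_right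
        · exact mul_le_mul_of_nonneg_right e3 (pow_nonneg (hrho0 _) _)
        · apply pow_nonneg
          refine Finset.prod_nonneg fun k _ => ?_
          split_ifs <;> positivity
      refine (Finset.prod_le_prod (fun i _ => mul_nonneg (hu0 i _) (pow_nonneg (hrho0 _) _)) e2).trans ?_
      rw [Finset.prod_mul_distrib, ← hG, Finset.prod_pow, Finset.prod_comm]
      apply le_of_eq
      congr 1
      rw [← Finset.prod_pow]
      refine Finset.prod_congr rfl fun k _ => ?_
      by_cases h : Φe s k = none
      · rw [if_pos h]
        rw [Finset.prod_congr rfl (fun i _ => by rw [h, if_neg (by simp)]), Finset.prod_const_one,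
          one_pow]
      · rw [if_neg h]
        congr 1
        obtain ⟨i, hi⟩ := Option.ne_none_iff_exists'.mp h
        have him : i ≠ m := by
          intro h2
          rw [h2] at hi
          exact hΦm s k hi
        rw [hi]
        rw [Finset.prod_eq_single i]
        · rw [if_pos rfl]
        · intro j _ hji
          rw [if_neg]
          intro h2
          exact hji (Option.some.inj h2).symm
        · intro h2
          exact absurd (Finset.mem_erase.mpr ⟨him, Finset.mem_univ i⟩) h2
    rw [h1, h2]
    have h4 : 0 ≤ (1 / (nrm P (ΦT s) : ℝ)) *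
        ∏ k, (if Φe s k = none then 1 else 1 / ((P k : ℝ) * (P k - 1))) := by
      rw [← h2]
      exact div_nonneg (Finset.prod_nonneg fun k _ => hloc0 k) htot.le
    refine (mul_le_mul_of_nonneg_right h3 h4).trans (le_of_eq ?_)
    have h5 : v (Φe s) = (∏ k, (if Φe s k = none then 1 else (1 + 1 / (P k : ℝ)) ^ t)) *
        ∏ k, (if Φe s k = none then 1 else 1 / ((P k : ℝ) * (P k - 1))) := by
      rw [hv]
      simp only
      rw [← Finset.prod_mul_distrib]
      refine Finset.prod_congr rfl fun k _ => ?_
      rw [hc]
      split_ifs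
      · rw [one_mul]
      · rw [mul_one_div]
    rw [h5, hw]
    simp only
    ring
  have hinjS : Set.InjOn (fun s => (ΦT s, Φe s))
      ((univ.filter (fun s => sub r s) : Finset (ι → Option I)) : Set (ι → Option I)) := by
    intro s hs s' hs' h
    have h1 : sub r s := by simpa using hs
    have h1' : sub r s' := by simpa using hs'
    have hT : ΦT s = ΦT s' := congrArg Prod.fst h
    have hE : Φe s = Φe s' := congrArg Prod.snd h
    funext k
    by_cases h2 : r k = none
    · by_cases h3 : s k = some m
      · have h4 : k ∈ ΦT s := by rw [hΦT]; simp [h3]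
        rw [hT, hΦT] at h4
        simp only [mem_filter, mem_univ, true_and] at h4
        rw [h3, h4]
      · have h3' : s' k ≠ some m := by
          intro h5
          apply h3
          have h4 : k ∈ ΦT s' := by rw [hΦT]; simp [h5]
          rw [← hT, hΦT] at h4
          simpa using h4
        have h4 := congrFun hE k
        rw [hΦe] at h4
        simp only [h2, ne_eq, h3, h3', not_false_eq_true, and_self, if_true] at h4
        exact h4
    · rcases h1 k with h | h
      · exact absurd h h2
      · rcases h1' k with h' | h'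
        · exact absurd h' h2
        · rw [← h, ← h']
  have hsumv : ∑ e : ι → Option I, v e = ∏ k, (1 + (Fintype.card I : ℝ) * c k) := by
    rw [hv]
    have h1 := Finset.prod_univ_sum (fun _ : ι => (univ : Finset (Option I)))
      (fun (k : ι) (b : Option I) => (if b = none then (1 : ℝ) else c k))
    rw [Fintype.piFinset_univ] at h1
    rw [← h1]
    refine Finset.prod_congr rfl fun k _ => ?_
    rw [Fintype.sum_option]
    simp
  have hsumw : ∑ T : Finset ι, w T = SS P (fun b => u m b * rho b ^ t) := by
    rw [hw]
    rfl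
  rw [cc_eq_loc P (fun k => (hP k).two_le) F m r hr]
  calc |∑ s ∈ univ.filter (fun s => sub r s), F s / tot P s * ∏ k, locf P m r s k| ≤
        ∑ s ∈ univ.filter (fun s => sub r s), |F s / tot P s * ∏ k, locf P m r s k| :=
        Finset.abs_sum_le_sum_abs _ _
    _ ≤ ∑ s ∈ univ.filter (fun s => sub r s), a * G * (w (ΦT s) * v (Φe s)) :=
        Finset.sum_le_sum fun s hs => hterm s (Finset.mem_filter.mp hs).2
    _ = a * G * ∑ s ∈ univ.filter (fun s => sub r s), w (ΦT s) * v (Φe s) := by
        rw [Finset.mul_sum]
    _ ≤ a * G * ((∑ T : Finset ι, w T) * ∑ e : ι → Option I, v e) := by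
        apply mul_le_mul_of_nonneg_left _ (mul_nonneg ha hG0)
        have h1 : ∑ s ∈ univ.filter (fun s => sub r s), w (ΦT s) * v (Φe s) =
            ∑ z ∈ (univ.filter (fun s => sub r s)).image (fun s => (ΦT s, Φe s)), w z.1 * v z.2 := by
          rw [Finset.sum_image hinjS]
        rw [h1, Finset.sum_mul_sum, ← Finset.sum_product']
        apply Finset.sum_le_sum_of_subset_of_nonneg
        · intro z _
          exact Finset.mem_product.mpr ⟨Finset.mem_univ _, Finset.mem_univ _⟩
        · intro z _ _
          exact mul_nonneg (hw0 _) (hv0 _)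
    _ = _ := by
        rw [hsumv, hsumw, hG]
        have h2 : ∏ k, (1 + (Fintype.card I : ℝ) * c k) =
            ∏ k, (1 + (Fintype.card I : ℝ) * (1 + 1 / (P k : ℝ)) ^ t / (P k * (P k - 1))) := by
          refine Finset.prod_congr rfl fun k _ => ?_
          rw [hc, mul_div_assoc]
        rw [h2]
        ring

end Pool.Agent.H21.SH
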