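import Mathlib

/-!
[H21 SH P1]  Averaging over the `k`-subsets.

Proofs.
* `adm_small`: let `p` be prime.  If `p ≤ k` use `h1`.  If `k < p`, the residues of the `k` elements of `G`
  modulo `p` do not cover `ZMod p`, so some class `c` is missed; take `a ≡ -c (mod p)`.
* `pairs_avg`: count the pairs `(G, B)`, `G ∈ powersetCard k A`, `B ∈ powersetCard 2 G`, `Q B`:
  `∑_G #{B ∈ powersetCard 2 G | Q B} = #{B ∈ powersetCard 2 A | Q B} * C(|A|-2, k-2)` (the number of `k`-sets
  between `B` and `A`), and it is `≥ c C(k,2) C(|A|,k)`; `C(|A|,k) C(k,2) = C(|A|,2) C(|A|-2,k-2)`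
  (`Nat.choose_mul`), `C(|A|-2,k-2) > 0`.
-/

namespace Pool.Agent.H21.SH

open Finset

theorem adm_small (k : ℕ) (G : Finset ℕ) (hG : G.card ≤ k)
    (h1 : ∀ p : ℕ, p.Prime → p ≤ k → ∃ a : ℕ, ∀ h ∈ G, ¬ p ∣ a + h) :
    ∀ p : ℕ, p.Prime → ∃ a : ℕ, ∀ h ∈ G, ¬ p ∣ a + h := by
  classical
  intro p hp
  by_cases hpk : p ≤ k
  · exact h1 p hp hpk
  · have : Fact p.Prime := ⟨hp⟩
    have hcard : (G.image (fun h : ℕ => (h : ZMod p))).card < (Finset.univ : Finset (ZMod p)).card := by
      rw [Finset.card_univ, ZMod.card]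
      exact lt_of_le_of_lt (le_trans Finset.card_image_le hG) (by omega)
    obtain ⟨c, -, hc⟩ := Finset.exists_mem_notMem_of_card_lt_card hcard
    refine ⟨(-c).val, ?_⟩
    intro h hh hdvd
    apply hc
    rw [Finset.mem_image]
    refine ⟨h, hh, ?_⟩
    have h0 : (((-c).val + h : ℕ) : ZMod p) = 0 := (ZMod.natCast_eq_zero_iff _ _).2 hdvd
    rw [Nat.cast_add, ZMod.natCast_zmod_val] at h0
    linear_combination h0

open Classical in
theorem pa_count (k : ℕ) (A B : Finset ℕ) (hBA : B ⊆ A) (hB : B.card = 2) (hk : 2 ≤ k) :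
    ((powersetCard k A).filter (fun G => B ⊆ G)).card = (A.card - 2).choose (k - 2) := by
  have h1 : ((powersetCard k A).filter (fun G => B ⊆ G)).card
      = (powersetCard (k - 2) (A \ B)).card := by
    apply Finset.card_bij' (fun G _ => G \ B) (fun G _ => G ∪ B)
    · intro G hG
      rw [Finset.mem_filter, Finset.mem_powersetCard] at hG
      rw [Finset.mem_powersetCard]
      refine ⟨Finset.sdiff_subset_sdiff hG.1.1 (subset_refl _), ?_⟩
      rw [Finset.card_sdiff_of_subset hG.2, hG.1.2, hB]
    · intro G hG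
      rw [Finset.mem_powersetCard] at hG
      rw [Finset.mem_filter, Finset.mem_powersetCard]
      have hd : Disjoint G B := by
        rw [Finset.disjoint_left]
        intro x hx hxB
        exact (Finset.mem_sdiff.1 (hG.1 hx)).2 hxB
      refine ⟨⟨Finset.union_subset (hG.1.trans Finset.sdiff_subset) hBA, ?_⟩,
        Finset.subset_union_right⟩
      rw [Finset.card_union_of_disjoint hd, hG.2, hB]
      omega
    · intro G hG
      rw [Finset.mem_filter, Finset.mem_powersetCard] at hG
      exact Finset.sdiff_union_of_subset hG.2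
    · intro G hG
      rw [Finset.mem_powersetCard] at hG
      have hd : Disjoint G B := by
        rw [Finset.disjoint_left]
        intro x hx hxB
        exact (Finset.mem_sdiff.1 (hG.1 hx)).2 hxB
      show (G ∪ B) \ B = G
      rw [Finset.union_sdiff_right]
      exact Finset.sdiff_eq_self_of_disjoint hd
  rw [h1, Finset.card_powersetCard, Finset.card_sdiff_of_subset hBA, hB]

open Classical in
theorem pairs_avg (Q : Finset ℕ → Prop) (c : ℝ) (k : ℕ) (hk : 2 ≤ k) (A : Finset ℕ) (hA : k ≤ A.card)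
    (hQ : ∀ G ⊆ A, G.card = k →
      c * (k.choose 2 : ℝ) ≤ (((powersetCard 2 G).filter Q).card : ℝ)) :
    c * (A.card.choose 2 : ℝ) ≤ (((powersetCard 2 A).filter Q).card : ℝ) := by
  have hdc : ∑ G ∈ powersetCard k A, ((powersetCard 2 G).filter Q).card
      = ((powersetCard 2 A).filter Q).card * (A.card - 2).choose (k - 2) := by
    have h1 := Finset.sum_card_bipartiteAbove_eq_sum_card_bipartiteBelow
      (s := powersetCard k A) (t := (powersetCard 2 A).filter Q) (fun G B => B ⊆ G)
    have h2 : ∀ G ∈ powersetCard k A, (Finset.bipartiteAbove (fun G B => B ⊆ G)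
        ((powersetCard 2 A).filter Q) G) = (powersetCard 2 G).filter Q := by
      intro G hG
      rw [Finset.mem_powersetCard] at hG
      ext B
      simp only [Finset.mem_bipartiteAbove, Finset.mem_filter, Finset.mem_powersetCard]
      constructor
      · rintro ⟨⟨⟨h3, h4⟩, h5⟩, h6⟩
        exact ⟨⟨h6, h4⟩, h5⟩
      · rintro ⟨⟨h3, h4⟩, h5⟩
        exact ⟨⟨⟨h3.trans hG.1, h4⟩, h5⟩, h3⟩
    have h3 : ∀ B ∈ (powersetCard 2 A).filter Q, (Finset.bipartiteBelow (fun G B => B ⊆ G)
        (powersetCard k A) B).card = (A.card - 2).choose (k - 2) := by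
      intro B hB
      rw [Finset.mem_filter, Finset.mem_powersetCard] at hB
      exact pa_count k A B hB.1.1 hB.1.2 hk
    rw [Finset.sum_congr rfl (fun G hG => by rw [h2 G hG]), Finset.sum_congr rfl h3] at h1
    rw [h1, Finset.sum_const, smul_eq_mul]
  have hle : c * (k.choose 2 : ℝ) * (A.card.choose k : ℝ)
      ≤ (((powersetCard 2 A).filter Q).card : ℝ) * ((A.card - 2).choose (k - 2) : ℝ) := by
    have h1 : ((∑ G ∈ powersetCard k A, ((powersetCard 2 G).filter Q).card : ℕ) : ℝ)
        = (((powersetCard 2 A).filter Q).card : ℝ) * ((A.card - 2).choose (k - 2) : ℝ) := by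
      rw [hdc]; push_cast; ring
    rw [← h1]
    push_cast
    calc c * (k.choose 2 : ℝ) * (A.card.choose k : ℝ)
        = ∑ _G ∈ powersetCard k A, c * (k.choose 2 : ℝ) := by
          rw [Finset.sum_const, Finset.card_powersetCard, nsmul_eq_mul]; ring
      _ ≤ _ := by
          apply Finset.sum_le_sum
          intro G hG
          rw [Finset.mem_powersetCard] at hG
          exact hQ G hG.1 hG.2
  have hch : (A.card.choose k) * (k.choose 2) = (A.card.choose 2) * (A.card - 2).choose (k - 2) :=
    Nat.choose_mul hk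
  have hchR : (A.card.choose k : ℝ) * (k.choose 2 : ℝ)
      = (A.card.choose 2 : ℝ) * ((A.card - 2).choose (k - 2) : ℝ) := by exact_mod_cast hch
  have hpos : (0 : ℝ) < ((A.card - 2).choose (k - 2) : ℝ) := by
    have : 0 < (A.card - 2).choose (k - 2) := Nat.choose_pos (by omega)
    exact_mod_cast this
  have hfin : c * (A.card.choose 2 : ℝ) * ((A.card - 2).choose (k - 2) : ℝ)
      ≤ (((powersetCard 2 A).filter Q).card : ℝ) * ((A.card - 2).choose (k - 2) : ℝ) := by
    calc c * (A.card.choose 2 : ℝ) * ((A.card - 2).choose (k - 2) : ℝ)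
        = c * ((A.card.choose k : ℝ) * (k.choose 2 : ℝ)) := by rw [hchR]; ring
      _ = c * (k.choose 2 : ℝ) * (A.card.choose k : ℝ) := by ring
      _ ≤ _ := hle
  exact le_of_mul_le_mul_right hfin hpos

end Pool.Agent.H21.SH
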