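import Pool.Agent.H21.SH.P1

/-!
[H21 SH P2]  From pairs in admissible sets to densities of differences (minimal configurations).

Proof.  `0 < η`; `t = |T|`; if `c ≤ η` the claim is trivial (`C = 0`), and if `T = ∅` as well.  For `y ∈ P ℕ`
let `B y = {y + a | a ∈ T}`; for a finite `Y ⊆ P ℕ`, `|Y| = n`, let `A = ⋃_{y ∈ Y} B y`, `|A| = n t` (the blocks lie
in disjoint intervals).  For `y ≠ y'` let `e(y,y')` be the number of `(a,a') ∈ T × T` with
`E |y + a - (y' + a')|` (`= e(y',y)`).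
(1) All `k`-subsets of `A` satisfy `hE` (`hT`), so by `pairs_avg` (with `Q B = ∃ a b ∈ B, a < b ∧ E (b - a)`) at
least `c C(nt,2)` pairs of `A` are good; at most `n C(t,2)` lie in one block.  So
`∑_{pairs of Y} e ≥ c C(nt,2) - n C(t,2) ≥ (c - η) t^2 C(n,2)` for `n ≥ n0` (`n0` depends on `c, η, t` only;
also `n0 t ≥ k`, `n0 ≥ 2`).
(2) Let `n = n0` and let `Y` be an `n`-subset of `P ℕ` for which `s(Y) = ∑_{pairs of Y} e` is minimal (a set of
natural numbers has a minimum).  For `y ∈ P ℕ \ Y`: in `Y' = insert y Y` each pair lies in `n - 1` of the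
`n + 1` subsets of size `n`, so `(n-1) s(Y') = ∑_Z s(Z) ≥ (n+1) s(Y)`, and `s(Y') = s(Y) + ∑_{y' ∈ Y} e(y,y')`; so
`∑_{y' ∈ Y} e(y,y') ≥ (2/(n-1)) s(Y) ≥ (c - η) t^2 n`.
(3) Let `μ = max Y + P`.  Sum (2) over the `y = P j` with `M + μ ≤ P j` and `P j + P ≤ M + X` (at least
`X/P - μ/P - 3` values of `j`): all differences `d = y + a - (y' + a')` lie in `(M, M + X]` (`y' + a' < μ`, `a < P`);
for fixed `y' ∈ Y` and `d` the number of `(j,a,a')` with `P j + a = y' + a' + d` is at most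
`#{a' ∈ T | (a' + d) % P ∈ T} = RT P T d` (`P ∣ y'`; `a'` determines `a = (a'+d) % P` and `j`).  Hence
`n ∑_{d ∈ (M, M+X], E d} RT P T d ≥ (X/P - μ/P - 3) (c - η) t^2 n`; `C` does not depend on `M`, `X`.
-/

namespace Pool.Agent.H21.SH

open Finset

/-- number of representations modulo `P` -/
def RT (P : ℕ) (T : Finset ℕ) (d : ℕ) : ℕ := (T.filter (fun a => (a + d) % P ∈ T)).card

/-- every admissible `k`-set has at least the proportion `c` of its pairs with difference in `E` -/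
def PairProp (E : ℕ → Prop) (c : ℝ) (k : ℕ) : Prop :=
  by
    classical
    exact ∀ G : Finset ℕ, (∀ p : ℕ, p.Prime → ∃ a : ℕ, ∀ h ∈ G, ¬ p ∣ a + h) → G.card = k →
      c * (k.choose 2 : ℝ) ≤
        (((powersetCard 2 G).filter (fun B => ∃ a ∈ B, ∃ b ∈ B, a < b ∧ E (b - a))).card : ℝ)

open Classical in
/-- number of good pairs between two blocks -/
noncomputable def bmF (E : ℕ → Prop) (P : ℕ) (T : Finset ℕ) (x y : ℕ) : ℕ :=
  ((T ×ˢ T).filter (fun a => E (Nat.dist (P * x + a.1) (P * y + a.2)))).card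

/-- total number of good pairs between the blocks of a set -/
noncomputable def bmS (E : ℕ → Prop) (P : ℕ) (T : Finset ℕ) (J : Finset ℕ) : ℕ :=
  ∑ x ∈ J, ∑ y ∈ J.erase x, bmF E P T x y

theorem bmF_symm (E : ℕ → Prop) (P : ℕ) (T : Finset ℕ) (x y : ℕ) :
    bmF E P T x y = bmF E P T y x := by
  classical
  unfold bmF
  refine Finset.card_bij (fun a _ => a.swap) ?_ ?_ ?_
  · intro a ha
    rw [mem_filter, mem_product] at ha ⊢
    refine ⟨⟨ha.1.2, ha.1.1⟩, ?_⟩
    rw [Nat.dist_comm]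
    exact ha.2
  · intro a _ b _ h
    exact Prod.swap_injective h
  · intro a ha
    rw [mem_filter, mem_product] at ha
    refine ⟨a.swap, ?_, Prod.swap_swap a⟩
    rw [mem_filter, mem_product]
    refine ⟨⟨ha.1.2, ha.1.1⟩, ?_⟩
    rw [Nat.dist_comm]
    exact ha.2

theorem bmF_le (E : ℕ → Prop) (P : ℕ) (T : Finset ℕ) (x y : ℕ) :
    bmF E P T x y ≤ T.card ^ 2 := by
  classical
  unfold bmF
  refine (Finset.card_filter_le _ _).trans ?_
  rw [card_product, sq]

theorem bmS_insert (E : ℕ → Prop) (P : ℕ) (T : Finset ℕ) (K : Finset ℕ) (x : ℕ) (hx : x ∉ K) :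
    bmS E P T (insert x K) = bmS E P T K + 2 * ∑ y ∈ K, bmF E P T x y := by
  unfold bmS
  rw [sum_insert hx, erase_insert hx]
  have h1 : ∀ z ∈ K, ∑ y ∈ (insert x K).erase z, bmF E P T z y =
      bmF E P T x z + ∑ y ∈ K.erase z, bmF E P T z y := by
    intro z hz
    have hne : x ≠ z := fun h => hx (h ▸ hz)
    rw [erase_insert_of_ne hne, sum_insert (fun h => hx (mem_of_mem_erase h)),
      bmF_symm E P T z x]
  rw [sum_congr rfl h1, sum_add_distrib]
  ring

/-- exchange argument -/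
theorem bm_exchange (E : ℕ → Prop) (P : ℕ) (T : Finset ℕ) (J : Finset ℕ)
    (hmin : ∀ J' : Finset ℕ, J'.card = J.card → bmS E P T J ≤ bmS E P T J') (x : ℕ)
    (hx : x ∉ J) :
    bmS E P T J + ∑ y ∈ J, bmF E P T x y ≤ J.card * ∑ y ∈ J, bmF E P T x y := by
  have h1 : ∀ z ∈ J, ∑ y ∈ J.erase z, bmF E P T z y ≤ ∑ y ∈ J.erase z, bmF E P T x y := by
    intro z hz
    have hxe : x ∉ J.erase z := fun h => hx (mem_of_mem_erase h)
    have h2 := hmin (insert x (J.erase z)) (by
      rw [card_insert_of_notMem hxe, card_erase_of_mem hz]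
      have : 0 < J.card := card_pos.2 ⟨z, hz⟩
      omega)
    have h3 : bmS E P T J = bmS E P T (J.erase z) + 2 * ∑ y ∈ J.erase z, bmF E P T z y := by
      rw [← bmS_insert E P T (J.erase z) z (notMem_erase z J), insert_erase hz]
    rw [bmS_insert E P T _ x hxe] at h2
    omega
  have h2 : bmS E P T J ≤ ∑ z ∈ J, ∑ y ∈ J.erase z, bmF E P T x y := sum_le_sum h1
  have h3 : ∑ z ∈ J, ∑ y ∈ J.erase z, bmF E P T x y + ∑ z ∈ J, bmF E P T x z =
      J.card * ∑ y ∈ J, bmF E P T x y := by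
    rw [← sum_add_distrib]
    rw [sum_congr rfl (fun z hz => sum_erase_add J (fun y => bmF E P T x y) hz), sum_const,
      smul_eq_mul]
  omega

open Classical in
theorem bm_count (E : ℕ → Prop) (P : ℕ) (T : Finset ℕ) (J : Finset ℕ) :
    2 * ((powersetCard 2 ((J ×ˢ T).image (fun x => P * x.1 + x.2))).filter
      (fun B => ∃ a ∈ B, ∃ b ∈ B, a < b ∧ E (b - a))).card ≤
      J.card * T.card ^ 2 + bmS E P T J := by
  set g : ℕ × ℕ → ℕ := fun x => P * x.1 + x.2 with hg
  set A := (J ×ˢ T).image g with hA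
  set U := (A ×ˢ A).filter (fun p => p.1 < p.2 ∧ E (p.2 - p.1)) with hU
  have h1 : ((powersetCard 2 A).filter
      (fun B => ∃ a ∈ B, ∃ b ∈ B, a < b ∧ E (b - a))).card ≤ U.card := by
    refine le_trans (card_le_card (t := U.image (fun p => ({p.1, p.2} : Finset ℕ))) ?_)
      card_image_le
    intro B hB
    rw [mem_filter, mem_powersetCard] at hB
    obtain ⟨⟨hBA, hB2⟩, a, ha, b, hb, hab, hE⟩ := hB
    rw [mem_image]
    refine ⟨(a, b), ?_, ?_⟩
    · rw [hU, mem_filter, mem_product]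
      exact ⟨⟨hBA ha, hBA hb⟩, hab, hE⟩
    · apply eq_of_subset_of_card_le
      · intro z hz
        simp only [mem_insert, mem_singleton] at hz
        rcases hz with rfl | rfl
        · exact ha
        · exact hb
      · rw [hB2, card_pair hab.ne]
  set W := ((J ×ˢ T) ×ˢ (J ×ˢ T)).filter (fun p => E (Nat.dist (g p.1) (g p.2))) with hW
  have h2 : 2 * U.card ≤ W.card := by
    have hd : Disjoint U (U.image Prod.swap) := by
      rw [disjoint_left]
      intro p hp hp2
      obtain ⟨p', hp', rfl⟩ := mem_image.1 hp2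
      rw [hU, mem_filter] at hp hp'
      have h3 := hp.2.1
      have h4 := hp'.2.1
      simp only [Prod.fst_swap, Prod.snd_swap] at h3
      omega
    have hmem : ∀ p ∈ U, ∃ i ∈ J ×ˢ T, ∃ j ∈ J ×ˢ T, p = (g i, g j) ∧
        E (Nat.dist (g i) (g j)) := by
      intro p hp
      rw [hU, mem_filter, mem_product, hA, mem_image, mem_image] at hp
      obtain ⟨⟨⟨i, hi, hi2⟩, j, hj, hj2⟩, hlt, hE⟩ := hp
      refine ⟨i, hi, j, hj, Prod.ext hi2.symm hj2.symm, ?_⟩
      rw [hi2, hj2, Nat.dist_eq_sub_of_le hlt.le]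
      exact hE
    have hsub : U ∪ U.image Prod.swap ⊆ W.image (fun p => (g p.1, g p.2)) := by
      intro p hp
      rcases mem_union.1 hp with hp | hp
      · obtain ⟨i, hi, j, hj, rfl, hE⟩ := hmem p hp
        refine mem_image.2 ⟨(i, j), ?_, rfl⟩
        rw [hW, mem_filter, mem_product]
        exact ⟨⟨hi, hj⟩, hE⟩
      · obtain ⟨p', hp', rfl⟩ := mem_image.1 hp
        obtain ⟨i, hi, j, hj, rfl, hE⟩ := hmem p' hp'
        refine mem_image.2 ⟨(j, i), ?_, rfl⟩
        rw [hW, mem_filter, mem_product]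
        refine ⟨⟨hj, hi⟩, ?_⟩
        rw [Nat.dist_comm]
        exact hE
    calc 2 * U.card = U.card + (U.image Prod.swap).card := by
          rw [card_image_of_injective _ Prod.swap_injective]
          ring
      _ = (U ∪ U.image Prod.swap).card := (card_union_of_disjoint hd).symm
      _ ≤ (W.image (fun p => (g p.1, g p.2))).card := card_le_card hsub
      _ ≤ W.card := card_image_le
  have h3 : W.card = ∑ x ∈ J, ∑ y ∈ J, bmF E P T x y := by
    rw [hW, card_filter, sum_product, sum_product]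
    refine sum_congr rfl fun x _ => ?_
    have e1 : ∀ a ∈ T, ∑ q ∈ J ×ˢ T, (if E (Nat.dist (g (x, a)) (g q)) then 1 else 0) =
        ∑ y ∈ J, ∑ b ∈ T, (if E (Nat.dist (g (x, a)) (g (y, b))) then 1 else 0) := by
      intro a _
      rw [sum_product]
    rw [sum_congr rfl e1, sum_comm]
    refine sum_congr rfl fun y _ => ?_
    unfold bmF
    rw [card_filter, sum_product]
  have h4 : ∑ x ∈ J, ∑ y ∈ J, bmF E P T x y ≤ J.card * T.card ^ 2 + bmS E P T J := by
    have e1 : ∀ x ∈ J, ∑ y ∈ J, bmF E P T x y ≤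
        T.card ^ 2 + ∑ y ∈ J.erase x, bmF E P T x y := by
      intro x hx
      rw [← add_sum_erase J _ hx]
      exact Nat.add_le_add_right (bmF_le E P T x x) _
    refine (sum_le_sum e1).trans (le_of_eq ?_)
    rw [sum_add_distrib, sum_const, smul_eq_mul]
    rfl
  omega

open Classical in
theorem bm_rep (E : ℕ → Prop) (P : ℕ) (hP : 0 < P) (T : Finset ℕ) (hTP : ∀ a ∈ T, a < P)
    (μ M X y : ℕ) (hy : y < μ) :
    ∑ x ∈ Ico (μ + M / P + 1) ((M + X) / P), bmF E P T x y ≤
      ∑ d ∈ (Ioc M (M + X)).filter E, RT P T d := by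
  have hMP : M < P * (M / P) + P := by
    have := Nat.lt_mul_div_succ M hP
    rw [Nat.mul_succ] at this
    exact this
  have hNP : P * ((M + X) / P) ≤ M + X := Nat.mul_div_le (M + X) P
  generalize M / P = D at hMP ⊢
  generalize (M + X) / P = D2 at hNP ⊢
  unfold bmF RT
  rw [← card_sigma, ← card_sigma]
  refine card_le_card_of_injOn
    (fun v => (⟨(P * v.1 + v.2.1) - (P * y + v.2.2), v.2.2⟩ : (_ : ℕ) × ℕ)) ?_ ?_
  · rintro ⟨x, a, b⟩ hv
    rw [mem_coe, mem_sigma, mem_Ico, mem_filter, mem_product] at hv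
    obtain ⟨⟨h1, h2⟩, ⟨ha, hb⟩, hE⟩ := hv
    simp only at h1 h2 ha hb hE ⊢
    have haP := hTP a ha
    have hbP := hTP b hb
    have hyx : y + 1 ≤ x := by omega
    have h3 : P * y + P ≤ P * x := by
      calc P * y + P = P * (y + 1) := by ring
        _ ≤ P * x := Nat.mul_le_mul_left _ hyx
    have h3' : P * y + (P * D + P) + P ≤ P * x := by
      calc P * y + (P * D + P) + P = P * (y + D + 2) := by ring
        _ ≤ P * x := Nat.mul_le_mul_left _ (by omega)
    have h4 : P * x + P ≤ M + X := by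
      calc P * x + P = P * (x + 1) := by ring
        _ ≤ P * D2 := Nat.mul_le_mul_left _ h2
        _ ≤ M + X := hNP
    rw [mem_coe, mem_sigma, mem_filter, mem_Ioc, mem_filter]
    refine ⟨⟨⟨?_, ?_⟩, ?_⟩, hb, ?_⟩
    · show M < P * x + a - (P * y + b)
      omega
    · show P * x + a - (P * y + b) ≤ M + X
      omega
    · have h5 : Nat.dist (P * x + a) (P * y + b) = P * x + a - (P * y + b) :=
        Nat.dist_eq_sub_of_le_right (by omega)
      rw [← h5]
      exact hE
    · have h5 : b + (P * x + a - (P * y + b)) = a + P * (x - y) := by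
        rw [Nat.mul_sub]
        omega
      rw [h5, Nat.add_mul_mod_self_left, Nat.mod_eq_of_lt haP]
      exact ha
  · rintro ⟨x, a, b⟩ hv ⟨x', a', b'⟩ hv' h
    rw [mem_coe, mem_sigma, mem_Ico, mem_filter, mem_product] at hv hv'
    obtain ⟨⟨h1, h2⟩, ⟨ha, hb⟩, hE⟩ := hv
    obtain ⟨⟨h1', h2'⟩, ⟨ha', hb'⟩, hE'⟩ := hv'
    simp only [Sigma.mk.injEq, heq_eq_eq] at h h1 h2 ha hb h1' h2' ha' hb'
    obtain ⟨h3, rfl⟩ := h
    have haP := hTP a ha
    have haP' := hTP a' ha'
    have hbP := hTP b hb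
    have h4 : P * y + P ≤ P * x := by
      calc P * y + P = P * (y + 1) := by ring
        _ ≤ P * x := Nat.mul_le_mul_left _ (by omega)
    have h4' : P * y + P ≤ P * x' := by
      calc P * y + P = P * (y + 1) := by ring
        _ ≤ P * x' := Nat.mul_le_mul_left _ (by omega)
    have h5 : P * x + a = P * x' + a' := by omega
    have h6 : a = a' := by
      have e1 : (P * x + a) % P = a := by
        rw [Nat.mul_add_mod, Nat.mod_eq_of_lt haP]
      have e2 : (P * x' + a') % P = a' := by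
        rw [Nat.mul_add_mod, Nat.mod_eq_of_lt haP']
      rw [← e1, h5, e2]
    subst h6
    have h7 : P * x = P * x' := by omega
    have h8 : x = x' := Nat.eq_of_mul_eq_mul_left hP h7
    rw [h8]

open Classical in
theorem block_min (E : ℕ → Prop) (c : ℝ) (hc : c ≤ 1) (k : ℕ) (hk : 2 ≤ k) (hE : PairProp E c k)
    (P : ℕ) (hP : 0 < P) (T : Finset ℕ) (hTP : ∀ a ∈ T, a < P)
    (hT : ∀ G : Finset ℕ, (∀ g ∈ G, g % P ∈ T) → G.card = k →
      ∀ p : ℕ, p.Prime → ∃ a : ℕ, ∀ h ∈ G, ¬ p ∣ a + h) (η : ℝ) (hη : 0 < η) :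
    ∃ C : ℝ, ∀ M X : ℕ, (c - η) * ((T.card : ℝ) ^ 2 / P) * X - C ≤
      ∑ d ∈ (Ioc M (M + X)).filter E, (RT P T d : ℝ) := by
  by_cases hcη : c ≤ η
  · refine ⟨0, fun M X => ?_⟩
    have h1 : (c - η) * ((T.card : ℝ) ^ 2 / P) * X ≤ 0 := by
      have h2 : 0 ≤ ((T.card : ℝ) ^ 2 / P) * X := by positivity
      rw [mul_assoc]
      exact mul_nonpos_of_nonpos_of_nonneg (by linarith) h2
    have h2 : (0 : ℝ) ≤ ∑ d ∈ (Ioc M (M + X)).filter E, (RT P T d : ℝ) :=
      sum_nonneg fun _ _ => Nat.cast_nonneg _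
    linarith
  push Not at hcη
  rcases Nat.eq_zero_or_pos T.card with ht | ht
  · refine ⟨0, fun M X => ?_⟩
    rw [ht]
    have h2 : (0 : ℝ) ≤ ∑ d ∈ (Ioc M (M + X)).filter E, (RT P T d : ℝ) :=
      sum_nonneg fun _ _ => Nat.cast_nonneg _
    simpa using h2
  have hc0 : 0 < c := by linarith
  -- the size of the configuration
  obtain ⟨n1, hn1⟩ := exists_nat_ge (1 / η)
  set n := max (n1 + 1) (max k 2) with hn
  have hn2 : 2 ≤ n := (le_max_right _ _).trans (le_max_right _ _)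
  have hnk : k ≤ n := (le_max_left _ _).trans (le_max_right _ _)
  have hnη : 1 ≤ η * ((n : ℝ) - 1) := by
    have h1 : (n1 : ℝ) + 1 ≤ n := by exact_mod_cast (le_max_left (n1 + 1) (max k 2))
    have h2 : 1 / η ≤ (n : ℝ) - 1 := by linarith
    rw [div_le_iff₀ hη] at h2
    linarith
  -- the lower bound for all configurations
  have hlow : ∀ J : Finset ℕ, J.card = n →
      (c - η) * (T.card : ℝ) ^ 2 * n * ((n : ℝ) - 1) ≤ (bmS E P T J : ℝ) := by
    intro J hJ
    set A := (J ×ˢ T).image (fun x => P * x.1 + x.2) with hA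
    have hAc : A.card = n * T.card := by
      rw [hA, card_image_of_injOn, card_product, hJ]
      rintro ⟨x, a⟩ hx ⟨x', a'⟩ hx' h
      rw [mem_coe, mem_product] at hx hx'
      simp only at h hx hx'
      have haP := hTP a hx.2
      have haP' := hTP a' hx'.2
      have h6 : a = a' := by
        have e1 : (P * x + a) % P = a := by
          rw [Nat.mul_add_mod, Nat.mod_eq_of_lt haP]
        have e2 : (P * x' + a') % P = a' := by
          rw [Nat.mul_add_mod, Nat.mod_eq_of_lt haP']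
        rw [← e1, h, e2]
      subst h6
      have h7 : P * x = P * x' := by omega
      have h8 : x = x' := Nat.eq_of_mul_eq_mul_left hP h7
      rw [h8]
    have hkA : k ≤ A.card := by
      rw [hAc]
      calc k ≤ n := hnk
        _ ≤ n * T.card := Nat.le_mul_of_pos_right _ ht
    have hpa0 := pairs_avg (fun B => ∃ a ∈ B, ∃ b ∈ B, a < b ∧ E (b - a)) c k hk A hkA (by
      intro G hGA hGk
      have hEG := hE G (hT G ?_ hGk) hGk
      · convert hEG
      intro g hg
      have := hGA hg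
      rw [hA, mem_image] at this
      obtain ⟨⟨x, a⟩, hx, rfl⟩ := this
      rw [mem_product] at hx
      simp only at hx ⊢
      rw [Nat.mul_add_mod, Nat.mod_eq_of_lt (hTP a hx.2)]
      exact hx.2)
    have hpa : c * (A.card.choose 2 : ℝ) ≤ (((powersetCard 2 A).filter
        (fun B => ∃ a ∈ B, ∃ b ∈ B, a < b ∧ E (b - a))).card : ℝ) := by
      convert hpa0
    have hcnt := bm_count E P T J
    rw [← hA, hJ] at hcnt
    have hcnt' : 2 * (((powersetCard 2 A).filter
        (fun B => ∃ a ∈ B, ∃ b ∈ B, a < b ∧ E (b - a))).card : ℝ) ≤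
        (n : ℝ) * (T.card : ℝ) ^ 2 + (bmS E P T J : ℝ) := by exact_mod_cast hcnt
    have hch : (A.card.choose 2 : ℝ) = (n * T.card : ℝ) * ((n * T.card : ℝ) - 1) / 2 := by
      rw [hAc, Nat.cast_choose_two]
      push_cast
      ring
    rw [hch] at hpa
    have hnR : (2 : ℝ) ≤ n := by exact_mod_cast hn2
    have htR : (1 : ℝ) ≤ T.card := by exact_mod_cast ht
    set t : ℝ := (T.card : ℝ) with htd
    have h1 : t * n * (t * (n - 1)) ≤ (n * t) * (n * t - 1) := by
      have e1 : (n * t) * (n * t - 1) - t * n * (t * (n - 1)) = n * t * (t - 1) := by ring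
      have e2 : 0 ≤ n * t * (t - 1) := mul_nonneg (by positivity) (by linarith)
      linarith
    have h2 : c * (t * n * (t * (n - 1))) ≤ c * ((n * t) * (n * t - 1)) :=
      mul_le_mul_of_nonneg_left h1 hc0.le
    have h3 : n * t ^ 2 * 1 ≤ n * t ^ 2 * (η * (n - 1)) :=
      mul_le_mul_of_nonneg_left hnη (by positivity)
    have e1 : (c - η) * t ^ 2 * n * (n - 1) =
        c * (t * n * (t * (n - 1))) - n * t ^ 2 * (η * (n - 1)) := by ring
    rw [e1]
    linarith
  -- a minimal configuration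
  have hex : {m | ∃ J : Finset ℕ, J.card = n ∧ bmS E P T J = m}.Nonempty :=
    ⟨_, range n, card_range n, rfl⟩
  obtain ⟨J, hJ, hJm⟩ := Nat.sInf_mem hex
  have hmin : ∀ J' : Finset ℕ, J'.card = J.card → bmS E P T J ≤ bmS E P T J' := by
    intro J' hJ'
    rw [hJm]
    exact Nat.sInf_le ⟨J', hJ'.trans hJ, rfl⟩
  have hnR : (2 : ℝ) ≤ n := by exact_mod_cast hn2
  have hpt : ∀ x : ℕ, x ∉ J → (c - η) * (T.card : ℝ) ^ 2 * n ≤
      ((∑ y ∈ J, bmF E P T x y : ℕ) : ℝ) := by
    intro x hx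
    have h1 := bm_exchange E P T J hmin x hx
    rw [hJ] at h1
    have h2 : (bmS E P T J : ℝ) + ((∑ y ∈ J, bmF E P T x y : ℕ) : ℝ) ≤
        n * ((∑ y ∈ J, bmF E P T x y : ℕ) : ℝ) := by exact_mod_cast h1
    have h3 := hlow J hJ
    have h4 : ((n : ℝ) - 1) * ((c - η) * (T.card : ℝ) ^ 2 * n) ≤
        ((n : ℝ) - 1) * ((∑ y ∈ J, bmF E P T x y : ℕ) : ℝ) := by linarith
    exact le_of_mul_le_mul_left h4 (by linarith)
  set μ := J.sup id + 1 with hμ
  have hJM : ∀ y ∈ J, y < μ := by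
    intro y hy
    have : y ≤ J.sup id := le_sup (f := id) hy
    omega
  refine ⟨((μ : ℝ) + 2) * ((c - η) * (T.card : ℝ) ^ 2), fun M X => ?_⟩
  set N := (M + X) / P with hN
  set L := μ + M / P + 1 with hL
  have hPR : (0 : ℝ) < P := by exact_mod_cast hP
  have hX : (X : ℝ) / P ≤ (N : ℝ) - L + (μ + 2) := by
    rw [div_le_iff₀ hPR]
    have h1 : M + X < P * ((M + X) / P + 1) := Nat.lt_mul_div_succ (M + X) hP
    have h1' : P * (M / P) ≤ M := Nat.mul_div_le M P
    have h2 : (M : ℝ) + X ≤ P * ((N : ℝ) + 1) := by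
      have := (Nat.cast_le (α := ℝ)).2 h1.le
      push_cast at this
      rw [hN]
      push_cast
      linarith
    have h2' : (P : ℝ) * ((M / P : ℕ) : ℝ) ≤ M := by exact_mod_cast h1'
    have h3 : (L : ℝ) = μ + ((M / P : ℕ) : ℝ) + 1 := by
      rw [hL, Nat.cast_add, Nat.cast_add, Nat.cast_one]
    rw [h3]
    nlinarith
  have hK0 : 0 ≤ (c - η) * (T.card : ℝ) ^ 2 := by
    have : 0 ≤ c - η := by linarith
    positivity
  have hsum : ((N : ℝ) - L) * ((c - η) * (T.card : ℝ) ^ 2) ≤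
      ∑ d ∈ (Ioc M (M + X)).filter E, (RT P T d : ℝ) := by
    have hnn : (0 : ℝ) ≤ ∑ d ∈ (Ioc M (M + X)).filter E, (RT P T d : ℝ) :=
      sum_nonneg fun _ _ => Nat.cast_nonneg _
    rcases Nat.lt_or_ge N L with hNM | hNM
    · have h1 : (N : ℝ) ≤ L := by exact_mod_cast hNM.le
      have h2 : ((N : ℝ) - L) * ((c - η) * (T.card : ℝ) ^ 2) ≤ 0 :=
        mul_nonpos_of_nonpos_of_nonneg (by linarith) hK0
      linarith
    have h1 : ((N : ℝ) - L) * ((c - η) * (T.card : ℝ) ^ 2 * n) ≤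
        ((∑ x ∈ Ico L N, ∑ y ∈ J, bmF E P T x y : ℕ) : ℝ) := by
      have h2 : ((N : ℝ) - L) * ((c - η) * (T.card : ℝ) ^ 2 * n) =
          ∑ x ∈ Ico L N, ((c - η) * (T.card : ℝ) ^ 2 * n) := by
        rw [sum_const, Nat.card_Ico, nsmul_eq_mul, Nat.cast_sub hNM]
      rw [h2, Nat.cast_sum]
      apply sum_le_sum
      intro x hx
      apply hpt x
      intro hxJ
      have h7 := hJM x hxJ
      have h8 : μ ≤ L := by rw [hL, add_assoc]; exact Nat.le_add_right _ _
      rw [mem_Ico] at hx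
      exact absurd (h8.trans hx.1) (not_le.2 h7)
    have h2 : ∑ x ∈ Ico L N, ∑ y ∈ J, bmF E P T x y ≤
        n * ∑ d ∈ (Ioc M (M + X)).filter E, RT P T d := by
      rw [sum_comm, ← hJ, ← smul_eq_mul, ← sum_const]
      apply sum_le_sum
      intro y hy
      exact bm_rep E P hP T hTP μ M X y (hJM y hy)
    have h3 : ((∑ x ∈ Ico L N, ∑ y ∈ J, bmF E P T x y : ℕ) : ℝ) ≤
        n * ∑ d ∈ (Ioc M (M + X)).filter E, (RT P T d : ℝ) := by
      have := (Nat.cast_le (α := ℝ)).2 h2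
      rw [Nat.cast_mul, Nat.cast_sum (s := (Ioc M (M + X)).filter E)] at this
      exact this
    have h4 : (n : ℝ) * (((N : ℝ) - L) * ((c - η) * (T.card : ℝ) ^ 2)) ≤
        n * ∑ d ∈ (Ioc M (M + X)).filter E, (RT P T d : ℝ) := by
      refine le_trans (le_of_eq (by ring)) (h1.trans h3)
    exact le_of_mul_le_mul_left h4 (by linarith)
  refine le_trans ?_ hsum
  have h5 : (c - η) * ((T.card : ℝ) ^ 2 / P) * X = (X : ℝ) / P * ((c - η) * (T.card : ℝ) ^ 2) := by
    ring
  rw [h5]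
  have h6 : (X : ℝ) / P * ((c - η) * (T.card : ℝ) ^ 2) ≤
      ((N : ℝ) - L + (μ + 2)) * ((c - η) * (T.card : ℝ) ^ 2) := mul_le_mul_of_nonneg_right hX hK0
  linarith

end Pool.Agent.H21.SH
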