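import Pool.Agent.H21.SH.P2

/-!
[H21 SH P3]  The singular series weight and its mean values.

Proofs.
* `mean_split`: `d ↦ (d mod p, d mod m)` is a bijection of `range (p m)` onto `range p × range m` (Chinese
  remainder theorem; `Nat.chineseRemainder` or `ZMod.chineseRemainder`), and exactly one class mod `p` is
  divisible by `p`; `G b d` depends on `d mod m` only.
* `RT_prod`: with `T = red P` (reduced residues in `range P`), `RT P T d = #{a < P | gcd(a,P) = 1, gcd(a+d,P) = 1}`;
  for `P = p m`, `gcd(p,m) = 1`, this count is multiplicative (same bijection for `a`): the factor of the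
  prime `p` is `#{a < p | p ∤ a, p ∤ a + d}` `= p - 1` if `p ∣ d` and `p - 2` otherwise.  Induction over
  the list.  `|T| = φ(P) = ∏ (p - 1)`.  So `wt P d := RT * P/|T|^2 = ∏_{p ∈ ps} wl p (decide (p ∣ d))`
  (`(p-1) p/(p-1)^2 = p/(p-1)`, `(p-2) p/(p-1)^2`).
* `mean_Ex`: induction over the list with `mean_split` (for a fixed head `p` the function
  `F (wl p b * ∏_{rest} ..)` is periodic modulo the product of the rest).
* `Ex_append`, `Ex_mono`, `Ex_add`, `Ex_smul`: induction over the list (`F` is evaluated at products of local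
  weights `≥ 0`; `1/p ≥ 0`, `1 - 1/p ≥ 0`).
-/

namespace Pool.Agent.H21.SH

open Finset

/-- local weight -/
noncomputable def wl (p : ℕ) (b : Bool) : ℝ :=
  if b then (p : ℝ) / (p - 1) else (p : ℝ) * (p - 2) / ((p : ℝ) - 1) ^ 2

/-- iterated mean value over the divisibility patterns -/
noncomputable def Ex : List ℕ → (ℝ → ℝ) → ℝ
  | [], F => F 1
  | p :: ps, F => (1 / (p : ℝ)) * Ex ps (fun v => F (wl p true * v)) +
      (1 - 1 / (p : ℝ)) * Ex ps (fun v => F (wl p false * v))

/-- reduced residues -/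
def red (P : ℕ) : Finset ℕ := (range P).filter (fun a => a.Coprime P)

/-- weight of the singular series -/
noncomputable def wt (P d : ℕ) : ℝ := (RT P (red P) d : ℝ) * P / ((red P).card : ℝ) ^ 2

theorem p3_sum_mul (p m : ℕ) (hm : 0 < m) (f : ℕ → ℝ) :
    ∑ d ∈ range (p * m), f d = ∑ r ∈ range m, ∑ q ∈ range p, f (m * q + r) := by
  rw [sum_comm, ← sum_product']
  refine (sum_nbij' (fun x : ℕ × ℕ => m * x.1 + x.2) (fun d => (d / m, d % m)) ?_ ?_ ?_ ?_ ?_).symm
  · rintro ⟨q, r⟩ hx
    rw [mem_product, mem_range, mem_range] at hx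
    simp only at hx ⊢
    rw [mem_range]
    calc m * q + r < m * q + m := by omega
      _ = m * (q + 1) := by ring
      _ ≤ m * p := Nat.mul_le_mul_left _ hx.1
      _ = p * m := mul_comm _ _
  · intro d hd
    rw [mem_range] at hd
    rw [mem_product, mem_range, mem_range]
    exact ⟨(Nat.div_lt_iff_lt_mul hm).2 hd, Nat.mod_lt _ hm⟩
  · rintro ⟨q, r⟩ hx
    rw [mem_product, mem_range, mem_range] at hx
    simp only at hx ⊢
    rw [Nat.mul_add_mod, Nat.mod_eq_of_lt hx.2, Nat.mul_add_div hm, Nat.div_eq_of_lt hx.2,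
      add_zero]
  · intro d _
    exact Nat.div_add_mod d m
  · intro x _
    rfl

theorem p3_card_one (p m : ℕ) (hp : p.Prime) (hpm : Nat.Coprime p m) (r : ℕ) :
    ((range p).filter (fun q => p ∣ m * q + r)).card = 1 := by
  have hFp : Fact p.Prime := ⟨hp⟩
  have hm0 : (m : ZMod p) ≠ 0 := by
    intro h
    rw [ZMod.natCast_eq_zero_iff] at h
    exact hp.one_lt.ne' (Nat.Coprime.eq_one_of_dvd hpm h)
  rw [card_eq_one]
  refine ⟨((-(r : ZMod p)) * (m : ZMod p)⁻¹).val, ?_⟩
  ext q
  rw [mem_filter, mem_singleton, mem_range, ← ZMod.natCast_eq_zero_iff]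
  push_cast
  constructor
  · rintro ⟨h1, h2⟩
    have h3 : (q : ZMod p) = (-(r : ZMod p)) * (m : ZMod p)⁻¹ := by
      rw [eq_mul_inv_iff_mul_eq₀ hm0]
      linear_combination h2
    rw [← h3, ZMod.val_natCast, Nat.mod_eq_of_lt h1]
  · intro h
    refine ⟨?_, ?_⟩
    · rw [h]
      exact ZMod.val_lt _
    · rw [h, ZMod.natCast_val, ZMod.cast_id', id, mul_comm, mul_assoc, inv_mul_cancel₀ hm0]
      ring

theorem mean_split (p m : ℕ) (hp : p.Prime) (hm : 0 < m) (hpm : Nat.Coprime p m)
    (G : Bool → ℕ → ℝ) (hG : ∀ b d, G b (d + m) = G b d) :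
    ∑ d ∈ range (p * m), G (decide (p ∣ d)) d =
      ∑ d ∈ range m, (G true d + ((p : ℝ) - 1) * G false d) := by
  rw [p3_sum_mul p m hm]
  refine sum_congr rfl fun r _ => ?_
  have hper : ∀ (b : Bool) (q : ℕ), G b (m * q + r) = G b r := by
    intro b q
    induction q with
    | zero => rw [mul_zero, zero_add]
    | succ q ih =>
      rw [show m * (q + 1) + r = (m * q + r) + m by ring, hG, ih]
  have h1 : ∀ q ∈ range p, G (decide (p ∣ m * q + r)) (m * q + r) =
      G false r + if p ∣ m * q + r then G true r - G false r else 0 := by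
    intro q _
    rw [hper]
    by_cases h : p ∣ m * q + r
    · rw [if_pos h, decide_eq_true h]
      ring
    · rw [if_neg h, decide_eq_false h, add_zero]
  rw [sum_congr rfl h1, sum_add_distrib, ← sum_filter, sum_const, sum_const,
    p3_card_one p m hp hpm r, card_range, nsmul_eq_mul, one_smul]
  ring

theorem red_card (P : ℕ) : (red P).card = P.totient := by
  unfold red
  rw [Nat.totient_eq_card_coprime]
  congr 1
  ext a
  rw [mem_filter, mem_filter, Nat.coprime_comm]

/-- local count -/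
def p3c (p d : ℕ) : ℕ := if p ∣ d then p - 1 else p - 2

/-- the count in terms of coprimality -/
def p3R (P d : ℕ) : ℕ := ((range P).filter (fun a => a.Coprime P ∧ (a + d).Coprime P)).card

theorem p3_RT (P d : ℕ) (hP : 0 < P) : RT P (red P) d = p3R P d := by
  unfold RT red p3R
  rw [filter_filter]
  congr 1
  ext a
  rw [mem_filter, mem_filter, mem_filter, mem_range, mem_range]
  have h1 : ((a + d) % P).Coprime P ↔ (a + d).Coprime P := by
    rw [Nat.coprime_iff_gcd_eq_one, Nat.coprime_iff_gcd_eq_one, Nat.gcd_comm _ P, Nat.gcd_comm _ P,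
      Nat.gcd_comm P ((a + d) % P), ← Nat.gcd_rec]
  rw [h1]
  constructor
  · rintro ⟨h2, h3, h4, h5⟩
    exact ⟨h2, h3, h5⟩
  · rintro ⟨h2, h3, h4⟩
    exact ⟨h2, h3, Nat.mod_lt _ hP, h4⟩

theorem p3_loc (p m d r : ℕ) (hp : p.Prime) (hpm : Nat.Coprime p m) :
    ((range p).filter (fun q => ¬ p ∣ m * q + r ∧ ¬ p ∣ m * q + r + d)).card = p3c p d := by
  have h1 := p3_card_one p m hp hpm r
  have h2 := p3_card_one p m hp hpm (r + d)
  have h3 : (range p).filter (fun q => ¬ p ∣ m * q + r ∧ ¬ p ∣ m * q + r + d) =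
      range p \ ((range p).filter (fun q => p ∣ m * q + r) ∪
        (range p).filter (fun q => p ∣ m * q + (r + d))) := by
    ext q
    simp only [mem_filter, mem_sdiff, mem_union, mem_range, ← add_assoc]
    tauto
  have hsub : (range p).filter (fun q => p ∣ m * q + r) ∪
        (range p).filter (fun q => p ∣ m * q + (r + d)) ⊆ range p :=
    union_subset (filter_subset _ _) (filter_subset _ _)
  rw [h3, card_sdiff_of_subset hsub, card_range]
  unfold p3c
  by_cases hd : p ∣ d
  · rw [if_pos hd]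
    have h4 : (range p).filter (fun q => p ∣ m * q + (r + d)) =
        (range p).filter (fun q => p ∣ m * q + r) := by
      ext q
      rw [mem_filter, mem_filter, ← add_assoc, Nat.dvd_add_left hd]
    rw [h4, union_self, h1]
  · rw [if_neg hd]
    have h4 : Disjoint ((range p).filter (fun q => p ∣ m * q + r))
        ((range p).filter (fun q => p ∣ m * q + (r + d))) := by
      rw [disjoint_left]
      intro q hq hq2
      rw [mem_filter] at hq hq2
      apply hd
      have h5 := hq2.2
      rw [← add_assoc] at h5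
      exact (Nat.dvd_add_right hq.2).1 h5
    rw [card_union_of_disjoint h4, h1, h2]

theorem p3_cop (p m a : ℕ) (hp : p.Prime) : a.Coprime (p * m) ↔ ¬ p ∣ a ∧ a.Coprime m := by
  rw [Nat.coprime_mul_iff_right, Nat.coprime_comm, Nat.Prime.coprime_iff_not_dvd hp]

theorem p3_R_mul (p m d : ℕ) (hp : p.Prime) (hm : 0 < m) (hpm : Nat.Coprime p m) :
    (p3R (p * m) d : ℝ) = p3c p d * p3R m d := by
  classical
  have hshift : ∀ (q a : ℕ), (m * q + a).Coprime m ↔ a.Coprime m := by
    intro q a
    rw [Nat.coprime_comm, Nat.coprime_comm (n := a)]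
    constructor
    · intro h
      have := (Nat.coprime_add_mul_left_right m a q).1 (by rw [add_comm]; exact h)
      exact this
    · intro h
      have := (Nat.coprime_add_mul_left_right m a q).2 h
      rw [add_comm] at this
      exact this
  unfold p3R
  rw [card_filter, card_filter]
  push_cast
  rw [p3_sum_mul p m hm, mul_sum]
  refine sum_congr rfl fun r _ => ?_
  have h1 : ∀ q ∈ range p, (if (m * q + r).Coprime (p * m) ∧ (m * q + r + d).Coprime (p * m)
      then (1 : ℝ) else 0) = if ¬ p ∣ m * q + r ∧ ¬ p ∣ m * q + r + d then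
        (if r.Coprime m ∧ (r + d).Coprime m then (1 : ℝ) else 0) else 0 := by
    intro q _
    have hiff : ((m * q + r).Coprime (p * m) ∧ (m * q + r + d).Coprime (p * m)) ↔
        ((¬ p ∣ m * q + r ∧ ¬ p ∣ m * q + r + d) ∧ (r.Coprime m ∧ (r + d).Coprime m)) := by
      rw [p3_cop p m _ hp, p3_cop p m _ hp, hshift, add_assoc, hshift]
      tauto
    by_cases h2 : ¬ p ∣ m * q + r ∧ ¬ p ∣ m * q + r + d
    · rw [if_pos h2]
      by_cases h3 : r.Coprime m ∧ (r + d).Coprime m
      · rw [if_pos h3, if_pos (hiff.2 ⟨h2, h3⟩)]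
      · rw [if_neg h3, if_neg (fun h => h3 (hiff.1 h).2)]
    · rw [if_neg h2, if_neg (fun h => h2 (hiff.1 h).1)]
  rw [sum_congr rfl h1, ← sum_filter, sum_const, p3_loc p m d r hp hpm, nsmul_eq_mul]

theorem p3_R_pos_prod (ps : List ℕ) (hps : ∀ p ∈ ps, p.Prime) : 0 < ps.prod := by
  induction ps with
  | nil => simp
  | cons p ps ih =>
    rw [List.prod_cons]
    exact Nat.mul_pos (hps p (by simp)).pos (ih (fun q hq => hps q (by simp [hq])))

theorem p3_cop_prod (p : ℕ) (hp : p.Prime) (ps : List ℕ) (hps : ∀ q ∈ ps, q.Prime)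
    (hnd : p ∉ ps) : Nat.Coprime p ps.prod := by
  induction ps with
  | nil => simp
  | cons q ps ih =>
    rw [List.prod_cons]
    apply Nat.Coprime.mul_right
    · rw [Nat.coprime_primes hp (hps q (by simp))]
      rintro rfl
      exact hnd (by simp)
    · exact ih (fun r hr => hps r (by simp [hr])) (fun h => hnd (by simp [h]))

theorem p3_wt_mul (p m d : ℕ) (hp : p.Prime) (hm : 0 < m) (hpm : Nat.Coprime p m) :
    wt (p * m) d = wl p (decide (p ∣ d)) * wt m d := by
  unfold wt
  rw [p3_RT (p * m) d (Nat.mul_pos hp.pos hm), p3_RT m d hm, p3_R_mul p m d hp hm hpm, red_card,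
    red_card, Nat.totient_mul hpm, Nat.totient_prime hp]
  have hp2 : 2 ≤ p := hp.two_le
  have hpR : (2 : ℝ) ≤ p := by exact_mod_cast hp2
  have hp1 : (p : ℝ) - 1 ≠ 0 := by linarith
  have hφ : (m.totient : ℝ) ≠ 0 := by
    have := Nat.totient_pos.2 hm
    exact_mod_cast this.ne'
  have hc1 : ((p - 1 : ℕ) : ℝ) = (p : ℝ) - 1 := by
    rw [Nat.cast_sub (by omega)]
    simp
  have hc2 : ((p - 2 : ℕ) : ℝ) = (p : ℝ) - 2 := by
    rw [Nat.cast_sub (by omega)]
    simp
  unfold wl p3c
  by_cases hd : p ∣ d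
  · rw [decide_eq_true hd, if_pos hd, if_pos rfl]
    push_cast
    rw [hc1]
    field_simp
  · rw [decide_eq_false hd, if_neg hd, if_neg (by simp)]
    push_cast
    rw [hc1, hc2]
    field_simp

theorem p3_wt_one (d : ℕ) : wt 1 d = 1 := by
  unfold wt RT red
  simp [Nat.mod_one]

theorem p3_wt_per (m d : ℕ) : wt m (d + m) = wt m d := by
  unfold wt RT
  have h1 : ∀ a : ℕ, (a + (d + m)) % m = (a + d) % m := by
    intro a
    rw [← add_assoc, Nat.add_mod_right]
  simp only [h1]

theorem RT_prod (ps : List ℕ) (hps : ∀ p ∈ ps, p.Prime) (hnd : ps.Nodup) (d : ℕ) :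
    wt ps.prod d = (ps.map (fun p => wl p (decide (p ∣ d)))).prod := by
  induction ps with
  | nil => simp [p3_wt_one]
  | cons p ps ih =>
    rw [List.nodup_cons] at hnd
    have hps' : ∀ q ∈ ps, q.Prime := fun q hq => hps q (by simp [hq])
    have hp : p.Prime := hps p (by simp)
    rw [List.prod_cons, p3_wt_mul p ps.prod d hp (p3_R_pos_prod ps hps')
      (p3_cop_prod p hp ps hps' hnd.1), ih hps' hnd.2, List.map_cons, List.prod_cons]

theorem mean_Ex (ps : List ℕ) (hps : ∀ p ∈ ps, p.Prime) (hnd : ps.Nodup) (F : ℝ → ℝ) :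
    (∑ d ∈ range ps.prod, F (wt ps.prod d)) / ps.prod = Ex ps F := by
  induction ps generalizing F with
  | nil => simp [p3_wt_one, Ex]
  | cons p ps ih =>
    rw [List.nodup_cons] at hnd
    have hps' : ∀ q ∈ ps, q.Prime := fun q hq => hps q (by simp [hq])
    have hp : p.Prime := hps p (by simp)
    have hm := p3_R_pos_prod ps hps'
    have hpm := p3_cop_prod p hp ps hps' hnd.1
    have hmR : (ps.prod : ℝ) ≠ 0 := by exact_mod_cast hm.ne'
    have hpR : (p : ℝ) ≠ 0 := by exact_mod_cast hp.pos.ne'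
    rw [List.prod_cons]
    have h1 : ∑ d ∈ range (p * ps.prod), F (wt (p * ps.prod) d) =
        ∑ d ∈ range (p * ps.prod), (fun (b : Bool) (d : ℕ) => F (wl p b * wt ps.prod d))
          (decide (p ∣ d)) d := by
      refine sum_congr rfl fun d _ => ?_
      rw [p3_wt_mul p ps.prod d hp hm hpm]
    rw [h1, mean_split p ps.prod hp hm hpm
      (fun (b : Bool) (d : ℕ) => F (wl p b * wt ps.prod d))
      (fun b d => by simp only [p3_wt_per])]
    rw [sum_add_distrib, ← mul_sum]
    have e1 := ih hps' hnd.2 (fun v => F (wl p true * v))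
    have e2 := ih hps' hnd.2 (fun v => F (wl p false * v))
    rw [div_eq_iff hmR] at e1 e2
    rw [e1, e2]
    show _ = (1 / (p : ℝ)) * Ex ps (fun v => F (wl p true * v)) +
      (1 - 1 / (p : ℝ)) * Ex ps (fun v => F (wl p false * v))
    rw [Nat.cast_mul]
    generalize Ex ps (fun v => F (wl p true * v)) = A
    generalize Ex ps (fun v => F (wl p false * v)) = B
    field_simp

theorem Ex_append (ps qs : List ℕ) (F : ℝ → ℝ) :
    Ex (ps ++ qs) F = Ex ps (fun v => Ex qs (fun u => F (v * u))) := by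
  induction ps generalizing F with
  | nil => simp [Ex]
  | cons p ps ih =>
    rw [List.cons_append]
    show (1 / (p : ℝ)) * Ex (ps ++ qs) (fun v => F (wl p true * v)) +
      (1 - 1 / (p : ℝ)) * Ex (ps ++ qs) (fun v => F (wl p false * v)) =
      (1 / (p : ℝ)) * Ex ps (fun v => Ex qs (fun u => F (wl p true * v * u))) +
      (1 - 1 / (p : ℝ)) * Ex ps (fun v => Ex qs (fun u => F (wl p false * v * u)))
    rw [ih, ih]
    simp only [mul_assoc]

theorem Ex_mono (ps : List ℕ) (hps : ∀ p ∈ ps, 2 ≤ p) (F G : ℝ → ℝ) (h : ∀ v, 0 ≤ v → F v ≤ G v) :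
    Ex ps F ≤ Ex ps G := by
  induction ps generalizing F G with
  | nil => exact h 1 zero_le_one
  | cons p ps ih =>
    have hp : 2 ≤ p := hps p (by simp)
    have hpR : (2 : ℝ) ≤ p := by exact_mod_cast hp
    have hps' : ∀ q ∈ ps, 2 ≤ q := fun q hq => hps q (by simp [hq])
    have hwl : ∀ b : Bool, 0 ≤ wl p b := by
      intro b
      unfold wl
      split_ifs
      · exact div_nonneg (by linarith) (by linarith)
      · exact div_nonneg (mul_nonneg (by linarith) (by linarith)) (sq_nonneg _)
    have h1 : 0 ≤ 1 / (p : ℝ) := by positivity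
    have h2 : 0 ≤ 1 - 1 / (p : ℝ) := by
      have : 1 / (p : ℝ) ≤ 1 := by
        rw [div_le_one (by linarith)]
        linarith
      linarith
    show (1 / (p : ℝ)) * Ex ps (fun v => F (wl p true * v)) +
      (1 - 1 / (p : ℝ)) * Ex ps (fun v => F (wl p false * v)) ≤
      (1 / (p : ℝ)) * Ex ps (fun v => G (wl p true * v)) +
      (1 - 1 / (p : ℝ)) * Ex ps (fun v => G (wl p false * v))
    apply add_le_add
    · exact mul_le_mul_of_nonneg_left
        (ih hps' _ _ (fun v hv => h _ (mul_nonneg (hwl true) hv))) h1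
    · exact mul_le_mul_of_nonneg_left
        (ih hps' _ _ (fun v hv => h _ (mul_nonneg (hwl false) hv))) h2

theorem Ex_add (ps : List ℕ) (F G : ℝ → ℝ) : Ex ps (fun v => F v + G v) = Ex ps F + Ex ps G := by
  induction ps generalizing F G with
  | nil => rfl
  | cons p ps ih =>
    show (1 / (p : ℝ)) * Ex ps (fun v => F (wl p true * v) + G (wl p true * v)) +
      (1 - 1 / (p : ℝ)) * Ex ps (fun v => F (wl p false * v) + G (wl p false * v)) =
      ((1 / (p : ℝ)) * Ex ps (fun v => F (wl p true * v)) +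
      (1 - 1 / (p : ℝ)) * Ex ps (fun v => F (wl p false * v))) +
      ((1 / (p : ℝ)) * Ex ps (fun v => G (wl p true * v)) +
      (1 - 1 / (p : ℝ)) * Ex ps (fun v => G (wl p false * v)))
    rw [ih, ih]
    ring

theorem Ex_smul (ps : List ℕ) (c : ℝ) (F : ℝ → ℝ) : Ex ps (fun v => c * F v) = c * Ex ps F := by
  induction ps generalizing F with
  | nil => rfl
  | cons p ps ih =>
    show (1 / (p : ℝ)) * Ex ps (fun v => c * F (wl p true * v)) +
      (1 - 1 / (p : ℝ)) * Ex ps (fun v => c * F (wl p false * v)) =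
      c * ((1 / (p : ℝ)) * Ex ps (fun v => F (wl p true * v)) +
      (1 - 1 / (p : ℝ)) * Ex ps (fun v => F (wl p false * v)))
    rw [ih, ih]
    ring

end Pool.Agent.H21.SH
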