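import Pool.Agent.H21.SH.P3

/-!
[H21 SH P4]  Numerical bounds for the mean of `(w - κ)_+`.

Proofs.
* `Ex_one`, `Ex_id`: `Ex ps 1 = 1`, `Ex ps id = 1`: `(1/p) p/(p-1) + (1-1/p) p(p-2)/(p-1)^2 = 1`.
  `Ex_sq`: `Ex ps (v^2) = ∏ (1 + 1/(p-1)^3)`: `(1/p) p^2/(p-1)^2 + (1-1/p) p^2(p-2)^2/(p-1)^4 =
  p (p^2 - 3p + 3)/(p-1)^3 = 1 + 1/(p-1)^3`.
* `tail_sq`: the `p - 1` are distinct even numbers `≥ 16`: `∑ 1/(p-1)^3 ≤ ∑_{m ≥ 8} 1/(8 m^3) ≤
  (1/8) ∑_{m ≥ 8} 1/((m-1)m(m+1)) = 1/896`, and `∏ (1+x) ≤ exp(∑ x)`, `exp(1/896) ≤ 1 + 112/100000`.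
* `Ex_bound`: for `v, u ≥ 0`: `max (v u - κ) 0 ≤ max (v - κ) 0 + v h(u)`,
  `h(u) = (u-1)/2 + (30 (u-1)^2 + 1/30)/4 ≥ max (u-1) 0` (`|y| ≤ (30 y^2 + 1/30)/2`).  `Ex tl h =
  (30 (Ex (u^2) - 1) + 1/30)/4 ≤ (0.0336 + 0.03334)/4 ≤ 0.01675` (`Ex ((u-1)^2) = Ex (u^2) - 1`).  So by
  `Ex_append`, `Ex_mono`, `Ex_add`: `Ex (ps6 ++ tl) ≤ Ex ps6 (max (v-κ) 0) + 0.01675 * Ex ps6 v`, `Ex ps6 v = 1`.
* `Ex6_a`, `Ex6_b`: the exact values `58741/1921920 = 0.030563..`, `2603/480480 = 0.0054174..`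
  (unfold `Ex`, `wl`, 64 terms, `norm_num`; the terms with `2 ∤ d` have weight `0`; do it prime by prime, or
  first prove `Ex [2] F = (1/2) F 2 + (1/2) F 0` etc. to keep the terms small).
-/

namespace Pool.Agent.H21.SH

open Finset

theorem Ex_one (ps : List ℕ) : Ex ps (fun _ => 1) = 1 := by
  induction ps with
  | nil => rfl
  | cons p ps ih =>
    show (1 / (p : ℝ)) * Ex ps (fun _ => 1) + (1 - 1 / (p : ℝ)) * Ex ps (fun _ => 1) = 1
    rw [ih]
    ring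

theorem Ex_id (ps : List ℕ) (hps : ∀ p ∈ ps, 2 ≤ p) : Ex ps (fun v => v) = 1 := by
  induction ps with
  | nil => rfl
  | cons p ps ih =>
    have hp : 2 ≤ p := hps p (by simp)
    have hpR : (2 : ℝ) ≤ p := by exact_mod_cast hp
    have hps' : ∀ q ∈ ps, 2 ≤ q := fun q hq => hps q (by simp [hq])
    have h0 : (p : ℝ) ≠ 0 := by linarith
    have h1 : (p : ℝ) - 1 ≠ 0 := by linarith
    show (1 / (p : ℝ)) * Ex ps (fun v => wl p true * v) +
      (1 - 1 / (p : ℝ)) * Ex ps (fun v => wl p false * v) = 1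
    rw [Ex_smul ps (wl p true) (fun v => v), Ex_smul ps (wl p false) (fun v => v), ih hps']
    unfold wl
    rw [if_pos rfl, if_neg (by simp)]
    field_simp
    ring

theorem p4_sq (ps : List ℕ) (hps : ∀ p ∈ ps, 2 ≤ p) :
    Ex ps (fun v => v ^ 2) = (ps.map (fun p : ℕ => 1 + 1 / ((p : ℝ) - 1) ^ 3)).prod := by
  induction ps with
  | nil => simp [Ex]
  | cons p ps ih =>
    have hp : 2 ≤ p := hps p (by simp)
    have hpR : (2 : ℝ) ≤ p := by exact_mod_cast hp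
    have hps' : ∀ q ∈ ps, 2 ≤ q := fun q hq => hps q (by simp [hq])
    have h0 : (p : ℝ) ≠ 0 := by linarith
    have h1 : (p : ℝ) - 1 ≠ 0 := by linarith
    show (1 / (p : ℝ)) * Ex ps (fun v => (wl p true * v) ^ 2) +
      (1 - 1 / (p : ℝ)) * Ex ps (fun v => (wl p false * v) ^ 2) = _
    simp only [mul_pow]
    rw [Ex_smul ps (wl p true ^ 2) (fun v => v ^ 2), Ex_smul ps (wl p false ^ 2) (fun v => v ^ 2),
      ih hps', List.map_cons, List.prod_cons, ← mul_assoc, ← mul_assoc, ← add_mul]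
    congr 1
    unfold wl
    rw [if_pos rfl, if_neg (by simp)]
    field_simp
    ring

theorem Ex_sq (ps : List ℕ) (hps : ∀ p ∈ ps, 2 ≤ p) :
    Ex ps (fun v => v ^ 2) = (ps.map (fun p => 1 + 1 / ((p : ℝ) - 1) ^ 3)).prod := by
  rw [p4_sq ps hps]
  congr 1
  simp only [List.bind_eq_flatMap, List.pure_def, List.map_flatMap, List.map_cons, List.map_nil]
  induction ps with
  | nil => rfl
  | cons p ps ih =>
    rw [List.map_cons, List.flatMap_cons, ih (fun q hq => hps q (by simp [hq]))]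
    rfl

theorem p4_tel (M : ℕ) (hM : 8 ≤ M) : ∑ m ∈ Ico 8 M, 1 / (8 * (m : ℝ) ^ 3) ≤
    1 / 16 * (1 / 56 - 1 / ((M : ℝ) * (M - 1))) := by
  induction M, hM using Nat.le_induction with
  | base => simp; norm_num
  | succ M hM ih =>
    rw [sum_Ico_succ_top hM]
    have hMR : (8 : ℝ) ≤ M := by exact_mod_cast hM
    have h1 : 0 < (M : ℝ) := by linarith
    have h2 : 0 < (M : ℝ) - 1 := by linarith
    have h3 : 0 < (M : ℝ) + 1 := by linarith
    have h4 : 1 / (8 * (M : ℝ) ^ 3) ≤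
        1 / 16 * (1 / ((M : ℝ) * (M - 1)) - 1 / (((M : ℝ) + 1) * M)) := by
      have e1 : 1 / 16 * (1 / ((M : ℝ) * (M - 1)) - 1 / (((M : ℝ) + 1) * M)) =
          1 / (8 * (((M : ℝ) - 1) * M * (M + 1))) := by
        field_simp
        ring
      rw [e1]
      apply one_div_le_one_div_of_le (by positivity)
      have : ((M : ℝ) - 1) * M * (M + 1) ≤ (M : ℝ) ^ 3 := by nlinarith
      linarith
    push_cast
    rw [add_sub_cancel_right]
    linarith

theorem p4_sum (S : Finset ℕ) (hS : ∀ p ∈ S, p.Prime ∧ 17 ≤ p) :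
    ∑ p ∈ S, 1 / ((p : ℝ) - 1) ^ 3 ≤ 1 / 896 := by
  have hodd : ∀ p ∈ S, p = 2 * ((p - 1) / 2) + 1 := by
    intro p hp
    obtain ⟨hp1, hp2⟩ := hS p hp
    have := (hp1.eq_two_or_odd).resolve_left (by omega)
    omega
  have hinj : Set.InjOn (fun p => (p - 1) / 2) (S : Set ℕ) := by
    intro p hp q hq h
    have h1 := hodd p hp
    have h2 := hodd q hq
    simp only at h
    omega
  have h1 : ∑ p ∈ S, 1 / ((p : ℝ) - 1) ^ 3 =
      ∑ m ∈ S.image (fun p : ℕ => ((p - 1) / 2 : ℕ)), 1 / (8 * (m : ℝ) ^ 3) := by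
    rw [sum_image hinj]
    refine sum_congr rfl fun p hp => ?_
    have h2 : (p : ℝ) = 2 * (((p - 1) / 2 : ℕ) : ℝ) + 1 := by exact_mod_cast hodd p hp
    have h3 : ((p : ℝ) - 1) ^ 3 = 8 * (((p - 1) / 2 : ℕ) : ℝ) ^ 3 := by
      rw [h2]
      have : (((p - 1) / 2 : ℕ) : ℝ) = (((2 * ((p - 1) / 2) + 1 - 1) / 2 : ℕ) : ℝ) := by
        rw [← hodd p hp]
      rw [add_sub_cancel_right]
      ring
    rw [h3]
  rw [h1]
  set M := (S.image (fun p : ℕ => ((p - 1) / 2 : ℕ))).sup id + 9 with hM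
  have hsub : S.image (fun p : ℕ => ((p - 1) / 2 : ℕ)) ⊆ Ico 8 M := by
    intro m hm
    rw [mem_Ico]
    constructor
    · obtain ⟨p, hp, rfl⟩ := mem_image.1 hm
      have := (hS p hp).2
      omega
    · have : m ≤ (S.image (fun p : ℕ => ((p - 1) / 2 : ℕ))).sup id := le_sup (f := id) hm
      omega
  refine (sum_le_sum_of_subset_of_nonneg hsub (fun m _ _ => by positivity)).trans ?_
  refine (p4_tel M (by omega)).trans ?_
  have hMR : (9 : ℝ) ≤ M := by exact_mod_cast (by omega : 9 ≤ M)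
  have h2 : 0 < 1 / ((M : ℝ) * (M - 1)) := by
    apply one_div_pos.2
    apply mul_pos <;> linarith
  norm_num
  norm_num at h2
  linarith

theorem tail_sq (tl : List ℕ) (htl : ∀ p ∈ tl, p.Prime ∧ 17 ≤ p) (hnd : tl.Nodup) :
    Ex tl (fun v => v ^ 2) ≤ 1 + 112 / 100000 := by
  rw [p4_sq tl (fun p hp => by have := (htl p hp).2; omega)]
  have h1 : (tl.map (fun p : ℕ => 1 + 1 / ((p : ℝ) - 1) ^ 3)).prod =
      ∏ p ∈ tl.toFinset, (1 + 1 / ((p : ℝ) - 1) ^ 3) :=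
    (List.prod_toFinset _ hnd).symm
  rw [h1]
  have hS : ∀ p ∈ tl.toFinset, p.Prime ∧ 17 ≤ p := by
    intro p hp
    exact htl p (List.mem_toFinset.1 hp)
  have h2 : ∏ p ∈ tl.toFinset, (1 + 1 / ((p : ℝ) - 1) ^ 3) ≤
      Real.exp (∑ p ∈ tl.toFinset, 1 / ((p : ℝ) - 1) ^ 3) := by
    rw [Real.exp_sum]
    apply prod_le_prod
    · intro p hp
      have h3 : (17 : ℝ) ≤ p := by exact_mod_cast (hS p hp).2
      have h4 : 0 < ((p : ℝ) - 1) ^ 3 := pow_pos (by linarith) 3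
      positivity
    · intro p _
      rw [add_comm]
      exact Real.add_one_le_exp _
  refine h2.trans ?_
  have h3 : Real.exp (∑ p ∈ tl.toFinset, 1 / ((p : ℝ) - 1) ^ 3) ≤ Real.exp (1 / 896) :=
    Real.exp_le_exp.2 (p4_sum _ hS)
  refine h3.trans ?_
  have h4 := Real.abs_exp_sub_one_sub_id_le (x := 1 / 896) (by norm_num [abs_le])
  have h5 := (abs_le.1 h4).2
  norm_num at h5 ⊢
  linarith

theorem Ex6_a : Ex [2, 3, 5, 7, 11, 13] (fun v => max (v - 3) 0) ≤ 31 / 1000 := by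
  simp only [Ex, wl]
  norm_num [max_def]

theorem Ex6_b : Ex [2, 3, 5, 7, 11, 13] (fun v => max (v - 18 / 5) 0) ≤ 55 / 10000 := by
  simp only [Ex, wl]
  norm_num [max_def]

theorem Ex_bound (tl : List ℕ) (htl : ∀ p ∈ tl, p.Prime ∧ 17 ≤ p) (hnd : tl.Nodup) (κ : ℝ)
    (hκ : 0 ≤ κ) :
    Ex ([2, 3, 5, 7, 11, 13] ++ tl) (fun v => max (v - κ) 0) ≤
      Ex [2, 3, 5, 7, 11, 13] (fun v => max (v - κ) 0) + 1675 / 100000 := by
  have htl2 : ∀ p ∈ tl, 2 ≤ p := fun p hp => by have := (htl p hp).2; omega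
  have h6 : ∀ p ∈ [2, 3, 5, 7, 11, 13], 2 ≤ p := by decide
  rw [Ex_append]
  have hsq := tail_sq tl htl hnd
  set h : ℝ → ℝ := fun u => (u - 1) / 2 + (30 * (u - 1) ^ 2 + 1 / 30) / 4 with hh
  have hEh : Ex tl h ≤ 1675 / 100000 := by
    have e1 : h = fun u => (15 / 2 * u ^ 2) + ((-29 / 2) * u + (841 / 120) * 1) := by
      funext u
      rw [hh]
      ring
    rw [e1, Ex_add tl (fun u => 15 / 2 * u ^ 2) (fun u => (-29 / 2) * u + (841 / 120) * 1),
      Ex_add tl (fun u => (-29 / 2) * u) (fun _ => (841 / 120) * 1),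
      Ex_smul tl (15 / 2) (fun u => u ^ 2), Ex_smul tl (-29 / 2) (fun u => u),
      Ex_smul tl (841 / 120) (fun _ => 1), Ex_id tl htl2, Ex_one tl]
    linarith
  have hhmax : ∀ u : ℝ, max (u - 1) 0 ≤ h u := by
    intro u
    rw [hh]
    simp only
    apply max_le
    · nlinarith [sq_nonneg (30 * (u - 1) - 1)]
    · nlinarith [sq_nonneg (30 * (u - 1) + 1)]
  have step : ∀ v : ℝ, 0 ≤ v → Ex tl (fun u => max (v * u - κ) 0) ≤
      max (v - κ) 0 + 1675 / 100000 * v := by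
    intro v hv
    have h1 : Ex tl (fun u => max (v * u - κ) 0) ≤
        Ex tl (fun u => max (v - κ) 0 * 1 + v * h u) := by
      apply Ex_mono tl htl2
      intro u hu
      apply max_le
      · have h2 : v * (u - 1) ≤ v * h u :=
          mul_le_mul_of_nonneg_left ((le_max_left _ _).trans (hhmax u)) hv
        have h3 := le_max_left (v - κ) 0
        linarith
      · have h2 : 0 ≤ v * h u := mul_nonneg hv ((le_max_right _ _).trans (hhmax u))
        have h3 := le_max_right (v - κ) 0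
        linarith
    refine h1.trans ?_
    rw [Ex_add tl (fun _ => max (v - κ) 0 * 1) (fun u => v * h u),
      Ex_smul tl (max (v - κ) 0) (fun _ => 1), Ex_smul tl v h, Ex_one tl, mul_one]
    have h2 : v * Ex tl h ≤ v * (1675 / 100000) := mul_le_mul_of_nonneg_left hEh hv
    linarith
  refine (Ex_mono _ h6 _ _ step).trans ?_
  rw [Ex_add [2, 3, 5, 7, 11, 13] (fun v => max (v - κ) 0) (fun v => 1675 / 100000 * v),
    Ex_smul [2, 3, 5, 7, 11, 13] (1675 / 100000) (fun v => v), Ex_id _ h6, mul_one]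

end Pool.Agent.H21.SH
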