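import Pool.Agent.H21.SH.P4

/-!
[H21 SH P5]  Densities of differences.

Proofs.
* `dens_gen`: let `ps = [2,3,5,7,11,13] ++ tl`, `tl` the list of the primes `17 ≤ p ≤ k`, `P = ps.prod`,
  `T = red P`.  `block_min` applies: if `g % P ∈ T` then `gcd(g,P) = 1`, so no prime `p ≤ k` divides
  `g` (all primes `≤ k` are in `ps`), `adm_small` with `a = 0`.  With `|T|^2/P` times `wt P d = RT`:
  `∑_{M < d ≤ M+X, E d} wt P d ≥ (c - η) X - C'`.  On the other hand
  `∑_{M < d ≤ M+X, E d} wt P d ≤ κ #{M < d ≤ M+X | E d} + ∑_{M < d ≤ M+X} max (wt P d - κ) 0`, and the last sum is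
  at most `(X/P + 1) ∑_{d ∈ range P} max (wt P d - κ) 0 = (X + P) Ex ps (..)` (`wt P` is periodic modulo `P`,
  `mean_Ex`).  So `κ #{M < d ≤ M+X | E d} ≥ (c - η - Ex ps (max (v-κ) 0)) X - C''`.
* `dens_15`: `κ = 3`, `Ex ≤ 0.031 + 0.01675 ≤ 0.048`; `(0.249 - 0.048 - 0.0005)/3 > 1/15`.
  `dens_36`: `κ = 18/5`, `Ex ≤ 0.0055 + 0.01675 ≤ 0.0223`; `(0.124 - 0.0223 - 0.0005)/3.6 > 1/36`.
* `dens_mult`: `block_min` with `P = Q`, `T = {0}`: the elements `g` with `g % Q = 0` are divisible by all primes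
  `p ≤ k` (as `k! ∣ q ∣ Q`), so `a = 1` works for these, `adm_small`; `RT Q {0} d = 1` if `Q ∣ d`, `0` otherwise;
  `d = Q n`; take `M Q`, `X Q` for `M`, `X`.
-/

namespace Pool.Agent.H21.SH

open Finset Filter

/-- the primes from 17 to k -/
private def p5tl (k : ℕ) : List ℕ := (List.range (k + 1)).filter (fun p => decide (p.Prime ∧ 17 ≤ p))

private theorem p5_tl_mem {k p : ℕ} : p ∈ p5tl k ↔ p < k + 1 ∧ p.Prime ∧ 17 ≤ p := by
  unfold p5tl
  rw [List.mem_filter, List.mem_range, decide_eq_true_iff]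

private theorem p5_tl_nodup (k : ℕ) : (p5tl k).Nodup := List.Nodup.filter _ List.nodup_range

private theorem p5_prime (k : ℕ) : ∀ p ∈ [2, 3, 5, 7, 11, 13] ++ p5tl k, p.Prime := by
  intro p hp
  rw [List.mem_append] at hp
  rcases hp with hp | hp
  · simp only [List.mem_cons, List.not_mem_nil, or_false] at hp
    rcases hp with rfl | rfl | rfl | rfl | rfl | rfl <;> norm_num
  · exact (p5_tl_mem.1 hp).2.1

private theorem p5_nodup (k : ℕ) : ([2, 3, 5, 7, 11, 13] ++ p5tl k).Nodup := by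
  rw [List.nodup_append]
  refine ⟨by decide, p5_tl_nodup k, ?_⟩
  intro a ha b hb hab
  subst hab
  have h1 := (p5_tl_mem.1 hb).2.2
  simp only [List.mem_cons, List.not_mem_nil, or_false] at ha
  omega

private theorem p5_mem {k p : ℕ} (hp : p.Prime) (hpk : p ≤ k) :
    p ∈ [2, 3, 5, 7, 11, 13] ++ p5tl k := by
  rw [List.mem_append]
  by_cases h : 17 ≤ p
  · exact Or.inr (p5_tl_mem.2 ⟨by omega, hp, h⟩)
  · left
    have h1 : p < 17 := by omega
    clear h hpk
    interval_cases p <;> first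
      | decide
      | (exfalso; revert hp; norm_num)

private theorem p5_period (g : ℕ → ℝ) (P : ℕ) (hg : ∀ d, g (d + P) = g d) (m : ℕ) :
    ∑ d ∈ range (P * m), g d = m * ∑ d ∈ range P, g d := by
  have hg2 : ∀ n d, g (P * n + d) = g d := by
    intro n
    induction n with
    | zero => intro d; rw [Nat.mul_zero, Nat.zero_add]
    | succ n ih =>
      intro d
      have e : P * (n + 1) + d = (P * n + d) + P := by ring
      rw [e, hg, ih]
  induction m with
  | zero => simp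
  | succ m ih =>
    rw [Nat.mul_succ, Finset.sum_range_add, ih]
    rw [Finset.sum_congr rfl fun d _ => hg2 m d]
    push_cast
    ring

private theorem p5_shift (g : ℕ → ℝ) (P : ℕ) (hg : ∀ d, g (d + P) = g d) (a : ℕ) :
    ∑ i ∈ range P, g (a + i) = ∑ i ∈ range P, g i := by
  induction a with
  | zero => simp
  | succ a ih =>
    have h1 : ∑ i ∈ range (P + 1), g (a + i) = ∑ i ∈ range P, g (a + i) + g (a + P) :=
      Finset.sum_range_succ _ _
    have h2 : ∑ i ∈ range (P + 1), g (a + i) = ∑ i ∈ range P, g (a + (i + 1)) + g (a + 0) :=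
      Finset.sum_range_succ' _ _
    have h3 : ∑ i ∈ range P, g (a + 1 + i) = ∑ i ∈ range P, g (a + (i + 1)) :=
      Finset.sum_congr rfl fun i _ => by rw [add_assoc, add_comm 1 i]
    rw [h3, ← ih]
    have h4 := hg a
    have h5 : g (a + 0) = g a := by rw [Nat.add_zero]
    linarith

private theorem p5_interval (g : ℕ → ℝ) (P : ℕ) (hg : ∀ d, g (d + P) = g d) (M m : ℕ) :
    ∑ d ∈ Ioc M (M + P * m), g d = m * ∑ d ∈ range P, g d := by
  have h1 : ∑ d ∈ Ioc M (M + P * m), g d = ∑ i ∈ range (P * m), g (M + 1 + i) := by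
    have h2 : Ioc M (M + P * m) = Ico (M + 1) (M + 1 + P * m) := by
      ext x
      rw [Finset.mem_Ioc, Finset.mem_Ico]
      omega
    rw [h2, Finset.sum_Ico_eq_sum_range]
    congr 1
    rw [Nat.add_sub_cancel_left]
  rw [h1, p5_period (fun i => g (M + 1 + i)) P (fun d => by
    show g (M + 1 + (d + P)) = g (M + 1 + d)
    rw [← add_assoc, hg]), p5_shift g P hg]

private theorem p5_wt_per (P d : ℕ) : wt P (d + P) = wt P d := by
  unfold wt RT
  have e : ∀ a, (a + (d + P)) % P = (a + d) % P := by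
    intro a
    rw [← add_assoc, Nat.add_mod_right]
  simp only [e]

open Classical in
theorem dens_gen (E : ℕ → Prop) (c : ℝ) (hc : c ≤ 1) (k : ℕ) (hk : 2 ≤ k) (hE : PairProp E c k)
    (η κ : ℝ) (hη : 0 < η) (hκ : 0 ≤ κ) :
    ∃ C : ℝ, ∀ M X : ℕ,
      (c - η - (Ex [2, 3, 5, 7, 11, 13] (fun v => max (v - κ) 0) + 1675 / 100000)) * X - C ≤
        κ * (((Ioc M (M + X)).filter E).card : ℝ) := by
  obtain ⟨ps, hps⟩ : ∃ ps : List ℕ, ps = [2, 3, 5, 7, 11, 13] ++ p5tl k := ⟨_, rfl⟩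
  have hprime : ∀ p ∈ ps, p.Prime := by rw [hps]; exact p5_prime k
  have hnd : ps.Nodup := by rw [hps]; exact p5_nodup k
  obtain ⟨P, hPdef⟩ : ∃ P : ℕ, P = ps.prod := ⟨_, rfl⟩
  have hP : 0 < P := by
    rw [hPdef]
    apply List.prod_pos
    intro p hp
    exact (hprime p hp).pos
  have hdvd : ∀ p : ℕ, p.Prime → p ≤ k → p ∣ P := by
    intro p hp hpk
    rw [hPdef]
    apply List.dvd_prod
    rw [hps]
    exact p5_mem hp hpk
  obtain ⟨C0, hC0⟩ := block_min E c hc k hk hE P hP (red P)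
    (fun a ha => Finset.mem_range.1 (Finset.mem_filter.1 ha).1)
    (fun G hG hcard => adm_small k G hcard.le (fun p hp hpk => ⟨0, fun h hh hph => by
      rw [Nat.zero_add] at hph
      have h1 : (h % P).Coprime P := (Finset.mem_filter.1 (hG h hh)).2
      have h2 : p ∣ h % P := (Nat.dvd_mod_iff (hdvd p hp hpk)).2 hph
      exact Nat.not_coprime_of_dvd_of_dvd hp.one_lt h2 (hdvd p hp hpk) h1⟩)) η hη
  set R : ℝ := ((red P).card : ℝ) with hR
  have hR0 : 0 < R := by
    rw [hR, red_card]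
    exact_mod_cast Nat.totient_pos.2 hP
  have hPR : (0 : ℝ) < P := by exact_mod_cast hP
  set B : ℝ := Ex [2, 3, 5, 7, 11, 13] (fun v => max (v - κ) 0) + 1675 / 100000 with hB
  have hExB : Ex ps (fun v => max (v - κ) 0) ≤ B := by
    rw [hps, hB]
    exact Ex_bound (p5tl k) (fun p hp => (p5_tl_mem.1 hp).2) (p5_tl_nodup k) κ hκ
  refine ⟨C0 * (P / R ^ 2) + P * B, fun M X => ?_⟩
  have hX0 : (0 : ℝ) ≤ X := Nat.cast_nonneg X
  set G : ℕ → ℝ := fun d => max (wt P d - κ) 0 with hG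
  have hG0 : ∀ d, 0 ≤ G d := fun d => le_max_right _ _
  have hGper : ∀ d, G (d + P) = G d := by
    intro d
    simp only [hG]
    rw [p5_wt_per]
  have hSum : ∑ d ∈ range P, G d = P * Ex ps (fun v => max (v - κ) 0) := by
    have h1 := mean_Ex ps hprime hnd (fun v => max (v - κ) 0)
    rw [← hPdef, div_eq_iff hPR.ne'] at h1
    rw [mul_comm]
    exact h1
  have hup1 : ∑ d ∈ Ioc M (M + X), G d ≤ (X + P) * B := by
    have h1 : Ioc M (M + X) ⊆ Ioc M (M + P * (X / P + 1)) := by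
      intro d hd
      rw [Finset.mem_Ioc] at hd ⊢
      refine ⟨hd.1, hd.2.trans ?_⟩
      exact Nat.add_le_add_left (Nat.lt_mul_div_succ X hP).le M
    calc ∑ d ∈ Ioc M (M + X), G d ≤ ∑ d ∈ Ioc M (M + P * (X / P + 1)), G d :=
          Finset.sum_le_sum_of_subset_of_nonneg h1 fun d _ _ => hG0 d
      _ = ((X / P + 1 : ℕ) : ℝ) * (P * Ex ps (fun v => max (v - κ) 0)) := by
          rw [p5_interval G P hGper, hSum]
      _ = (((X / P : ℕ) : ℝ) * P + P) * Ex ps (fun v => max (v - κ) 0) := by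
          push_cast
          ring
      _ ≤ (X + P) * B := by
          have h2 : ((X / P : ℕ) : ℝ) * P ≤ X := by exact_mod_cast Nat.div_mul_le_self X P
          have h3 : 0 ≤ Ex ps (fun v => max (v - κ) 0) := by
            have h4 : 0 ≤ ∑ d ∈ range P, G d := Finset.sum_nonneg fun d _ => hG0 d
            rw [hSum] at h4
            exact nonneg_of_mul_nonneg_right h4 hPR
          exact mul_le_mul (by linarith) hExB h3 (by linarith)
  have hup2 : ∑ d ∈ (Ioc M (M + X)).filter E, wt P d ≤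
      κ * (((Ioc M (M + X)).filter E).card : ℝ) + (X + P) * B := by
    calc ∑ d ∈ (Ioc M (M + X)).filter E, wt P d ≤ ∑ d ∈ (Ioc M (M + X)).filter E, (κ + G d) := by
          refine Finset.sum_le_sum fun d _ => ?_
          have h1 : wt P d - κ ≤ G d := le_max_left _ _
          linarith
      _ = κ * (((Ioc M (M + X)).filter E).card : ℝ) + ∑ d ∈ (Ioc M (M + X)).filter E, G d := by
          rw [Finset.sum_add_distrib, Finset.sum_const, nsmul_eq_mul, mul_comm]
      _ ≤ κ * (((Ioc M (M + X)).filter E).card : ℝ) + ∑ d ∈ Ioc M (M + X), G d := by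
          have h1 : ∑ d ∈ (Ioc M (M + X)).filter E, G d ≤ ∑ d ∈ Ioc M (M + X), G d :=
            Finset.sum_le_sum_of_subset_of_nonneg (Finset.filter_subset E (Ioc M (M + X)))
              fun d _ _ => hG0 d
          linarith
      _ ≤ _ := by gcongr
  have hlow : (c - η) * X - C0 * (P / R ^ 2) ≤ ∑ d ∈ (Ioc M (M + X)).filter E, wt P d := by
    have h1 := hC0 M X
    have h2 : ∑ d ∈ (Ioc M (M + X)).filter E, wt P d =
        (∑ d ∈ (Ioc M (M + X)).filter E, (RT P (red P) d : ℝ)) * (P / R ^ 2) := by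
      rw [Finset.sum_mul]
      refine Finset.sum_congr rfl fun d _ => ?_
      unfold wt
      rw [hR]
      ring
    rw [h2]
    have h3 : 0 ≤ (P : ℝ) / R ^ 2 := by positivity
    calc (c - η) * X - C0 * (P / R ^ 2) = ((c - η) * (R ^ 2 / P) * X - C0) * (P / R ^ 2) := by
          field_simp
      _ ≤ _ := mul_le_mul_of_nonneg_right h1 h3
  linarith

open Classical in
theorem dens_15 (E : ℕ → Prop) (k : ℕ) (hk : 2 ≤ k) (hE : PairProp E (249 / 1000) k) :
    ∃ X₀ : ℕ, ∀ X : ℕ, X₀ ≤ X → ∀ M : ℕ,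
      (X : ℝ) / 15 ≤ (((Ioc M (M + X)).filter E).card : ℝ) := by
  obtain ⟨C, hC⟩ := dens_gen E (249 / 1000) (by norm_num) k hk hE (5 / 10000) 3 (by norm_num)
    (by norm_num)
  obtain ⟨X0, hX0⟩ := exists_nat_ge (C / (3 / 4000 : ℝ))
  refine ⟨X0, fun X hX M => ?_⟩
  have h1 := hC M X
  have h2 := Ex6_a
  have h3 : (C / (3 / 4000 : ℝ)) ≤ X := hX0.trans (by exact_mod_cast hX)
  rw [div_le_iff₀ (by norm_num)] at h3
  have h4 : (0 : ℝ) ≤ X := Nat.cast_nonneg X
  nlinarith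

open Classical in
theorem dens_36 (E : ℕ → Prop) (k : ℕ) (hk : 2 ≤ k) (hE : PairProp E (124 / 1000) k) :
    ∃ X₀ : ℕ, ∀ X : ℕ, X₀ ≤ X → ∀ M : ℕ,
      (X : ℝ) / 36 ≤ (((Ioc M (M + X)).filter E).card : ℝ) := by
  obtain ⟨C, hC⟩ := dens_gen E (124 / 1000) (by norm_num) k hk hE (5 / 10000) (18 / 5)
    (by norm_num) (by norm_num)
  obtain ⟨X0, hX0⟩ := exists_nat_ge (C / (1 / 1000 : ℝ))
  refine ⟨X0, fun X hX M => ?_⟩
  have h1 := hC M X
  have h2 := Ex6_b
  have h3 : (C / (1 / 1000 : ℝ)) ≤ X := hX0.trans (by exact_mod_cast hX)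
  rw [div_le_iff₀ (by norm_num)] at h3
  have h4 : (0 : ℝ) ≤ X := Nat.cast_nonneg X
  nlinarith

open Classical in
theorem dens_mult (E : ℕ → Prop) (c : ℝ) (hc : c ≤ 1) (k : ℕ) (hk : 2 ≤ k) (hE : PairProp E c k)
    (η : ℝ) (hη : 0 < η) : ∃ q : ℕ, 0 < q ∧ ∀ Q : ℕ, 0 < Q → q ∣ Q → ∃ X₀ : ℕ, ∀ X : ℕ, X₀ ≤ X →
      ∀ M : ℕ, (c - η) * X ≤ (((Ioc M (M + X)).filter (fun n => E (Q * n))).card : ℝ) := by
  refine ⟨k.factorial, Nat.factorial_pos k, fun Q hQ hqQ => ?_⟩
  obtain ⟨C, hC⟩ := block_min E c hc k hk hE Q hQ {0} (by simpa using hQ)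
    (fun G hG hcard => adm_small k G hcard.le (fun p hp hpk => ⟨1, fun h hh hph => by
      have h1 : h % Q = 0 := Finset.mem_singleton.1 (hG h hh)
      have h2 : p ∣ h := ((Nat.dvd_factorial hp.pos hpk).trans hqQ).trans
        (Nat.dvd_of_mod_eq_zero h1)
      have h3 : p ∣ 1 := (Nat.dvd_add_left h2).1 hph
      exact hp.one_lt.ne' (Nat.dvd_one.1 h3)⟩)) (η / 2) (by linarith)
  have hQR : (0 : ℝ) < Q := by exact_mod_cast hQ
  obtain ⟨X0, hX0⟩ := exists_nat_ge (C / (η / 2))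
  refine ⟨X0, fun X hX M => ?_⟩
  have h1 := hC (Q * M) (Q * X)
  have h3 : (C / (η / 2)) ≤ X := hX0.trans (by exact_mod_cast hX)
  rw [div_le_iff₀ (by linarith)] at h3
  have h4 : ∑ d ∈ (Ioc (Q * M) (Q * M + Q * X)).filter E, (RT Q {0} d : ℝ) ≤
      (((Ioc M (M + X)).filter (fun n => E (Q * n))).card : ℝ) := by
    have h5 : ∑ d ∈ (Ioc (Q * M) (Q * M + Q * X)).filter E, RT Q {0} d =
        (((Ioc (Q * M) (Q * M + Q * X)).filter E).filter (fun d => Q ∣ d)).card := by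
      rw [Finset.card_filter]
      refine Finset.sum_congr rfl fun d _ => ?_
      unfold RT
      by_cases hd : Q ∣ d
      · rw [if_pos hd]
        have h6 : (0 + d) % Q = 0 := by rw [Nat.zero_add]; exact Nat.mod_eq_zero_of_dvd hd
        rw [Finset.filter_singleton, if_pos (by rw [h6]; exact Finset.mem_singleton_self 0)]
        rfl
      · rw [if_neg hd]
        have h6 : ¬ (0 + d) % Q ∈ ({0} : Finset ℕ) := by
          rw [Nat.zero_add, Finset.mem_singleton]
          exact fun h => hd (Nat.dvd_of_mod_eq_zero h)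
        rw [Finset.filter_singleton, if_neg h6]
        rfl
    have h6 : (((Ioc (Q * M) (Q * M + Q * X)).filter E).filter (fun d => Q ∣ d)).card ≤
        ((Ioc M (M + X)).filter (fun n => E (Q * n))).card := by
      refine le_trans (Finset.card_le_card (t := ((Ioc M (M + X)).filter (fun n => E (Q * n))).image
        (fun n => Q * n)) ?_) Finset.card_image_le
      intro d hd
      rw [Finset.mem_filter, Finset.mem_filter, Finset.mem_Ioc] at hd
      obtain ⟨⟨⟨hd1, hd2⟩, hdE⟩, n, rfl⟩ := hd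
      rw [Finset.mem_image]
      refine ⟨n, ?_, rfl⟩
      rw [Finset.mem_filter, Finset.mem_Ioc]
      rw [← Nat.mul_add] at hd2
      exact ⟨⟨Nat.lt_of_mul_lt_mul_left hd1, Nat.le_of_mul_le_mul_left hd2 hQ⟩, hdE⟩
    have h7 := h5.le.trans h6
    exact_mod_cast h7
  have h5 : (c - η / 2) * ((({0} : Finset ℕ).card : ℝ) ^ 2 / Q) * ((Q * X : ℕ) : ℝ) =
      (c - η / 2) * X := by
    rw [Finset.card_singleton]
    push_cast
    field_simp
  rw [h5] at h1
  linarith

end Pool.Agent.H21.SH
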