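import Pool.Agent.H21.SH.Ev
import Pool.Agent.H21.MT.Qb1
import Pool.Agent.H21.MT.Qb2

/-!
[H21 SH QL]  Sharp lower bounds of the main terms.

Proofs.  `K = |I| ≥ 1`.
* `q1_lower2`: as `q1_lower` in `Pool/Agent/H21/MT/Qb1.lean` with `mass_good2` (`J = univ`): `le_diag`,
  `cc_lamF`, keep only `s ∈ goodE P univ R ε` (`tot s ≤ R`); `∏_{k ∈ s} (1/P k)(1 - K/P k) ≥
  (1/tot s)(1 - K * ε/K) = (1-ε)/tot s`.  Total factor `(1-ε)(1-4ε) ≥ 1 - 5ε`.
* `qm_lower2`: as `qm_lower` in `Pool/Agent/H21/MT/Qb2.lean` with `goodE P (univ.erase m) R ε`: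
  `cc_offL` gives `|cc r| ≥ (1-ε) Aext r` (`hκ`); `Aext r ≥ (1 - ∑_{k ∈ r} 1/P k) SS P (g m) ∏_{i≠m} g i
  ≥ (1-ε) SS P (g m) ∏_{i≠m} g i (lab r i)` (as `q2_Aext`, with `ε/K ≤ ε` instead of `1/10`);
  weights as `q2_weight`: `∏_{k∈r} (1/(P-1))(1 - K/(P-1)) ≥ (1/tot r) ∏ (1 - 2K/P) ≥ (1-2ε)/tot r`;
  `mass_good2` with `J = univ.erase m` (all its hypotheses hold for a subset `J`; the terms of the
  sum in `hC` are `≥ 0`).  Total factor `(1-ε)^2 (1-ε)^2 (1-2ε)(1-4ε) ≥ 1 - 10 ε`.
-/

namespace Pool.Agent.H21.SH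

open Finset Pool.Agent.H21.MT

variable {ι I : Type} [Fintype ι] [DecidableEq ι] [Fintype I] [DecidableEq I]

theorem q1_lower2 [Nonempty I] (P : ι → ℕ) (hP : ∀ k, (P k).Prime) (hinj : Function.Injective P)
    (hK : ∀ k, 2 * Fintype.card I + 1 ≤ P k) (R ε : ℝ) (hR : 1 < R) (hε : 0 < ε) (hε1 : ε ≤ 1 / 50)
    (g : I → ℕ → ℝ) (hg0 : ∀ i b, 0 ≤ g i b) (hg : ∀ i, Antitone (g i)) (hg1 : ∀ i, g i 1 = 1)
    (hσ : ∑ k, 1 / (P k : ℝ) ^ 2 ≤ ε ^ 2 / (10 * (Fintype.card I : ℝ) ^ 2))
    (hC : ∑ i, SS P (fun b => g i b ^ 2 * Real.log b) / SS P (fun b => g i b ^ 2) ≤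
      ε * Real.log R) :
    (1 - 5 * ε) * ∏ i, SS P (fun b => g i b ^ 2) ≤
      mform (fun k => (1 : ℝ) / P k) (lamF P (FF P g R)) := by
  classical
  have hP0 : ∀ k, 0 < P k := fun k => (hP k).pos
  have hcard : (0 : ℝ) < (Fintype.card I : ℝ) := by
    exact_mod_cast (Fintype.card_pos : 0 < Fintype.card I)
  have hb := pinv_bound (I := I) P hP (fun k => by have := hK k; omega)
  refine le_trans ?_ (le_diag (fun k => (1 : ℝ) / P k) (fun k => (hb k).1)
    (fun k => (hb k).2) _)
  have hSS0 : 0 ≤ ∏ i, SS P (fun b => g i b ^ 2) := by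
    apply Finset.prod_nonneg
    intro i _
    unfold SS
    apply Finset.sum_nonneg
    intro T _
    exact div_nonneg (sq_nonneg _) (Nat.cast_nonneg _)
  have hmass := mass_good2 P hP hinj (univ : Finset I) R ε hR hε (by linarith)
    (fun i b => g i b ^ 2) (fun i b => sq_nonneg _)
    (fun i a b hab => pow_le_pow_left₀ (hg0 i b) (hg i hab) 2)
    (fun i => by simp [hg1 i]) hσ hC
  have hterm : ∀ s : ι → Option I, 0 ≤ (cc (fun k => (1 : ℝ) / P k) (lamF P (FF P g R)) s) ^ 2 *
      ∏ k, (if s k = none then 1 else (1 : ℝ) / P k * (1 - Fintype.card I * (1 / P k))) := by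
    intro s
    apply mul_nonneg (sq_nonneg _)
    apply Finset.prod_nonneg
    intro k _
    split_ifs
    · norm_num
    · exact mul_nonneg (hb k).1 (by linarith [(hb k).2])
  have hsub : ∑ s ∈ goodE P (univ : Finset I) R ε,
      (cc (fun k => (1 : ℝ) / P k) (lamF P (FF P g R)) s) ^ 2 *
      ∏ k, (if s k = none then 1 else (1 : ℝ) / P k * (1 - Fintype.card I * (1 / P k))) ≤
      ∑ s, (cc (fun k => (1 : ℝ) / P k) (lamF P (FF P g R)) s) ^ 2 *
      ∏ k, (if s k = none then 1 else (1 : ℝ) / P k * (1 - Fintype.card I * (1 / P k))) :=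
    Finset.sum_le_sum_of_subset_of_nonneg (Finset.subset_univ _) (fun s _ _ => hterm s)
  refine le_trans ?_ hsub
  have hgood : ∀ s ∈ goodE P (univ : Finset I) R ε,
      (1 - ε) * ((∏ i, (g i (lab P s i)) ^ 2) / tot P s) ≤
      (cc (fun k => (1 : ℝ) / P k) (lamF P (FF P g R)) s) ^ 2 *
      ∏ k, (if s k = none then 1 else (1 : ℝ) / P k * (1 - Fintype.card I * (1 / P k))) := by
    intro s hs
    have hs' := hs
    unfold goodE at hs'
    rw [Finset.mem_filter] at hs'
    obtain ⟨-, -, hsq, hsum⟩ := hs'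
    have htot1 : (1 : ℝ) ≤ tot P s := by exact_mod_cast tot_pos hP0 s
    have htotR : (tot P s : ℝ) ≤ R := by nlinarith
    rw [cc_lamF P hP0, mul_pow, mu_sq', one_mul]
    have hFF : (FF P g R s) ^ 2 = ∏ i, (g i (lab P s i)) ^ 2 := by
      unfold FF
      rw [if_pos htotR, mul_one, Finset.prod_pow]
    rw [hFF]
    have hprod : (∏ k, (if s k = none then (1 : ℝ) else
        (1 : ℝ) / P k * (1 - Fintype.card I * (1 / P k)))) =
        (1 / (tot P s : ℝ)) *
          ∏ k, (1 - (if s k = none then (0 : ℝ) else Fintype.card I * (1 / P k))) := by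
      rw [← prod_inv_tot, ← Finset.prod_mul_distrib]
      apply Finset.prod_congr rfl
      intro k _
      split_ifs
      · simp
      · rfl
    have hlow : (1 - ε : ℝ) ≤
        ∏ k, (1 - (if s k = none then (0 : ℝ) else Fintype.card I * (1 / P k))) := by
      refine le_trans ?_ (one_sub_sum_le_prod' univ _ ?_ ?_)
      · have : ∑ k, (if s k = none then (0 : ℝ) else Fintype.card I * (1 / (P k : ℝ))) =
            Fintype.card I * ∑ k, (if s k = none then 0 else 1 / (P k : ℝ)) := by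
          rw [Finset.mul_sum]
          apply Finset.sum_congr rfl
          intro k _
          split_ifs <;> simp
        rw [this]
        have h1 : (Fintype.card I : ℝ) * ∑ k, (if s k = none then 0 else 1 / (P k : ℝ)) ≤
            Fintype.card I * (ε / (Fintype.card I : ℝ)) :=
          mul_le_mul_of_nonneg_left hsum hcard.le
        have h2 : (Fintype.card I : ℝ) * (ε / (Fintype.card I : ℝ)) = ε := by
          field_simp
        linarith
      · intro k _
        split_ifs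
        · exact le_refl _
        · exact mul_nonneg hcard.le (hb k).1
      · intro k _
        split_ifs
        · norm_num
        · exact (hb k).2
    rw [hprod]
    have hG : 0 ≤ ∏ i, (g i (lab P s i)) ^ 2 := Finset.prod_nonneg (fun i _ => sq_nonneg _)
    have htp : (0 : ℝ) < tot P s := by linarith
    have hGt : 0 ≤ (∏ i, (g i (lab P s i)) ^ 2) * (1 / (tot P s : ℝ)) :=
      mul_nonneg hG (by positivity)
    calc (1 - ε) * ((∏ i, (g i (lab P s i)) ^ 2) / tot P s)
        = ((∏ i, (g i (lab P s i)) ^ 2) * (1 / (tot P s : ℝ))) * (1 - ε) := by ring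
      _ ≤ ((∏ i, (g i (lab P s i)) ^ 2) * (1 / (tot P s : ℝ))) *
          ∏ k, (1 - (if s k = none then (0 : ℝ) else Fintype.card I * (1 / P k))) :=
          mul_le_mul_of_nonneg_left hlow hGt
      _ = _ := by ring
  have hfin : (1 - ε) * ∑ s ∈ goodE P (univ : Finset I) R ε,
      (∏ i, (g i (lab P s i)) ^ 2) / tot P s ≤
      ∑ s ∈ goodE P (univ : Finset I) R ε,
      (cc (fun k => (1 : ℝ) / P k) (lamF P (FF P g R)) s) ^ 2 *
      ∏ k, (if s k = none then 1 else (1 : ℝ) / P k * (1 - Fintype.card I * (1 / P k))) := by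
    rw [Finset.mul_sum]
    exact Finset.sum_le_sum hgood
  refine le_trans ?_ hfin
  have hm' : (1 - 4 * ε) * ∏ i, SS P (fun b => g i b ^ 2) ≤
      ∑ s ∈ goodE P (univ : Finset I) R ε, (∏ i, (g i (lab P s i)) ^ 2) / tot P s := hmass
  calc (1 - 5 * ε) * ∏ i, SS P (fun b => g i b ^ 2) ≤
        (1 - ε) * ((1 - 4 * ε) * ∏ i, SS P (fun b => g i b ^ 2)) := by
        rw [← mul_assoc]
        apply mul_le_mul_of_nonneg_right _ hSS0
        nlinarith
    _ ≤ _ := mul_le_mul_of_nonneg_left hm' (by linarith)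

/-- lower bound of `Aext` -/
theorem q2_Aext2 (ε : ℝ) (P : ι → ℕ) (hP : ∀ k, (P k).Prime) (R : ℝ) (hR : 1 < R)
    (g : I → ℕ → ℝ) (hg0 : ∀ i b, 0 ≤ g i b) (hg : ∀ i, Antitone (g i))
    (hgR : ∀ i b, g i b ≠ 0 → (b : ℝ) ^ 2 ≤ R) (m : I) (r : ι → Option I) (hr : noL m r)
    (hrR : (tot P r : ℝ) ^ 2 ≤ R)
    (hr10 : ∑ k, (if r k = none then 0 else 1 / (P k : ℝ)) ≤ ε) :
    (1 - ε) * SS P (g m) * ∏ i ∈ univ.erase m, g i (lab P r i) ≤ Aext P (FF P g R) m r := by
  classical
  have hP1 : ∀ k, 1 ≤ P k := fun k => (hP k).one_lt.le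
  have hP0 : ∀ k, 0 < P k := fun k => (hP k).pos
  have hG : 0 ≤ ∏ i ∈ univ.erase m, g i (lab P r i) := Finset.prod_nonneg fun i _ => hg0 i _
  have hSS : 0 ≤ SS P (g m) := Finset.sum_nonneg fun T _ => div_nonneg (hg0 _ _) (Nat.cast_nonneg _)
  have h1 := q2_disj P hP (g m) (hg0 m) (hg m) r
  have h2 : (1 - ε) * SS P (g m) ≤
      ∑ T ∈ (univ : Finset (Finset ι)).filter (fun T => ∀ k ∈ T, r k = none),
        g m (nrm P T) / nrm P T := by
    refine le_trans ?_ h1
    refine mul_le_mul_of_nonneg_right ?_ hSS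
    linarith
  have hterm : ∀ T ∈ (univ : Finset (Finset ι)).filter (fun T => ∀ k ∈ T, r k = none),
      g m (nrm P T) / nrm P T * ∏ i ∈ univ.erase m, g i (lab P r i) =
      FF P g R (q2ext r m T) * tot P r / tot P (q2ext r m T) := by
    intro T hT
    rw [Finset.mem_filter] at hT
    have ht := q2_tot_ext P r m T hT.2
    have hn0 : (0 : ℝ) < nrm P T := by exact_mod_cast nrm_pos hP0 T
    have ht0 : (0 : ℝ) < tot P r := by exact_mod_cast tot_pos hP0 r
    unfold FF
    rw [← Finset.mul_prod_erase _ _ (Finset.mem_univ m), q2_lab_ext_m P r m hr T]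
    have h3 : ∏ i ∈ univ.erase m, g i (lab P (q2ext r m T) i) =
        ∏ i ∈ univ.erase m, g i (lab P r i) :=
      Finset.prod_congr rfl fun i hi => by
        rw [q2_lab_ext_i P r m i (Finset.ne_of_mem_erase hi) T hT.2]
    rw [h3]
    by_cases h0 : g m (nrm P T) = 0
    · rw [h0]
      simp
    · have h4 : ((tot P (q2ext r m T) : ℕ) : ℝ) ≤ R := by
        rw [ht]
        push_cast
        have h5 := hgR m _ h0
        have h6 : ((tot P r : ℝ) * nrm P T) ^ 2 ≤ R ^ 2 := by
          rw [mul_pow, sq R]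
          exact mul_le_mul hrR h5 (by positivity) (by linarith)
        exact le_of_sq_le_sq h6 (by linarith)
      rw [if_pos h4, ht]
      push_cast
      field_simp
  unfold Aext
  calc (1 - ε) * SS P (g m) * ∏ i ∈ univ.erase m, g i (lab P r i)
      ≤ (∑ T ∈ (univ : Finset (Finset ι)).filter (fun T => ∀ k ∈ T, r k = none),
        g m (nrm P T) / nrm P T) * ∏ i ∈ univ.erase m, g i (lab P r i) :=
        mul_le_mul_of_nonneg_right h2 hG
    _ = ∑ T ∈ (univ : Finset (Finset ι)).filter (fun T => ∀ k ∈ T, r k = none),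
        FF P g R (q2ext r m T) * tot P r / tot P (q2ext r m T) := by
        rw [Finset.sum_mul]
        exact Finset.sum_congr rfl hterm
    _ = ∑ s ∈ ((univ : Finset (Finset ι)).filter (fun T => ∀ k ∈ T, r k = none)).image
        (q2ext r m), FF P g R s * tot P r / tot P s := by
        rw [Finset.sum_image]
        intro T _ T' _ hTT
        ext k
        have h7 := congrFun hTT k
        unfold q2ext at h7
        constructor
        · intro hk
          by_contra hk'
          rw [if_pos hk, if_neg hk'] at h7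
          exact hr k h7.symm
        · intro hk
          by_contra hk'
          rw [if_neg hk', if_pos hk] at h7
          exact hr k h7
    _ ≤ _ := by
        refine Finset.sum_le_sum_of_subset_of_nonneg ?_ ?_
        · intro s hs
          rw [Finset.mem_image] at hs
          obtain ⟨T, hT, rfl⟩ := hs
          rw [Finset.mem_filter] at hT
          rw [Finset.mem_filter]
          refine ⟨Finset.mem_univ _, fun k => ?_, fun k => ?_⟩
          · unfold q2ext
            by_cases hk : k ∈ T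
            · exact Or.inl (hT.2 k hk)
            · rw [if_neg hk]
              exact Or.inr rfl
          · unfold q2ext
            by_cases hk : k ∈ T
            · rw [if_pos hk]
              exact Or.inr rfl
            · rw [if_neg hk]
              exact Or.inl rfl
        · intro s _ _
          refine div_nonneg (mul_nonneg ?_ (Nat.cast_nonneg _)) (Nat.cast_nonneg _)
          unfold FF
          refine mul_nonneg (Finset.prod_nonneg fun i _ => hg0 i _) ?_
          split_ifs <;> norm_num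

/-- the local weights -/
theorem q2_weight2 (ε : ℝ) (P : ι → ℕ) (hP : ∀ k, (P k).Prime)
    (hK : ∀ k, 2 * Fintype.card I + 1 ≤ P k) (hI : 1 ≤ Fintype.card I) (r : ι → Option I)
    (hr10 : ∑ k, (if r k = none then 0 else 1 / (P k : ℝ)) ≤ ε / (Fintype.card I : ℝ)) :
    (1 - 2 * ε) / (tot P r : ℝ) ≤ ∏ k, (if r k = none then 1 else
      (1 : ℝ) / (P k - 1) * (1 - Fintype.card I * ((1 : ℝ) / (P k - 1)))) := by
  classical
  obtain ⟨K, hKdef⟩ : ∃ K : ℝ, K = Fintype.card I := ⟨_, rfl⟩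
  have hK1 : 1 ≤ K := by rw [hKdef]; exact_mod_cast hI
  have hPK : ∀ k, 2 * K + 1 ≤ (P k : ℝ) := fun k => by
    rw [hKdef]
    exact_mod_cast hK k
  rw [← hKdef] at hr10 ⊢
  have hsup : ∀ k, (if r k = none then (1 : ℝ) else (1 / (P k : ℝ)) * (1 - 2 * K / P k)) ≤
      (if r k = none then 1 else (1 : ℝ) / (P k - 1) * (1 - K * ((1 : ℝ) / (P k - 1)))) := by
    intro k
    by_cases hk : r k = none
    · rw [if_pos hk, if_pos hk]
    · rw [if_neg hk, if_neg hk]
      have h1 := hPK k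
      have h2 : (0 : ℝ) < P k := by linarith
      have h3 : (0 : ℝ) < P k - 1 := by linarith
      refine mul_le_mul (one_div_le_one_div_of_le h3 (by linarith)) ?_ ?_ (by positivity)
      · have h4 : K * (1 / ((P k : ℝ) - 1)) ≤ 2 * K / P k := by
          rw [mul_one_div, div_le_div_iff₀ h3 h2]
          nlinarith
        linarith
      · rw [sub_nonneg, div_le_one h2]
        linarith
  have hnn : ∀ k, 0 ≤ (if r k = none then (1 : ℝ) else (1 / (P k : ℝ)) * (1 - 2 * K / P k)) := by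
    intro k
    split_ifs
    · norm_num
    · have h1 := hPK k
      have h2 : (0 : ℝ) < P k := by linarith
      refine mul_nonneg (by positivity) ?_
      rw [sub_nonneg, div_le_one h2]
      linarith
  refine le_trans ?_ (Finset.prod_le_prod (fun k _ => hnn k) fun k _ => hsup k)
  have h5 : ∏ k, (if r k = none then (1 : ℝ) else (1 / (P k : ℝ)) * (1 - 2 * K / P k)) =
      (∏ k, (1 - (if r k = none then 0 else 2 * K / (P k : ℝ)))) / tot P r := by
    unfold tot
    push_cast
    rw [← Finset.prod_div_distrib]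
    refine Finset.prod_congr rfl fun k _ => ?_
    by_cases hk : r k = none
    · rw [if_pos hk, if_pos hk, if_pos hk]
      simp
    · rw [if_neg hk, if_neg hk, if_neg hk]
      ring
  rw [h5]
  have ht0 : (0 : ℝ) < tot P r := by exact_mod_cast tot_pos (fun k => (hP k).pos) r
  refine div_le_div_of_nonneg_right ?_ ht0.le
  have h6 := q2_one_sub (fun k => (if r k = none then 0 else 2 * K / (P k : ℝ))) univ
    (fun k _ => by
      split_ifs
      · exact le_rfl
      · have h1 := hPK k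
        have h2 : (0 : ℝ) < P k := by linarith
        positivity)
    (fun k _ => by
      split_ifs
      · norm_num
      · have h1 := hPK k
        have h2 : (0 : ℝ) < P k := by linarith
        rw [div_le_one h2]
        linarith)
  refine le_trans ?_ h6
  have h7 : ∑ k, (if r k = none then 0 else 2 * K / (P k : ℝ)) =
      2 * K * ∑ k, (if r k = none then 0 else 1 / (P k : ℝ)) := by
    rw [Finset.mul_sum]
    refine Finset.sum_congr rfl fun k _ => ?_
    by_cases hk : r k = none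
    · rw [if_pos hk, if_pos hk, mul_zero]
    · rw [if_neg hk, if_neg hk]
      ring
  rw [h7]
  have h8 : 2 * K * ∑ k, (if r k = none then 0 else 1 / (P k : ℝ)) ≤ 2 * K * (ε / K) :=
    mul_le_mul_of_nonneg_left hr10 (by linarith)
  have h9 : 2 * K * (ε / K) = 2 * ε := by
    field_simp
  linarith

theorem qm_lower2 (P : ι → ℕ) (hP : ∀ k, (P k).Prime) (hinj : Function.Injective P)
    (hK : ∀ k, 2 * Fintype.card I + 1 ≤ P k) (R ε : ℝ) (hR : 1 < R) (hε : 0 < ε) (hε1 : ε ≤ 1 / 50)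
    (g : I → ℕ → ℝ) (hg0 : ∀ i b, 0 ≤ g i b) (hg : ∀ i, Antitone (g i)) (hg1 : ∀ i, g i 1 = 1)
    (hgR : ∀ i b, g i b ≠ 0 → (b : ℝ) ^ 2 ≤ R)
    (hσ : ∑ k, 1 / (P k : ℝ) ^ 2 ≤ ε ^ 2 / (10 * (Fintype.card I : ℝ) ^ 2))
    (hκ : ∏ k, (1 + (Fintype.card I : ℝ) / (P k * (P k - 1))) ≤ 1 + ε)
    (hC : ∑ i, SS P (fun b => g i b ^ 2 * Real.log b) / SS P (fun b => g i b ^ 2) ≤
      ε * Real.log R) (m : I) :
    (1 - 10 * ε) * SS P (g m) ^ 2 * ∏ i ∈ univ.erase m, SS P (fun b => g i b ^ 2) ≤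
      mform (fun k => (1 : ℝ) / (P k - 1)) (offL m (lamF P (FF P g R))) := by
  classical
  have hI : 1 ≤ Fintype.card I := Fintype.card_pos_iff.2 ⟨m⟩
  have hI' : (1 : ℝ) ≤ Fintype.card I := by exact_mod_cast hI
  have hP1 : ∀ k, 1 ≤ P k := fun k => (hP k).one_lt.le
  have hP0 : ∀ k, 0 < P k := fun k => (hP k).pos
  have hPK : ∀ k, 2 * (Fintype.card I : ℝ) + 1 ≤ (P k : ℝ) := fun k => by exact_mod_cast hK k
  have hSS : 0 ≤ SS P (g m) := Finset.sum_nonneg fun T _ => div_nonneg (hg0 _ _) (Nat.cast_nonneg _)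
  have hπ0 : ∀ k, 0 ≤ (1 : ℝ) / ((P k : ℝ) - 1) := fun k => by
    have := hPK k
    exact div_nonneg zero_le_one (by linarith)
  have hπK : ∀ k, (Fintype.card I : ℝ) * ((1 : ℝ) / ((P k : ℝ) - 1)) ≤ 1 := fun k => by
    have := hPK k
    rw [mul_one_div, div_le_one (by linarith)]
    linarith
  refine le_trans ?_ (le_diag (fun k => (1 : ℝ) / ((P k : ℝ) - 1)) hπ0 hπK
    (offL m (lamF P (FF P g R))))
  obtain ⟨J, hJdef⟩ : ∃ J : Finset I, J = univ.erase m := ⟨_, rfl⟩
  rw [← hJdef]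
  -- mass of the good numbers
  have hmass := mass_good2 P hP hinj J R ε hR hε (by linarith) (fun i b => g i b ^ 2) (fun i b => sq_nonneg _)
    (fun i a b hab => pow_le_pow_left₀ (hg0 i b) (hg i hab) 2)
    (fun i => by rw [hg1]; norm_num) hσ (by
      refine le_trans (Finset.sum_le_sum_of_subset_of_nonneg (Finset.subset_univ J) ?_) hC
      intro i _ _
      refine div_nonneg (Finset.sum_nonneg fun T _ => ?_) (Finset.sum_nonneg fun T _ => ?_)
      · refine div_nonneg (mul_nonneg (sq_nonneg _) (Real.log_natCast_nonneg _))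
          (Nat.cast_nonneg _)
      · exact div_nonneg (sq_nonneg _) (Nat.cast_nonneg _))
  -- the terms
  have hterm : ∀ r ∈ goodE P J R ε,
      (1 - 6 * ε) * SS P (g m) ^ 2 * ((∏ i ∈ J, g i (lab P r i) ^ 2) / tot P r) ≤
      (cc (fun k => (1 : ℝ) / ((P k : ℝ) - 1)) (offL m (lamF P (FF P g R))) r) ^ 2 *
        ∏ k, (if r k = none then 1 else (1 : ℝ) / ((P k : ℝ) - 1) *
          (1 - Fintype.card I * ((1 : ℝ) / ((P k : ℝ) - 1)))) := by
    intro r hr
    unfold goodE at hr
    rw [Finset.mem_filter] at hr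
    obtain ⟨-, hlab, hrR, hr10⟩ := hr
    have hno : noL m r := by
      intro k hk
      have := hlab k m hk
      rw [hJdef] at this
      exact Finset.notMem_erase m univ this
    have hr10' : ∑ k, (if r k = none then 0 else 1 / (P k : ℝ)) ≤ ε := by
      refine hr10.trans ?_
      exact div_le_self hε.le hI'
    have hA := q2_Aext2 ε P hP R hR g hg0 hg hgR m r hno hrR hr10'
    rw [← hJdef] at hA
    have hG : 0 ≤ ∏ i ∈ J, g i (lab P r i) := Finset.prod_nonneg fun i _ => hg0 i _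
    have hA0 : 0 ≤ (1 - ε) * SS P (g m) * ∏ i ∈ J, g i (lab P r i) :=
      mul_nonneg (mul_nonneg (by linarith) hSS) hG
    have hc := cc_offL P (fun k => (hP k).two_le) (FF P g R) (fun s => by
      unfold FF
      refine mul_nonneg (Finset.prod_nonneg fun i _ => hg0 i _) ?_
      split_ifs <;> norm_num) (fun s s' h => q2_FF_anti P hP1 g hg0 hg R s s' h) m r hno
    have hc2 : (1 - ε) * ((1 - ε) * SS P (g m) * ∏ i ∈ J, g i (lab P r i)) ≤
        |cc (fun k => (1 : ℝ) / ((P k : ℝ) - 1)) (offL m (lamF P (FF P g R))) r| := by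
      refine le_trans ?_ hc
      refine mul_le_mul ?_ hA hA0 ?_
      · linarith
      · linarith
    have hc3 := pow_le_pow_left₀ (mul_nonneg (by linarith) hA0) hc2 2
    rw [sq_abs] at hc3
    have hw := q2_weight2 ε P hP hK hI r hr10
    have ht0 : (0 : ℝ) < tot P r := by exact_mod_cast tot_pos hP0 r
    refine le_trans ?_ (mul_le_mul hc3 hw (div_nonneg (by linarith) ht0.le) (sq_nonneg _))
    rw [Finset.prod_pow]
    have h1 : ((1 - ε : ℝ) * ((1 - ε) * SS P (g m) * ∏ i ∈ J, g i (lab P r i))) ^ 2 *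
        ((1 - 2 * ε) / (tot P r : ℝ)) = ((1 - ε) ^ 4 * (1 - 2 * ε)) * (SS P (g m) ^ 2 *
        ((∏ i ∈ J, g i (lab P r i)) ^ 2 / tot P r)) := by
      ring
    rw [h1, mul_assoc]
    refine mul_le_mul_of_nonneg_right ?_ (by positivity)
    have e1 : 1 - 4 * ε ≤ (1 - ε) ^ 4 := by
      have := one_add_mul_le_pow (show (-2 : ℝ) ≤ -ε by linarith) 4
      push_cast at this
      linarith
    calc (1 - 6 * ε) ≤ (1 - 4 * ε) * (1 - 2 * ε) := by nlinarith
      _ ≤ (1 - ε) ^ 4 * (1 - 2 * ε) := mul_le_mul_of_nonneg_right e1 (by linarith)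
  calc (1 - 10 * ε) * SS P (g m) ^ 2 * ∏ i ∈ J, SS P (fun b => g i b ^ 2)
      ≤ (1 - 6 * ε) * SS P (g m) ^ 2 * ((1 - 4 * ε) * ∏ i ∈ J, SS P (fun b => g i b ^ 2)) := by
        have h1 : 0 ≤ SS P (g m) ^ 2 * ∏ i ∈ J, SS P (fun b => g i b ^ 2) := by
          refine mul_nonneg (sq_nonneg _) (Finset.prod_nonneg fun i _ =>
            Finset.sum_nonneg fun T _ => div_nonneg (sq_nonneg _) (Nat.cast_nonneg _))
        have h2 : 1 - 10 * ε ≤ (1 - 6 * ε) * (1 - 4 * ε) := by nlinarith
        calc _ = (1 - 10 * ε) * (SS P (g m) ^ 2 * ∏ i ∈ J, SS P (fun b => g i b ^ 2)) := by ring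
          _ ≤ ((1 - 6 * ε) * (1 - 4 * ε)) *
              (SS P (g m) ^ 2 * ∏ i ∈ J, SS P (fun b => g i b ^ 2)) :=
              mul_le_mul_of_nonneg_right h2 h1
          _ = _ := by ring
    _ ≤ (1 - 6 * ε) * SS P (g m) ^ 2 * ∑ s ∈ goodE P J R ε,
        (∏ i ∈ J, g i (lab P s i) ^ 2) / tot P s :=
        mul_le_mul_of_nonneg_left hmass (mul_nonneg (by linarith) (sq_nonneg _))
    _ = ∑ r ∈ goodE P J R ε, (1 - 6 * ε) * SS P (g m) ^ 2 *
        ((∏ i ∈ J, g i (lab P r i) ^ 2) / tot P r) := by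
        rw [Finset.mul_sum]
    _ ≤ ∑ r ∈ goodE P J R ε,
        (cc (fun k => (1 : ℝ) / ((P k : ℝ) - 1)) (offL m (lamF P (FF P g R))) r) ^ 2 *
        ∏ k, (if r k = none then 1 else (1 : ℝ) / ((P k : ℝ) - 1) *
          (1 - Fintype.card I * ((1 : ℝ) / ((P k : ℝ) - 1)))) := Finset.sum_le_sum hterm
    _ ≤ _ := by
        refine Finset.sum_le_sum_of_subset_of_nonneg (Finset.subset_univ _) fun r _ _ => ?_
        refine mul_nonneg (sq_nonneg _) (Finset.prod_nonneg fun k _ => ?_)
        split_ifs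
        · exact zero_le_one
        · exact mul_nonneg (hπ0 k) (sub_nonneg.2 (hπK k))

end Pool.Agent.H21.SH
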