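import Pool.Agent.H21.SH.Mb
import Pool.Agent.H21.MT.StepN
import Pool.Agent.H21.MT.Diag

/-!
[H21 SH QU]  Upper bound of the prime form after the Selberg steps at the labels of `S`.

Proof.  `K = |I|`, `t = |S| ≤ K - 1` (as `m ∉ S`), `a = ∏_{j ∈ S} SS(g_j rho^t)/HH y`,
`u i = [b ≤ y]` for `i ∈ S`, `u i = g i` otherwise (all antitone, nonnegative).
(1) `diag_le` with `π = 1/(P-1)` (`K π ≤ 1` by `hK`): `mform ≤ ∑_r cc(r)^2 ∏_{k ∈ r} 1/(P k - 1)`.
    If `r` has a label `m` then `cc r = 0` (all `d ⊇ r` have a label `m`, `offL m _ d = 0`).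
(2) For the other `r`: `cc_upper` and `1/(P-1) ≤ (1+1/P)^2/P`, i.e.
    `∏_{k ∈ r} 1/(P k - 1) ≤ ∏_i rho(lab r i)^2 / tot r`, and `lab r m = 1`.  So with
    `κ1 = ∏ k (1 + K (1+1/P k)^t/(P k (P k-1)))`:
    `mform ≤ κ1^2 a^2 SS(g_m rho^t)^2 ∑_r (∏_i v i (lab r i))/tot r`, `v m b = if b ≤ 1 then 1 else 0`,
    `v i b = u i b ^2 * rho b^{2t+2}` (`i ≠ m`), hence by `sum_prod_le`
    `≤ κ1^2 a^2 SS(g_m rho^t)^2 ∏_{i ≠ m} SS(v i)` (`SS P (v m) = 1`: only `T = ∅` has `nrm T ≤ 1`).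
(3) `SS_rho_le`: `SS(g_j rho^t) ≤ kap P t SS(g_j)`, `SS(g_i^2 rho^{2t+2}) ≤ kap P (2t+2) SS(g_i^2)`,
    `SS([b ≤ y] rho^{2t+2}) ≤ kap P (2t+2) HH y`; `kap` is monotone and `≥ 1`, `2t+2 ≤ 2K`, so with
    `κ = kap P (2K)` the total is at most
    `κ1^2 κ^{2t + 2 + K} SS(g_m)^2 ∏_{j∈S} (SS(g_j)^2/HH y^2 * HH y) ∏_{i ∉ S, i≠m} SS(g_i^2)`,
    `2t + 2 + K ≤ 4K`, and `κ1 ≤` the same product with `K` instead of `t`.
-/

namespace Pool.Agent.H21.SH

open Finset Pool.Agent.H21.MT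

variable {ι I : Type} [Fintype ι] [DecidableEq ι] [Fintype I] [DecidableEq I]

private theorem q_SS_nonneg (P : ι → ℕ) {u : ℕ → ℝ} (h : ∀ b, 0 ≤ u b) : 0 ≤ SS P u := by
  unfold SS
  exact Finset.sum_nonneg fun T _ => div_nonneg (h _) (Nat.cast_nonneg _)

private theorem q_HH_pos (P : ι → ℕ) (hP : ∀ k, 0 < P k) (y : ℝ) (hy : 1 ≤ y) : 0 < HH P y := by
  unfold HH
  apply Finset.sum_pos
  · intro T _
    have := nrm_pos hP T
    positivity
  · refine ⟨∅, ?_⟩
    rw [Finset.mem_filter]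
    refine ⟨mem_univ _, ?_⟩
    simpa [nrm] using hy

private theorem q_SS_ind (P : ι → ℕ) (y : ℝ) :
    SS P (fun b => if (b : ℝ) ≤ y then 1 else 0) = HH P y := by
  unfold SS HH
  rw [Finset.sum_filter]
  apply Finset.sum_congr rfl
  intro T _
  dsimp only
  by_cases h : (nrm P T : ℝ) ≤ y
  · rw [if_pos h, if_pos h]
  · rw [if_neg h, if_neg h, zero_div]

private theorem q_one_le_kap (P : ι → ℕ) (t : ℕ) : 1 ≤ kap P t := by
  have e : (1 : ℝ) = ∏ _k : ι, (1 : ℝ) := Finset.prod_const_one.symm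
  refine e.le.trans ?_
  unfold kap
  apply Finset.prod_le_prod
  · intro k _; exact zero_le_one
  · intro k _
    have h1 : (1 : ℝ) ≤ (1 + 1 / (P k : ℝ)) ^ t :=
      one_le_pow₀ (le_add_of_nonneg_right (by positivity))
    have h2 : 0 ≤ ((1 + 1 / (P k : ℝ)) ^ t - 1) / P k :=
      div_nonneg (sub_nonneg.2 h1) (Nat.cast_nonneg _)
    linarith

private theorem q_kap_mono (P : ι → ℕ) {t t' : ℕ} (h : t ≤ t') : kap P t ≤ kap P t' := by
  unfold kap
  apply Finset.prod_le_prod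
  · intro k _
    have h1 : (1 : ℝ) ≤ (1 + 1 / (P k : ℝ)) ^ t :=
      one_le_pow₀ (le_add_of_nonneg_right (by positivity))
    have h2 : 0 ≤ ((1 + 1 / (P k : ℝ)) ^ t - 1) / P k :=
      div_nonneg (sub_nonneg.2 h1) (Nat.cast_nonneg _)
    linarith
  · intro k _
    have h1 : (1 + 1 / (P k : ℝ)) ^ t ≤ (1 + 1 / (P k : ℝ)) ^ t' :=
      pow_le_pow_right₀ (le_add_of_nonneg_right (by positivity)) h
    have h2 : ((1 + 1 / (P k : ℝ)) ^ t - 1) / P k ≤ ((1 + 1 / (P k : ℝ)) ^ t' - 1) / P k :=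
      div_le_div_of_nonneg_right (by linarith) (Nat.cast_nonneg _)
    linarith

private theorem q_loc (p : ℝ) (hp : 2 ≤ p) : 1 / (p - 1) ≤ (1 + 1 / p) ^ 2 / p := by
  have hp0 : 0 < p := by linarith
  rw [div_le_div_iff₀ (by linarith) hp0]
  have h1 : (1 + 1 / p) ^ 2 * (p - 1) - 1 * p = (p ^ 2 - p - 1) / p ^ 2 := by
    field_simp
    ring
  have h2 : 0 ≤ (p ^ 2 - p - 1) / p ^ 2 := by
    apply div_nonneg _ (by positivity)
    nlinarith
  linarith

private theorem q_lab_m (P : ι → ℕ) (m : I) (r : ι → Option I) (hr : noL m r) :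
    lab P r m = 1 := by
  unfold lab
  apply Finset.prod_eq_one
  intro k _
  rw [if_neg (hr k)]

private theorem q_rho_one : rho 1 = 1 := by
  unfold rho
  simp

private theorem q_pi (P : ι → ℕ) (hP : ∀ k, (P k).Prime) (hinj : Function.Injective P)
    (m : I) (r : ι → Option I) (hr : noL m r) :
    ∏ k, (if r k = none then 1 else (1 : ℝ) / (P k - 1)) ≤
      (∏ i ∈ univ.erase m, rho (lab P r i) ^ 2) / tot P r := by
  have h1 : ∏ i ∈ univ.erase m, rho (lab P r i) ^ 2 = ∏ i, rho (lab P r i) ^ 2 := by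
    rw [← Finset.mul_prod_erase univ (fun i => rho (lab P r i) ^ 2) (mem_univ m),
      q_lab_m P m r hr, q_rho_one, one_pow, one_mul]
  have h2 : ∏ i, rho (lab P r i) ^ 2 =
      ∏ k, (if r k = none then 1 else (1 + 1 / (P k : ℝ)) ^ 2) := by
    rw [Finset.prod_pow]
    have h3 : ∏ i, rho (lab P r i) = ∏ k, (if r k = none then 1 else (1 + 1 / (P k : ℝ))) := by
      simp_rw [rho_lab P hP hinj]
      rw [Finset.prod_comm]
      apply Finset.prod_congr rfl
      intro k _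
      rcases h : r k with _ | j
      · simp
      · simp
    rw [h3, ← Finset.prod_pow]
    apply Finset.prod_congr rfl
    intro k _
    split_ifs
    · exact one_pow _
    · rfl
  rw [h1, h2]
  unfold tot
  push_cast
  rw [← Finset.prod_div_distrib]
  apply Finset.prod_le_prod
  · intro k _
    have := (hP k).two_le
    have h3 : (2 : ℝ) ≤ P k := by exact_mod_cast this
    split_ifs
    · exact zero_le_one
    · apply div_nonneg zero_le_one
      linarith
  · intro k _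
    have := (hP k).two_le
    have h3 : (2 : ℝ) ≤ P k := by exact_mod_cast this
    split_ifs
    · simp
    · exact q_loc _ h3

private theorem q_cc_zero (π : ι → ℝ) (m : I) (lam : (ι → Option I) → ℝ) (r : ι → Option I)
    (hr : ¬ noL m r) : cc π (offL m lam) r = 0 := by
  unfold cc
  apply Finset.sum_eq_zero
  intro d hd
  rw [Finset.mem_filter] at hd
  have h1 : ¬ noL m d := by
    intro hd2
    apply hr
    intro k hk
    rcases hd.2 k with h2 | h2
    · rw [hk] at h2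
      exact absurd h2 (by simp)
    · exact hd2 k (h2.symm.trans hk)
  unfold offL
  rw [if_neg h1, zero_mul]

private theorem q_SS_one (P : ι → ℕ) (hP : ∀ k, (P k).Prime) :
    SS P (fun b => if b = 1 then 1 else 0) = 1 := by
  unfold SS
  rw [Finset.sum_eq_single ∅]
  · simp [nrm]
  · intro T _ hT
    have h1 : nrm P T ≠ 1 := by
      obtain ⟨k, hk⟩ := Finset.nonempty_iff_ne_empty.2 hT
      intro h2
      have h3 : P k ∣ nrm P T := Finset.dvd_prod_of_mem P hk
      rw [h2] at h3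
      exact (hP k).one_lt.ne' (Nat.dvd_one.1 h3)
    dsimp only
    rw [if_neg h1, zero_div]
  · intro h
    exact absurd (mem_univ _) h

theorem qm_upper (P : ι → ℕ) (hP : ∀ k, (P k).Prime) (hinj : Function.Injective P)
    (hK : ∀ k, 2 * Fintype.card I + 1 ≤ P k) (y : ℝ) (hy : 1 ≤ y)
    (g : I → ℕ → ℝ) (hg0 : ∀ i b, 0 ≤ g i b) (hg : ∀ i, Antitone (g i)) (m : I) (S : Finset I)
    (hm : m ∉ S) (F' : (ι → Option I) → ℝ) (hF0 : ∀ s, 0 ≤ F' s)
    (hF' : ∀ s, F' s ≤ (∏ j ∈ S, SS P (fun b => g j b * rho b ^ S.card) / HH P y) *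
        ∏ i, ((if i ∈ S then (if (lab P s i : ℝ) ≤ y then 1 else 0) else g i (lab P s i)) *
          rho (lab P s i) ^ S.card)) :
    mform (fun k => (1 : ℝ) / (P k - 1)) (offL m (lamF P F')) ≤
      ((∏ k, (1 + (Fintype.card I : ℝ) * (1 + 1 / (P k : ℝ)) ^ Fintype.card I /
          (P k * (P k - 1)))) ^ 2 * kap P (2 * Fintype.card I) ^ (4 * Fintype.card I)) *
        (SS P (g m) ^ 2 * (∏ j ∈ S, SS P (g j) ^ 2 / HH P y) *
          ∏ i ∈ univ \ insert m S, SS P (fun b => g i b ^ 2)) := by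
  have hrho : ∀ b, (0 : ℝ) ≤ rho b := fun b => zero_le_one.trans (one_le_rho b)
  have hPpos : ∀ k, 0 < P k := fun k => (hP k).pos
  have hHH : 0 < HH P y := q_HH_pos P hPpos y hy
  obtain ⟨t, ht⟩ : ∃ t, t = S.card := ⟨_, rfl⟩
  obtain ⟨K, hKd⟩ : ∃ K, K = Fintype.card I := ⟨_, rfl⟩
  rw [← hKd] at hK ⊢
  rw [← ht] at hF'
  have hSe : S ⊆ univ.erase m := by
    intro i hi
    rw [Finset.mem_erase]
    exact ⟨fun h => hm (h ▸ hi), mem_univ _⟩
  have hcE : (univ.erase m).card = K - 1 := by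
    rw [Finset.card_erase_of_mem (mem_univ m), Finset.card_univ, hKd]
  have hK1 : 1 ≤ K := by
    rw [hKd]
    exact Fintype.card_pos_iff.2 ⟨m⟩
  have htK : t + 1 ≤ K := by
    have := Finset.card_le_card hSe
    rw [hcE] at this
    omega
  obtain ⟨κ, hκ⟩ : ∃ κ, κ = kap P (2 * K) := ⟨_, rfl⟩
  rw [← hκ]
  have hκ1 : 1 ≤ κ := by rw [hκ]; exact q_one_le_kap P _
  have hκ0 : 0 ≤ κ := zero_le_one.trans hκ1
  obtain ⟨u, hu⟩ : ∃ u : I → ℕ → ℝ, u = fun (i : I) (b : ℕ) =>
    if i ∈ S then (if (b : ℝ) ≤ y then 1 else 0) else g i b := ⟨_, rfl⟩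
  have hu0 : ∀ i b, 0 ≤ u i b := by
    intro i b
    rw [hu]
    dsimp only
    split_ifs
    · exact zero_le_one
    · exact le_rfl
    · exact hg0 i b
  have hua : ∀ i, Antitone (u i) := by
    intro i b b' hbb
    rw [hu]
    dsimp only
    by_cases hi : i ∈ S
    · rw [if_pos hi, if_pos hi]
      by_cases hb' : (b' : ℝ) ≤ y
      · have hb : (b : ℝ) ≤ y := le_trans (by exact_mod_cast hbb) hb'
        rw [if_pos hb, if_pos hb']
      · rw [if_neg hb']
        split_ifs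
        · exact zero_le_one
        · exact le_rfl
    · rw [if_neg hi, if_neg hi]
      exact hg i hbb
  have hum : u m = g m := by
    rw [hu]
    funext b
    simp only [if_neg hm]
  obtain ⟨a, ha⟩ : ∃ a, a = ∏ j ∈ S, SS P (fun b => g j b * rho b ^ t) / HH P y := ⟨_, rfl⟩
  rw [← ha] at hF'
  have ha0 : 0 ≤ a := by
    rw [ha]
    exact Finset.prod_nonneg fun j' _ => div_nonneg
      (q_SS_nonneg P fun b => mul_nonneg (hg0 j' b) (pow_nonneg (hrho b) _)) hHH.le
  have hF2 : ∀ s, |F' s| ≤ a * ∏ i, (u i (lab P s i) * rho (lab P s i) ^ t) := by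
    intro s
    rw [abs_of_nonneg (hF0 s)]
    refine (hF' s).trans (le_of_eq ?_)
    rw [hu]
  obtain ⟨c1, hc1⟩ : ∃ c1 : ℝ, c1 =
    ∏ k, (1 + (K : ℝ) * (1 + 1 / (P k : ℝ)) ^ t / (P k * (P k - 1))) := ⟨_, rfl⟩
  obtain ⟨c2, hc2⟩ : ∃ c2 : ℝ, c2 =
    ∏ k, (1 + (K : ℝ) * (1 + 1 / (P k : ℝ)) ^ K / (P k * (P k - 1))) := ⟨_, rfl⟩
  have hPge : ∀ k, (2 : ℝ) ≤ P k := fun k => by exact_mod_cast (hP k).two_le
  have hc10 : 0 ≤ c1 := by
    rw [hc1]
    apply Finset.prod_nonneg
    intro k _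
    have h2 := hPge k
    have h3 : 0 ≤ (P k : ℝ) * (P k - 1) := mul_nonneg (by linarith) (by linarith)
    have h4 : 0 ≤ (K : ℝ) * (1 + 1 / (P k : ℝ)) ^ t / (P k * (P k - 1)) :=
      div_nonneg (by positivity) h3
    linarith
  have hc12 : c1 ≤ c2 := by
    rw [hc1, hc2]
    apply Finset.prod_le_prod
    · intro k _
      have h2 := hPge k
      have h3 : 0 ≤ (P k : ℝ) * (P k - 1) := mul_nonneg (by linarith) (by linarith)
      have h4 : 0 ≤ (K : ℝ) * (1 + 1 / (P k : ℝ)) ^ t / (P k * (P k - 1)) :=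
        div_nonneg (by positivity) h3
      linarith
    · intro k _
      have h2 := hPge k
      have h3 : 0 ≤ (P k : ℝ) * (P k - 1) := mul_nonneg (by linarith) (by linarith)
      have h5 : (1 + 1 / (P k : ℝ)) ^ t ≤ (1 + 1 / (P k : ℝ)) ^ K :=
        pow_le_pow_right₀ (le_add_of_nonneg_right (by positivity)) (by omega)
      have h4 : (K : ℝ) * (1 + 1 / (P k : ℝ)) ^ t / (P k * (P k - 1)) ≤
          (K : ℝ) * (1 + 1 / (P k : ℝ)) ^ K / (P k * (P k - 1)) :=
        div_le_div_of_nonneg_right (mul_le_mul_of_nonneg_left h5 (Nat.cast_nonneg _)) h3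
      linarith
  rw [← hc2]
  -- the diagonal bound
  have hπ0 : ∀ k, 0 ≤ (1 : ℝ) / (P k - 1) := fun k => by
    have := hPge k
    exact div_nonneg zero_le_one (by linarith)
  have hdiag := diag_le (fun k => (1 : ℝ) / (P k - 1)) hπ0 (by
    intro k
    have h1 : (2 * (K : ℝ) + 1) ≤ P k := by exact_mod_cast hK k
    have h2 : (0 : ℝ) ≤ K := Nat.cast_nonneg _
    have h3 := hPge k
    rw [← hKd, mul_one_div, div_le_one (by linarith)]
    linarith) (offL m (lamF P F'))
  refine hdiag.trans ?_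
  -- the functions `v`
  obtain ⟨v, hv⟩ : ∃ v : I → ℕ → ℝ, v = fun (i : I) (b : ℕ) =>
    if i = m then (if b = 1 then 1 else 0) else u i b ^ 2 * rho b ^ (2 * t + 2) := ⟨_, rfl⟩
  have hv0 : ∀ i b, 0 ≤ v i b := by
    intro i b
    rw [hv]
    dsimp only
    split_ifs
    · exact zero_le_one
    · exact le_rfl
    · exact mul_nonneg (sq_nonneg _) (pow_nonneg (hrho b) _)
  obtain ⟨sm, hsm⟩ : ∃ sm, sm = SS P (fun b => u m b * rho b ^ t) := ⟨_, rfl⟩
  have hsm0 : 0 ≤ sm := by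
    rw [hsm]
    exact q_SS_nonneg P fun b => mul_nonneg (hu0 m b) (pow_nonneg (hrho b) _)
  have hterm : ∀ r : ι → Option I,
      (cc (fun k => (1 : ℝ) / (P k - 1)) (offL m (lamF P F')) r) ^ 2 *
        ∏ k, (if r k = none then 1 else (1 : ℝ) / (P k - 1)) ≤
      (c1 ^ 2 * a ^ 2 * sm ^ 2) * ((∏ i, v i (lab P r i)) / tot P r) := by
    intro r
    by_cases hr : noL m r
    · have h1 := cc_upper P hP hinj F' a ha0 u hu0 hua t hF2 m r hr
      rw [← hKd, ← hc1, ← hsm] at h1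
      have h2 : (cc (fun k => (1 : ℝ) / (P k - 1)) (offL m (lamF P F')) r) ^ 2 ≤
          (c1 * (a * sm * ∏ i ∈ univ.erase m, (u i (lab P r i) * rho (lab P r i) ^ t))) ^ 2 := by
        rw [← sq_abs]
        exact pow_le_pow_left₀ (abs_nonneg _) h1 2
      have h3 := q_pi P hP hinj m r hr
      have h4 : 0 ≤ ∏ k, (if r k = none then 1 else (1 : ℝ) / (P k - 1)) := by
        apply Finset.prod_nonneg
        intro k _
        split_ifs
        · exact zero_le_one
        · exact hπ0 k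
      refine (mul_le_mul h2 h3 h4 (sq_nonneg _)).trans (le_of_eq ?_)
      have h5 : ∏ i, v i (lab P r i) =
          (∏ i ∈ univ.erase m, (u i (lab P r i) * rho (lab P r i) ^ t)) ^ 2 *
            ∏ i ∈ univ.erase m, rho (lab P r i) ^ 2 := by
        rw [← Finset.mul_prod_erase univ (fun i => v i (lab P r i)) (mem_univ m)]
        have h6 : v m (lab P r m) = 1 := by
          rw [q_lab_m P m r hr, hv]
          simp
        rw [h6, one_mul, ← Finset.prod_pow, ← Finset.prod_mul_distrib]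
        apply Finset.prod_congr rfl
        intro i hi
        rw [hv]
        dsimp only
        rw [if_neg (Finset.ne_of_mem_erase hi)]
        ring
      rw [h5]
      ring
    · rw [q_cc_zero _ m _ r hr]
      have h1 : 0 ≤ (∏ i, v i (lab P r i)) / (tot P r : ℝ) :=
        div_nonneg (Finset.prod_nonneg fun i _ => hv0 i _) (Nat.cast_nonneg _)
      have h2 : 0 ≤ (c1 ^ 2 * a ^ 2 * sm ^ 2) * ((∏ i, v i (lab P r i)) / (tot P r : ℝ)) := by
        positivity
      rw [zero_pow two_ne_zero, zero_mul]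
      exact h2
  have hsum : ∑ r, (cc (fun k => (1 : ℝ) / (P k - 1)) (offL m (lamF P F')) r) ^ 2 *
        ∏ k, (if r k = none then 1 else (1 : ℝ) / (P k - 1)) ≤
      (c1 ^ 2 * a ^ 2 * sm ^ 2) * ∏ i, SS P (v i) := by
    calc _ ≤ ∑ r : ι → Option I, (c1 ^ 2 * a ^ 2 * sm ^ 2) * ((∏ i, v i (lab P r i)) / tot P r) :=
          Finset.sum_le_sum fun r _ => hterm r
      _ = (c1 ^ 2 * a ^ 2 * sm ^ 2) * ∑ r : ι → Option I, (∏ i, v i (lab P r i)) / tot P r := by
          rw [Finset.mul_sum]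
      _ ≤ _ := mul_le_mul_of_nonneg_left (sum_prod_le P hPpos v hv0) (by positivity)
  refine hsum.trans ?_
  -- the bounds of the factors
  have hsm1 : sm ≤ κ * SS P (g m) := by
    rw [hsm, hum]
    refine (SS_rho_le P hP hinj (g m) (hg0 m) (hg m) t).trans ?_
    rw [hκ]
    exact mul_le_mul_of_nonneg_right (q_kap_mono P (by omega)) (q_SS_nonneg P (hg0 m))
  have ha1 : a ≤ κ ^ t * ∏ j ∈ S, (SS P (g j) / HH P y) := by
    have h6 : a ≤ ∏ j ∈ S, (κ * (SS P (g j) / HH P y)) := by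
      rw [ha]
      apply Finset.prod_le_prod
      · intro j' _
        exact div_nonneg
          (q_SS_nonneg P fun b => mul_nonneg (hg0 j' b) (pow_nonneg (hrho b) _)) hHH.le
      · intro j' _
        rw [← mul_div_assoc]
        apply div_le_div_of_nonneg_right _ hHH.le
        refine (SS_rho_le P hP hinj (g j') (hg0 j') (hg j') t).trans ?_
        rw [hκ]
        exact mul_le_mul_of_nonneg_right (q_kap_mono P (by omega)) (q_SS_nonneg P (hg0 j'))
    refine h6.trans (le_of_eq ?_)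
    rw [Finset.prod_mul_distrib, Finset.prod_const, ← ht]
  have hv1 : ∏ i, SS P (v i) ≤ κ ^ (K - 1) * ((∏ _j ∈ S, HH P y) *
      ∏ i ∈ univ \ insert m S, SS P (fun b => g i b ^ 2)) := by
    rw [← Finset.mul_prod_erase univ (fun i => SS P (v i)) (mem_univ m)]
    have h1 : SS P (v m) = 1 := by
      have h2 : v m = fun b => if b = 1 then 1 else 0 := by
        rw [hv]
        funext b
        simp
      rw [h2]
      exact q_SS_one P hP
    rw [h1, one_mul]
    have h2 : ∏ i ∈ univ.erase m, SS P (v i) ≤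
        ∏ i ∈ univ.erase m, (κ * SS P (fun b => u i b ^ 2)) := by
      apply Finset.prod_le_prod
      · intro i _
        exact q_SS_nonneg P (hv0 i)
      · intro i hi
        have h3 : v i = fun b => u i b ^ 2 * rho b ^ (2 * t + 2) := by
          rw [hv]
          funext b
          simp only [if_neg (Finset.ne_of_mem_erase hi)]
        rw [h3]
        refine (SS_rho_le P hP hinj (fun b => u i b ^ 2) (fun b => sq_nonneg _) ?_
          (2 * t + 2)).trans ?_
        · intro b b' hbb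
          exact pow_le_pow_left₀ (hu0 i b') (hua i hbb) 2
        · rw [hκ]
          exact mul_le_mul_of_nonneg_right (q_kap_mono P (by omega))
            (q_SS_nonneg P fun b => sq_nonneg _)
    refine h2.trans (le_of_eq ?_)
    rw [Finset.prod_mul_distrib, Finset.prod_const, hcE]
    congr 1
    rw [← Finset.prod_sdiff hSe, mul_comm]
    congr 1
    · apply Finset.prod_congr rfl
      intro i hi
      rw [← q_SS_ind P y]
      congr 1
      funext b
      rw [hu]
      simp only [if_pos hi]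
      split_ifs <;> simp
    · have h4 : univ.erase m \ S = univ \ insert m S := by
        ext i
        simp only [Finset.mem_sdiff, Finset.mem_erase, Finset.mem_univ, Finset.mem_insert,
          and_true, true_and]
        tauto
      rw [h4]
      apply Finset.prod_congr rfl
      intro i hi
      have hi2 : i ∉ S := fun h => (Finset.mem_sdiff.1 hi).2 (Finset.mem_insert_of_mem h)
      congr 1
      funext b
      rw [hu]
      simp only [if_neg hi2]
  have hR0 : 0 ≤ ∏ i ∈ univ \ insert m S, SS P (fun b => g i b ^ 2) :=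
    Finset.prod_nonneg fun i _ => q_SS_nonneg P fun b => sq_nonneg _
  have hQ0 : 0 ≤ ∏ j ∈ S, SS P (g j) ^ 2 / HH P y :=
    Finset.prod_nonneg fun i _ => div_nonneg (sq_nonneg _) hHH.le
  have hq0 : 0 ≤ ∏ j ∈ S, (SS P (g j) / HH P y) :=
    Finset.prod_nonneg fun i _ => div_nonneg (q_SS_nonneg P (hg0 i)) hHH.le
  have hSm0 : 0 ≤ SS P (g m) := q_SS_nonneg P (hg0 m)
  have hvv0 : 0 ≤ ∏ i, SS P (v i) := Finset.prod_nonneg fun i _ => q_SS_nonneg P (hv0 i)
  have hH0 : 0 ≤ ∏ _j ∈ S, HH P y := Finset.prod_nonneg fun i _ => hHH.le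
  calc (c1 ^ 2 * a ^ 2 * sm ^ 2) * ∏ i, SS P (v i)
      ≤ (c2 ^ 2 * (κ ^ t * ∏ j ∈ S, (SS P (g j) / HH P y)) ^ 2 * (κ * SS P (g m)) ^ 2) *
        (κ ^ (K - 1) * ((∏ _j ∈ S, HH P y) *
          ∏ i ∈ univ \ insert m S, SS P (fun b => g i b ^ 2))) := by
        gcongr
    _ = κ ^ (2 * t + 2 + (K - 1)) * (c2 ^ 2 * (SS P (g m) ^ 2 *
        (∏ j ∈ S, SS P (g j) ^ 2 / HH P y) *
          ∏ i ∈ univ \ insert m S, SS P (fun b => g i b ^ 2))) := by
        have h7 : (∏ j ∈ S, (SS P (g j) / HH P y)) ^ 2 * (∏ _j ∈ S, HH P y) =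
            ∏ j ∈ S, SS P (g j) ^ 2 / HH P y := by
          rw [← Finset.prod_pow, ← Finset.prod_mul_distrib]
          apply Finset.prod_congr rfl
          intro j' _
          field_simp
        rw [← h7, pow_add, pow_add, pow_mul']
        ring
    _ ≤ κ ^ (4 * K) * (c2 ^ 2 * (SS P (g m) ^ 2 *
        (∏ j ∈ S, SS P (g j) ^ 2 / HH P y) *
          ∏ i ∈ univ \ insert m S, SS P (fun b => g i b ^ 2))) := by
        apply mul_le_mul_of_nonneg_right _ (by positivity)
        exact pow_le_pow_right₀ hκ1 (by omega)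
    _ = _ := by ring

end Pool.Agent.H21.SH
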