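import Pool.Agent.H21.SH.Qu
import Pool.Agent.H21.SH.Pa
import Pool.Agent.H21.SH.Pb
import Pool.Agent.H21.SH.Gx
import Pool.Agent.H21.MT.AsmC
import Pool.Agent.H21.MT.ErrSum

/-!
[H21 SH ST]  The weights after the Selberg steps at the labels of `S`, and their properties.

Proof.  Compare `Pool/Agent/H21/MT/AsmC.lean`.  `K = |I|`, `s = |S| ≤ K - 1`, `L = log x`,
`y = yy x s ≥ 1`, so `y^s ≤ x^{1/4-2ε}` (`= 1` for `s = 0`), `R' = R0 * y^s ≤ x^{1/4-ε}`; `H = HH P y ≥ 1`
(`par_H2`).  `stepN` (with `g = δ.g x`, `F = δ.F x`, `R = R0 x`, `S`) gives `F'`; `lam' = lamF P F'`.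
(1) For `N ∈ Win x` with `N + h j` prime for all `j ∈ S`: `sig_eq_of_prime`-like argument of `AsmC`: `dv P h d N`
implies that `d` has no label in `S` (`P k ≤ x^{1/4} < √x < N + h j`, so `P k` does not divide this prime), and
then `lam' d = lam d`.
(2), (3), (4): `F' s ≤ (∏_{j∈S} SS(g_j rho^s)/H) ∏_i g.. rho(lab s i)^s`; `SS(g_j rho^s) ≤ kap P s * A_j ≤ 2 (1+L)`
(`SS_rho_le`, `kap ≤ 2` from `par_P2`, `A_j ≤ 1 + L`), `g ≤ 1`, and for `F' s ≠ 0` (so `tot s ≤ R' ≤ x`)
`∏_i rho(lab s i)^s = (∏_{k ∈ supp s} (1+1/P k))^s ≤ (∑_{n ≤ x} 1/n)^s ≤ (1+L)^K` (expanding the product one gets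
`∑ 1/d` over distinct divisors `d ≤ x` of `tot s`; do NOT use `rho_prod_le`, it is too weak here).
So `F' ≤ Λ' = (2(1+L))^K (1+L)^K` and `lam_bound` (level `R'`) gives `|lam'| ≤ Λ' (1+L)^K ≤ (2(1+L))^{3K}`,
`lam' d ≠ 0 → tot d ≤ R' ≤ x^{1/4-ε}`, `∑|lam'| ≤ Λ' R' (1+L)^{2K} ≤ x^{1/4}` for large `x`.
(5) `qm_upper` and `par_P2` (4).
(6) `count_sig` (`w = wN x`, `wN_ap`, `B = 4`): the sum is `≤ (XX/W) mform (1/P) lam' + 4 (∑|lam'|)^2`,
`XX ≤ 120 x`, `mform (1/P) lam' ≤ ∑ F'^2/tot` (`mform_le_sum` in `AsmC`) `≤ 2 ∏_{j∈S} (A_j^2/H) ∏_{i∉S} B_i`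
(`stepN_diag`; `kap P (2K)^{3K} ≤ kap P (2K)^{4K} ≤ 1 + ε ≤ 2` by `par_P2`, `kap ≥ 1`); `B_m ≤ A_m ≤ A_m^2` (`0 ≤ g ≤ 1`,
`A_m ≥ 1`), so this is `≤ 240 (x/W) M0 + 4 x^{1/2}`, and `4 x^{1/2} ≤ 240 (x/W) M0` for large `x` by (7).
(7) `A_i, B_i ≥ 1`, `H ≤ 1 + L`, `s ≤ K`.
-/

set_option linter.unusedSectionVars false

namespace Pool.Agent.H21.SH

open Finset Filter Pool.Agent.H21.MT

section gen

variable {ι I : Type} [Fintype ι] [DecidableEq ι] [Fintype I] [DecidableEq I]

private theorem st_one_le_kap (P : ι → ℕ) (t : ℕ) : 1 ≤ kap P t := by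
  have e1 : (1 : ℝ) = ∏ _k : ι, (1 : ℝ) := by simp
  unfold kap
  refine e1.le.trans ?_
  apply Finset.prod_le_prod
  · intro k _
    exact zero_le_one
  · intro k _
    have h1 : (1 : ℝ) ≤ (1 + 1 / (P k : ℝ)) ^ t := by
      apply one_le_pow₀
      have : (0 : ℝ) ≤ 1 / (P k : ℝ) := by positivity
      linarith
    have h2 : (0 : ℝ) ≤ ((1 + 1 / (P k : ℝ)) ^ t - 1) / P k := by
      apply div_nonneg
      · linarith
      · positivity
    linarith

private theorem st_kap_mono (P : ι → ℕ) {t t' : ℕ} (h : t ≤ t') : kap P t ≤ kap P t' := by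
  unfold kap
  apply Finset.prod_le_prod
  · intro k _
    have h1 : (1 : ℝ) ≤ (1 + 1 / (P k : ℝ)) ^ t := by
      apply one_le_pow₀
      have : (0 : ℝ) ≤ 1 / (P k : ℝ) := by positivity
      linarith
    have h2 : (0 : ℝ) ≤ ((1 + 1 / (P k : ℝ)) ^ t - 1) / P k := by
      apply div_nonneg
      · linarith
      · positivity
    linarith
  · intro k _
    have h1 : (1 + 1 / (P k : ℝ)) ^ t ≤ (1 + 1 / (P k : ℝ)) ^ t' := by
      apply pow_le_pow_right₀ _ h
      have : (0 : ℝ) ≤ 1 / (P k : ℝ) := by positivity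
      linarith
    gcongr

private theorem st_rho_all (P : ι → ℕ) (hP : ∀ k, (P k).Prime) (hinj : Function.Injective P)
    (s : ι → Option I) : ∏ i, rho (lab P s i) ≤ 1 + Real.log (tot P s) := by
  classical
  have hPpos : ∀ k, 0 < P k := fun k => (hP k).pos
  set A : Finset ι := univ.filter (fun k => s k ≠ none) with hA
  have e1 : ∏ i, rho (lab P s i) = ∏ k ∈ A, (1 + 1 / (P k : ℝ)) := by
    rw [Finset.prod_congr rfl (fun i _ => rho_lab P hP hinj s i), Finset.prod_comm, hA,
      Finset.prod_filter]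
    apply Finset.prod_congr rfl
    intro k _
    rcases h : s k with _ | j
    · simp
    · simp
  have e0 : nrm P A = tot P s := by
    unfold nrm tot
    rw [hA, Finset.prod_filter]
    apply Finset.prod_congr rfl
    intro k _
    by_cases h : s k = none
    · simp [h]
    · simp [h]
  have e2 : ∑ T ∈ A.powerset, ∏ k ∈ T, (1 / (P k : ℝ)) =
      ∑ n ∈ A.powerset.image (nrm P), 1 / (n : ℝ) := by
    rw [Finset.sum_image (fun a _ b _ h => errSum_nrm_inj P hP hinj h)]
    apply Finset.sum_congr rfl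
    intro T _
    unfold nrm
    rw [Nat.cast_prod, one_div, ← Finset.prod_inv_distrib]
    apply Finset.prod_congr rfl
    intro k _
    rw [one_div]
  have e3 : A.powerset.image (nrm P) ⊆ Icc 1 (tot P s) := by
    intro n hn
    rw [Finset.mem_image] at hn
    obtain ⟨T, hT, rfl⟩ := hn
    rw [Finset.mem_powerset] at hT
    rw [Finset.mem_Icc]
    constructor
    · exact Finset.prod_pos fun k _ => hPpos k
    · rw [← e0]
      apply Nat.le_of_dvd (Finset.prod_pos fun k _ => hPpos k)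
      exact Finset.prod_dvd_prod_of_subset _ _ _ hT
  rw [e1, Finset.prod_one_add, e2]
  refine (Finset.sum_le_sum_of_subset_of_nonneg e3 (fun i _ _ => by positivity)).trans ?_
  have h := harmonic_le_one_add_log (tot P s)
  rw [harmonic_eq_sum_Icc] at h
  push_cast at h
  simpa [one_div] using h

private theorem st_mform_le_sum (P : ι → ℕ) (hP : ∀ k, (P k).Prime)
    (hK : ∀ k, 2 * Fintype.card I + 1 ≤ P k) (F : (ι → Option I) → ℝ) :
    mform (fun k => (1 : ℝ) / P k) (lamF P F) ≤ ∑ s, (F s) ^ 2 / tot P s := by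
  have hpos : ∀ k, (0 : ℝ) < P k := fun k => by exact_mod_cast (hP k).pos
  have h1 := diag_le (I := I) (fun k => (1 : ℝ) / P k) (fun k => by have := hpos k; positivity)
    (fun k => by
      have h2 := hpos k
      rw [mul_one_div, div_le_one h2]
      have h3 := hK k
      have h4 : Fintype.card I ≤ P k := by omega
      exact_mod_cast h4) (lamF P F)
  refine h1.trans (le_of_eq ?_)
  apply Finset.sum_congr rfl
  intro r _
  rw [cc_lamF P (fun k => (hP k).pos)]
  have e1 : (∏ k, (if r k = none then (1 : ℝ) else 1 / (P k : ℝ))) = 1 / tot P r := by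
    unfold tot
    rw [Nat.cast_prod, one_div, ← Finset.prod_inv_distrib]
    apply Finset.prod_congr rfl
    intro k _
    split_ifs
    · simp
    · simp
  have e2 : (mu r) ^ 2 = 1 := by
    unfold mu
    rw [← Finset.prod_pow]
    apply Finset.prod_eq_one
    intro k _
    split_ifs
    · simp
    · simp
  rw [e1, mul_pow, e2]
  ring

end gen

private theorem st_aux (a u v r : ℝ) (hr : 0 ≤ r) (a1 : r ≤ u) (a2 : 1 ≤ v) (a3 : 1 ≤ a ^ 2) :
    r ≤ a ^ 2 * u * v := by
  have hu : 0 ≤ u := hr.trans a1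
  calc r = 1 * r * 1 := by ring
    _ ≤ a ^ 2 * u * v := by
      apply mul_le_mul _ a2 zero_le_one (by positivity)
      exact mul_le_mul a3 a1 hr (by positivity)

/-- polylog vs power -/
private theorem st_polylog (c : ℝ) (n : ℕ) (a : ℝ) (ha : 0 < a) :
    ∀ᶠ x : ℝ in atTop, c * (1 + Real.log x) ^ n ≤ x ^ a := by
  have h1 := (isLittleO_log_rpow_rpow_atTop (n : ℝ) ha)
  have h2 := h1.bound (show (0 : ℝ) < 1 / (|c| * 2 ^ n + 1) by positivity)
  filter_upwards [h2, eventually_ge_atTop (Real.exp 1), eventually_ge_atTop (1 : ℝ)] with x hx hxe hx1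
  have hl : 1 ≤ Real.log x := by
    rw [Real.le_log_iff_exp_le (by linarith)]
    exact hxe
  rw [Real.rpow_natCast, Real.norm_of_nonneg (by positivity),
    Real.norm_of_nonneg (by positivity)] at hx
  have h3 : c * (1 + Real.log x) ^ n ≤ |c| * (2 * Real.log x) ^ n := by
    have h4 : (1 + Real.log x) ^ n ≤ (2 * Real.log x) ^ n := by
      apply pow_le_pow_left₀ (by linarith)
      linarith
    calc c * (1 + Real.log x) ^ n ≤ |c| * (1 + Real.log x) ^ n := by
          apply mul_le_mul_of_nonneg_right (le_abs_self c)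
          apply pow_nonneg
          linarith
      _ ≤ _ := by
          apply mul_le_mul_of_nonneg_left h4 (abs_nonneg c)
  have h5 : |c| * (2 * Real.log x) ^ n = (|c| * 2 ^ n) * Real.log x ^ n := by
    rw [mul_pow]; ring
  have h6 : (|c| * 2 ^ n) * Real.log x ^ n ≤ (|c| * 2 ^ n) * (1 / (|c| * 2 ^ n + 1) * x ^ a) := by
    apply mul_le_mul_of_nonneg_left hx (by positivity)
  have h7 : (|c| * 2 ^ n) * (1 / (|c| * 2 ^ n + 1) * x ^ a) ≤ x ^ a := by
    have h8 : (0 : ℝ) ≤ x ^ a := by positivity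
    have h9 : (|c| * 2 ^ n) * (1 / (|c| * 2 ^ n + 1) * x ^ a) =
      ((|c| * 2 ^ n) / (|c| * 2 ^ n + 1)) * x ^ a := by ring
    rw [h9]
    apply mul_le_of_le_one_left h8
    rw [div_le_one (by positivity)]
    linarith
  linarith

variable {I : Type} [Fintype I] [DecidableEq I] [Nonempty I] (δ : Dt I)

private theorem st_sig_eq (x : ℝ) (hx : 1 ≤ x) (S : Finset I)
    (lam lam' : (PIdx δ.W (Zx x) → Option I) → ℝ)
    (hlam : ∀ d, (∀ j ∈ S, noL j d) → lam' d = lam d) (N : ℕ) (hN : N ∈ Win x)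
    (hp : ∀ j ∈ S, (N + δ.h j).Prime) : sig (δ.P x) δ.h lam N = sig (δ.P x) δ.h lam' N := by
  unfold sig
  apply Finset.sum_congr rfl
  intro d hd
  rw [Finset.mem_filter] at hd
  symm
  apply hlam
  intro j hj k hk
  have h1 := hd.2 k j hk
  have h2 : δ.P x k = N + δ.h j :=
    (Nat.prime_dvd_prime_iff_eq (Pv_prime _ _ k) (hp j hj)).mp h1
  have h3 : (δ.P x k : ℝ) ≤ x ^ (1 / 4 : ℝ) := par_P4 δ x hx k
  have h4 : x ^ (1 / 4 : ℝ) ≤ Real.sqrt x := by
    rw [Real.sqrt_eq_rpow]
    apply Real.rpow_le_rpow_of_exponent_le hx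
    norm_num
  have h5 : Real.sqrt x < N := by
    unfold Win at hN
    rw [Finset.mem_Ioc] at hN
    exact (Nat.floor_lt (Real.sqrt_nonneg x)).mp hN.1
  rw [h2] at h3
  push_cast at h3
  have h6 : (0 : ℝ) ≤ δ.h j := by positivity
  linarith

theorem step_data (m : I) (S : Finset I) (hm : m ∉ S) : ∀ᶠ x : ℝ in atTop,
    ∃ lam' : (PIdx δ.W (Zx x) → Option I) → ℝ,
      (∀ N ∈ Win x, (∀ j ∈ S, (N + δ.h j).Prime) →
        sig (δ.P x) δ.h (δ.lam x) N = sig (δ.P x) δ.h lam' N) ∧
      (∀ d, |lam' d| ≤ (2 * (1 + Real.log x)) ^ (3 * Fintype.card I)) ∧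
      (∀ d, lam' d ≠ 0 → (tot (δ.P x) d : ℝ) ≤ x ^ (1 / 4 - δ.ε)) ∧
      (∑ d, |lam' d| ≤ x ^ (1 / 4 : ℝ)) ∧
      (mform (fun k => (1 : ℝ) / (δ.P x k - 1)) (offL m lam') ≤ (1 + δ.ε) * δ.M0 x m S) ∧
      (∑ N ∈ δ.WinB x, wN x N * (sig (δ.P x) δ.h lam' N) ^ 2 ≤ 480 * (x / δ.W * δ.M0 x m S)) ∧
      1 ≤ (1 + Real.log x) ^ Fintype.card I * δ.M0 x m S := by
  have hmK : S.card ≤ Fintype.card I := S.card_le_univ
  have hK1 : 1 ≤ Fintype.card I := Fintype.card_pos
  have hW0 : (0 : ℝ) < δ.W := by exact_mod_cast δ.W_pos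
  have hε := δ.eps_pos
  have hε1 := δ.eps_le
  filter_upwards [par_g2 δ, par_AB2 δ, par_H2 δ, wN_ap, wN_mass,
    eventually_ge_atTop (1 : ℝ),
    st_polylog (2 ^ Fintype.card I) (4 * Fintype.card I) δ.ε hε,
    st_polylog δ.W (Fintype.card I) (1 / 2) (by norm_num)] with x hg hAB hH hap hmass hx1 hpl1 hpl2
  obtain ⟨hR1, hg0, hg1, hganti, hg1', hgR⟩ := hg
  obtain ⟨hP1, hP2, hP3, hP4⟩ := par_P2 δ x
  have hPprime : ∀ k, (δ.P x k).Prime := Pv_prime _ _
  have hPinj : Function.Injective (δ.P x) := Pv_inj _ _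
  obtain ⟨hy1, hH1, hH2, -⟩ := hH S.card hmK
  have hx0 : (0 : ℝ) < x := by linarith
  have hlx : 0 ≤ Real.log x := Real.log_nonneg hx1
  obtain ⟨y, hy⟩ : ∃ y : ℝ, y = δ.yy x S.card := ⟨_, rfl⟩
  rw [← hy] at hy1 hH1 hH2
  have hR0 : 0 < δ.R0 x := by linarith
  have hys : y ^ S.card ≤ x ^ (1 / 4 - 2 * δ.ε) := by
    rcases Nat.eq_zero_or_pos S.card with h0 | h0
    · rw [h0, pow_zero]
      exact Real.one_le_rpow hx1 (by linarith)
    · have h1 : max 1 S.card = S.card := max_eq_right h0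
      have h2 : (S.card : ℝ) ≠ 0 := by
        have : S.card ≠ 0 := by omega
        exact_mod_cast this
      rw [hy]
      unfold Dt.yy
      rw [h1, ← Real.rpow_natCast, ← Real.rpow_mul hx0.le, div_mul_cancel₀ _ h2]
  have hyp1 : 1 ≤ y ^ S.card := one_le_pow₀ hy1
  obtain ⟨R', hR'⟩ : ∃ R' : ℝ, R' = δ.R0 x * y ^ S.card := ⟨_, rfl⟩
  have hR'1 : 1 ≤ R' := by
    rw [hR']
    nlinarith
  have hR'le : R' ≤ x ^ (1 / 4 - δ.ε) := by
    rw [hR']
    calc δ.R0 x * y ^ S.card ≤ x ^ δ.ε * x ^ (1 / 4 - 2 * δ.ε) := by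
          unfold Dt.R0
          exact mul_le_mul_of_nonneg_left hys (by positivity)
      _ = x ^ (1 / 4 - δ.ε) := by
          rw [← Real.rpow_add hx0]
          congr 1
          ring
  have hR'x : R' ≤ x := by
    refine hR'le.trans ?_
    calc x ^ (1 / 4 - δ.ε) ≤ x ^ (1 : ℝ) := Real.rpow_le_rpow_of_exponent_le hx1 (by linarith)
      _ = x := Real.rpow_one x
  -- the function F
  have hprod0 : ∀ s : PIdx δ.W (Zx x) → Option I,
      0 ≤ ∏ i, δ.g x i (lab (δ.P x) s i) := fun s => Finset.prod_nonneg fun i _ => hg0 i _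
  have hF0 : ∀ s, 0 ≤ δ.F x s := by
    intro s
    unfold Dt.F FF
    apply mul_nonneg (hprod0 s)
    split_ifs
    · exact zero_le_one
    · exact le_rfl
  have hF : ∀ s, δ.F x s ≤ ∏ i, δ.g x i (lab (δ.P x) s i) := by
    intro s
    unfold Dt.F FF
    apply mul_le_of_le_one_right (hprod0 s)
    split_ifs
    · exact le_rfl
    · exact zero_le_one
  have hFR : ∀ s, δ.F x s ≠ 0 → (tot (δ.P x) s : ℝ) ≤ δ.R0 x := by
    intro s hs
    by_contra hc
    apply hs
    unfold Dt.F FF
    rw [if_neg hc, mul_zero]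
  obtain ⟨F', hF'0, hF'lam, hF'R, hF'le⟩ := stepN (δ.P x) hPprime hPinj (δ.R0 x) y hy1 (δ.g x)
    hg0 (δ.F x) hF0 hF hFR S
  have hdiag := stepN_diag (δ.P x) hPprime hPinj y hy1 (δ.g x) hg0 hganti S F' hF'0 hF'le
  have hqm := qm_upper (δ.P x) hPprime hPinj hP1 y hy1 (δ.g x) hg0 hganti m S hm F' hF'0 hF'le
  rw [← hR'] at hF'R
  have hA : ∀ j, SS (δ.P x) (δ.g x j) = δ.A x j := fun _ => rfl
  have hB : ∀ j, SS (δ.P x) (fun b => δ.g x j b ^ 2) = δ.B x j := fun _ => rfl
  simp only [hA, hB] at hdiag hqm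
  have hA1 : ∀ j, 1 ≤ δ.A x j := fun j => (hAB j).1
  have hB1 : ∀ j, 1 ≤ δ.B x j := fun j => (hAB j).2.1
  have hH0 : 0 < HH (δ.P x) y := by linarith
  -- kap
  have hkap1 := st_one_le_kap (δ.P x) (2 * Fintype.card I)
  have hfac1 : (1 : ℝ) ≤ (∏ k, (1 + (Fintype.card I : ℝ) * (1 + 1 / (δ.P x k : ℝ)) ^ Fintype.card I /
          (δ.P x k * (δ.P x k - 1)))) ^ 2 := by
    apply one_le_pow₀
    have e1 : (1 : ℝ) = ∏ _k : PIdx δ.W (Zx x), (1 : ℝ) := by simp
    refine e1.le.trans ?_
    apply Finset.prod_le_prod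
    · intro k _
      exact zero_le_one
    · intro k _
      have h1 : (2 : ℝ) ≤ δ.P x k := by exact_mod_cast (hPprime k).two_le
      have h2 : (0 : ℝ) ≤ (Fintype.card I : ℝ) * (1 + 1 / (δ.P x k : ℝ)) ^ Fintype.card I /
          (δ.P x k * (δ.P x k - 1)) := by
        apply div_nonneg (by positivity)
        apply mul_nonneg <;> linarith
      linarith
  have hkap4 : kap (δ.P x) (2 * Fintype.card I) ^ (4 * Fintype.card I) ≤ 2 := by
    have h1 : 0 ≤ kap (δ.P x) (2 * Fintype.card I) ^ (4 * Fintype.card I) := by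
      apply pow_nonneg
      linarith
    refine ((le_mul_of_one_le_left h1 hfac1).trans hP4).trans ?_
    linarith
  have hkap3 : kap (δ.P x) (2 * Fintype.card I) ^ (3 * Fintype.card I) ≤ 2 :=
    (pow_le_pow_right₀ hkap1 (by omega)).trans hkap4
  have hkap : kap (δ.P x) S.card ≤ 2 := by
    refine (st_kap_mono (δ.P x) (show S.card ≤ 2 * Fintype.card I by omega)).trans
      (le_trans ?_ hkap4)
    exact le_self_pow₀ hkap1 (by omega)
  -- the pointwise bound
  have hSSg : ∀ j, SS (δ.P x) (fun b => δ.g x j b * rho b ^ S.card) / HH (δ.P x) y ≤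
      2 * (1 + Real.log x) := by
    intro j
    have h1 := SS_rho_le (δ.P x) hPprime hPinj (δ.g x j) (hg0 j) (hganti j) S.card
    rw [hA] at h1
    have h2 : kap (δ.P x) S.card * δ.A x j ≤ 2 * (1 + Real.log x) := by
      apply mul_le_mul hkap (hAB j).2.2.1 _ (by norm_num)
      linarith [(hAB j).1]
    rw [div_le_iff₀ (by linarith)]
    calc _ ≤ 2 * (1 + Real.log x) := h1.trans h2
      _ = 2 * (1 + Real.log x) * 1 := by ring
      _ ≤ 2 * (1 + Real.log x) * HH (δ.P x) y := by
          apply mul_le_mul_of_nonneg_left hH1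
          linarith
  have hSSg0 : ∀ j, 0 ≤ SS (δ.P x) (fun b => δ.g x j b * rho b ^ S.card) / HH (δ.P x) y := by
    intro j
    apply div_nonneg _ (by linarith)
    unfold SS
    apply Finset.sum_nonneg
    intro T _
    apply div_nonneg
    · apply mul_nonneg (hg0 j _)
      apply pow_nonneg
      linarith [one_le_rho (nrm (δ.P x) T)]
    · positivity
  have hL1 : 1 ≤ 2 * (1 + Real.log x) := by linarith
  have hL1' : 1 ≤ 1 + Real.log x := by linarith
  have hL0 : 0 < 1 + Real.log x := by linarith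
  have hF'bd : ∀ s, F' s ≤ (2 * (1 + Real.log x)) ^ Fintype.card I *
      (1 + Real.log x) ^ Fintype.card I := by
    intro s
    by_cases hs : F' s = 0
    · rw [hs]
      positivity
    · refine (hF'le s).trans ?_
      have h1 : (∏ j ∈ S, SS (δ.P x) (fun b => δ.g x j b * rho b ^ S.card) / HH (δ.P x) y) ≤
          (2 * (1 + Real.log x)) ^ Fintype.card I := by
        calc _ ≤ ∏ j ∈ S, (2 * (1 + Real.log x)) :=
              Finset.prod_le_prod (fun j _ => hSSg0 j) (fun j _ => hSSg j)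
          _ = (2 * (1 + Real.log x)) ^ S.card := by rw [Finset.prod_const]
          _ ≤ _ := pow_le_pow_right₀ hL1 hmK
      have h2 : ∏ i, ((if i ∈ S then (if (lab (δ.P x) s i : ℝ) ≤ y then (1 : ℝ) else 0)
          else δ.g x i (lab (δ.P x) s i)) * rho (lab (δ.P x) s i) ^ S.card) ≤
          (1 + Real.log x) ^ Fintype.card I := by
        calc _ ≤ ∏ i, rho (lab (δ.P x) s i) ^ S.card := by
              apply Finset.prod_le_prod
              · intro i _
                apply mul_nonneg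
                · split_ifs
                  · exact zero_le_one
                  · exact le_rfl
                  · exact hg0 i _
                · apply pow_nonneg
                  linarith [one_le_rho (lab (δ.P x) s i)]
              · intro i _
                apply mul_le_of_le_one_left
                · apply pow_nonneg
                  linarith [one_le_rho (lab (δ.P x) s i)]
                · split_ifs
                  · exact le_rfl
                  · exact zero_le_one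
                  · exact hg1 i _
          _ = (∏ i, rho (lab (δ.P x) s i)) ^ S.card := by rw [Finset.prod_pow]
          _ ≤ (1 + Real.log x) ^ S.card := by
              have h3 : 0 ≤ ∏ i, rho (lab (δ.P x) s i) := by
                apply Finset.prod_nonneg
                intro i _
                linarith [one_le_rho (lab (δ.P x) s i)]
              apply pow_le_pow_left₀ h3
              refine (st_rho_all (δ.P x) hPprime hPinj s).trans ?_
              have h4 : (0 : ℝ) < tot (δ.P x) s := by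
                exact_mod_cast tot_pos (fun k => (hPprime k).pos) s
              have h5 := Real.log_le_log h4 ((hF'R s hs).trans hR'x)
              linarith
          _ ≤ _ := pow_le_pow_right₀ hL1' hmK
      apply mul_le_mul h1 h2
      · apply Finset.prod_nonneg
        intro i _
        apply mul_nonneg
        · split_ifs
          · exact zero_le_one
          · exact le_rfl
          · exact hg0 i _
        · apply pow_nonneg
          linarith [one_le_rho (lab (δ.P x) s i)]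
      · apply pow_nonneg
        linarith
  -- the weights
  obtain ⟨hlb1, hlb2, hlb3⟩ := lam_bound (δ.P x) hPprime hPinj R'
    ((2 * (1 + Real.log x)) ^ Fintype.card I * (1 + Real.log x) ^ Fintype.card I) hR'1 F' hF'0
    hF'bd hF'R
  have hlogR : 1 + Real.log R' ≤ 1 + Real.log x := by
    have h2 := Real.log_le_log (by linarith) hR'x
    linarith
  have hlogR0 : 0 ≤ 1 + Real.log R' := by
    have : 0 ≤ Real.log R' := Real.log_nonneg hR'1
    linarith
  have hsum : ∑ d, |lamF (δ.P x) F' d| ≤ x ^ (1 / 4 : ℝ) := by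
    refine hlb3.trans ?_
    have h1 : (1 + Real.log R') ^ (2 * Fintype.card I) ≤
        (1 + Real.log x) ^ (2 * Fintype.card I) := pow_le_pow_left₀ hlogR0 hlogR _
    calc _ ≤ (2 * (1 + Real.log x)) ^ Fintype.card I * (1 + Real.log x) ^ Fintype.card I *
          x ^ (1 / 4 - δ.ε) * (1 + Real.log x) ^ (2 * Fintype.card I) := by
          apply mul_le_mul _ h1 (by positivity) (by positivity)
          exact mul_le_mul_of_nonneg_left hR'le (by positivity)
      _ = (2 ^ Fintype.card I * (1 + Real.log x) ^ (4 * Fintype.card I)) * x ^ (1 / 4 - δ.ε) := by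
          rw [mul_pow, show 4 * Fintype.card I = Fintype.card I + Fintype.card I +
            2 * Fintype.card I by ring, pow_add, pow_add]
          ring
      _ ≤ x ^ δ.ε * x ^ (1 / 4 - δ.ε) := mul_le_mul_of_nonneg_right hpl1 (by positivity)
      _ = x ^ (1 / 4 : ℝ) := by
          rw [← Real.rpow_add hx0]
          congr 1
          ring
  -- the main term
  have hM0 : δ.M0 x m S = δ.A x m ^ 2 * (∏ j ∈ S, δ.A x j ^ 2 / HH (δ.P x) y) *
      ∏ i ∈ univ \ insert m S, δ.B x i := by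
    rw [hy]
    rfl
  have hprodB : 0 ≤ ∏ i ∈ univ \ insert m S, δ.B x i :=
    Finset.prod_nonneg fun i _ => by linarith [hB1 i]
  have hprodA : 0 ≤ ∏ j ∈ S, δ.A x j ^ 2 / HH (δ.P x) y :=
    Finset.prod_nonneg fun j _ => div_nonneg (sq_nonneg _) hH0.le
  have hM0nn : 0 ≤ δ.M0 x m S := by
    rw [hM0]
    exact mul_nonneg (mul_nonneg (sq_nonneg _) hprodA) hprodB
  have h7 : 1 ≤ (1 + Real.log x) ^ Fintype.card I * δ.M0 x m S := by
    have a1 : (1 / (1 + Real.log x)) ^ S.card ≤ ∏ j ∈ S, δ.A x j ^ 2 / HH (δ.P x) y := by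
      rw [← Finset.prod_const]
      apply Finset.prod_le_prod
      · intro j _
        apply div_nonneg zero_le_one
        linarith
      · intro j _
        exact div_le_div₀ (sq_nonneg _) (one_le_pow₀ (hA1 j)) hH0 hH2
    have a2 : (1 : ℝ) ≤ ∏ i ∈ univ \ insert m S, δ.B x i := by
      have e1 : (1 : ℝ) = ∏ _i ∈ univ \ insert m S, (1 : ℝ) := by simp
      refine e1.le.trans ?_
      apply Finset.prod_le_prod
      · intro k _
        exact zero_le_one
      · intro k _
        exact hB1 k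
    have a3 : (1 : ℝ) ≤ δ.A x m ^ 2 := one_le_pow₀ (hA1 m)
    have a4 : (1 / (1 + Real.log x)) ^ S.card ≤ δ.M0 x m S := by
      rw [hM0]
      exact st_aux (δ.A x m) _ _ _ (by positivity) a1 a2 a3
    calc (1 : ℝ) = (1 + Real.log x) ^ S.card * (1 / (1 + Real.log x)) ^ S.card := by
          rw [← mul_pow, mul_one_div, div_self hL0.ne', one_pow]
      _ ≤ (1 + Real.log x) ^ Fintype.card I * δ.M0 x m S := by
          apply mul_le_mul (pow_le_pow_right₀ hL1' hmK) a4 (by positivity) (by positivity)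
  refine ⟨lamF (δ.P x) F', ?_, ?_, ?_, hsum, ?_, ?_, h7⟩
  · intro N hN hp
    exact st_sig_eq δ x hx1 S (δ.lam x) (lamF (δ.P x) F') hF'lam N hN hp
  · intro d
    refine (hlb1 d).trans ?_
    calc _ ≤ (2 * (1 + Real.log x)) ^ Fintype.card I * (2 * (1 + Real.log x)) ^ Fintype.card I *
          (2 * (1 + Real.log x)) ^ Fintype.card I := by
          apply mul_le_mul _ _ (by positivity) (by positivity)
          · apply mul_le_mul_of_nonneg_left _ (by positivity)
            exact pow_le_pow_left₀ hL0.le (by linarith) _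
          · exact pow_le_pow_left₀ hlogR0 (by linarith) _
      _ = _ := by
          rw [← pow_add, ← pow_add]
          congr 1
          ring
  · intro d hd
    exact (hlb2 d hd).trans hR'le
  · refine hqm.trans ?_
    rw [hM0]
    exact mul_le_mul_of_nonneg_right hP4 (mul_nonneg (mul_nonneg (sq_nonneg _) hprodA) hprodB)
  · have hcount := count_sig (δ.P x) hPprime hPinj δ.h (par_diff2 δ x) δ.W δ.b δ.W_pos
      (Pv_not_dvd _ _) (Win x) (wN x) (∑ N ∈ Win x, wN x N) 4 (fun q c hq => hap q c hq)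
      (lamF (δ.P x) F')
    have hmform := st_mform_le_sum (δ.P x) hPprime hP1 F'
    have hXX0 : 0 ≤ ∑ N ∈ Win x, wN x N := Finset.sum_nonneg fun N _ => (wN_pos x N).le
    have hBm : δ.B x m ≤ δ.A x m ^ 2 := by
      have b1 : δ.B x m ≤ δ.A x m := by
        rw [← hA, ← hB]
        unfold SS
        apply Finset.sum_le_sum
        intro T _
        apply div_le_div_of_nonneg_right _ (by positivity)
        have c0 := hg0 m (nrm (δ.P x) T)
        have c1 := hg1 m (nrm (δ.P x) T)
        exact pow_le_of_le_one c0 c1 two_ne_zero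
      exact b1.trans (le_self_pow₀ (hA1 m) two_ne_zero)
    have hQ : ∑ s, (F' s) ^ 2 / tot (δ.P x) s ≤ 2 * δ.M0 x m S := by
      refine hdiag.trans ?_
      have e1 : univ \ S = insert m (univ \ insert m S) := by
        ext i
        simp only [Finset.mem_sdiff, Finset.mem_univ, true_and, Finset.mem_insert, not_or]
        constructor
        · intro h
          by_cases hi : i = m
          · left; exact hi
          · right; exact ⟨hi, h⟩
        · rintro (h | h)
          · rw [h]; exact hm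
          · exact h.2
      have e2 : m ∉ univ \ insert m S := by simp
      rw [e1, Finset.prod_insert e2, hM0]
      calc _ ≤ 2 * (∏ j ∈ S, δ.A x j ^ 2 / HH (δ.P x) y) *
            (δ.A x m ^ 2 * ∏ i ∈ univ \ insert m S, δ.B x i) := by
            apply mul_le_mul _ _ _ (mul_nonneg (by norm_num) hprodA)
            · exact mul_le_mul_of_nonneg_right hkap3 hprodA
            · exact mul_le_mul_of_nonneg_right hBm hprodB
            · apply mul_nonneg _ hprodB
              linarith [hB1 m]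
        _ = _ := by ring
    have hsq : 4 * (∑ d, |lamF (δ.P x) F' d|) ^ 2 ≤ 4 * (x / δ.W * δ.M0 x m S) := by
      have c1 : (∑ d, |lamF (δ.P x) F' d|) ^ 2 ≤ x ^ (1 / 2 : ℝ) := by
        have h0 : 0 ≤ ∑ d, |lamF (δ.P x) F' d| := Finset.sum_nonneg fun d _ => abs_nonneg _
        calc _ ≤ (x ^ (1 / 4 : ℝ)) ^ 2 := pow_le_pow_left₀ h0 hsum 2
          _ = x ^ (1 / 2 : ℝ) := by
              rw [← Real.rpow_natCast, ← Real.rpow_mul hx0.le]
              norm_num
      have c2 : x ^ (1 / 2 : ℝ) ≤ x / δ.W * δ.M0 x m S := by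
        have d1 : x ^ (1 / 2 : ℝ) * x ^ (1 / 2 : ℝ) = x := by
          rw [← Real.rpow_add hx0]
          norm_num
        have d2 : x ^ (1 / 2 : ℝ) * (δ.W * (1 + Real.log x) ^ Fintype.card I) ≤ x := by
          calc _ ≤ x ^ (1 / 2 : ℝ) * x ^ (1 / 2 : ℝ) :=
                mul_le_mul_of_nonneg_left hpl2 (by positivity)
            _ = x := d1
        rw [div_mul_eq_mul_div, le_div_iff₀ hW0]
        calc x ^ (1 / 2 : ℝ) * δ.W = x ^ (1 / 2 : ℝ) * δ.W * 1 := by ring
          _ ≤ x ^ (1 / 2 : ℝ) * δ.W * ((1 + Real.log x) ^ Fintype.card I * δ.M0 x m S) :=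
              mul_le_mul_of_nonneg_left h7 (by positivity)
          _ = (x ^ (1 / 2 : ℝ) * (δ.W * (1 + Real.log x) ^ Fintype.card I)) * δ.M0 x m S := by
              ring
          _ ≤ x * δ.M0 x m S := mul_le_mul_of_nonneg_right d2 hM0nn
      linarith
    have hxW : 0 ≤ x / δ.W * δ.M0 x m S := mul_nonneg (div_nonneg hx0.le hW0.le) hM0nn
    calc ∑ N ∈ δ.WinB x, wN x N * (sig (δ.P x) δ.h (lamF (δ.P x) F') N) ^ 2
        ≤ (∑ N ∈ Win x, wN x N) / δ.W * mform (fun k => (1 : ℝ) / δ.P x k) (lamF (δ.P x) F') +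
            4 * (∑ d, |lamF (δ.P x) F' d|) ^ 2 := by
          have := (abs_le.mp hcount).2
          unfold Dt.WinB
          linarith
      _ ≤ 120 * x / δ.W * (2 * δ.M0 x m S) + 4 * (x / δ.W * δ.M0 x m S) := by
          apply add_le_add _ hsq
          calc _ ≤ (∑ N ∈ Win x, wN x N) / δ.W * (2 * δ.M0 x m S) :=
                mul_le_mul_of_nonneg_left (hmform.trans hQ) (div_nonneg hXX0 hW0.le)
            _ ≤ _ := by
                apply mul_le_mul_of_nonneg_right _ (mul_nonneg (by norm_num) hM0nn)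
                exact div_le_div_of_nonneg_right hmass.2 hW0.le
      _ = 244 * (x / δ.W * δ.M0 x m S) := by ring
      _ ≤ 480 * (x / δ.W * δ.M0 x m S) := by linarith

end Pool.Agent.H21.SH
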